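import Mathlib
import Pool.Agent.Helper431.PN.Base

namespace Pool.Agent.Helper407.PN
open Polynomial Pool.Agent.Helper431.PN

/-- x acts on the commutative family u(f) by multiplication by X -/
structure PairData {G : Type*} [Group G] (x : G) (u : ℤ[X] → G) : Prop where
  add : ∀ f g, u (f + g) = u f * u g
  conj : ∀ f, u f * x = x * u (X * f)
  fin : ∃ N : ℕ, 0 < N ∧ x ^ N = 1

/-- shift matrix with `r`-th power `p` -/
def Pi (p m r : ℕ) : Matrix (Fin r) (Fin r) (ZMod (p ^ m)) :=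
  Matrix.of fun i j => if (j : ℕ) = i + 1 then 1 else
    if (j : ℕ) = 0 ∧ (i : ℕ) + 1 = r then (p : ZMod (p ^ m)) else 0

/-- nilpotent shift -/
def Nil (p m k : ℕ) : Matrix (Fin k) (Fin k) (ZMod (p ^ m)) :=
  Matrix.of fun i j => if (j : ℕ) = i + 1 then 1 else 0

/-- `B ↦ (1+A) B (1+N)` -/
def Top {p m r k : ℕ} (A : Matrix (Fin r) (Fin r) (ZMod (p ^ m))) :
    Module.End (ZMod (p ^ m)) (Matrix (Fin r) (Fin k) (ZMod (p ^ m))) where
  toFun B := (1 + A) * B * (1 + Nil p m k)
  map_add' B C := by rw [Matrix.mul_add (1 + A) B C, Matrix.add_mul]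
  map_smul' c B := by simp [Matrix.mul_smul, Matrix.smul_mul]

/-- conjugation by a unit -/
def Adx {n : ℕ} {R : Type*} [CommRing R] (x : (Matrix (Fin n) (Fin n) R)ˣ) :
    Module.End R (Matrix (Fin n) (Fin n) R) where
  toFun W := (↑x⁻¹ : Matrix (Fin n) (Fin n) R) * W * (x : Matrix (Fin n) (Fin n) R)
  map_add' B C := by rw [Matrix.mul_add _ B C, Matrix.add_mul]
  map_smul' c B := by simp [Matrix.mul_smul, Matrix.smul_mul]

/-- `W ↦ W A - A W` -/
def Del {n : ℕ} {R : Type*} [CommRing R] (A : Matrix (Fin n) (Fin n) R) :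
    Module.End R (Matrix (Fin n) (Fin n) R) where
  toFun W := W * A - A * W
  map_add' B C := by rw [Matrix.mul_add _ B C, Matrix.add_mul]; abel
  map_smul' c B := by simp [Matrix.mul_smul, Matrix.smul_mul, smul_sub]

end Pool.Agent.Helper407.PN
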