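import Mathlib
import Pool.Agent.Helper431.PN.Base
import Pool.Agent.Helper407.PN.Defs

namespace Pool.Agent.Helper407.PN
open Polynomial Pool.Agent.Helper431.PN


variable {G : Type*} [Group G] {x : G} {u : ℤ[X] → G}

theorem PairData.zero (h : PairData x u) : u 0 = 1 := by
  have h1 := h.add 0 0
  rw [add_zero] at h1
  exact (mul_eq_left.mp h1.symm)

theorem PairData.inv (h : PairData x u) (f : ℤ[X]) : (u f)⁻¹ = u (-f) := by
  rw [inv_eq_iff_mul_eq_one, ← h.add, add_neg_cancel, h.zero]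

theorem PairData.conj_pow (h : PairData x u) (f : ℤ[X]) (a : ℕ) :
    u f * x ^ a = x ^ a * u (X ^ a * f) := by
  induction a generalizing f with
  | zero => rw [pow_zero, pow_zero, one_mul, one_mul, mul_one]
  | succ a ih =>
    rw [pow_succ', ← mul_assoc, h.conj, mul_assoc, ih, ← mul_assoc, ← pow_succ', ← mul_assoc,
      ← pow_succ]

theorem PairData.per (h : PairData x u) {N : ℕ} (hN : x ^ N = 1) (f : ℤ[X]) (c : ℕ) :
    u (X ^ (N * c) * f) = u f := by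
  have h1 := h.conj_pow f (N * c)
  rw [pow_mul x N c, hN, one_pow, one_mul, mul_one] at h1
  exact h1.symm

theorem PairData.conj' (h : PairData x u) {N : ℕ} (hN0 : 0 < N) (hN : x ^ N = 1) (f : ℤ[X])
    (c : ℕ) : x ^ c * u f * (x ^ c)⁻¹ = u (X ^ ((N - 1) * c) * f) := by
  rw [mul_inv_eq_iff_eq_mul, h.conj_pow, ← mul_assoc, ← pow_add]
  have : c + (N - 1) * c = N * c := by
    obtain ⟨M, rfl⟩ : ∃ M, N = M + 1 := ⟨N - 1, by omega⟩
    rw [Nat.add_sub_cancel]; ring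
  rw [this, h.per hN]

theorem PairData.nf_mul (h : PairData x u) (a b : ℕ) (f g : ℤ[X]) :
    (x ^ a * u f) * (x ^ b * u g) = x ^ (a + b) * u (X ^ b * f + g) := by
  rw [h.add, ← mul_assoc, mul_assoc (x ^ a), h.conj_pow, pow_add]
  group

theorem PairData.nf_inv (h : PairData x u) {N : ℕ} (hN0 : 0 < N) (hN : x ^ N = 1) {g : G}
    (hg : ∃ (a : ℕ) (f : ℤ[X]), g = x ^ a * u f) : ∃ (a : ℕ) (f : ℤ[X]), g⁻¹ = x ^ a * u f := by
  obtain ⟨a, f, rfl⟩ := hg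
  have h1 : (x ^ a)⁻¹ = x ^ ((N - 1) * a) := by
    rw [inv_eq_iff_mul_eq_one, ← pow_add]
    have : a + (N - 1) * a = N * a := by
      obtain ⟨M, rfl⟩ : ∃ M, N = M + 1 := ⟨N - 1, by omega⟩
      rw [Nat.add_sub_cancel]; ring
    rw [this, pow_mul, hN, one_pow]
  refine ⟨(N - 1) * a, X ^ ((N - 1) * a) * (-f), ?_⟩
  rw [_root_.mul_inv_rev, h.inv, h1, h.conj_pow]

theorem PairData.nf_comm (h : PairData x u) {N : ℕ} (hN0 : 0 < N) (hN : x ^ N = 1) {h1 h2 : G}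
    (hh1 : ∃ (a : ℕ) (f : ℤ[X]), h1 = x ^ a * u f)
    (hh2 : ∃ (a : ℕ) (f : ℤ[X]), h2 = x ^ a * u f) :
    ∃ w : ℤ[X], h1 * h2 * h1⁻¹ * h2⁻¹ = u ((X - 1) * w) := by
  obtain ⟨a, f, rfl⟩ := hh1
  obtain ⟨b, g, rfl⟩ := hh2
  obtain ⟨r, hr⟩ : (X - 1 : ℤ[X]) ∣ X ^ b - 1 := by
    simpa using sub_dvd_pow_sub_pow (X : ℤ[X]) 1 b
  obtain ⟨s, hs⟩ : (X - 1 : ℤ[X]) ∣ X ^ a - 1 := by
    simpa using sub_dvd_pow_sub_pow (X : ℤ[X]) 1 a
  have e1 := h.nf_mul a b f g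
  have e2 := h.nf_mul b a g f
  refine ⟨X ^ ((N - 1) * (a + b)) * (r * f - s * g), ?_⟩
  set A := x ^ a * u f
  set B := x ^ b * u g
  have e3 : A * B * A⁻¹ * B⁻¹ = (A * B) * (B * A)⁻¹ := by group
  rw [e3, e1, e2, _root_.mul_inv_rev, add_comm b a]
  have e4 : x ^ (a + b) * u (X ^ b * f + g) * ((u (X ^ a * g + f))⁻¹ * (x ^ (a + b))⁻¹) =
      x ^ (a + b) * (u (X ^ b * f + g) * (u (X ^ a * g + f))⁻¹) * (x ^ (a + b))⁻¹ := by group
  rw [e4, h.inv, ← h.add, h.conj' hN0 hN]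
  congr 1
  have e5 : X ^ b * f + g + -(X ^ a * g + f) = (X ^ b - 1) * f - (X ^ a - 1) * g := by ring
  rw [e5, hr, hs]
  ring

theorem PairData.nf_mem (h : PairData x u) {N : ℕ} (hN0 : 0 < N) (hN : x ^ N = 1) (g : G)
    (hg : g ∈ Subgroup.closure ({x, u 1} : Set G)) : ∃ (a : ℕ) (f : ℤ[X]), g = x ^ a * u f := by
  induction hg using Subgroup.closure_induction with
  | mem z hz =>
    rcases hz with rfl | hz
    · exact ⟨1, 0, by rw [h.zero, mul_one, pow_one]⟩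
    · rw [Set.mem_singleton_iff] at hz
      subst hz
      exact ⟨0, 1, by rw [pow_zero, one_mul]⟩
  | one => exact ⟨0, 0, by rw [h.zero, mul_one, pow_zero]⟩
  | mul a b _ _ iha ihb =>
    obtain ⟨a1, f1, h1⟩ := iha
    obtain ⟨a2, f2, h2⟩ := ihb
    exact ⟨a1 + a2, X ^ a2 * f1 + f2, by rw [← h.nf_mul, ← h1, ← h2]⟩
  | inv a _ iha => exact h.nf_inv hN0 hN iha

theorem PairData.comm_mem (h : PairData x u) (c : G)
    (hc : c ∈ ⁅Subgroup.closure ({x, u 1} : Set G), Subgroup.closure ({x, u 1} : Set G)⁆) :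
    ∃ w : ℤ[X], c = u ((X - 1) * w) := by
  obtain ⟨N, hN0, hN⟩ := h.fin
  let B : Subgroup G :=
    { carrier := {g | ∃ w : ℤ[X], g = u ((X - 1) * w)}
      one_mem' := ⟨0, by rw [mul_zero, h.zero]⟩
      mul_mem' := by
        rintro a b ⟨w1, h1⟩ ⟨w2, h2⟩
        exact ⟨w1 + w2, by rw [mul_add, h.add, ← h1, ← h2]⟩
      inv_mem' := by
        rintro a ⟨w, h1⟩
        exact ⟨-w, by rw [mul_neg, ← h.inv, ← h1]⟩ }
  have hcom : ⁅Subgroup.closure ({x, u 1} : Set G), Subgroup.closure ({x, u 1} : Set G)⁆ ≤ B := by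
    rw [Subgroup.commutator_le]
    intro g1 h1 g2 h2
    obtain ⟨w, hw⟩ := h.nf_comm hN0 hN (h.nf_mem hN0 hN g1 h1) (h.nf_mem hN0 hN g2 h2)
    exact ⟨w, hw⟩
  exact hcom hc

theorem PairData.geom (h : PairData x u) (l : ℕ) :
    (x * u 1) ^ l = x ^ l * u (∑ i ∈ Finset.range l, X ^ i) := by
  induction l with
  | zero => rw [pow_zero, pow_zero, Finset.range_zero, Finset.sum_empty, h.zero, one_mul]
  | succ l ih =>
    rw [pow_succ, ih]
    have := h.nf_mul l 1 (∑ i ∈ Finset.range l, X ^ i) 1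
    rw [pow_one, pow_one] at this
    rw [this, geom_sum_succ]

theorem PairData.upow (h : PairData x u) (f : ℤ[X]) (l : ℕ) :
    u f ^ l = u ((l : ℤ[X]) * f) := by
  induction l with
  | zero => rw [pow_zero, Nat.cast_zero, zero_mul, h.zero]
  | succ l ih =>
    rw [pow_succ, ih, ← h.add]
    congr 1
    push_cast
    ring

theorem PairData.good {p : ℕ} (h : PairData x u) (hg : GoodPair p x (u 1)) :
    ∃ F : ℤ[X], u ((∑ i ∈ Finset.range p, X ^ i) - (p : ℤ[X]) - (p : ℤ[X]) * ((X - 1) * F)) = 1 := by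
  obtain ⟨l, hl, heq⟩ := hg
  have hprod : ∀ l : List G, (∀ c ∈ l, ∃ w : ℤ[X], c = u ((X - 1) * w)) → ∃ F : ℤ[X],
      (l.map (fun c => c ^ p)).prod = u ((p : ℤ[X]) * ((X - 1) * F)) := by
    intro l
    induction l with
    | nil =>
      intro _
      exact ⟨0, by rw [mul_zero, mul_zero, h.zero]; rfl⟩
    | cons c l ih =>
      intro hcl
      obtain ⟨F, hF⟩ := ih fun c' hc' => hcl c' (List.mem_cons_of_mem _ hc')
      obtain ⟨w, hw⟩ := hcl c List.mem_cons_self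
      refine ⟨w + F, ?_⟩
      rw [List.map_cons, List.prod_cons, hF, hw, h.upow, ← h.add]
      congr 1
      ring
  obtain ⟨F, hF⟩ := hprod l fun c hc => h.comm_mem c (hl c hc)
  rw [hF, h.geom, h.upow, mul_assoc, ← h.add, mul_right_inj, mul_one] at heq
  refine ⟨F, ?_⟩
  have h1 : ((∑ i ∈ Finset.range p, X ^ i) - (p : ℤ[X]) - (p : ℤ[X]) * ((X - 1) * F)) =
      (∑ i ∈ Finset.range p, X ^ i) + -((p : ℤ[X]) + (p : ℤ[X]) * ((X - 1) * F)) := by ring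
  rw [h1, h.add, heq, ← h.add, add_neg_cancel, h.zero]

end Pool.Agent.Helper407.PN
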