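import Mathlib
import Pool.Agent.Helper431.PN.Base
import Pool.Agent.Helper431.PN.M5a
import Pool.Agent.Helper407.PN.Defs

namespace Pool.Agent.Helper407.PN
open Polynomial Pool.Agent.Helper431.PN





theorem ad_form {n : ℕ} {R : Type*} [CommRing R] (x : (Matrix (Fin n) (Fin n) R)ˣ)
    (V : Matrix (Fin n) (Fin n) R) (q : R) (hq : q * q = 0) (f g : ℤ[X]) :
    (1 + q • ((aeval (Adx x) f) V)) * (1 + q • ((aeval (Adx x) g) V)) =
      1 + q • ((aeval (Adx x) (f + g)) V) := by
  have h1 : (q • ((aeval (Adx x) f) V)) * (q • ((aeval (Adx x) g) V)) = 0 := by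
    rw [Matrix.smul_mul, Matrix.mul_smul, smul_smul, hq, zero_smul]
  have h2 : (1 + q • ((aeval (Adx x) f) V)) * (1 + q • ((aeval (Adx x) g) V)) =
      1 + q • ((aeval (Adx x) f) V) + q • ((aeval (Adx x) g) V) +
        (q • ((aeval (Adx x) f) V)) * (q • ((aeval (Adx x) g) V)) := by
    generalize q • ((aeval (Adx x) f) V) = A
    generalize q • ((aeval (Adx x) g) V) = B
    noncomm_ring
  rw [h2, h1, map_add, LinearMap.add_apply, smul_add, add_zero, add_assoc]

/-- the unit of a polynomial -/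
noncomputable def ad_u {n : ℕ} {R : Type*} [CommRing R] (x : (Matrix (Fin n) (Fin n) R)ˣ)
    (V : Matrix (Fin n) (Fin n) R) (q : R) (hq : q * q = 0) (f : ℤ[X]) :
    (Matrix (Fin n) (Fin n) R)ˣ where
  val := 1 + q • ((aeval (Adx x) f) V)
  inv := 1 + q • ((aeval (Adx x) (-f)) V)
  val_inv := by
    rw [ad_form x V q hq, add_neg_cancel, map_zero, LinearMap.zero_apply, smul_zero, add_zero]
  inv_val := by
    rw [ad_form x V q hq, neg_add_cancel, map_zero, LinearMap.zero_apply, smul_zero, add_zero]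

/-- TARGET 1 -/
theorem ad_data {n : ℕ} {R : Type*} [CommRing R] [Finite R] (x : (Matrix (Fin n) (Fin n) R)ˣ)
    (V : Matrix (Fin n) (Fin n) R) (q : R) (hq : q * q = 0) :
    ∃ u : ℤ[X] → (Matrix (Fin n) (Fin n) R)ˣ, PairData x u ∧
      ∀ f : ℤ[X], ((u f : (Matrix (Fin n) (Fin n) R)ˣ) : Matrix (Fin n) (Fin n) R) =
        1 + q • ((aeval (Adx x) f) V) := by
  refine ⟨ad_u x V q hq, ⟨?_, ?_, ?_⟩, fun f => rfl⟩
  · intro f g
    exact Units.ext (ad_form x V q hq f g).symm
  · intro f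
    apply Units.ext
    change (1 + q • ((aeval (Adx x) f) V)) * (x : Matrix (Fin n) (Fin n) R) =
      (x : Matrix (Fin n) (Fin n) R) * (1 + q • ((aeval (Adx x) (X * f)) V))
    have h1 : (aeval (Adx x) (X * f)) V = (↑x⁻¹ : Matrix (Fin n) (Fin n) R) *
        ((aeval (Adx x) f) V) * (x : Matrix (Fin n) (Fin n) R) := by
      rw [map_mul, aeval_X]
      rfl
    rw [h1, add_mul, mul_add, one_mul, mul_one, Matrix.smul_mul, Matrix.mul_smul, ← mul_assoc,
      ← mul_assoc, Units.mul_inv, one_mul]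
  · haveI : Finite (Matrix (Fin n) (Fin n) R)ˣ := inferInstance
    exact ⟨orderOf x, orderOf_pos x, pow_orderOf_eq_one x⟩


end Pool.Agent.Helper407.PN
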