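import Mathlib
import Pool.Agent.Helper431.PN.Base
import Pool.Agent.Helper431.PN.M5a
import Pool.Agent.Helper407.PN.Defs
import Pool.Agent.Helper407.PN.Ad1

namespace Pool.Agent.Helper407.PN
open Polynomial Pool.Agent.Helper431.PN





/-- TARGET 2: the product of an alternating pair, with remainder independent of the sign -/
theorem geom3 {n : ℕ} {R : Type*} [CommRing R] (x : (Matrix (Fin n) (Fin n) R)ˣ)
    (V : Matrix (Fin n) (Fin n) R) (q : R) (hq : q * q * q = 0) (l : ℕ) :
    ∃ Q : Matrix (Fin n) (Fin n) R, ∀ e : R, e * e = 1 →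
      ((x : Matrix (Fin n) (Fin n) R) * (1 + (e * q) • V)) ^ l =
        (x : Matrix (Fin n) (Fin n) R) ^ l * (1 + (e * q) •
          ((aeval (Adx x) (∑ i ∈ Finset.range l, (X : ℤ[X]) ^ i)) V) + (q * q) • Q) := by
  have hT : ∀ C : Matrix (Fin n) (Fin n) R, C * (x : Matrix (Fin n) (Fin n) R) =
      (x : Matrix (Fin n) (Fin n) R) * (Adx x C) := by
    intro C
    show C * (x : Matrix (Fin n) (Fin n) R) = (x : Matrix (Fin n) (Fin n) R) *
      ((↑x⁻¹ : Matrix (Fin n) (Fin n) R) * C * (x : Matrix (Fin n) (Fin n) R))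
    rw [mul_assoc (↑x⁻¹ : Matrix (Fin n) (Fin n) R), ← mul_assoc, Units.mul_inv, one_mul]
  induction l with
  | zero =>
    refine ⟨0, fun e he => ?_⟩
    simp
  | succ l ih =>
    obtain ⟨Q, hQ⟩ := ih
    have hS : (aeval (Adx x) (∑ i ∈ Finset.range (l + 1), (X : ℤ[X]) ^ i)) V =
        Adx x ((aeval (Adx x) (∑ i ∈ Finset.range l, (X : ℤ[X]) ^ i)) V) + V := by
      rw [geom_sum_succ, map_add, map_mul, aeval_X, map_one]
      rfl
    set S := (aeval (Adx x) (∑ i ∈ Finset.range l, (X : ℤ[X]) ^ i)) V with hSdef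
    refine ⟨Adx x Q + Adx x S * V, fun e he => ?_⟩
    rw [hS, pow_succ, hQ e he, pow_succ]
    have h1 : (1 + (e * q) • S + (q * q) • Q) * (x : Matrix (Fin n) (Fin n) R) =
        (x : Matrix (Fin n) (Fin n) R) * (1 + (e * q) • Adx x S + (q * q) • Adx x Q) := by
      rw [add_mul, add_mul, mul_add, mul_add, smul_mul_assoc, smul_mul_assoc, mul_smul_comm,
        mul_smul_comm, hT S, hT Q, one_mul, mul_one]
    have h2 : (1 + (e * q) • Adx x S + (q * q) • Adx x Q) * (1 + (e * q) • V) =
        1 + (e * q) • (Adx x S + V) + (q * q) • (Adx x Q + Adx x S * V) := by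
      have e1 : (e * q) * (e * q) = q * q := by
        calc (e * q) * (e * q) = (e * e) * (q * q) := by ring
          _ = q * q := by rw [he, one_mul]
      have e2 : (q * q) * (e * q) = 0 := by
        calc (q * q) * (e * q) = e * (q * q * q) := by ring
          _ = 0 := by rw [hq, mul_zero]
      rw [add_mul, add_mul, mul_add, mul_add, mul_add, smul_mul_smul_comm, smul_mul_smul_comm,
        e1, e2, zero_smul, add_zero, one_mul, mul_one, mul_one, one_mul, smul_add, smul_add]
      abel
    calc (x : Matrix (Fin n) (Fin n) R) ^ l * (1 + (e * q) • S + (q * q) • Q) *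
          ((x : Matrix (Fin n) (Fin n) R) * (1 + (e * q) • V))
        = (x : Matrix (Fin n) (Fin n) R) ^ l *
          ((1 + (e * q) • S + (q * q) • Q) * (x : Matrix (Fin n) (Fin n) R)) *
            (1 + (e * q) • V) := by simp only [mul_assoc]
      _ = (x : Matrix (Fin n) (Fin n) R) ^ l * (x : Matrix (Fin n) (Fin n) R) *
          ((1 + (e * q) • Adx x S + (q * q) • Adx x Q) * (1 + (e * q) • V)) := by
          rw [h1]
          simp only [mul_assoc]
      _ = _ := by rw [h2]


end Pool.Agent.Helper407.PN
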