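import Mathlib
import Pool.Agent.Helper431.PN.Base
import Pool.Agent.Helper431.PN.M5a
import Pool.Agent.Helper407.PN.Defs
import Pool.Agent.Helper407.PN.Ad1
import Pool.Agent.Helper407.PN.Ad2

namespace Pool.Agent.Helper407.PN
open Polynomial Pool.Agent.Helper431.PN





/-- TARGET 3 -/
theorem pow_one_add {n p : ℕ} (hp : p.Prime) (hp2 : p ≠ 2)
    (W : Matrix (Fin n) (Fin n) (ZMod (p ^ 3))) :
    (1 + (p : ZMod (p ^ 3)) • W) ^ p = 1 + ((p : ZMod (p ^ 3)) * p) • W := by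
  have hp3 : 3 ≤ p := by
    have := hp.two_le
    omega
  obtain ⟨t, rfl⟩ : ∃ t, p = t + 2 := ⟨p - 2, by omega⟩
  have hc : Commute (((t + 2 : ℕ) : ZMod ((t + 2) ^ 3)) • W)
      (1 : Matrix (Fin n) (Fin n) (ZMod ((t + 2) ^ 3))) := Commute.one_right _
  rw [add_comm (1 : Matrix (Fin n) (Fin n) (ZMod ((t + 2) ^ 3))), hc.add_pow, Finset.sum_range_succ', Finset.sum_range_succ']
  have hz : ∀ m ∈ Finset.range (t + 1),
      ((((t + 2 : ℕ) : ZMod ((t + 2) ^ 3)) • W) ^ (m + 1 + 1) * 1 ^ (t + 2 - (m + 1 + 1)) *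
        (((t + 2).choose (m + 1 + 1) : ℕ) : Matrix (Fin n) (Fin n) (ZMod ((t + 2) ^ 3)))) = 0 := by
    intro m _
    have h1 : (((t + 2 : ℕ) : ZMod ((t + 2) ^ 3))) ^ (m + 1 + 1) *
        (((t + 2).choose (m + 1 + 1) : ℕ) : ZMod ((t + 2) ^ 3)) = 0 := by
      rw [← Nat.cast_pow, ← Nat.cast_mul, ZMod.natCast_eq_zero_iff]
      rcases m with _ | m
      · rw [show 3 = (0 + 1 + 1) + 1 from rfl, pow_succ]
        refine Nat.mul_dvd_mul (dvd_refl _) (hp.dvd_choose_self (by omega) (by omega))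
      · exact Dvd.dvd.mul_right (pow_dvd_pow _ (by omega)) _
    rw [one_pow, mul_one, _root_.smul_pow]
    have h2 : (((t + 2).choose (m + 1 + 1) : ℕ) : Matrix (Fin n) (Fin n) (ZMod ((t + 2) ^ 3))) =
      (((t + 2).choose (m + 1 + 1) : ℕ) : ZMod ((t + 2) ^ 3)) •
        (1 : Matrix (Fin n) (Fin n) (ZMod ((t + 2) ^ 3))) := by
      rw [Nat.cast_smul_eq_nsmul, nsmul_one]
    rw [h2, smul_mul_smul_comm, h1, zero_smul]
  rw [Finset.sum_eq_zero hz]
  have h3 : (((t + 2).choose 1 : ℕ) : Matrix (Fin n) (Fin n) (ZMod ((t + 2) ^ 3))) =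
      (((t + 2) : ℕ) : ZMod ((t + 2) ^ 3)) •
        (1 : Matrix (Fin n) (Fin n) (ZMod ((t + 2) ^ 3))) := by
    rw [Nat.choose_one_right, Nat.cast_smul_eq_nsmul, nsmul_one]
  simp only [zero_add, pow_one, one_pow, mul_one, pow_zero, Nat.choose_zero_right, Nat.cast_one]
  rw [h3, smul_mul_smul_comm, mul_one, add_comm (1 : Matrix (Fin n) (Fin n) (ZMod ((t + 2) ^ 3)))]


end Pool.Agent.Helper407.PN
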