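import Mathlib
import Pool.Agent.Helper431.PN.Base
import Pool.Agent.Helper431.PN.M5a
import Pool.Agent.Helper407.PN.Defs
import Pool.Agent.Helper407.PN.Ad1
import Pool.Agent.Helper407.PN.Ad2
import Pool.Agent.Helper407.PN.Ad3

namespace Pool.Agent.Helper407.PN
open Polynomial Pool.Agent.Helper431.PN





/-- TARGET 4 -/
theorem good_coe {p : ℕ} {G : Type*} [Group G] (H : Subgroup G) (x y : H)
    (h : GoodPair p x y) : GoodPair p (x : G) (y : G) := by
  obtain ⟨l, hl, he⟩ := h
  have hmap : Subgroup.map H.subtype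
      ⁅Subgroup.closure ({x, y} : Set H), Subgroup.closure ({x, y} : Set H)⁆ =
      ⁅Subgroup.closure ({(x : G), (y : G)} : Set G),
        Subgroup.closure ({(x : G), (y : G)} : Set G)⁆ := by
    rw [Subgroup.map_commutator, MonoidHom.map_closure, Set.image_pair]
    rfl
  refine ⟨l.map (fun c : H => (c : G)), ?_, ?_⟩
  · intro c hc
    rw [List.mem_map] at hc
    obtain ⟨d, hd, rfl⟩ := hc
    rw [← hmap]
    exact ⟨d, hl d hd, rfl⟩
  · have h2 := congrArg (H.subtype) he
    rw [map_mul, map_mul, map_pow, map_pow, map_pow, map_mul, map_list_prod, List.map_map] at h2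
    rw [List.map_map]
    exact h2

end Pool.Agent.Helper407.PN
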