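import Mathlib
import Pool.Agent.Helper407.PN.Defs

namespace Pool.Agent.Helper407.PN

/-- TARGET -/
theorem binom_basis (t : ℕ) (a : ℕ → ℤ) :
    ∃ γ : ℕ → ℤ, ∀ j : ℕ, ∏ q ∈ Finset.range t, ((j : ℤ) - a q) =
      ∑ b ∈ Finset.range (t + 1), γ b * (j.choose b : ℤ) := by
  induction t with
  | zero => exact ⟨fun _ => 1, fun j => by simp⟩
  | succ t ih =>
    obtain ⟨γ, hγ⟩ := ih
    refine ⟨fun b => (b : ℤ) * γ (b - 1) + (if b ≤ t then ((b : ℤ) - a t) * γ b else 0), ?_⟩
    intro j
    have key : ∀ b : ℕ, ((j : ℤ) - a t) * (j.choose b : ℤ) =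
        ((b : ℤ) + 1) * (j.choose (b + 1) : ℤ) + ((b : ℤ) - a t) * (j.choose b : ℤ) := by
      intro b
      have h1 := Nat.choose_succ_right_eq j b
      rcases le_or_gt b j with hb | hb
      · have h2 : (j.choose (b + 1) : ℤ) * ((b : ℤ) + 1) = (j.choose b : ℤ) * ((j : ℤ) - b) := by
          rw [← Nat.cast_sub hb]
          exact_mod_cast h1
        linear_combination -h2
      · rw [Nat.choose_eq_zero_of_lt hb, Nat.choose_eq_zero_of_lt (by omega : j < b + 1)]
        simp
    rw [Finset.prod_range_succ, hγ j, Finset.sum_mul]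
    have e1 : ∑ b ∈ Finset.range (t + 1), γ b * (j.choose b : ℤ) * ((j : ℤ) - a t) =
        ∑ b ∈ Finset.range (t + 1), (((b : ℤ) + 1) * γ b * (j.choose (b + 1) : ℤ)) +
        ∑ b ∈ Finset.range (t + 1), ((b : ℤ) - a t) * γ b * (j.choose b : ℤ) := by
      rw [← Finset.sum_add_distrib]
      refine Finset.sum_congr rfl fun b _ => ?_
      have := key b
      linear_combination (γ b) * this
    rw [e1]
    have e2 : ∑ b ∈ Finset.range (t + 1 + 1), ((b : ℤ) * γ (b - 1)) * (j.choose b : ℤ) =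
        ∑ b ∈ Finset.range (t + 1), (((b : ℤ) + 1) * γ b * (j.choose (b + 1) : ℤ)) := by
      rw [Finset.sum_range_succ']
      simp
    have e3 : ∑ b ∈ Finset.range (t + 1 + 1),
        (if b ≤ t then ((b : ℤ) - a t) * γ b else 0) * (j.choose b : ℤ) =
        ∑ b ∈ Finset.range (t + 1), ((b : ℤ) - a t) * γ b * (j.choose b : ℤ) := by
      rw [Finset.sum_range_succ, if_neg (by omega), zero_mul, add_zero]
      refine Finset.sum_congr rfl fun b hb => ?_
      rw [if_pos (by rw [Finset.mem_range] at hb; omega)]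
    rw [← e2, ← e3, ← Finset.sum_add_distrib]
    refine Finset.sum_congr rfl fun b _ => ?_
    ring

end Pool.Agent.Helper407.PN
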