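import Mathlib
import Pool.Agent.Helper407.PN.Defs

namespace Pool.Agent.Helper407.PN



theorem D_step407 {p m r k : ℕ} (A : Matrix (Fin r) (Fin r) (ZMod (p ^ m)))
    (B : Matrix (Fin r) (Fin k) (ZMod (p ^ m))) :
    (Top A - 1 : Module.End (ZMod (p ^ m)) (Matrix (Fin r) (Fin k) (ZMod (p ^ m)))) B =
      A * B + (1 + A) * B * Nil p m k := by
  show (1 + A) * B * (1 + Nil p m k) - B = A * B + (1 + A) * B * Nil p m k
  rw [Matrix.mul_add, Matrix.mul_one, Matrix.add_mul 1 A B, Matrix.one_mul]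
  abel

theorem mulNil_zero407 {p m r k : ℕ} (M : Matrix (Fin r) (Fin k) (ZMod (p ^ m))) (i : Fin r)
    (b : Fin k) (hb : (b : ℕ) = 0) : (M * Nil p m k) i b = 0 := by
  rw [Matrix.mul_apply]
  apply Finset.sum_eq_zero
  intro c _
  have : (Nil p m k) c b = 0 := by
    show (if (b : ℕ) = c + 1 then (1 : ZMod (p ^ m)) else 0) = 0
    rw [if_neg (by omega)]
  rw [this, mul_zero]

theorem mulNil_succ407 {p m r k : ℕ} (M : Matrix (Fin r) (Fin k) (ZMod (p ^ m))) (i : Fin r)
    (b c : Fin k) (hb : (b : ℕ) = c + 1) : (M * Nil p m k) i b = M i c := by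
  rw [Matrix.mul_apply, Finset.sum_eq_single c]
  · have : (Nil p m k) c b = 1 := by
      show (if (b : ℕ) = c + 1 then (1 : ZMod (p ^ m)) else 0) = 1
      rw [if_pos hb]
    rw [this, mul_one]
  · intro d _ hd
    have : (Nil p m k) d b = 0 := by
      show (if (b : ℕ) = d + 1 then (1 : ZMod (p ^ m)) else 0) = 0
      rw [if_neg]
      intro h
      apply hd
      apply Fin.ext
      omega
    rw [this, mul_zero]
  · intro h
    exact absurd (Finset.mem_univ _) h

/-- TARGET: columns of `(T-1)^j B0`, `B0` the matrix unit in row `a`, column `0`. -/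
theorem D_col {p m r k : ℕ} (A : Matrix (Fin r) (Fin r) (ZMod (p ^ m))) (a : Fin r) (hk : 0 < k)
    (j : ℕ) (i : Fin r) (b : Fin k) :
    (((Top A - 1) ^ j : Module.End (ZMod (p ^ m)) (Matrix (Fin r) (Fin k) (ZMod (p ^ m))))
      (Matrix.single a ⟨0, hk⟩ 1)) i b =
      (j.choose b : ZMod (p ^ m)) * (A ^ (j - b) * (1 + A) ^ (b : ℕ)) i a := by
  induction j generalizing i b with
  | zero =>
    rw [pow_zero]
    show (Matrix.single a (⟨0, hk⟩ : Fin k) (1 : ZMod (p ^ m))) i b = _
    by_cases hb : (b : ℕ) = 0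
    · have hb' : b = ⟨0, hk⟩ := Fin.ext hb
      subst hb'
      by_cases hi : a = i
      · subst hi
        simp
      · have hi' : i ≠ a := fun h => hi h.symm
        simp [Matrix.single_apply, hi, Matrix.one_apply, hi']
    · have hb' : (⟨0, hk⟩ : Fin k) ≠ b := by
        intro h
        apply hb
        rw [← h]
      rw [Nat.choose_eq_zero_of_lt (Nat.pos_of_ne_zero hb)]
      simp [Matrix.single_apply, hb']
  | succ j ih =>
    set D : Matrix (Fin r) (Fin k) (ZMod (p ^ m)) :=
      (((Top A - 1) ^ j : Module.End (ZMod (p ^ m)) (Matrix (Fin r) (Fin k) (ZMod (p ^ m))))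
        (Matrix.single a ⟨0, hk⟩ 1)) with hD
    have hcol : ∀ (P : Matrix (Fin r) (Fin r) (ZMod (p ^ m))) (i : Fin r) (b : Fin k),
        (P * D) i b = (j.choose b : ZMod (p ^ m)) * (P * (A ^ (j - b) * (1 + A) ^ (b : ℕ))) i a := by
      intro P i b
      rw [Matrix.mul_apply, Matrix.mul_apply, Finset.mul_sum]
      apply Finset.sum_congr rfl
      intro c _
      rw [ih c b]
      ring
    have hstep : (((Top A - 1) ^ (j + 1) :
        Module.End (ZMod (p ^ m)) (Matrix (Fin r) (Fin k) (ZMod (p ^ m))))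
        (Matrix.single a ⟨0, hk⟩ 1)) = A * D + (1 + A) * D * Nil p m k := by
      rw [pow_succ', Module.End.mul_apply, D_step407]
    rw [hstep, Matrix.add_apply, hcol A i b]
    rcases Nat.eq_zero_or_pos (b : ℕ) with hb | hb
    · rw [mulNil_zero407 _ _ _ hb, hb]
      simp only [Nat.choose_zero_right, Nat.sub_zero, pow_zero, mul_one, add_zero, pow_succ']
    · obtain ⟨c, hc⟩ : ∃ c : Fin k, (b : ℕ) = c + 1 :=
        ⟨⟨(b : ℕ) - 1, by omega⟩, by simp only; omega⟩
      rw [mulNil_succ407 _ _ _ _ hc, hcol (1 + A) i c, hc, Nat.choose_succ_succ']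
      have hcomm : (1 + A) * (A ^ (j - c) * (1 + A) ^ (c : ℕ)) =
          A ^ (j - c) * (1 + A) ^ ((c : ℕ) + 1) := by
        have h1 : Commute (1 + A) (A ^ (j - c)) :=
          ((Commute.one_left A).add_left (Commute.refl A)).pow_right _
        rw [← mul_assoc, h1.eq, mul_assoc, ← pow_succ']
      rw [hcomm, Nat.add_sub_add_right]
      by_cases hcj : (c : ℕ) + 1 ≤ j
      · have h2 : A * (A ^ (j - (c + 1)) * (1 + A) ^ ((c : ℕ) + 1)) =
            A ^ (j - c) * (1 + A) ^ ((c : ℕ) + 1) := by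
          rw [← mul_assoc, ← pow_succ']
          congr 2
          omega
        rw [h2]
        push_cast
        ring
      · rw [Nat.choose_eq_zero_of_lt (not_le.mp hcj)]
        push_cast
        ring

end Pool.Agent.Helper407.PN
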