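import Mathlib
import Pool.Agent.Helper407.PN.Defs

namespace Pool.Agent.Helper407.PN


/-- TARGET -/
theorem Pi_pow (p m r : ℕ) (j : ℕ) (i c : Fin r) :
    (Pi p m r ^ j) i c = if (c : ℕ) = ((i : ℕ) + j) % r then (p : ZMod (p ^ m)) ^ (((i : ℕ) + j) / r)
      else 0 := by
  have hr : 0 < r := lt_of_le_of_lt (Nat.zero_le _) i.2
  induction j generalizing c with
  | zero =>
    rw [pow_zero, Nat.add_zero, Nat.mod_eq_of_lt i.2, Nat.div_eq_of_lt i.2, pow_zero, Matrix.one_apply]
    by_cases h : i = c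
    · rw [if_pos h, if_pos (by rw [h])]
    · rw [if_neg h, if_neg (fun h2 => h (Fin.ext h2.symm))]
  | succ j ih =>
    set q := ((i : ℕ) + j) / r with hq
    set d := ((i : ℕ) + j) % r with hd
    have hd1 : d < r := Nat.mod_lt _ hr
    have hdiv : (i : ℕ) + j = r * q + d := (Nat.div_add_mod _ _).symm
    have h1 : (Pi p m r ^ (j + 1)) i c = (p : ZMod (p ^ m)) ^ q * Pi p m r ⟨d, hd1⟩ c := by
      rw [pow_succ, Matrix.mul_apply]
      rw [Finset.sum_eq_single (⟨d, hd1⟩ : Fin r)]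
      · rw [ih, if_pos rfl]
      · intro e _ he
        rw [ih, if_neg (fun h2 => he (Fin.ext h2)), zero_mul]
      · intro h2
        exact absurd (Finset.mem_univ _) h2
    have h2 : (i : ℕ) + (j + 1) = r * q + (d + 1) := by omega
    have h3 : Pi p m r ⟨d, hd1⟩ c = if (c : ℕ) = d + 1 then 1 else
      if (c : ℕ) = 0 ∧ d + 1 = r then (p : ZMod (p ^ m)) else 0 := rfl
    rw [h1, h2, h3]
    by_cases hlt : d + 1 < r
    · rw [Nat.mul_add_mod, Nat.mod_eq_of_lt hlt, Nat.mul_add_div hr, Nat.div_eq_of_lt hlt]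
      by_cases hc : (c : ℕ) = d + 1
      · rw [if_pos hc, if_pos hc, mul_one, Nat.add_zero]
      · rw [if_neg hc, if_neg hc, if_neg (fun h => absurd h.2 hlt.ne), mul_zero]
    · have heq : d + 1 = r := by omega
      have hm : r * q + (d + 1) = r * (q + 1) := by rw [heq]; ring
      rw [hm, Nat.mul_mod_right, Nat.mul_div_cancel_left _ hr]
      have hc : ¬ (c : ℕ) = d + 1 := by
        rw [heq]
        exact c.2.ne
      rw [if_neg hc]
      by_cases hc0 : (c : ℕ) = 0
      · rw [if_pos hc0, if_pos ⟨hc0, heq⟩, pow_succ]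
      · rw [if_neg hc0, if_neg (fun h => hc0 h.1), mul_zero]

end Pool.Agent.Helper407.PN
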