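import Mathlib
import Pool.Agent.Helper407.PN.Defs
import Pool.Agent.Helper407.PN.PiPow
import Pool.Agent.Helper407.PN.Bin
import Pool.Agent.Helper407.PN.Col

namespace Pool.Agent.Helper407.PN




/-- TARGET -/
theorem exists_phi {p m r k : ℕ} (hp : p.Prime) (hr : 0 < r) (hk : 0 < k) :
    ∃ φ : Matrix (Fin r) (Fin k) (ZMod (p ^ m)) →ₗ[ZMod (p ^ m)] ZMod (p ^ m), ∀ j : ℕ,
      φ (((Top (Pi p m r) - 1) ^ j : Module.End (ZMod (p ^ m)) (Matrix (Fin r) (Fin k) (ZMod (p ^ m))))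
        (Matrix.single ⟨r - 1, by omega⟩ ⟨0, hk⟩ 1)) =
      (((∏ q ∈ Finset.range (k - 1), ((j : ℤ) - ((r : ℤ) * (q + 1) - 1)) : ℤ)) : ZMod (p ^ m)) *
        (Pi p m r ^ j) ⟨0, hr⟩ ⟨r - 1, by omega⟩ := by
  classical
  obtain ⟨P, hP⟩ : ∃ P, P = Pi p m r := ⟨_, rfl⟩
  obtain ⟨γ, hγ⟩ := binom_basis (k - 1) (fun q => (r : ℤ) * (q + 1) - 1)
  have hpm : (p : ZMod (p ^ m)) ^ m = 0 := by
    have := ZMod.natCast_self (p ^ m)
    rwa [Nat.cast_pow] at this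
  have hnil : P ^ (r * m) = 0 := by
    rw [hP]
    ext i c
    rw [Pi_pow, Matrix.zero_apply]
    split_ifs with h
    · have h1 : m ≤ ((i : ℕ) + r * m) / r := by
        rw [Nat.le_div_iff_mul_le hr]
        nlinarith
      obtain ⟨e, he⟩ := Nat.exists_eq_add_of_le h1
      rw [he, pow_add, hpm, zero_mul]
    · rfl
  have hN : IsNilpotent P := ⟨r * m, hnil⟩
  obtain ⟨U, hU⟩ := hN.isUnit_one_add
  obtain ⟨Y, hY⟩ : ∃ Y : Matrix (Fin r) (Fin r) (ZMod (p ^ m)), Y = ((U⁻¹ : (Matrix (Fin r) (Fin r) (ZMod (p ^ m)))ˣ) : Matrix (Fin r) (Fin r) (ZMod (p ^ m))) := ⟨_, rfl⟩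
  have hYU : Y * (1 + P) = 1 := by rw [hY, ← hU]; exact U.inv_mul
  have hUY : (1 + P) * Y = 1 := by rw [hY, ← hU]; exact U.mul_inv
  have hcU : Commute P (1 + P) := (Commute.one_right P).add_right (Commute.refl P)
  have hcY : Commute P Y := by
    show P * Y = Y * P
    calc P * Y = Y * (1 + P) * (P * Y) := by rw [hYU, one_mul]
      _ = Y * ((1 + P) * P) * Y := by simp only [mul_assoc]
      _ = Y * (P * (1 + P)) * Y := by rw [hcU.eq]
      _ = Y * P * ((1 + P) * Y) := by simp only [mul_assoc]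
      _ = Y * P := by rw [hUY, mul_one]
  have hcYU : Commute Y (1 + P) := by
    show Y * (1 + P) = (1 + P) * Y
    rw [hYU, hUY]
  have hprod : ∀ b j : ℕ, b ≤ j → (P ^ b * Y ^ b) * (P ^ (j - b) * (1 + P) ^ b) = P ^ j := by
    intro b j hbj
    have h1 : Y ^ b * P ^ (j - b) = P ^ (j - b) * Y ^ b := ((hcY.symm.pow_pow b (j - b))).eq
    have h2 : Y ^ b * (1 + P) ^ b = 1 := by
      rw [← hcYU.mul_pow, hYU, one_pow]
    calc (P ^ b * Y ^ b) * (P ^ (j - b) * (1 + P) ^ b)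
        = P ^ b * (Y ^ b * P ^ (j - b)) * (1 + P) ^ b := by simp only [mul_assoc]
      _ = P ^ b * P ^ (j - b) * (Y ^ b * (1 + P) ^ b) := by rw [h1]; simp only [mul_assoc]
      _ = P ^ j := by rw [h2, mul_one, ← pow_add, Nat.add_sub_cancel' hbj]
  let φ : Matrix (Fin r) (Fin k) (ZMod (p ^ m)) →ₗ[ZMod (p ^ m)] ZMod (p ^ m) :=
    { toFun := fun B => ∑ b : Fin k, ((γ b : ℤ) : ZMod (p ^ m)) *
        ((P ^ (b : ℕ) * Y ^ (b : ℕ)) * B) ⟨0, hr⟩ b
      map_add' := by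
        intro B C
        simp only [Matrix.mul_add, Matrix.add_apply, mul_add, Finset.sum_add_distrib]
      map_smul' := by
        intro c B
        simp only [Matrix.mul_smul, Matrix.smul_apply, smul_eq_mul, RingHom.id_apply,
          Finset.mul_sum]
        refine Finset.sum_congr rfl fun b _ => by ring }
  refine ⟨φ, ?_⟩
  intro j
  rw [← hP]
  obtain ⟨a, ha⟩ : ∃ a : Fin r, a = ⟨r - 1, by omega⟩ := ⟨_, rfl⟩
  rw [← ha]
  show ∑ b : Fin k, ((γ b : ℤ) : ZMod (p ^ m)) *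
        ((P ^ (b : ℕ) * Y ^ (b : ℕ)) * (((Top P - 1) ^ j : Module.End (ZMod (p ^ m)) (Matrix (Fin r) (Fin k) (ZMod (p ^ m))))
        (Matrix.single a ⟨0, hk⟩ 1))) ⟨0, hr⟩ b = _
  have hterm : ∀ b : Fin k, ((P ^ (b : ℕ) * Y ^ (b : ℕ)) * (((Top P - 1) ^ j : Module.End (ZMod (p ^ m)) (Matrix (Fin r) (Fin k) (ZMod (p ^ m))))
        (Matrix.single a ⟨0, hk⟩ 1))) ⟨0, hr⟩ b =
        (j.choose b : ZMod (p ^ m)) * (P ^ j) ⟨0, hr⟩ a := by
    intro b
    rw [Matrix.mul_apply]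
    simp only [D_col]
    by_cases hbj : (b : ℕ) ≤ j
    · have h3 := congrFun (congrFun (hprod b j hbj) ⟨0, hr⟩) a
      rw [Matrix.mul_apply] at h3
      rw [← h3, Finset.mul_sum]
      exact Finset.sum_congr rfl fun i _ => by ring
    · rw [Nat.choose_eq_zero_of_lt (by omega)]
      simp
  simp only [hterm]
  rw [hγ j]
  have hk1 : k - 1 + 1 = k := by omega
  rw [hk1, Int.cast_sum, Finset.sum_range, Finset.sum_mul]
  refine Finset.sum_congr rfl fun b _ => ?_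
  push_cast
  ring

end Pool.Agent.Helper407.PN
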