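import Mathlib
import Pool.Agent.Helper407.PN.Defs

namespace Pool.Agent.Helper407.PN
open Polynomial

theorem ps_sum_pow_one_add {R : Type*} [CommRing R] [IsDomain R] (p : ℕ) (hp : 2 ≤ p) (μ : R)
    (hμ : μ ≠ 0) :
    ∑ l ∈ Finset.range p, (1 + μ) ^ l =
      p + μ * ∑ j ∈ Finset.range (p - 1), (p.choose (j + 2) : R) * μ ^ j := by
  have h1 : μ * ∑ l ∈ Finset.range p, (1 + μ) ^ l = (1 + μ) ^ p - 1 := by
    have := mul_geom_sum (1 + μ) p
    simpa using this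
  apply mul_left_cancel₀ hμ
  rw [h1]
  obtain ⟨q, rfl⟩ : ∃ q, p = q + 2 := ⟨p - 2, by omega⟩
  have h2 : (1 + μ) ^ (q + 2) = ∑ j ∈ Finset.range (q + 2 + 1), μ ^ j * ((q + 2).choose j : R) := by
    rw [add_comm, add_pow]
    simp
  rw [h2, Finset.sum_range_succ', Finset.sum_range_succ']
  have h3 : q + 2 - 1 = q + 1 := by omega
  rw [h3, mul_add, Finset.mul_sum, Finset.mul_sum]
  have h4 : ∑ k ∈ Finset.range (q + 1), μ ^ (k + 1 + 1) * ((q + 2).choose (k + 1 + 1) : R) =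
      ∑ i ∈ Finset.range (q + 1), μ * (μ * (((q + 2).choose (i + 2) : R) * μ ^ i)) := by
    apply Finset.sum_congr rfl
    intro i _
    have : i + 1 + 1 = i + 2 := rfl
    rw [this, pow_succ, pow_succ]; ring
  rw [h4]
  simp
  ring

/-- TARGET -/
theorem poly_sum {p : ℕ} (hp : p.Prime) :
    ∃ g : ℤ[X], (∑ i ∈ Finset.range p, X ^ i) - (p : ℤ[X]) =
      (X - 1) ^ (p - 1) + (p : ℤ[X]) * ((X - 1) * g) := by
  have hY : (X - 1 : ℤ[X]) ≠ 0 := X_sub_C_ne_zero (1 : ℤ)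
  obtain ⟨q, rfl⟩ : ∃ q, p = q + 2 := ⟨p - 2, by have := hp.two_le; omega⟩
  have h1 := ps_sum_pow_one_add (q + 2) (by omega) (X - 1 : ℤ[X]) hY
  rw [show (1 + (X - 1) : ℤ[X]) = X by ring] at h1
  have h2 : ∀ j, ∃ c : ℕ, j ∈ Finset.range q → (q + 2).choose (j + 2) = (q + 2) * c := by
    intro j
    by_cases hj : j ∈ Finset.range q
    · have hj' := Finset.mem_range.1 hj
      obtain ⟨c, hc⟩ := hp.dvd_choose_self (k := j + 2) (by omega) (by omega)
      exact ⟨c, fun _ => hc⟩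
    · exact ⟨0, fun h => absurd h hj⟩
  choose c hc using h2
  refine ⟨∑ j ∈ Finset.range q, (c j : ℤ[X]) * (X - 1) ^ j, ?_⟩
  rw [h1, show q + 2 - 1 = q + 1 by omega, Finset.sum_range_succ, Nat.choose_self]
  have h3 : ∑ j ∈ Finset.range q, ((q + 2).choose (j + 2) : ℤ[X]) * (X - 1) ^ j =
      ((q + 2 : ℕ) : ℤ[X]) * ∑ j ∈ Finset.range q, (c j : ℤ[X]) * (X - 1) ^ j := by
    rw [Finset.mul_sum]
    refine Finset.sum_congr rfl fun j hj => ?_
    rw [hc j hj, Nat.cast_mul]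
    ring
  rw [h3]
  push_cast
  ring

end Pool.Agent.Helper407.PN
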