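import Mathlib
import Pool.Agent.Helper407.PN.Defs
import Pool.Agent.Helper407.PN.PiPow
import Pool.Agent.Helper407.PN.Poly
import Pool.Agent.Helper407.PN.Phi

namespace Pool.Agent.Helper407.PN
open Polynomial




theorem balg_zero {p r k : ℕ} (hr : 0 < r) (j : ℕ) :
    (p : ZMod (p ^ k)) * ((((∏ q ∈ Finset.range (k - 1), ((j : ℤ) - ((r : ℤ) * (q + 1) - 1)) : ℤ)) :
      ZMod (p ^ k)) * (Pi p k r ^ j) ⟨0, hr⟩ ⟨r - 1, by omega⟩) = 0 := by
  rw [Pi_pow]
  simp only [zero_add]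
  obtain ⟨Q, hQ⟩ : ∃ Q, Q = j / r := ⟨_, rfl⟩
  rw [← hQ]
  split_ifs with h
  · have hj : j + 1 = r * Q + r := by
      have := Nat.div_add_mod j r
      rw [← h, ← hQ] at this
      omega
    rcases Nat.lt_or_ge Q (k - 1) with h1 | h1
    · have : (∏ q ∈ Finset.range (k - 1), ((j : ℤ) - ((r : ℤ) * (q + 1) - 1)) : ℤ) = 0 := by
        apply Finset.prod_eq_zero (Finset.mem_range.2 h1)
        have h2 : (j : ℤ) + 1 = r * Q + r := by exact_mod_cast hj
        linear_combination h2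
      rw [this]
      simp
    · have : (p : ZMod (p ^ k)) * (p : ZMod (p ^ k)) ^ Q = 0 := by
        rw [← pow_succ', show Q + 1 = k + (Q + 1 - k) by omega, pow_add]
        have : (p : ZMod (p ^ k)) ^ k = 0 := by
          rw [← Nat.cast_pow]
          exact ZMod.natCast_self _
        rw [this, zero_mul]
      rw [mul_left_comm, this, mul_zero]
  · simp

theorem balg_prod (r k : ℕ) (hr : 0 < r) (hk : 0 < k) :
    (∏ q ∈ Finset.range (k - 1), (((r * k - 1 : ℕ) : ℤ) - ((r : ℤ) * (q + 1) - 1)) : ℤ) =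
      (r : ℤ) ^ (k - 1) * ((k - 1).factorial : ℤ) := by
  obtain ⟨K, rfl⟩ : ∃ K, k = K + 1 := ⟨k - 1, by omega⟩
  simp only [Nat.add_sub_cancel]
  have h1 : ∀ q ∈ Finset.range K, (((r * (K + 1) - 1 : ℕ) : ℤ) - ((r : ℤ) * (q + 1) - 1)) =
      (r : ℤ) * ((K - q : ℕ) : ℤ) := by
    intro q hq
    have hq' := Finset.mem_range.1 hq
    have h2 : 1 ≤ r * (K + 1) := Nat.mul_pos hr (Nat.succ_pos _)
    rw [Nat.cast_sub h2, Nat.cast_sub hq'.le]
    push_cast
    ring
  rw [Finset.prod_congr rfl h1, Finset.prod_mul_distrib, Finset.prod_const, Finset.card_range,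
    ← Nat.cast_prod, ← Nat.descFactorial_eq_prod_range, Nat.descFactorial_self]

theorem balg_C {p r k : ℕ} {M : Type} [AddCommGroup M] [Module (ZMod (p ^ k)) M]
    (D : Module.End (ZMod (p ^ k)) M) (φ : M →ₗ[ZMod (p ^ k)] ZMod (p ^ k)) (B0 : M)
    (hz : ∀ j : ℕ, (p : ZMod (p ^ k)) * φ ((D ^ j) B0) = 0) (w : ℤ[X]) :
    ∀ n : ℕ, (p : ZMod (p ^ k)) * φ ((D ^ n * aeval D w) B0) = 0 := by
  induction w using Polynomial.induction_on' with
  | add u v hu hv =>
    intro n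
    rw [map_add, mul_add, LinearMap.add_apply, map_add, mul_add, hu, hv, add_zero]
  | monomial l c =>
    intro n
    have h1 : D ^ n * aeval D (monomial l c) = (c : Module.End (ZMod (p ^ k)) M) * D ^ (n + l) := by
      rw [aeval_monomial, eq_intCast, ← mul_assoc, (Int.cast_commute c (D ^ n)).symm.eq,
        mul_assoc, ← pow_add]
    rw [h1, Module.End.mul_apply, Module.End.intCast_apply, map_zsmul, zsmul_eq_mul,
      mul_left_comm, hz, mul_zero]

/-- TARGET -/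
theorem balg {p r k : ℕ} (hp : p.Prime) (hr : 0 < r) (hk : 0 < k) (hle : p ≤ r * k)
    (hcop : ¬ (p : ℤ) ∣ (r : ℤ) ^ (k - 1) * ((k - 1).factorial : ℤ)) (F : ℤ[X])
    (h0 : (aeval (Top (Pi p k r) :
        Module.End (ZMod (p ^ k)) (Matrix (Fin r) (Fin k) (ZMod (p ^ k))))
        ((∑ i ∈ Finset.range p, X ^ i) - (p : ℤ[X]) - (p : ℤ[X]) * ((X - 1) * F)))
        (Matrix.single ⟨r - 1, by omega⟩ ⟨0, hk⟩ 1) = 0) : False := by
  obtain ⟨g, hg⟩ := poly_sum hp
  obtain ⟨φ, hφ⟩ := exists_phi (p := p) (m := k) (r := r) (k := k) hp hr hk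
  set B0 : Matrix (Fin r) (Fin k) (ZMod (p ^ k)) :=
    Matrix.single ⟨r - 1, by omega⟩ ⟨0, hk⟩ 1 with hB0
  set T : Module.End (ZMod (p ^ k)) (Matrix (Fin r) (Fin k) (ZMod (p ^ k))) :=
    Top (Pi p k r) with hT
  set D : Module.End (ZMod (p ^ k)) (Matrix (Fin r) (Fin k) (ZMod (p ^ k))) := T - 1 with hD
  have hz : ∀ j : ℕ, (p : ZMod (p ^ k)) * φ ((D ^ j) B0) = 0 := by
    intro j
    rw [hφ j]
    exact balg_zero hr j
  have hP : (∑ i ∈ Finset.range p, X ^ i) - (p : ℤ[X]) - (p : ℤ[X]) * ((X - 1) * F) =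
      (X - 1) ^ (p - 1) + (p : ℤ[X]) * ((X - 1) * (g - F)) := by
    rw [hg]
    ring
  have h1 : aeval T ((X - 1) ^ (p - 1) + (p : ℤ[X]) * ((X - 1) * (g - F))) =
      D ^ (p - 1) + (p : Module.End (ZMod (p ^ k)) (Matrix (Fin r) (Fin k) (ZMod (p ^ k)))) *
        (D * aeval T (g - F)) := by
    have e1 : aeval T (X - 1 : ℤ[X]) = D := by
      rw [map_sub, aeval_X, map_one]
    rw [map_add, map_pow, map_mul, map_mul, e1, map_natCast]
  rw [hP, h1] at h0
  have hp1 : 1 ≤ p := hp.one_lt.le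
  have h2 : D ^ (r * k - p) * (D ^ (p - 1) +
      (p : Module.End (ZMod (p ^ k)) (Matrix (Fin r) (Fin k) (ZMod (p ^ k)))) *
        (D * aeval T (g - F))) = D ^ (r * k - 1) +
      (p : Module.End (ZMod (p ^ k)) (Matrix (Fin r) (Fin k) (ZMod (p ^ k)))) *
        (D ^ (r * k - p + 1) * aeval T (g - F)) := by
    rw [mul_add, ← pow_add, show r * k - p + (p - 1) = r * k - 1 by omega, ← mul_assoc,
      (Nat.cast_commute p (D ^ (r * k - p))).symm.eq, mul_assoc, ← mul_assoc (D ^ (r * k - p)),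
      ← pow_succ]
  have h3 : (D ^ (r * k - 1) +
      (p : Module.End (ZMod (p ^ k)) (Matrix (Fin r) (Fin k) (ZMod (p ^ k)))) *
        (D ^ (r * k - p + 1) * aeval T (g - F))) B0 = 0 := by
    rw [← h2, Module.End.mul_apply, h0, map_zero]
  have hTD : aeval T (g - F) = aeval D ((g - F).comp (X + 1)) := by
    rw [aeval_comp, map_add, aeval_X, map_one, hD, sub_add_cancel]
  have h4 := congrArg φ h3
  rw [LinearMap.add_apply, map_add, map_zero, Module.End.mul_apply, Module.End.natCast_apply,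
    map_nsmul, nsmul_eq_mul, hTD, balg_C (r := r) D φ B0 hz, add_zero, hφ, Pi_pow,
    balg_prod r k hr hk] at h4
  have h5 : r * k - 1 = r * (k - 1) + (r - 1) := by
    obtain ⟨K, rfl⟩ : ∃ K, k = K + 1 := ⟨k - 1, by omega⟩
    have : r * (K + 1) = r * K + r := by ring
    simp only [Nat.add_sub_cancel]
    omega
  have h6 : (r * k - 1) % r = r - 1 := by
    rw [h5, Nat.mul_add_mod]
    exact Nat.mod_eq_of_lt (by omega)
  have h7 : (r * k - 1) / r = k - 1 := by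
    rw [h5, Nat.mul_add_div hr, Nat.div_eq_of_lt (by omega), add_zero]
  simp only [zero_add] at h4
  rw [h6, h7, if_pos rfl] at h4
  have h8 : (((r : ℤ) ^ (k - 1) * ((k - 1).factorial : ℤ) * (p : ℤ) ^ (k - 1) : ℤ) :
      ZMod (p ^ k)) = 0 := by
    rw [← h4]
    push_cast
    ring
  rw [ZMod.intCast_zmod_eq_zero_iff_dvd] at h8
  apply hcop
  have h9 : (((p ^ k : ℕ)) : ℤ) = (p : ℤ) * (p : ℤ) ^ (k - 1) := by
    rw [← pow_succ', show k - 1 + 1 = k by omega]
    push_cast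
    rfl
  rw [h9] at h8
  have hp0 : (p : ℤ) ^ (k - 1) ≠ 0 := pow_ne_zero _ (by exact_mod_cast hp.ne_zero)
  exact (mul_dvd_mul_iff_right hp0).1 h8

end Pool.Agent.Helper407.PN
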