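import Mathlib
import Pool.Agent.Helper431.PN.Base
import Pool.Agent.Helper431.PN.M5a
import Pool.Agent.Helper407.PN.Defs

namespace Pool.Agent.Helper407.PN
open Polynomial Pool.Agent.Helper431.PN





/-- block upper triangular matrices -/
def block_data_blk {R : Type*} [CommRing R] {r k : ℕ} (A : Matrix (Fin r) (Fin r) R)
    (C : Matrix (Fin r) (Fin k) R) (D : Matrix (Fin k) (Fin k) R) :
    Matrix (Fin (r + k)) (Fin (r + k)) R :=
  (Matrix.fromBlocks A C 0 D).submatrix finSumFinEquiv.symm finSumFinEquiv.symm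

section block_data_sec
variable {R : Type*} [CommRing R] {r k : ℕ} (A A' : Matrix (Fin r) (Fin r) R)
    (C C' : Matrix (Fin r) (Fin k) R) (D D' : Matrix (Fin k) (Fin k) R)

theorem block_data_mul : block_data_blk A C D * block_data_blk A' C' D' =
    block_data_blk (A * A') (A * C' + C * D') (D * D') := by
  unfold block_data_blk
  rw [Matrix.submatrix_mul_equiv, Matrix.fromBlocks_multiply]
  simp

theorem block_data_11 (i j : Fin r) :
    block_data_blk A C D (Fin.castAdd k i) (Fin.castAdd k j) = A i j := by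
  simp [block_data_blk]

theorem block_data_12 (i : Fin r) (j : Fin k) :
    block_data_blk A C D (Fin.castAdd k i) (Fin.natAdd r j) = C i j := by
  simp [block_data_blk]

theorem block_data_21 (i : Fin k) (j : Fin r) :
    block_data_blk A C D (Fin.natAdd r i) (Fin.castAdd k j) = 0 := by
  simp [block_data_blk]

theorem block_data_22 (i j : Fin k) :
    block_data_blk A C D (Fin.natAdd r i) (Fin.natAdd r j) = D i j := by
  simp [block_data_blk]

end block_data_sec

theorem block_data_isP {p m r k : ℕ} (A : Matrix (Fin r) (Fin r) (ZMod (p ^ m)))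
    (C : Matrix (Fin r) (Fin k) (ZMod (p ^ m))) (D : Matrix (Fin k) (Fin k) (ZMod (p ^ m)))
    (hA : IsP p m r A) (hD : IsP p m k D) : IsP p m (r + k) (block_data_blk A C D) := by
  constructor
  · intro i
    refine Fin.addCases (fun i => ?_) (fun i => ?_) i
    · rw [block_data_11]; exact hA.1 i
    · rw [block_data_22]; exact hD.1 i
  · intro i j
    refine Fin.addCases (fun i => ?_) (fun i => ?_) i <;>
      refine Fin.addCases (fun j => ?_) (fun j => ?_) j
    · intro h
      rw [block_data_11]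
      exact hA.2 i j (by
        rw [Fin.lt_def] at h ⊢
        simpa using h)
    · intro h
      exfalso
      rw [Fin.lt_def] at h
      have := i.2
      simp at h
      omega
    · intro _
      rw [block_data_21]
      exact dvd_zero _
    · intro h
      rw [block_data_22]
      exact hD.2 i j (by
        rw [Fin.lt_def] at h ⊢
        simpa using h)

/-- TARGET -/
theorem block_data {p m r k : ℕ} (hp : p.Prime) (hm : 1 ≤ m)
    (B0 : Matrix (Fin r) (Fin k) (ZMod (p ^ m))) :
    ∃ (x : PGroup p m (r + k)) (u : ℤ[X] → PGroup p m (r + k)), PairData x u ∧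
      ∀ f : ℤ[X], u f = 1 →
        (aeval (Top (Pi p m r) : Module.End (ZMod (p ^ m)) (Matrix (Fin r) (Fin k) (ZMod (p ^ m)))) f)
          B0 = 0 := by
  haveI : NeZero (p ^ m) := ⟨pow_ne_zero _ hp.ne_zero⟩
  have hX1 : IsP p m r (1 + Pi p m r) := by
    rw [isP_iff, add_sub_cancel_left]
    intro i j hij
    unfold Pi
    rw [Matrix.of_apply, if_neg (by rw [Fin.le_def] at hij; omega)]
    split_ifs
    · exact dvd_rfl
    · exact dvd_zero _
  have hX2 : IsP p m k (1 + Nil p m k) := by
    rw [isP_iff, add_sub_cancel_left]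
    intro i j hij
    unfold Nil
    rw [Matrix.of_apply, if_neg (by rw [Fin.le_def] at hij; omega)]
    exact dvd_zero _
  obtain ⟨g1, hg1, hg1v⟩ := mem_of_isP hp hm _ hX1
  obtain ⟨Y, hY⟩ : ∃ Y, Y = ((g1⁻¹ : (Matrix (Fin r) (Fin r) (ZMod (p ^ m)))ˣ) :
      Matrix (Fin r) (Fin r) (ZMod (p ^ m))) := ⟨_, rfl⟩
  have hYP : IsP p m r Y := by rw [hY]; exact hg1.2
  have hYX : Y * (1 + Pi p m r) = 1 := by
    rw [hY, ← hg1v, ← Units.val_mul, inv_mul_cancel, Units.val_one]
  obtain ⟨x, hx, hxv⟩ := mem_of_isP hp hm (block_data_blk Y 0 (1 + Nil p m k))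
    (block_data_isP Y 0 _ hYP hX2)
  have hex : ∀ f : ℤ[X], ∃ g ∈ PGroup p m (r + k),
      (g : Matrix (Fin (r + k)) (Fin (r + k)) (ZMod (p ^ m))) = block_data_blk 1
        ((aeval (Top (Pi p m r) : Module.End (ZMod (p ^ m))
          (Matrix (Fin r) (Fin k) (ZMod (p ^ m)))) f) B0) 1 := fun f =>
    mem_of_isP hp hm _ (block_data_isP _ _ _ (IsP.one p m r) (IsP.one p m k))
  choose u hu huv using hex
  refine ⟨⟨x, hx⟩, fun f => ⟨u f, hu f⟩, ⟨?_, ?_, ?_⟩, ?_⟩
  · intro f g
    apply Subtype.ext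
    apply Units.ext
    show ((u (f + g) : (Matrix (Fin (r + k)) (Fin (r + k)) (ZMod (p ^ m)))ˣ) :
      Matrix (Fin (r + k)) (Fin (r + k)) (ZMod (p ^ m))) = ((u f * u g :
      (Matrix (Fin (r + k)) (Fin (r + k)) (ZMod (p ^ m)))ˣ) :
      Matrix (Fin (r + k)) (Fin (r + k)) (ZMod (p ^ m)))
    rw [Units.val_mul, huv, huv, huv, block_data_mul, map_add, LinearMap.add_apply]
    congr 1
    · rw [Matrix.one_mul]
    · rw [Matrix.one_mul, Matrix.mul_one, add_comm]
    · rw [Matrix.one_mul]
  · intro f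
    apply Subtype.ext
    apply Units.ext
    show ((u f * x : (Matrix (Fin (r + k)) (Fin (r + k)) (ZMod (p ^ m)))ˣ) :
      Matrix (Fin (r + k)) (Fin (r + k)) (ZMod (p ^ m))) = ((x * u (X * f) :
      (Matrix (Fin (r + k)) (Fin (r + k)) (ZMod (p ^ m)))ˣ) :
      Matrix (Fin (r + k)) (Fin (r + k)) (ZMod (p ^ m)))
    rw [Units.val_mul, Units.val_mul, huv, huv, hxv, block_data_mul, block_data_mul, map_mul,
      aeval_X]
    congr 1
    · rw [Matrix.one_mul, Matrix.mul_one]
    · rw [Matrix.one_mul, Matrix.zero_mul, add_zero, zero_add]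
      show _ = Y * ((1 + Pi p m r) * ((aeval (Top (Pi p m r) : Module.End (ZMod (p ^ m))
          (Matrix (Fin r) (Fin k) (ZMod (p ^ m)))) f) B0) * (1 + Nil p m k))
      rw [← Matrix.mul_assoc, ← Matrix.mul_assoc, hYX, Matrix.one_mul]
    · rw [Matrix.one_mul, Matrix.mul_one]
  · haveI : Finite (Matrix (Fin (r + k)) (Fin (r + k)) (ZMod (p ^ m))) := inferInstance
    haveI : Finite (Matrix (Fin (r + k)) (Fin (r + k)) (ZMod (p ^ m)))ˣ := inferInstance
    exact ⟨orderOf _, orderOf_pos _, pow_orderOf_eq_one _⟩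
  · intro f hf
    have h1 : u f = 1 := congrArg Subtype.val hf
    have h2 := huv f
    rw [h1, Units.val_one] at h2
    ext i j
    rw [← block_data_12 1 ((aeval (Top (Pi p m r) : Module.End (ZMod (p ^ m))
          (Matrix (Fin r) (Fin k) (ZMod (p ^ m)))) f) B0) 1 i j, ← h2, Matrix.one_apply_ne]
    · rfl
    · intro h
      have h3 := congrArg Fin.val h
      have := i.2
      simp at h3
      omega

end Pool.Agent.Helper407.PN
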