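import Mathlib
import Pool.Agent.Helper431.PN.Base
import Pool.Agent.Helper431.PN.M5a
import Pool.Agent.Helper407.PN.Defs

namespace Pool.Agent.Helper407.PN
open Polynomial Pool.Agent.Helper431.PN





theorem ad_del_comm {n : ℕ} {R : Type*} [CommRing R] (X A : Matrix (Fin n) (Fin n) R)
    (hx : X = 1 + A) (j : ℕ) (W : Matrix (Fin n) (Fin n) R) :
    ((Del A) ^ j : Module.End R _) (X * W) = X * ((Del A) ^ j : Module.End R _) W := by
  induction j generalizing W with
  | zero => simp
  | succ j ih =>
    have h1 : Del A (X * W) = X * Del A W := by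
      have hc : A * X = X * A := by rw [hx]; noncomm_ring
      show X * W * A - A * (X * W) = X * (W * A - A * W)
      rw [Matrix.mul_sub, ← Matrix.mul_assoc A X W, hc, Matrix.mul_assoc X W A,
        Matrix.mul_assoc X A W]
    rw [pow_succ, Module.End.mul_apply, Module.End.mul_apply, h1, ih]

/-- TARGET 1 -/
theorem ad_del {n : ℕ} {R : Type*} [CommRing R] (x : (Matrix (Fin n) (Fin n) R)ˣ)
    (A : Matrix (Fin n) (Fin n) R) (hx : (x : Matrix (Fin n) (Fin n) R) = 1 + A) (j : ℕ)
    (W : Matrix (Fin n) (Fin n) R) :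
    (x : Matrix (Fin n) (Fin n) R) ^ j * (((Adx x - 1) ^ j : Module.End R _) W) =
      ((Del A) ^ j : Module.End R _) W := by
  induction j generalizing W with
  | zero => simp
  | succ j ih =>
    have h1 : (x : Matrix (Fin n) (Fin n) R) * ((Adx x - 1 : Module.End R _) W) = Del A W := by
      show (x : Matrix (Fin n) (Fin n) R) *
        ((↑x⁻¹ : Matrix (Fin n) (Fin n) R) * W * (x : Matrix (Fin n) (Fin n) R) - W) =
        W * A - A * W
      rw [Matrix.mul_sub, ← Matrix.mul_assoc, ← Matrix.mul_assoc, Units.mul_inv, hx]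
      noncomm_ring
    rw [pow_succ (Adx x - 1), Module.End.mul_apply, pow_succ', Matrix.mul_assoc, ih,
      ← ad_del_comm _ A hx, h1, pow_succ (Del A), Module.End.mul_apply]


end Pool.Agent.Helper407.PN
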