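import Mathlib
import Pool.Agent.Helper431.PN.Base
import Pool.Agent.Helper431.PN.M5a
import Pool.Agent.Helper407.PN.Defs
import Pool.Agent.Helper407.PN.Del1

namespace Pool.Agent.Helper407.PN
open Polynomial Pool.Agent.Helper431.PN





/-- TARGET 2 -/
theorem del_pow {n : ℕ} {R : Type*} [CommRing R] (A W : Matrix (Fin n) (Fin n) R) (j : ℕ) :
    ((Del A) ^ j : Module.End R _) W =
      ∑ a ∈ Finset.range (j + 1), ((-1) ^ a * (j.choose a : R)) • (A ^ a * W * A ^ (j - a)) := by
  have hDel : (Del A : Module.End R (Matrix (Fin n) (Fin n) R)) =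
      LinearMap.mulLeft R (-A) + LinearMap.mulRight R A := by
    apply LinearMap.ext
    intro B
    show B * A - A * B = (-A) * B + B * A
    rw [Matrix.neg_mul]
    abel
  have hcomm : Commute (LinearMap.mulLeft R (-A)) (LinearMap.mulRight R A) :=
    LinearMap.commute_mulLeft_right (-A) A
  rw [hDel, hcomm.add_pow, LinearMap.sum_apply]
  apply Finset.sum_congr rfl
  intro a _
  rw [LinearMap.pow_mulLeft, LinearMap.pow_mulRight]
  have h3 : ∀ V : Matrix (Fin n) (Fin n) R,
      ((j.choose a : Module.End R (Matrix (Fin n) (Fin n) R))) V = (j.choose a : R) • V := by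
    intro V
    rw [Module.End.natCast_apply, Nat.cast_smul_eq_nsmul]
  rw [Module.End.mul_apply, Module.End.mul_apply, h3, map_smul, map_smul]
  show (j.choose a : R) • ((-A) ^ a * (W * A ^ (j - a))) = _
  rcases Nat.even_or_odd a with ha | ha
  · rw [ha.neg_pow A, ha.neg_one_pow, one_mul, Matrix.mul_assoc]
  · rw [ha.neg_pow A, ha.neg_one_pow, neg_one_mul, neg_smul, Matrix.neg_mul, smul_neg,
      Matrix.mul_assoc]


end Pool.Agent.Helper407.PN
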