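import Mathlib
import Pool.Agent.Helper431.PN.Base
import Pool.Agent.Helper431.PN.M5a
import Pool.Agent.Helper407.PN.Defs
import Pool.Agent.Helper407.PN.Del1
import Pool.Agent.Helper407.PN.Del2

namespace Pool.Agent.Helper407.PN
open Polynomial Pool.Agent.Helper431.PN





theorem choose_sign_int_27280 {p : ℕ} (hp : p.Prime) : ∀ a : ℕ, a ≤ p - 1 →
    (p : ℤ) ∣ (-1) ^ a * ((p - 1).choose a : ℤ) - 1 := by
  intro a
  induction a with
  | zero =>
    intro _
    simp
  | succ a ih =>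
    intro ha
    have h1 := ih (by omega)
    have h2 : (p : ℤ) ∣ (p.choose (a + 1) : ℤ) := by
      exact_mod_cast hp.dvd_choose_self (Nat.succ_ne_zero a) (by have := hp.two_le; omega)
    have h3 : p.choose (a + 1) = (p - 1).choose a + (p - 1).choose (a + 1) := by
      obtain ⟨q, rfl⟩ : ∃ q, p = q + 1 := ⟨p - 1, by have := hp.two_le; omega⟩
      rw [Nat.choose_succ_succ]
      rfl
    have h4 : (-1 : ℤ) ^ (a + 1) * ((p - 1).choose (a + 1) : ℤ) - 1 =
        ((-1) ^ a * ((p - 1).choose a : ℤ) - 1) - (-1) ^ a * (p.choose (a + 1) : ℤ) := by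
      rw [h3]
      push_cast
      ring
    rw [h4]
    exact dvd_sub h1 (Dvd.dvd.mul_left h2 _)

/-- TARGET 3 -/
theorem choose_sign {p m : ℕ} (hp : p.Prime) (hm : 1 ≤ m) (a : ℕ) (ha : a ≤ p - 1) :
    (p : ZMod (p ^ m)) ^ (m - 1) * ((-1) ^ a * ((p - 1).choose a : ZMod (p ^ m))) =
      (p : ZMod (p ^ m)) ^ (m - 1) := by
  obtain ⟨t, ht⟩ := choose_sign_int_27280 hp a ha
  have h1 : ((-1) ^ a * ((p - 1).choose a : ZMod (p ^ m))) =
      1 + (p : ZMod (p ^ m)) * (t : ZMod (p ^ m)) := by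
    have h2 : ((-1 : ℤ) ^ a * ((p - 1).choose a : ℤ)) = 1 + (p : ℤ) * t := by linarith
    have h3 := congrArg (fun z : ℤ => (z : ZMod (p ^ m))) h2
    push_cast at h3
    exact h3
  have h4 : (p : ZMod (p ^ m)) ^ (m - 1) * (p : ZMod (p ^ m)) = 0 := by
    rw [← pow_succ, Nat.sub_add_cancel hm, ← Nat.cast_pow, ZMod.natCast_self]
  rw [h1, mul_add, mul_one, ← mul_assoc, h4, zero_mul, add_zero]

end Pool.Agent.Helper407.PN

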