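import Mathlib
import Pool.Agent.Helper431.PN.Base
import Pool.Agent.Helper431.PN.M5a
import Pool.Agent.Helper407.PN.Defs
import Pool.Agent.Helper407.PN.PiPow
import Pool.Agent.Helper407.PN.Del2
import Pool.Agent.Helper407.PN.Del3

namespace Pool.Agent.Helper407.PN
open Polynomial Pool.Agent.Helper431.PN





/-- TARGET 1 (entries of the iterated commutator) -/
theorem del_entry {p m n : ℕ} (hn : 0 < n) (j : ℕ) (i c : Fin n) :
    (((Del (Pi p m n)) ^ j : Module.End (ZMod (p ^ m)) _)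
        (Matrix.single ⟨n - 1, by omega⟩ ⟨0, hn⟩ 1)) i c =
      ∑ a ∈ Finset.range (j + 1), ((-1) ^ a * (j.choose a : ZMod (p ^ m))) *
        ((if n - 1 = ((i : ℕ) + a) % n then (p : ZMod (p ^ m)) ^ (((i : ℕ) + a) / n) else 0) *
          (if (c : ℕ) = (j - a) % n then (p : ZMod (p ^ m)) ^ ((j - a) / n) else 0)) := by
  rw [del_pow, Matrix.sum_apply]
  refine Finset.sum_congr rfl fun a _ => ?_
  rw [Matrix.smul_apply, smul_eq_mul]
  congr 1
  have h1 : (Pi p m n ^ a * Matrix.single (⟨n - 1, by omega⟩ : Fin n) (⟨0, hn⟩ : Fin n) (1 : ZMod (p ^ m)) * Pi p m n ^ (j - a)) i c =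
      (Pi p m n ^ a) i ⟨n - 1, by omega⟩ * (Pi p m n ^ (j - a)) ⟨0, hn⟩ c := by
    rw [Matrix.mul_apply]
    rw [Finset.sum_eq_single (⟨0, hn⟩ : Fin n)]
    · congr 1
      rw [Matrix.mul_apply, Finset.sum_eq_single (⟨n - 1, by omega⟩ : Fin n)]
      · simp
      · intro b _ hb
        rw [Matrix.single_apply_of_row_ne (Ne.symm hb), mul_zero]
      · intro h
        exact absurd (Finset.mem_univ _) h
    · intro b _ hb
      rw [Matrix.mul_apply]
      rw [Finset.sum_eq_zero, zero_mul]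
      intro k _
      rw [Matrix.single_apply_of_col_ne _ _ (Ne.symm hb), mul_zero]
    · intro h
      exact absurd (Finset.mem_univ _) h
  rw [h1, Pi_pow, Pi_pow]
  simp

end Pool.Agent.Helper407.PN
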