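import Mathlib
import Pool.Agent.Helper431.PN.Base
import Pool.Agent.Helper431.PN.M5a
import Pool.Agent.Helper407.PN.Defs
import Pool.Agent.Helper407.PN.PiPow
import Pool.Agent.Helper407.PN.Del2
import Pool.Agent.Helper407.PN.Del3
import Pool.Agent.Helper407.PN.L21

namespace Pool.Agent.Helper407.PN
open Polynomial Pool.Agent.Helper431.PN





theorem del_lead_zero {p m : ℕ} (hm : 1 ≤ m) (e : ℕ) (he : 1 ≤ e) :
    (p : ZMod (p ^ m)) ^ (m - 1) * (p : ZMod (p ^ m)) ^ e = 0 := by
  have h0 : (p : ZMod (p ^ m)) ^ m = 0 := by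
    rw [← Nat.cast_pow]
    exact ZMod.natCast_self _
  have h1 : m - 1 + e = m + (e - 1) := by omega
  rw [← pow_add, h1, pow_add, h0, zero_mul]

/-- TARGET 2 (leading part) -/
theorem del_lead {p m n : ℕ} (hm : 1 ≤ m) (hn : 0 < n) (j : ℕ) (i c : Fin n) :
    (p : ZMod (p ^ m)) ^ (m - 1) * (((Del (Pi p m n)) ^ j : Module.End (ZMod (p ^ m)) _)
        (Matrix.single ⟨n - 1, by omega⟩ ⟨0, hn⟩ 1)) i c =
      if (c : ℕ) + (n - 1) = j + i then
        (p : ZMod (p ^ m)) ^ (m - 1) * ((-1) ^ (n - 1 - (i : ℕ)) * (j.choose (n - 1 - i) : ZMod (p ^ m)))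
      else 0 := by
  rw [del_entry hn, Finset.mul_sum]
  have hi := i.2
  have hc := c.2
  have key : ∀ a ∈ Finset.range (j + 1), (p : ZMod (p ^ m)) ^ (m - 1) *
      (((-1) ^ a * (j.choose a : ZMod (p ^ m))) *
        ((if n - 1 = ((i : ℕ) + a) % n then (p : ZMod (p ^ m)) ^ (((i : ℕ) + a) / n) else 0) *
          (if (c : ℕ) = (j - a) % n then (p : ZMod (p ^ m)) ^ ((j - a) / n) else 0))) =
      if a = n - 1 - i then (if (c : ℕ) + (n - 1) = j + i then
        (p : ZMod (p ^ m)) ^ (m - 1) * ((-1) ^ (n - 1 - (i : ℕ)) *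
          (j.choose (n - 1 - i) : ZMod (p ^ m))) else 0) else 0 := by
    intro a ha
    have haj : a ≤ j := by
      have := Finset.mem_range.1 ha
      omega
    by_cases h1 : (i : ℕ) + a < n
    · rw [Nat.mod_eq_of_lt h1, Nat.div_eq_of_lt h1, pow_zero]
      by_cases h2 : n - 1 = (i : ℕ) + a
      · have h3 : a = n - 1 - i := by omega
        rw [if_pos h2, if_pos h3, one_mul]
        by_cases h4 : j - a < n
        · rw [Nat.mod_eq_of_lt h4, Nat.div_eq_of_lt h4, pow_zero]
          by_cases h5 : (c : ℕ) = j - a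
          · have h6 : (c : ℕ) + (n - 1) = j + i := by omega
            rw [if_pos h5, if_pos h6, mul_one, ← h3]
          · have h6 : ¬ ((c : ℕ) + (n - 1) = j + i) := by omega
            rw [if_neg h5, if_neg h6, mul_zero, mul_zero]
        · have h6 : ¬ ((c : ℕ) + (n - 1) = j + i) := by omega
          rw [if_neg h6]
          have h7 : 1 ≤ (j - a) / n := (Nat.one_le_div_iff hn).2 (not_lt.1 h4)
          split_ifs
          · rw [mul_left_comm, del_lead_zero hm _ h7, mul_zero]
          · rw [mul_zero, mul_zero]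
      · have h3 : ¬ (a = n - 1 - i) := by omega
        rw [if_neg h2, if_neg h3, zero_mul, mul_zero, mul_zero]
    · have h3 : ¬ (a = n - 1 - i) := by omega
      rw [if_neg h3]
      have h7 : 1 ≤ ((i : ℕ) + a) / n := (Nat.one_le_div_iff hn).2 (not_lt.1 h1)
      rw [mul_left_comm, ← mul_assoc ((p : ZMod (p ^ m)) ^ (m - 1))]
      split_ifs
      · rw [del_lead_zero hm _ h7, zero_mul, mul_zero]
      · rw [del_lead_zero hm _ h7, zero_mul, mul_zero]
      · simp
      · simp
  rw [Finset.sum_congr rfl key, Finset.sum_ite_eq']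
  by_cases h6 : (c : ℕ) + (n - 1) = j + i
  · have hmem : n - 1 - (i : ℕ) ∈ Finset.range (j + 1) := Finset.mem_range.2 (by omega)
    rw [if_pos hmem]
  · rw [if_neg h6, ite_self]


end Pool.Agent.Helper407.PN
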