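import Mathlib
import Pool.Agent.Helper431.PN.Base
import Pool.Agent.Helper431.PN.M5a
import Pool.Agent.Helper407.PN.Defs
import Pool.Agent.Helper407.PN.PiPow
import Pool.Agent.Helper407.PN.Del2
import Pool.Agent.Helper407.PN.Del3
import Pool.Agent.Helper407.PN.L21
import Pool.Agent.Helper407.PN.L22

namespace Pool.Agent.Helper407.PN
open Polynomial Pool.Agent.Helper431.PN





theorem del_top_cube27284 (p k : ℕ) (hk : 3 ≤ k) : (p : ZMod (p ^ 3)) ^ k = 0 := by
  have h3 : (p : ZMod (p ^ 3)) ^ 3 = 0 := by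
    have := ZMod.natCast_self (p ^ 3)
    rwa [Nat.cast_pow] at this
  obtain ⟨j, rfl⟩ := Nat.exists_eq_add_of_le hk
  rw [pow_add, h3, zero_mul]

theorem del_top_conv27284 {p n q : ℕ} (hq : 1 ≤ q) (hqn : q < n) (hpq : p + q = 3 * n)
    (i c a : ℕ) (hi : i < n) (hc : c < n) (hic : c + q = n + i)
    (ha : a = n - 1 - i ∨ a = 2 * n - 1 - i) :
    n - 1 = (i + a) % n ∧ c = (p - 1 - a) % n := by
  rcases ha with ha | ha
  · have h1 : i + a = n - 1 := by omega
    have h2 : p - 1 - a = n + c := by omega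
    rw [h1, h2, Nat.add_mod_left, Nat.mod_eq_of_lt hc, Nat.mod_eq_of_lt (by omega)]
    exact ⟨rfl, rfl⟩
  · have h1 : i + a = n + (n - 1) := by omega
    have h2 : p - 1 - a = c := by omega
    rw [h1, h2, Nat.add_mod_left, Nat.mod_eq_of_lt hc, Nat.mod_eq_of_lt (by omega)]
    exact ⟨rfl, rfl⟩

theorem del_top_term27284 {p n q : ℕ} (hp : p.Prime) (hq : 1 ≤ q) (hqn : q < n)
    (hpq : p + q = 3 * n) (i c : ℕ) (hi : i < n) (hc : c < n) (hic : c + q ≤ n + i)
    (a : ℕ) (ha : a ≤ p - 1) :
    (p : ZMod (p ^ 3)) * (((-1) ^ a * ((p - 1).choose a : ZMod (p ^ 3))) *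
        ((if n - 1 = (i + a) % n then (p : ZMod (p ^ 3)) ^ ((i + a) / n) else 0) *
          (if c = (p - 1 - a) % n then (p : ZMod (p ^ 3)) ^ ((p - 1 - a) / n) else 0))) =
      if c + q = n + i ∧ (a = n - 1 - i ∨ a = 2 * n - 1 - i) then (p : ZMod (p ^ 3)) ^ 2
      else 0 := by
  have hn : 0 < n := by omega
  by_cases h1 : n - 1 = (i + a) % n
  · by_cases h2 : c = (p - 1 - a) % n
    · rw [if_pos h1, if_pos h2]
      have e1 : n * ((i + a) / n) + (i + a) % n = i + a := Nat.div_add_mod _ _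
      have e2 : n * ((p - 1 - a) / n) + (p - 1 - a) % n = p - 1 - a := Nat.div_add_mod _ _
      rw [← h1] at e1
      rw [← h2] at e2
      generalize (i + a) / n = s at *
      generalize (p - 1 - a) / n = t at *
      have e3 : n * (s + t) + c + q = 2 * n + i := by
        rw [Nat.mul_add]
        omega
      have e4 : (p : ZMod (p ^ 3)) * (((-1) ^ a * ((p - 1).choose a : ZMod (p ^ 3))) *
          ((p : ZMod (p ^ 3)) ^ s * (p : ZMod (p ^ 3)) ^ t)) =
          (p : ZMod (p ^ 3)) ^ (s + t + 1) * ((-1) ^ a * ((p - 1).choose a : ZMod (p ^ 3))) := by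
        rw [pow_succ, pow_add]
        ring
      rw [e4]
      rcases hic.lt_or_eq with hlt | heq
      · rw [if_neg (by rintro ⟨h, _⟩; omega)]
        have h5 : 2 ≤ s + t := by
          by_contra hcon
          have h6 : s + t ≤ 1 := by omega
          have h7 : n * (s + t) ≤ n * 1 := Nat.mul_le_mul_left n h6
          omega
        rw [del_top_cube27284 p _ (by omega), zero_mul]
      · have h5 : s + t = 1 := by
          apply Nat.eq_of_mul_eq_mul_left hn
          omega
        rw [h5, if_pos]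
        · exact choose_sign (m := 3) hp (by norm_num) a ha
        · refine ⟨heq, ?_⟩
          have h6 : s = 0 ∨ s = 1 := by omega
          rcases h6 with rfl | rfl
          · left
            omega
          · right
            omega
    · rw [if_neg h2, mul_zero, mul_zero, mul_zero, if_neg]
      rintro ⟨h3, h4⟩
      exact h2 (del_top_conv27284 hq hqn hpq i c a hi hc h3 h4).2
  · rw [if_neg h1, zero_mul, mul_zero, mul_zero, if_neg]
    rintro ⟨h3, h4⟩
    exact h1 (del_top_conv27284 hq hqn hpq i c a hi hc h3 h4).1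

/-- TARGET 3 (the `(p-1)`-st iterated commutator modulo `p^2`) -/
theorem del_top {p n q : ℕ} (hp : p.Prime) (hq : 1 ≤ q) (hqn : q < n) (hpq : p + q = 3 * n)
    (i c : Fin n) (hic : (c : ℕ) + q ≤ n + i) :
    (p : ZMod (p ^ 3)) * (((Del (Pi p 3 n)) ^ (p - 1) : Module.End (ZMod (p ^ 3)) _)
        (Matrix.single ⟨n - 1, by omega⟩ ⟨0, by omega⟩ 1)) i c =
      if (c : ℕ) + q = n + i then 2 * (p : ZMod (p ^ 3)) ^ 2 else 0 := by
  rw [del_entry (by omega), Finset.mul_sum]
  have hterm : ∀ a ∈ Finset.range (p - 1 + 1), (p : ZMod (p ^ 3)) *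
      (((-1) ^ a * ((p - 1).choose a : ZMod (p ^ 3))) *
        ((if n - 1 = ((i : ℕ) + a) % n then (p : ZMod (p ^ 3)) ^ (((i : ℕ) + a) / n) else 0) *
          (if (c : ℕ) = (p - 1 - a) % n then (p : ZMod (p ^ 3)) ^ ((p - 1 - a) / n) else 0))) =
      if (c : ℕ) + q = n + i ∧ (a = n - 1 - i ∨ a = 2 * n - 1 - i) then (p : ZMod (p ^ 3)) ^ 2
      else 0 := by
    intro a ha
    exact del_top_term27284 hp hq hqn hpq i c i.2 c.2 hic a
      (Nat.lt_succ_iff.mp (Finset.mem_range.mp ha))
  rw [Finset.sum_congr rfl hterm]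
  by_cases h : (c : ℕ) + q = n + i
  · have hi := i.2
    have hc := c.2
    rw [if_pos h, ← Finset.sum_filter]
    have hf : (Finset.range (p - 1 + 1)).filter
        (fun a => (c : ℕ) + q = n + i ∧ (a = n - 1 - i ∨ a = 2 * n - 1 - i)) =
        {n - 1 - (i : ℕ), 2 * n - 1 - (i : ℕ)} := by
      ext a
      rw [Finset.mem_filter, Finset.mem_range, Finset.mem_insert, Finset.mem_singleton]
      constructor
      · rintro ⟨_, _, h2⟩
        exact h2
      · intro h2
        refine ⟨?_, h, h2⟩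
        rcases h2 with h2 | h2
        · omega
        · omega
    rw [hf, Finset.sum_pair (by omega)]
    ring
  · rw [if_neg h]
    apply Finset.sum_eq_zero
    intro a _
    rw [if_neg (fun h2 => h h2.1)]

end Pool.Agent.Helper407.PN
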