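import Mathlib
import Pool.Agent.Helper431.PN.Base
import Pool.Agent.Helper431.PN.M5a
import Pool.Agent.Helper407.PN.Defs
import Pool.Agent.Helper407.PN.Poly
import Pool.Agent.Helper407.PN.Del1
import Pool.Agent.Helper407.PN.L22
import Pool.Agent.Helper407.PN.L23

namespace Pool.Agent.Helper407.PN
open Polynomial Pool.Agent.Helper431.PN





private theorem c_small_choose {p a : ℕ} (hp : p.Prime) (ha : a ≤ p - 1) :
    (p : ZMod (p ^ 2)) ^ (2 - 1) * ((-1) ^ a * ((p - 1).choose a : ZMod (p ^ 2))) ≠ 0 := by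
  intro h
  have h1 : (p : ZMod (p ^ 2)) * ((p - 1).choose a : ZMod (p ^ 2)) = 0 := by
    have h2 : (p : ZMod (p ^ 2)) * ((p - 1).choose a : ZMod (p ^ 2)) =
        (-1) ^ a * ((p : ZMod (p ^ 2)) ^ (2 - 1) *
          ((-1) ^ a * ((p - 1).choose a : ZMod (p ^ 2)))) := by
      have h3 : ((-1 : ZMod (p ^ 2)) ^ a) * (-1) ^ a = 1 := by
        rw [← mul_pow]; simp
      calc (p : ZMod (p ^ 2)) * ((p - 1).choose a : ZMod (p ^ 2)) =
          (((-1 : ZMod (p ^ 2)) ^ a) * (-1) ^ a) *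
            ((p : ZMod (p ^ 2)) * ((p - 1).choose a : ZMod (p ^ 2))) := by rw [h3, one_mul]
        _ = _ := by ring
    rw [h2, h, mul_zero]
  rw [← Nat.cast_mul, ZMod.natCast_eq_zero_iff, pow_two] at h1
  have h2 : p ∣ (p - 1).choose a := Nat.dvd_of_mul_dvd_mul_left hp.pos h1
  have h3 : p ∣ (p - 1).factorial := by
    rw [← Nat.choose_mul_factorial_mul_factorial ha]
    exact Dvd.dvd.mul_right (Dvd.dvd.mul_right h2 _) _
  rw [hp.dvd_factorial] at h3
  have := hp.pos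
  omega

/-- TARGET 1 (small primes, level 2) -/
theorem c_small {p n : ℕ} (hp : p.Prime) (hn : 2 ≤ n) (hpn : p + 1 ≤ 2 * n)
    (x : (Matrix (Fin n) (Fin n) (ZMod (p ^ 2)))ˣ)
    (hx : (x : Matrix (Fin n) (Fin n) (ZMod (p ^ 2))) = 1 + Pi p 2 n) (F : ℤ[X])
    (h : (p : ZMod (p ^ 2)) • ((aeval (Adx x) ((∑ i ∈ Finset.range p, (X : ℤ[X]) ^ i) - (p : ℤ[X]) -
      (p : ℤ[X]) * ((X - 1) * F))) (Matrix.single ⟨n - 1, by omega⟩ ⟨0, by omega⟩ 1)) = 0) :
    False := by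
  obtain ⟨g, hg⟩ := poly_sum hp
  have hpp : (p : ZMod (p ^ 2)) * p = 0 := by
    rw [← Nat.cast_mul, ← pow_two, ZMod.natCast_self]
  have e1 : (∑ i ∈ Finset.range p, (X : ℤ[X]) ^ i) - (p : ℤ[X]) - (p : ℤ[X]) * ((X - 1) * F) =
      (X - 1) ^ (p - 1) + (p : ℤ[X]) * ((X - 1) * (g - F)) := by
    rw [hg]; ring
  rw [e1] at h
  set V : Matrix (Fin n) (Fin n) (ZMod (p ^ 2)) := Matrix.single ⟨n - 1, by omega⟩ ⟨0, by omega⟩ 1
    with hV
  have e2 : aeval (Adx x) ((X - 1 : ℤ[X]) ^ (p - 1)) = (Adx x - 1) ^ (p - 1) := by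
    simp
  have e3 : ∀ G : ℤ[X], (aeval (Adx x) ((p : ℤ[X]) * G)) V =
      (p : ZMod (p ^ 2)) • (aeval (Adx x) G) V := by
    intro G
    rw [← nsmul_eq_mul, map_nsmul]
    rw [LinearMap.smul_apply]
    rw [Nat.cast_smul_eq_nsmul]
  rw [map_add, LinearMap.add_apply, e3, e2, smul_add, smul_smul, hpp, zero_smul, add_zero] at h
  have e4 : (p : ZMod (p ^ 2)) • (((Del (Pi p 2 n)) ^ (p - 1) : Module.End (ZMod (p ^ 2)) _) V)
      = 0 := by
    rw [← ad_del x (Pi p 2 n) hx (p - 1) V, ← Matrix.mul_smul, h, Matrix.mul_zero]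
  have e5 : ∀ i c : Fin n, (p : ZMod (p ^ 2)) ^ (2 - 1) *
      (((Del (Pi p 2 n)) ^ (p - 1) : Module.End (ZMod (p ^ 2)) _) V) i c = 0 := by
    intro i c
    have := congrFun (congrFun e4 i) c
    rw [Matrix.smul_apply, smul_eq_mul] at this
    simpa using this
  have hp2 := hp.two_le
  rcases le_or_gt n p with hnp | hnp
  · have h6 := e5 ⟨0, by omega⟩ ⟨p - n, by omega⟩
    rw [del_lead (by norm_num) (by omega), if_pos (by simp; omega)] at h6
    exact c_small_choose hp (by simp; omega) h6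
  · have h6 := e5 ⟨n - p, by omega⟩ ⟨0, by omega⟩
    rw [del_lead (by norm_num) (by omega), if_pos (by simp; omega)] at h6
    exact c_small_choose hp (by simp; omega) h6


end Pool.Agent.Helper407.PN
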