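import Mathlib
import Pool.Agent.Helper431.PN.Base
import Pool.Agent.Helper431.PN.M5a
import Pool.Agent.Helper407.PN.Defs
import Pool.Agent.Helper407.PN.Poly
import Pool.Agent.Helper407.PN.Del1
import Pool.Agent.Helper407.PN.L22
import Pool.Agent.Helper407.PN.L23
import Pool.Agent.Helper407.PN.Fin1

namespace Pool.Agent.Helper407.PN
open Polynomial Pool.Agent.Helper431.PN





theorem lev_step {p n : ℕ} (k : ℕ) (W : Matrix (Fin n) (Fin n) (ZMod (p ^ 3)))
    (hW : ∀ i c : Fin n, (c : ℕ) + (n - 1) < k + i → (p : ZMod (p ^ 3)) ^ 2 * W i c = 0) :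
    (∀ i c : Fin n, (c : ℕ) + (n - 1) ≤ k + i →
      (p : ZMod (p ^ 3)) ^ 2 * ((1 + Pi p 3 n) * W) i c = (p : ZMod (p ^ 3)) ^ 2 * W i c) := by
  have hp3 : (p : ZMod (p ^ 3)) ^ 2 * (p : ZMod (p ^ 3)) = 0 := by
    rw [← pow_succ]
    have := ZMod.natCast_self (p ^ 3)
    push_cast at this
    exact this
  intro i c hic
  rw [Matrix.add_mul, Matrix.one_mul, Matrix.add_apply, mul_add]
  have h0 : (p : ZMod (p ^ 3)) ^ 2 * (Pi p 3 n * W) i c = 0 := by
    rw [Matrix.mul_apply, Finset.mul_sum]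
    apply Finset.sum_eq_zero
    intro d _
    unfold Pi
    rw [Matrix.of_apply]
    by_cases hd : (d : ℕ) = i + 1
    · rw [if_pos hd, one_mul]
      exact hW d c (by omega)
    · rw [if_neg hd]
      by_cases hd' : (d : ℕ) = 0 ∧ (i : ℕ) + 1 = n
      · rw [if_pos hd', ← mul_assoc, hp3, zero_mul]
      · rw [if_neg hd', zero_mul, mul_zero]
  rw [h0, add_zero]

/-- TARGET 2 (multiplication by powers of `1+Pi` does not change the leading part) -/
theorem lev_mul {p n : ℕ} (k s : ℕ) (W : Matrix (Fin n) (Fin n) (ZMod (p ^ 3)))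
    (hW : ∀ i c : Fin n, (c : ℕ) + (n - 1) < k + i → (p : ZMod (p ^ 3)) ^ 2 * W i c = 0) :
    (∀ i c : Fin n, (c : ℕ) + (n - 1) < k + i →
      (p : ZMod (p ^ 3)) ^ 2 * ((1 + Pi p 3 n) ^ s * W) i c = 0) ∧
    (∀ i c : Fin n, (c : ℕ) + (n - 1) = k + i →
      (p : ZMod (p ^ 3)) ^ 2 * ((1 + Pi p 3 n) ^ s * W) i c = (p : ZMod (p ^ 3)) ^ 2 * W i c) := by
  induction s with
  | zero =>
    rw [pow_zero, Matrix.one_mul]
    exact ⟨hW, fun _ _ _ => rfl⟩
  | succ s ih =>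
    obtain ⟨ih1, ih2⟩ := ih
    have hst := lev_step k ((1 + Pi p 3 n) ^ s * W) ih1
    have he : (1 + Pi p 3 n) ^ (s + 1) * W = (1 + Pi p 3 n) * ((1 + Pi p 3 n) ^ s * W) := by
      rw [pow_succ' (1 + Pi p 3 n) s, Matrix.mul_assoc]
    rw [he]
    refine ⟨fun i c hic => ?_, fun i c hic => ?_⟩
    · rw [hst i c hic.le]
      exact ih1 i c hic
    · rw [hst i c hic.le]
      exact ih2 i c hic



end Pool.Agent.Helper407.PN
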