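import Mathlib
import Pool.Agent.Helper431.PN.Base
import Pool.Agent.Helper431.PN.M5a
import Pool.Agent.Helper407.PN.Defs
import Pool.Agent.Helper407.PN.Poly
import Pool.Agent.Helper407.PN.Del1
import Pool.Agent.Helper407.PN.L22
import Pool.Agent.Helper407.PN.L23
import Pool.Agent.Helper407.PN.Fin1
import Pool.Agent.Helper407.PN.Fin2

namespace Pool.Agent.Helper407.PN
open Polynomial Pool.Agent.Helper431.PN





/-- TARGET 3 -/
theorem c_key {p n : ℕ} (hp : p.Prime) (hn : 0 < n) (hpn : 2 * n < p)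
    (x : (Matrix (Fin n) (Fin n) (ZMod (p ^ 3)))ˣ)
    (hx : (x : Matrix (Fin n) (Fin n) (ZMod (p ^ 3))) = 1 + Pi p 3 n) (F : ℤ[X])
    (h : (p : ZMod (p ^ 3)) • ((aeval (Adx x) ((∑ i ∈ Finset.range p, (X : ℤ[X]) ^ i) - (p : ℤ[X]) -
      (p : ℤ[X]) * ((X - 1) * F))) (Matrix.single ⟨n - 1, by omega⟩ ⟨0, hn⟩ 1)) = 0) :
    ∃ t : ℕ → ℤ, ∀ i c : Fin n,
      (p : ZMod (p ^ 3)) * (((Del (Pi p 3 n)) ^ (p - 1) : Module.End (ZMod (p ^ 3)) _)
        (Matrix.single ⟨n - 1, by omega⟩ ⟨0, hn⟩ 1)) i c +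
      ∑ k ∈ Finset.range (p - 1), (t k : ZMod (p ^ 3)) * ((p : ZMod (p ^ 3)) ^ 2 *
        ((1 + Pi p 3 n) ^ (p - 1 - (k + 1)) *
          (((Del (Pi p 3 n)) ^ (k + 1) : Module.End (ZMod (p ^ 3)) _)
            (Matrix.single ⟨n - 1, by omega⟩ ⟨0, hn⟩ 1))) i c) = 0 := by
  obtain ⟨g, hg⟩ := poly_sum hp
  set T : Module.End (ZMod (p ^ 3)) (Matrix (Fin n) (Fin n) (ZMod (p ^ 3))) := Adx x with hT
  set D : Module.End (ZMod (p ^ 3)) (Matrix (Fin n) (Fin n) (ZMod (p ^ 3))) := T - 1 with hD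
  set V : Matrix (Fin n) (Fin n) (ZMod (p ^ 3)) :=
    Matrix.single ⟨n - 1, by omega⟩ ⟨0, hn⟩ 1 with hV
  set w : ℤ[X] := g - F with hw
  set q : ℤ[X] := w.comp (X + 1) with hq
  have hpoly : (∑ i ∈ Finset.range p, (X : ℤ[X]) ^ i) - (p : ℤ[X]) -
      (p : ℤ[X]) * ((X - 1) * F) = (X - 1) ^ (p - 1) + (p : ℤ[X]) * ((X - 1) * w) := by
    rw [hg, hw]
    ring
  have hwq : w = q.comp (X - 1) := by
    rw [hq, Polynomial.comp_assoc]
    simp
  have hDT : aeval T (X - 1 : ℤ[X]) = D := by simp [hD]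
  have haw : aeval T w = aeval D q := by
    rw [hwq, aeval_comp, hDT]
  have hN : q.natDegree < q.natDegree + 1 + (p - 1) := by omega
  have haq : aeval D q = ∑ l ∈ Finset.range (q.natDegree + 1 + (p - 1)), q.coeff l • D ^ l :=
    aeval_eq_sum_range' hN D
  rw [hpoly, map_add, map_mul, map_mul, map_pow, hDT, haw, haq, map_natCast] at h
  have hsum : (D * ∑ l ∈ Finset.range (q.natDegree + 1 + (p - 1)), q.coeff l • D ^ l) V =
      ∑ l ∈ Finset.range (q.natDegree + 1 + (p - 1)),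
        (q.coeff l : ZMod (p ^ 3)) • (D ^ (l + 1)) V := by
    rw [Finset.mul_sum, LinearMap.sum_apply]
    apply Finset.sum_congr rfl
    intro l _
    rw [mul_smul_comm, ← pow_succ', LinearMap.smul_apply, Int.cast_smul_eq_zsmul]
  have hpe : ∀ W : Matrix (Fin n) (Fin n) (ZMod (p ^ 3)),
      ((p : Module.End (ZMod (p ^ 3)) (Matrix (Fin n) (Fin n) (ZMod (p ^ 3))))) W =
        (p : ZMod (p ^ 3)) • W := by
    intro W
    rw [Module.End.natCast_apply, Nat.cast_smul_eq_nsmul]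
  rw [LinearMap.add_apply, Module.End.mul_apply _ (D * _) V, hsum, hpe, smul_add, smul_smul,
    ← pow_two] at h
  have hvan : (p : ZMod (p ^ 3)) ^ 2 • ((D ^ (p - 1)) V) = 0 := by
    have h2 := ad_del x (Pi p 3 n) hx (p - 1) V
    have h3 : (p : ZMod (p ^ 3)) ^ 2 • (((Del (Pi p 3 n)) ^ (p - 1) :
        Module.End (ZMod (p ^ 3)) _) V) = 0 := by
      ext i c
      rw [Matrix.smul_apply, smul_eq_mul, Matrix.zero_apply]
      have h4 := del_lead (p := p) (m := 3) (n := n) (by norm_num) hn (p - 1) i c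
      rw [if_neg (by omega)] at h4
      exact h4
    have h5 : ((x ^ (p - 1) : (Matrix (Fin n) (Fin n) (ZMod (p ^ 3)))ˣ) :
        Matrix (Fin n) (Fin n) (ZMod (p ^ 3))) *
        ((p : ZMod (p ^ 3)) ^ 2 • ((D ^ (p - 1)) V)) = 0 := by
      rw [Matrix.mul_smul, Units.val_pow_eq_pow_val, h2, h3]
    exact (Units.mul_right_eq_zero (x ^ (p - 1))).mp h5
  have hvan2 : ∀ l, p - 1 ≤ l → (p : ZMod (p ^ 3)) ^ 2 • ((D ^ (l + 1)) V) = 0 := by
    intro l hl
    have h2 : D ^ (l + 1) = D ^ (l + 1 - (p - 1)) * D ^ (p - 1) := by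
      rw [← pow_add]
      congr 1
      omega
    rw [h2, Module.End.mul_apply, ← map_smul, hvan, map_zero]
  have hx' : ∀ l, l + 1 ≤ p - 1 →
      (x : Matrix (Fin n) (Fin n) (ZMod (p ^ 3))) ^ (p - 1) * ((D ^ (l + 1)) V) =
        (1 + Pi p 3 n) ^ (p - 1 - (l + 1)) *
          (((Del (Pi p 3 n)) ^ (l + 1) : Module.End (ZMod (p ^ 3)) _) V) := by
    intro l hl
    have h2 := ad_del x (Pi p 3 n) hx (l + 1) V
    have h3 : (x : Matrix (Fin n) (Fin n) (ZMod (p ^ 3))) ^ (p - 1) =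
        (x : Matrix (Fin n) (Fin n) (ZMod (p ^ 3))) ^ (p - 1 - (l + 1)) *
          (x : Matrix (Fin n) (Fin n) (ZMod (p ^ 3))) ^ (l + 1) := by
      rw [← pow_add]
      congr 1
      omega
    rw [h3, mul_assoc, h2, hx]
  -- multiply by x ^ (p - 1)
  have h7 := congrArg (fun W => (x : Matrix (Fin n) (Fin n) (ZMod (p ^ 3))) ^ (p - 1) * W) h
  beta_reduce at h7
  rw [Matrix.mul_add, Matrix.mul_smul, Matrix.mul_smul, Matrix.mul_sum,
    ad_del x (Pi p 3 n) hx (p - 1) V, Matrix.mul_zero, Finset.smul_sum] at h7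
  have h8 : ∑ l ∈ Finset.range (q.natDegree + 1 + (p - 1)), (p : ZMod (p ^ 3)) ^ 2 •
      ((x : Matrix (Fin n) (Fin n) (ZMod (p ^ 3))) ^ (p - 1) *
        ((q.coeff l : ZMod (p ^ 3)) • (D ^ (l + 1)) V)) =
      ∑ k ∈ Finset.range (p - 1), (q.coeff k : ZMod (p ^ 3)) • ((p : ZMod (p ^ 3)) ^ 2 •
        ((1 + Pi p 3 n) ^ (p - 1 - (k + 1)) *
          (((Del (Pi p 3 n)) ^ (k + 1) : Module.End (ZMod (p ^ 3)) _) V))) := by
    rw [← Finset.sum_subset (Finset.range_subset_range.mpr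
      (show p - 1 ≤ q.natDegree + 1 + (p - 1) by omega))]
    · apply Finset.sum_congr rfl
      intro k hk
      rw [Finset.mem_range] at hk
      rw [Matrix.mul_smul, hx' k (by omega), smul_comm]
    · intro l _ hl
      rw [Finset.mem_range, not_lt] at hl
      rw [Matrix.mul_smul, smul_comm, ← Matrix.mul_smul, hvan2 l hl, Matrix.mul_zero, smul_zero]
  rw [h8] at h7
  refine ⟨fun k => q.coeff k, fun i c => ?_⟩
  have h9 := congrFun (congrFun h7 i) c
  rw [Matrix.add_apply, Matrix.smul_apply, Matrix.sum_apply, Matrix.zero_apply, smul_eq_mul] at h9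
  exact h9

end Pool.Agent.Helper407.PN
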