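import Mathlib
import Pool.Agent.Helper431.PN.Base
import Pool.Agent.Helper431.PN.M5a
import Pool.Agent.Helper407.PN.Defs
import Pool.Agent.Helper407.PN.Poly
import Pool.Agent.Helper407.PN.Del1
import Pool.Agent.Helper407.PN.L22
import Pool.Agent.Helper407.PN.L23
import Pool.Agent.Helper407.PN.Fin1
import Pool.Agent.Helper407.PN.Fin2
import Pool.Agent.Helper407.PN.Fin3

namespace Pool.Agent.Helper407.PN
open Polynomial Pool.Agent.Helper431.PN





theorem c_big_F1 {p : ℕ} (hp : p.Prime) (z : ℤ) :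
    (z : ZMod (p ^ 3)) * (p : ZMod (p ^ 3)) ^ 2 = 0 ↔ (p : ℤ) ∣ z := by
  have h : (z : ZMod (p ^ 3)) * (p : ZMod (p ^ 3)) ^ 2 =
      ((z * (p : ℤ) ^ 2 : ℤ) : ZMod (p ^ 3)) := by
    push_cast
    rfl
  rw [h, CharP.intCast_eq_zero_iff (ZMod (p ^ 3)) (p ^ 3)]
  have hp0 : (p : ℤ) ^ 2 ≠ 0 := by
    have := hp.pos
    positivity
  have e : ((p ^ 3 : ℕ) : ℤ) = (p : ℤ) * (p : ℤ) ^ 2 := by
    push_cast
    ring
  rw [e]
  exact mul_dvd_mul_iff_right hp0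

theorem c_big_choose {p m a : ℕ} (hp : p.Prime) (hm : m < p) (ha : a ≤ m) :
    ¬ p ∣ m.choose a := by
  intro h
  have h1 : m.choose a ∣ m.factorial := by
    rw [← Nat.choose_mul_factorial_mul_factorial ha, mul_assoc]
    exact dvd_mul_right _ _
  have h2 := (hp.dvd_factorial).mp (h.trans h1)
  omega

theorem c_big_F2 {p m a b : ℕ} (hp : p.Prime) (hm : m < p) (ha : a ≤ m) (z : ℤ)
    (h : (z : ZMod (p ^ 3)) * ((p : ZMod (p ^ 3)) ^ 2 *
      ((-1) ^ b * (m.choose a : ZMod (p ^ 3)))) = 0) : (p : ℤ) ∣ z := by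
  have h1 : ((z * (m.choose a : ℤ) : ℤ) : ZMod (p ^ 3)) * (p : ZMod (p ^ 3)) ^ 2 = 0 := by
    have h2 : ((-1 : ZMod (p ^ 3)) ^ b) * (-1) ^ b = 1 := by
      rw [← mul_pow]
      simp
    have h3 := congrArg (fun y => (-1 : ZMod (p ^ 3)) ^ b * y) h
    simp only [mul_zero] at h3
    rw [← h3]
    push_cast
    linear_combination (-((z : ZMod (p ^ 3)) * (m.choose a : ZMod (p ^ 3)) * p ^ 2)) * h2
  have h4 := (c_big_F1 hp _).mp h1
  have hpI : Prime (p : ℤ) := Nat.prime_iff_prime_int.mp hp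
  rcases hpI.dvd_or_dvd h4 with h5 | h5
  · exact h5
  · exact absurd (Int.natCast_dvd_natCast.mp h5) (c_big_choose hp hm ha)

theorem c_big_sum {p : ℕ} (hp : p.Prime) (f : ℕ → ZMod (p ^ 3)) (t : ℕ → ℤ) (k : ℕ)
    (hk : k < p - 1) (h1 : ∀ k' < k, (p : ℤ) ∣ t k')
    (h2 : ∀ k', k < k' → (p : ZMod (p ^ 3)) ^ 2 * f k' = 0) :
    ∑ k' ∈ Finset.range (p - 1), (t k' : ZMod (p ^ 3)) * ((p : ZMod (p ^ 3)) ^ 2 * f k') =
      (t k : ZMod (p ^ 3)) * ((p : ZMod (p ^ 3)) ^ 2 * f k) := by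
  apply Finset.sum_eq_single k
  · intro k' _ hne
    rcases lt_or_gt_of_ne hne with h | h
    · rw [← mul_assoc, (c_big_F1 hp (t k')).mpr (h1 k' h), zero_mul]
    · rw [h2 k' h, mul_zero]
  · intro h
    exact absurd (Finset.mem_range.mpr hk) h

/-- TARGET 4 -/
theorem c_big {p n q : ℕ} (hp : p.Prime) (hq : 2 ≤ q) (hqn : q < n) (hpq : p + q = 3 * n)
    (t : ℕ → ℤ)
    (ht : ∀ i c : Fin n,
      (p : ZMod (p ^ 3)) * (((Del (Pi p 3 n)) ^ (p - 1) : Module.End (ZMod (p ^ 3)) _)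
        (Matrix.single ⟨n - 1, by omega⟩ ⟨0, by omega⟩ 1)) i c +
      ∑ k ∈ Finset.range (p - 1), (t k : ZMod (p ^ 3)) * ((p : ZMod (p ^ 3)) ^ 2 *
        ((1 + Pi p 3 n) ^ (p - 1 - (k + 1)) *
          (((Del (Pi p 3 n)) ^ (k + 1) : Module.End (ZMod (p ^ 3)) _)
            (Matrix.single ⟨n - 1, by omega⟩ ⟨0, by omega⟩ 1))) i c) = 0) : False := by
  have hn : 0 < n := by omega
  have hW : ∀ k : ℕ, ∀ i c : Fin n, (c : ℕ) + (n - 1) < (k + 1) + i →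
      (p : ZMod (p ^ 3)) ^ 2 * (((Del (Pi p 3 n)) ^ (k + 1) : Module.End (ZMod (p ^ 3)) _)
        (Matrix.single ⟨n - 1, by omega⟩ ⟨0, by omega⟩ 1)) i c = 0 := by
    intro k i c h
    have h1 := del_lead (p := p) (m := 3) (by norm_num) hn (k + 1) i c
    rw [if_neg (by omega)] at h1
    exact h1
  have hf0 : ∀ k : ℕ, ∀ i c : Fin n, (c : ℕ) + (n - 1) < (k + 1) + i →
      (p : ZMod (p ^ 3)) ^ 2 * ((1 + Pi p 3 n) ^ (p - 1 - (k + 1)) *
          (((Del (Pi p 3 n)) ^ (k + 1) : Module.End (ZMod (p ^ 3)) _)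
            (Matrix.single ⟨n - 1, by omega⟩ ⟨0, by omega⟩ 1))) i c = 0 := by
    intro k i c h
    exact (lev_mul (k + 1) (p - 1 - (k + 1)) _ (hW k)).1 i c h
  have hf1 : ∀ k : ℕ, ∀ i c : Fin n, (c : ℕ) + (n - 1) = (k + 1) + i →
      (p : ZMod (p ^ 3)) ^ 2 * ((1 + Pi p 3 n) ^ (p - 1 - (k + 1)) *
          (((Del (Pi p 3 n)) ^ (k + 1) : Module.End (ZMod (p ^ 3)) _)
            (Matrix.single ⟨n - 1, by omega⟩ ⟨0, by omega⟩ 1))) i c =
      (p : ZMod (p ^ 3)) ^ 2 * ((-1) ^ (n - 1 - (i : ℕ)) *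
        ((k + 1).choose (n - 1 - i) : ZMod (p ^ 3))) := by
    intro k i c h
    rw [(lev_mul (k + 1) (p - 1 - (k + 1)) _ (hW k)).2 i c h]
    have h1 := del_lead (p := p) (m := 3) (by norm_num) hn (k + 1) i c
    rw [if_pos h] at h1
    exact h1
  -- the value of the sum at an entry of level `k + 1`
  have hval : ∀ k : ℕ, k < p - 1 → (∀ k' < k, (p : ℤ) ∣ t k') → ∀ i c : Fin n,
      (c : ℕ) + (n - 1) = (k + 1) + i →
      (p : ZMod (p ^ 3)) * (((Del (Pi p 3 n)) ^ (p - 1) : Module.End (ZMod (p ^ 3)) _)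
        (Matrix.single ⟨n - 1, by omega⟩ ⟨0, by omega⟩ 1)) i c +
      (t k : ZMod (p ^ 3)) * ((p : ZMod (p ^ 3)) ^ 2 * ((-1) ^ (n - 1 - (i : ℕ)) *
        ((k + 1).choose (n - 1 - i) : ZMod (p ^ 3)))) = 0 := by
    intro k hk hdiv i c hic
    have h1 := c_big_sum hp (fun k => ((1 + Pi p 3 n) ^ (p - 1 - (k + 1)) *
          (((Del (Pi p 3 n)) ^ (k + 1) : Module.End (ZMod (p ^ 3)) _)
            (Matrix.single ⟨n - 1, by omega⟩ ⟨0, by omega⟩ 1))) i c) t k hk hdiv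
            (fun k' hk' => hf0 k' i c (by omega))
    have h2 := ht i c
    rw [h1, hf1 k i c hic] at h2
    exact h2
  have hdiv : ∀ k : ℕ, k + 1 < 2 * n - q - 1 → (p : ℤ) ∣ t k := by
    intro k
    induction k using Nat.strong_induction_on with
    | _ k ih =>
      intro hk
      have hprev : ∀ k' < k, (p : ℤ) ∣ t k' := fun k' hk' => ih k' hk' (by omega)
      obtain ⟨i, c, hic, hi⟩ : ∃ i c : Fin n, (c : ℕ) + (n - 1) = (k + 1) + i ∧
          n - 1 - (i : ℕ) ≤ k + 1 := by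
        by_cases h : k + 1 ≤ n - 1
        · exact ⟨⟨n - 1 - (k + 1), by omega⟩, ⟨0, hn⟩, by simp only; omega, by simp only; omega⟩
        · exact ⟨⟨0, hn⟩, ⟨k + 1 - (n - 1), by omega⟩, by simp only; omega, by simp only; omega⟩
      have h1 := hval k (by omega) hprev i c hic
      rw [del_top hp (by omega) hqn hpq i c (by omega), if_neg (by omega), zero_add] at h1
      exact c_big_F2 hp (by omega) hi _ h1
  have hprev : ∀ k' < 2 * n - q - 2, (p : ℤ) ∣ t k' := fun k' hk' => hdiv k' (by omega)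
  have hA := hval (2 * n - q - 2) (by omega) hprev ⟨0, hn⟩ ⟨n - q, by omega⟩
    (by simp only; omega)
  have hB := hval (2 * n - q - 2) (by omega) hprev ⟨1, by omega⟩ ⟨n - q + 1, by omega⟩
    (by simp only; omega)
  rw [del_top hp (by omega) hqn hpq _ _ (by simp only; omega), if_pos (by simp only; omega)] at hA hB
  simp only at hA hB
  obtain ⟨e, he⟩ : ∃ e, 2 * n - q - 2 + 1 = e := ⟨_, rfl⟩
  rw [he] at hA hB
  obtain ⟨r, hr⟩ : ∃ r, n = r + 2 := ⟨n - 2, by omega⟩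
  have e1 : n - 1 - 0 = r + 1 := by omega
  have e2 : n - 1 - 1 = r := by omega
  rw [e1] at hA
  rw [e2] at hB
  have hC : (t (2 * n - q - 2) : ZMod (p ^ 3)) * ((p : ZMod (p ^ 3)) ^ 2 *
      ((-1) ^ r * ((e + 1).choose (r + 1) : ZMod (p ^ 3)))) = 0 := by
    rw [Nat.choose_succ_succ]
    push_cast
    rw [pow_succ (-1 : ZMod (p ^ 3)) r] at hA
    linear_combination hB - hA
  have h1 : (p : ℤ) ∣ t (2 * n - q - 2) := c_big_F2 hp (by omega) (by omega) _ hC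
  have h2 : (t (2 * n - q - 2) : ZMod (p ^ 3)) * (p : ZMod (p ^ 3)) ^ 2 = 0 :=
    (c_big_F1 hp _).mpr h1
  rw [← mul_assoc, h2, zero_mul, add_zero] at hA
  have h3 : (p : ℤ) ∣ 2 := by
    apply (c_big_F1 hp 2).mp
    exact_mod_cast hA
  have h4 : (p : ℤ) ≤ 2 := Int.le_of_dvd (by norm_num) h3
  omega

end Pool.Agent.Helper407.PN
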