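import Mathlib
import Pool.Agent.Helper431.PN.Base
import Pool.Agent.Helper431.PN.M5a
import Pool.Agent.Helper407.PN.Defs
import Pool.Agent.Helper407.PN.A
import Pool.Agent.Helper407.PN.Ad1
import Pool.Agent.Helper407.PN.Ad2
import Pool.Agent.Helper407.PN.Ad3
import Pool.Agent.Helper407.PN.Ad4

namespace Pool.Agent.Helper407.PN
open Polynomial Pool.Agent.Helper431.PN





/-- TARGET 1 -/
theorem reg2 {p n : ℕ} (hp : p.Prime) (hreg : IsRegular p (PGroup p 2 n)) (x : PGroup p 2 n)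
    (V : Matrix (Fin n) (Fin n) (ZMod (p ^ 2))) :
    ∃ F : ℤ[X], (p : ZMod (p ^ 2)) • ((aeval (Adx (x : (Matrix (Fin n) (Fin n) (ZMod (p ^ 2)))ˣ))
      ((∑ i ∈ Finset.range p, (X : ℤ[X]) ^ i) - (p : ℤ[X]) - (p : ℤ[X]) * ((X - 1) * F))) V) = 0 := by
  haveI : NeZero p := ⟨hp.pos.ne'⟩
  haveI : NeZero (p ^ 2) := ⟨(pow_pos hp.pos 2).ne'⟩
  have hIsP : IsP p 2 n (1 + (p : ZMod (p ^ 2)) • V) := by
    rw [isP_iff]
    intro i j _
    rw [add_sub_cancel_left, Matrix.smul_apply, smul_eq_mul]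
    exact Dvd.intro _ rfl
  obtain ⟨y, hy, hyV⟩ := mem_of_isP hp (show 1 ≤ 2 by norm_num) _ hIsP
  have hq : (p : ZMod (p ^ 2)) * (p : ZMod (p ^ 2)) = 0 := by
    have h1 : ((p ^ 2 : ℕ) : ZMod (p ^ 2)) = 0 := ZMod.natCast_self _
    rw [← h1]
    push_cast
    ring
  obtain ⟨u, hu, huV⟩ := ad_data (x : (Matrix (Fin n) (Fin n) (ZMod (p ^ 2)))ˣ) V _ hq
  have hu1 : u 1 = y := by
    apply Units.ext
    rw [huV 1, map_one, Module.End.one_apply, hyV]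
  have hgood : GoodPair p (x : (Matrix (Fin n) (Fin n) (ZMod (p ^ 2)))ˣ) (u 1) := by
    rw [hu1]
    exact good_coe _ x ⟨y, hy⟩ (hreg x ⟨y, hy⟩)
  obtain ⟨F, hF⟩ := hu.good hgood
  refine ⟨F, ?_⟩
  have h2 := huV ((∑ i ∈ Finset.range p, X ^ i) - (p : ℤ[X]) - (p : ℤ[X]) * ((X - 1) * F))
  rw [hF, Units.val_one] at h2
  exact left_eq_add.mp h2


end Pool.Agent.Helper407.PN
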