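import Mathlib
import Pool.Agent.Helper431.PN.Base
import Pool.Agent.Helper431.PN.M5a
import Pool.Agent.Helper407.PN.Defs
import Pool.Agent.Helper407.PN.A
import Pool.Agent.Helper407.PN.Ad1
import Pool.Agent.Helper407.PN.Ad2
import Pool.Agent.Helper407.PN.Ad3
import Pool.Agent.Helper407.PN.Ad4
import Pool.Agent.Helper407.PN.Reg1

namespace Pool.Agent.Helper407.PN
open Polynomial Pool.Agent.Helper431.PN





theorem comm_lift_ker {p : ℕ} (hp : p.Prime) (a : ZMod (p ^ 3))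
    (h : ZMod.castHom (pow_dvd_pow p (by norm_num : 2 ≤ 3)) (ZMod (p ^ 2)) a = 0) :
    ∃ z : ZMod (p ^ 3), a = ((p : ZMod (p ^ 3)) * (p : ZMod (p ^ 3))) * z := by
  haveI : NeZero (p ^ 3) := ⟨pow_ne_zero _ hp.ne_zero⟩
  have ha : ((a.val : ℕ) : ZMod (p ^ 3)) = a := ZMod.natCast_zmod_val a
  rw [← ha, map_natCast, ZMod.natCast_eq_zero_iff] at h
  obtain ⟨k, hk⟩ := h
  refine ⟨(k : ZMod (p ^ 3)), ?_⟩
  rw [← ha, hk]
  push_cast
  ring

theorem comm_lift_Adx {n : ℕ} {R S : Type*} [CommRing R] [CommRing S] (φ : R →+* S)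
    (x : (Matrix (Fin n) (Fin n) R)ˣ) (W : Matrix (Fin n) (Fin n) R) :
    φ.mapMatrix (Adx x W) =
      Adx (Units.map (φ.mapMatrix (m := Fin n) : Matrix (Fin n) (Fin n) R →* _) x) (φ.mapMatrix W) := by
  change φ.mapMatrix ((↑x⁻¹ : Matrix (Fin n) (Fin n) R) * W * (x : Matrix (Fin n) (Fin n) R)) =
    ((Units.map (φ.mapMatrix (m := Fin n) : Matrix (Fin n) (Fin n) R →* _) x)⁻¹ :
      (Matrix (Fin n) (Fin n) S)ˣ).val * (φ.mapMatrix W) *
      (Units.map (φ.mapMatrix (m := Fin n) : Matrix (Fin n) (Fin n) R →* _) x).val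
  rw [← map_inv, Units.coe_map, Units.coe_map, map_mul, map_mul]
  rfl

theorem comm_lift_aeval {n : ℕ} {R S : Type*} [CommRing R] [CommRing S] (φ : R →+* S)
    (x : (Matrix (Fin n) (Fin n) R)ˣ) (f : ℤ[X]) (W : Matrix (Fin n) (Fin n) R) :
    φ.mapMatrix (aeval (Adx x) f W) =
      aeval (Adx (Units.map (φ.mapMatrix (m := Fin n) : Matrix (Fin n) (Fin n) R →* _) x)) f
        (φ.mapMatrix W) := by
  obtain ⟨x', hx'⟩ : ∃ x' : (Matrix (Fin n) (Fin n) S)ˣ, x' = Units.map (φ.mapMatrix (m := Fin n) : Matrix (Fin n) (Fin n) R →* _) x :=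
    ⟨_, rfl⟩
  have hA : ∀ W, φ.mapMatrix (Adx x W) = Adx x' (φ.mapMatrix W) := by
    rw [hx']; exact comm_lift_Adx φ x
  rw [← hx']
  have hpow : ∀ (k : ℕ) (W : Matrix (Fin n) (Fin n) R),
      φ.mapMatrix (((Adx x) ^ k) W) = ((Adx x') ^ k) (φ.mapMatrix W) := by
    intro k
    induction k with
    | zero => intro W; rfl
    | succ k ih =>
      intro W
      rw [pow_succ, pow_succ, Module.End.mul_apply, Module.End.mul_apply, ih, hA]
  induction f using Polynomial.induction_on' with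
  | add f g hf hg =>
    rw [map_add, map_add, LinearMap.add_apply, LinearMap.add_apply, map_add, hf, hg]
  | monomial k a =>
    rw [aeval_monomial, aeval_monomial, Module.End.mul_apply, Module.End.mul_apply, ← hpow]
    simp only [algebraMap_int_eq, eq_intCast, Module.End.intCast_apply]
    rw [map_zsmul]

/-- TARGET 2 -/
theorem comm_lift {p n : ℕ} (hp : p.Prime) (x y : (Matrix (Fin n) (Fin n) (ZMod (p ^ 3)))ˣ)
    (V : Matrix (Fin n) (Fin n) (ZMod (p ^ 3)))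
    (hy : (y : Matrix (Fin n) (Fin n) (ZMod (p ^ 3))) = 1 + (p : ZMod (p ^ 3)) • V)
    (c : (Matrix (Fin n) (Fin n) (ZMod (p ^ 3)))ˣ)
    (hc : c ∈ ⁅Subgroup.closure ({x, y} : Set (Matrix (Fin n) (Fin n) (ZMod (p ^ 3)))ˣ),
      Subgroup.closure ({x, y} : Set (Matrix (Fin n) (Fin n) (ZMod (p ^ 3)))ˣ)⁆) :
    ∃ (w : ℤ[X]) (Z : Matrix (Fin n) (Fin n) (ZMod (p ^ 3))),
      (c : Matrix (Fin n) (Fin n) (ZMod (p ^ 3))) =
        1 + (p : ZMod (p ^ 3)) • ((aeval (Adx x) ((X - 1) * w)) V) +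
          ((p : ZMod (p ^ 3)) * p) • Z := by
  classical
  haveI : NeZero (p ^ 2) := ⟨pow_ne_zero _ hp.ne_zero⟩
  haveI : NeZero (p ^ 3) := ⟨pow_ne_zero _ hp.ne_zero⟩
  obtain ⟨φ, hφ⟩ : ∃ φ : ZMod (p ^ 3) →+* ZMod (p ^ 2),
    φ = ZMod.castHom (pow_dvd_pow p (by norm_num : 2 ≤ 3)) (ZMod (p ^ 2)) := ⟨_, rfl⟩
  let M : Matrix (Fin n) (Fin n) (ZMod (p ^ 3)) →+* Matrix (Fin n) (Fin n) (ZMod (p ^ 2)) :=
    φ.mapMatrix
  let ψ : (Matrix (Fin n) (Fin n) (ZMod (p ^ 3)))ˣ →* (Matrix (Fin n) (Fin n) (ZMod (p ^ 2)))ˣ :=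
    Units.map (M : Matrix (Fin n) (Fin n) (ZMod (p ^ 3)) →* Matrix (Fin n) (Fin n) (ZMod (p ^ 2)))
  have hM : ∀ (r : ZMod (p ^ 3)) (W : Matrix (Fin n) (Fin n) (ZMod (p ^ 3))), M (r • W) = φ r • M W := by
    intro r W
    ext i j
    change φ (r * W i j) = φ r * φ (W i j)
    exact map_mul φ _ _
  have hpp : (p : ZMod (p ^ 2)) * (p : ZMod (p ^ 2)) = 0 := by
    rw [← Nat.cast_mul, ← sq]
    exact ZMod.natCast_self _
  obtain ⟨u, hu1, hu2⟩ := ad_data (ψ x) (M V) (p : ZMod (p ^ 2)) hpp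
  have huy : u 1 = ψ y := by
    apply Units.ext
    rw [hu2, map_one]
    change _ = M (y : Matrix (Fin n) (Fin n) (ZMod (p ^ 3)))
    rw [hy, map_add, map_one, hM, map_natCast]
    rfl
  have hc2 : ψ c ∈ ⁅Subgroup.closure ({ψ x, u 1} : Set (Matrix (Fin n) (Fin n) (ZMod (p ^ 2)))ˣ),
      Subgroup.closure ({ψ x, u 1} : Set (Matrix (Fin n) (Fin n) (ZMod (p ^ 2)))ˣ)⁆ := by
    have h1 := Subgroup.mem_map_of_mem ψ hc
    rw [Subgroup.map_commutator, MonoidHom.map_closure, Set.image_pair] at h1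
    rw [huy]
    exact h1
  obtain ⟨w, hw⟩ := hu1.comm_mem (ψ c) hc2
  have hMc : M (c : Matrix (Fin n) (Fin n) (ZMod (p ^ 3))) =
      1 + (p : ZMod (p ^ 2)) • ((aeval (Adx (ψ x)) ((X - 1) * w)) (M V)) := by
    have h1 : ((ψ c : (Matrix (Fin n) (Fin n) (ZMod (p ^ 2)))ˣ) : Matrix (Fin n) (Fin n) (ZMod (p ^ 2))) =
      M (c : Matrix (Fin n) (Fin n) (ZMod (p ^ 3))) := rfl
    rw [← h1, hw, hu2]
  obtain ⟨D, hD⟩ : ∃ D : Matrix (Fin n) (Fin n) (ZMod (p ^ 3)), D =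
    (c : Matrix (Fin n) (Fin n) (ZMod (p ^ 3))) -
      (1 + (p : ZMod (p ^ 3)) • ((aeval (Adx x) ((X - 1) * w)) V)) := ⟨_, rfl⟩
  have hMD : M D = 0 := by
    rw [hD, map_sub, map_add, map_one, hM, map_natCast, hMc]
    have h2 := comm_lift_aeval φ x ((X - 1) * w) V
    change M _ = (aeval (Adx (ψ x))) ((X - 1) * w) (M V) at h2
    rw [h2, sub_self]
  have hent : ∀ i j, ∃ z : ZMod (p ^ 3), D i j = ((p : ZMod (p ^ 3)) * (p : ZMod (p ^ 3))) * z := by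
    intro i j
    apply comm_lift_ker hp
    rw [← hφ]
    have : M D i j = 0 := by rw [hMD]; rfl
    exact this
  choose z hz using hent
  refine ⟨w, Matrix.of z, ?_⟩
  have hDz : D = ((p : ZMod (p ^ 3)) * p) • Matrix.of z := by
    ext i j
    rw [hz]; rfl
  rw [← hDz, hD]
  abel


end Pool.Agent.Helper407.PN
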