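import Mathlib
import Pool.Agent.Helper431.PN.Base
import Pool.Agent.Helper431.PN.M5a
import Pool.Agent.Helper407.PN.Defs
import Pool.Agent.Helper407.PN.A
import Pool.Agent.Helper407.PN.Ad1
import Pool.Agent.Helper407.PN.Ad2
import Pool.Agent.Helper407.PN.Ad3
import Pool.Agent.Helper407.PN.Ad4
import Pool.Agent.Helper407.PN.Reg1
import Pool.Agent.Helper407.PN.Reg2

namespace Pool.Agent.Helper407.PN
open Polynomial Pool.Agent.Helper431.PN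





theorem reg3_list {p n : ℕ} (hp : p.Prime) (hp2 : p ≠ 2)
    (x y : (Matrix (Fin n) (Fin n) (ZMod (p ^ 3)))ˣ)
    (V : Matrix (Fin n) (Fin n) (ZMod (p ^ 3))) (e : ZMod (p ^ 3))
    (hP : (p : ZMod (p ^ 3)) * p * p = 0)
    (hy : (y : Matrix (Fin n) (Fin n) (ZMod (p ^ 3))) = 1 + (p : ZMod (p ^ 3)) • (e • V))
    (l : List (Matrix (Fin n) (Fin n) (ZMod (p ^ 3)))ˣ)
    (hl : ∀ c ∈ l, c ∈ ⁅Subgroup.closure ({x, y} : Set (Matrix (Fin n) (Fin n) (ZMod (p ^ 3)))ˣ),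
      Subgroup.closure ({x, y} : Set (Matrix (Fin n) (Fin n) (ZMod (p ^ 3)))ˣ)⁆) :
    ∃ W : ℤ[X], (((l.map (fun c => c ^ p)).prod : (Matrix (Fin n) (Fin n) (ZMod (p ^ 3)))ˣ) :
      Matrix (Fin n) (Fin n) (ZMod (p ^ 3))) =
        1 + ((p : ZMod (p ^ 3)) * p) • (e • ((aeval (Adx x) ((X - 1) * W)) V)) := by
  induction l with
  | nil =>
    refine ⟨0, ?_⟩
    simp
  | cons c l ih =>
    obtain ⟨W, hW⟩ := ih (fun c hc => hl c (List.mem_cons_of_mem _ hc))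
    obtain ⟨w, Z, hc⟩ := comm_lift hp x y (e • V) hy c (hl c List.mem_cons_self)
    have hc2 : ((c : (Matrix (Fin n) (Fin n) (ZMod (p ^ 3)))ˣ) :
        Matrix (Fin n) (Fin n) (ZMod (p ^ 3))) ^ p =
        1 + ((p : ZMod (p ^ 3)) * p) • (e • ((aeval (Adx x) ((X - 1) * w)) V)) := by
      have h1 : ((c : (Matrix (Fin n) (Fin n) (ZMod (p ^ 3)))ˣ) :
        Matrix (Fin n) (Fin n) (ZMod (p ^ 3))) = 1 + (p : ZMod (p ^ 3)) •
          ((aeval (Adx x) ((X - 1) * w)) (e • V) + (p : ZMod (p ^ 3)) • Z) := by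
        rw [hc, smul_add, smul_smul, add_assoc]
      rw [h1, pow_one_add hp hp2, smul_add, smul_smul, hP, zero_smul, add_zero, map_smul]
    refine ⟨w + W, ?_⟩
    rw [List.map_cons, List.prod_cons, Units.val_mul, Units.val_pow_eq_pow_val, hc2, hW,
      mul_add (X - 1 : ℤ[X]), map_add, LinearMap.add_apply, add_mul, one_mul, mul_add, mul_one,
      smul_mul_smul_comm]
    have h0 : (p : ZMod (p ^ 3)) * p * ((p : ZMod (p ^ 3)) * p) = 0 := by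
      rw [← mul_assoc, hP, zero_mul]
    rw [h0, zero_smul, add_zero, smul_add, smul_add]
    abel

theorem reg3_e {p n : ℕ} (hp : p.Prime) (hp2 : p ≠ 2) (hreg : IsRegular p (PGroup p 3 n))
    (x : PGroup p 3 n) (V : Matrix (Fin n) (Fin n) (ZMod (p ^ 3))) (e : ZMod (p ^ 3))
    (hP : (p : ZMod (p ^ 3)) * p * p = 0)
    (Q : Matrix (Fin n) (Fin n) (ZMod (p ^ 3)))
    (hQ : (((x : (Matrix (Fin n) (Fin n) (ZMod (p ^ 3)))ˣ) :
        Matrix (Fin n) (Fin n) (ZMod (p ^ 3))) * (1 + (e * p) • V)) ^ p =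
        ((x : (Matrix (Fin n) (Fin n) (ZMod (p ^ 3)))ˣ) :
        Matrix (Fin n) (Fin n) (ZMod (p ^ 3))) ^ p * (1 + (e * p) •
          ((aeval (Adx (x : (Matrix (Fin n) (Fin n) (ZMod (p ^ 3)))ˣ))
            (∑ i ∈ Finset.range p, (X : ℤ[X]) ^ i)) V) + ((p : ZMod (p ^ 3)) * p) • Q)) :
    ∃ W : ℤ[X], (e * p) •
          ((aeval (Adx (x : (Matrix (Fin n) (Fin n) (ZMod (p ^ 3)))ˣ))
            (∑ i ∈ Finset.range p, (X : ℤ[X]) ^ i)) V) + ((p : ZMod (p ^ 3)) * p) • Q =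
        ((p : ZMod (p ^ 3)) * p) • (e • V) + ((p : ZMod (p ^ 3)) * p) •
          (e • ((aeval (Adx (x : (Matrix (Fin n) (Fin n) (ZMod (p ^ 3)))ˣ)) ((X - 1) * W)) V)) := by
  have hcomm : (e * p) • V = (p : ZMod (p ^ 3)) • (e • V) := by
    rw [smul_smul, mul_comm]
  obtain ⟨g, hg, hgA⟩ := mem_of_isP (p := p) (m := 3) (n := n) hp (by norm_num)
    (1 + (e * p) • V) (by
      rw [isP_iff]
      intro i j _
      rw [add_sub_cancel_left, hcomm]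
      exact ⟨(e • V) i j, rfl⟩)
  obtain ⟨l, hl, heq⟩ := good_coe (PGroup p 3 n) x ⟨g, hg⟩ (hreg x ⟨g, hg⟩)
  have hgA' : (g : Matrix (Fin n) (Fin n) (ZMod (p ^ 3))) = 1 + (p : ZMod (p ^ 3)) • (e • V) := by
    rw [hgA, hcomm]
  obtain ⟨W, hW⟩ := reg3_list hp hp2 (x : (Matrix (Fin n) (Fin n) (ZMod (p ^ 3)))ˣ) g V e hP hgA' l hl
  refine ⟨W, ?_⟩
  have h1 := congrArg (fun u : (Matrix (Fin n) (Fin n) (ZMod (p ^ 3)))ˣ =>
    (u : Matrix (Fin n) (Fin n) (ZMod (p ^ 3)))) heq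
  simp only [Units.val_mul, Units.val_pow_eq_pow_val] at h1
  rw [hW, hgA, hQ, hcomm, pow_one_add hp hp2, mul_assoc] at h1
  have h2 := (x : (Matrix (Fin n) (Fin n) (ZMod (p ^ 3)))ˣ) ^ p
  have h3 : (1 + (e * p) •
          ((aeval (Adx (x : (Matrix (Fin n) (Fin n) (ZMod (p ^ 3)))ˣ))
            (∑ i ∈ Finset.range p, (X : ℤ[X]) ^ i)) V) + ((p : ZMod (p ^ 3)) * p) • Q) =
        (1 + ((p : ZMod (p ^ 3)) * p) • (e • V)) * (1 + ((p : ZMod (p ^ 3)) * p) •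
          (e • ((aeval (Adx (x : (Matrix (Fin n) (Fin n) (ZMod (p ^ 3)))ˣ)) ((X - 1) * W)) V))) := by
    have hu : IsUnit (((x : (Matrix (Fin n) (Fin n) (ZMod (p ^ 3)))ˣ) :
        Matrix (Fin n) (Fin n) (ZMod (p ^ 3))) ^ p) := (Units.isUnit _).pow p
    exact hu.mul_left_cancel h1
  have h0 : (p : ZMod (p ^ 3)) * p * ((p : ZMod (p ^ 3)) * p) = 0 := by
    rw [← mul_assoc, hP, zero_mul]
  rw [add_mul, one_mul, mul_add, mul_one, smul_mul_smul_comm, h0, zero_smul, add_zero, add_assoc,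
    add_assoc] at h3
  rw [add_left_cancel h3, add_comm]

/-- TARGET 3 -/
theorem reg3 {p n : ℕ} (hp : p.Prime) (hp2 : p ≠ 2) (hreg : IsRegular p (PGroup p 3 n))
    (x : PGroup p 3 n) (V : Matrix (Fin n) (Fin n) (ZMod (p ^ 3))) (hV : V * V = 0) :
    ∃ F : ℤ[X], (p : ZMod (p ^ 3)) • ((aeval (Adx (x : (Matrix (Fin n) (Fin n) (ZMod (p ^ 3)))ˣ))
      ((∑ i ∈ Finset.range p, (X : ℤ[X]) ^ i) - (p : ℤ[X]) - (p : ℤ[X]) * ((X - 1) * F))) V) = 0 := by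
  have hP : (p : ZMod (p ^ 3)) * p * p = 0 := by
    have h0 : (p : ZMod (p ^ 3)) ^ 3 = 0 := by
      rw [← Nat.cast_pow]
      exact ZMod.natCast_self _
    rw [← h0]
    ring
  obtain ⟨Q, hQ⟩ := geom3 (x : (Matrix (Fin n) (Fin n) (ZMod (p ^ 3)))ˣ) V (p : ZMod (p ^ 3)) hP p
  obtain ⟨W, hW⟩ := reg3_e hp hp2 hreg x V 1 hP Q (hQ 1 (by ring))
  obtain ⟨W', hW'⟩ := reg3_e hp hp2 hreg x V (-1) hP Q (hQ (-1) (by ring))
  have hodd : Odd p := hp.odd_of_ne_two hp2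
  obtain ⟨k, hk⟩ := hodd
  refine ⟨((k + 1 : ℕ) : ℤ[X]) * (W + W'), ?_⟩
  obtain ⟨S, hS⟩ : ∃ S, S = (aeval (Adx (x : (Matrix (Fin n) (Fin n) (ZMod (p ^ 3)))ˣ))
      (∑ i ∈ Finset.range p, (X : ℤ[X]) ^ i)) V := ⟨_, rfl⟩
  obtain ⟨B, hB⟩ : ∃ B, B = (aeval (Adx (x : (Matrix (Fin n) (Fin n) (ZMod (p ^ 3)))ˣ))
      ((X - 1) * W)) V := ⟨_, rfl⟩
  obtain ⟨B', hB'⟩ : ∃ B', B' = (aeval (Adx (x : (Matrix (Fin n) (Fin n) (ZMod (p ^ 3)))ˣ))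
      ((X - 1) * W')) V := ⟨_, rfl⟩
  rw [← hS, ← hB] at hW
  rw [← hS, ← hB'] at hW'
  have hnat : ∀ (m : ℕ) (f : ℤ[X]) (Y : Matrix (Fin n) (Fin n) (ZMod (p ^ 3))),
      (aeval (Adx (x : (Matrix (Fin n) (Fin n) (ZMod (p ^ 3)))ˣ)) ((m : ℤ[X]) * f)) Y =
      (m : ZMod (p ^ 3)) • (aeval (Adx (x : (Matrix (Fin n) (Fin n) (ZMod (p ^ 3)))ˣ)) f) Y := by
    intro m f Y
    rw [map_mul, map_natCast]
    show ((m : Module.End (ZMod (p ^ 3)) (Matrix (Fin n) (Fin n) (ZMod (p ^ 3))))) _ = _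
    rw [Module.End.natCast_apply, Nat.cast_smul_eq_nsmul]
  have e1 : (aeval (Adx (x : (Matrix (Fin n) (Fin n) (ZMod (p ^ 3)))ˣ))
      ((∑ i ∈ Finset.range p, (X : ℤ[X]) ^ i) - (p : ℤ[X]) - (p : ℤ[X]) *
        ((X - 1) * (((k + 1 : ℕ) : ℤ[X]) * (W + W'))))) V =
      S - (p : ZMod (p ^ 3)) • V - (p : ZMod (p ^ 3)) • (((k + 1 : ℕ) : ZMod (p ^ 3)) • (B + B')) := by
    have e2 : (∑ i ∈ Finset.range p, (X : ℤ[X]) ^ i) - (p : ℤ[X]) - (p : ℤ[X]) *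
        ((X - 1) * (((k + 1 : ℕ) : ℤ[X]) * (W + W'))) =
        (∑ i ∈ Finset.range p, (X : ℤ[X]) ^ i) - (p : ℤ[X]) * 1 - (p : ℤ[X]) *
        (((k + 1 : ℕ) : ℤ[X]) * ((X - 1) * W + (X - 1) * W')) := by ring
    rw [e2, map_sub, map_sub, LinearMap.sub_apply, LinearMap.sub_apply, hnat, hnat, hnat, ← hS,
      map_one, map_add, LinearMap.add_apply, ← hB, ← hB']
    rfl
  rw [e1]
  have hu : IsUnit ((2 : ℕ) : ZMod (p ^ 3)) := by
    rw [ZMod.isUnit_iff_coprime]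
    exact Nat.Coprime.pow_right 3 ((Nat.coprime_primes Nat.prime_two hp).2 hp2.symm)
  rw [← hu.smul_eq_zero]
  have hk2 : ((2 : ℕ) : ZMod (p ^ 3)) * ((k + 1 : ℕ) : ZMod (p ^ 3)) = p + 1 := by
    rw [hk]
    push_cast
    ring
  have e3 : ((2 : ℕ) : ZMod (p ^ 3)) • ((p : ZMod (p ^ 3)) •
      (S - (p : ZMod (p ^ 3)) • V - (p : ZMod (p ^ 3)) •
        (((k + 1 : ℕ) : ZMod (p ^ 3)) • (B + B')))) =
      (((1 : ZMod (p ^ 3)) * p) • S + ((p : ZMod (p ^ 3)) * p) • Q -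
        (((p : ZMod (p ^ 3)) * p) • ((1 : ZMod (p ^ 3)) • V) + ((p : ZMod (p ^ 3)) * p) •
          ((1 : ZMod (p ^ 3)) • B))) -
      (((-1 : ZMod (p ^ 3)) * p) • S + ((p : ZMod (p ^ 3)) * p) • Q -
        (((p : ZMod (p ^ 3)) * p) • ((-1 : ZMod (p ^ 3)) • V) + ((p : ZMod (p ^ 3)) * p) •
          ((-1 : ZMod (p ^ 3)) • B'))) - (((2 : ℕ) : ZMod (p ^ 3)) * ((k + 1 : ℕ) : ZMod (p ^ 3)) - 1) •
            (((p : ZMod (p ^ 3)) * p) • (B + B')) := by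
    push_cast
    module
  rw [e3, hW, hW', sub_self, sub_self, sub_zero, hk2, zero_sub, add_sub_cancel_right, smul_smul,
    ← mul_assoc, hP, zero_smul, neg_zero]

end Pool.Agent.Helper407.PN
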