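import Mathlib
import Pool.Agent.Helper431.PN.Base
import Pool.Agent.Helper431.PN.Mono
import Pool.Agent.Helper431.PN.M5a
import Pool.Agent.Helper407.PN.Defs
import Pool.Agent.Helper407.PN.A
import Pool.Agent.Helper407.PN.Blk
import Pool.Agent.Helper407.PN.BAlg
import Pool.Agent.Helper407.PN.Reg1
import Pool.Agent.Helper407.PN.Reg3
import Pool.Agent.Helper407.PN.Fin1
import Pool.Agent.Helper407.PN.Fin3
import Pool.Agent.Helper407.PN.Fin4

namespace Pool.Agent.Helper407.PN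
open Polynomial Pool.Agent.Helper431.PN

theorem block_irregular {p r k : ℕ} (hp : p.Prime) (hr : 0 < r) (hk : 0 < k) (hle : p ≤ r * k)
    (hcop : ¬ (p : ℤ) ∣ (r : ℤ) ^ (k - 1) * ((k - 1).factorial : ℤ)) :
    ¬ IsRegular p (PGroup p k (r + k)) := by
  intro hreg
  obtain ⟨x, u, hd, hu⟩ := block_data (p := p) (m := k) (r := r) (k := k) hp hk
    (Matrix.single ⟨r - 1, by omega⟩ ⟨0, hk⟩ 1)
  obtain ⟨F, hF⟩ := hd.good (hreg x (u 1))
  exact balg hp hr hk hle hcop F (hu _ hF)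

theorem isP_one_add_Pi (p m n : ℕ) : IsP p m n (1 + Pi p m n) := by
  rw [isP_iff, add_sub_cancel_left]
  intro i j hij
  simp only [Pi, Matrix.of_apply]
  rw [if_neg (by have : (j : ℕ) ≤ i := hij; omega)]
  split_ifs
  · exact dvd_rfl
  · exact dvd_zero _

theorem single_sq {n : ℕ} {R : Type*} [CommRing R] (hn : 2 ≤ n) :
    (Matrix.single ⟨n - 1, by omega⟩ ⟨0, by omega⟩ 1 : Matrix (Fin n) (Fin n) R) *
      Matrix.single ⟨n - 1, by omega⟩ ⟨0, by omega⟩ 1 = 0 := by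
  apply Matrix.single_mul_single_of_ne
  intro h
  have := congrArg Fin.val h
  simp at this
  omega

theorem irregular_c {p m n : ℕ} (hp : p.Prime) (hn : 2 ≤ n) (hpn : p + 2 ≤ 3 * n) (hm : 3 ≤ m) :
    ¬ IsRegular p (PGroup p m n) := by
  intro hreg
  rcases Nat.lt_or_ge (2 * n) (p + 1) with h | h
  · -- large primes
    have hne : p ≠ 2 * n := by
      intro h2
      have : 2 ∣ p := ⟨n, h2⟩
      rw [Nat.prime_dvd_prime_iff_eq Nat.prime_two hp] at this
      omega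
    have hr3 := isRegular_mono hp (by norm_num : 1 ≤ 3) hm hreg
    obtain ⟨g, hg, hgx⟩ := mem_of_isP hp (by norm_num : 1 ≤ 3) _ (isP_one_add_Pi p 3 n)
    obtain ⟨F, hF⟩ := reg3 hp (by omega) hr3 ⟨g, hg⟩
      (Matrix.single ⟨n - 1, by omega⟩ ⟨0, by omega⟩ 1) (single_sq hn)
    obtain ⟨t, ht⟩ := c_key hp (by omega) (by omega) g hgx F hF
    exact c_big hp (q := 3 * n - p) (by omega) (by omega) (by omega) t ht
  · have hr2 := isRegular_mono hp (by norm_num : 1 ≤ 2) (by omega : 2 ≤ m) hreg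
    obtain ⟨g, hg, hgx⟩ := mem_of_isP hp (by norm_num : 1 ≤ 2) _ (isP_one_add_Pi p 2 n)
    obtain ⟨F, hF⟩ := reg2 hp hr2 ⟨g, hg⟩
      (Matrix.single ⟨n - 1, by omega⟩ ⟨0, by omega⟩ 1)
    exact c_small hp hn h g hgx F hF

end Pool.Agent.Helper407.PN
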