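import Mathlib
import Pool.Agent.Helper431.PN.Base
import Pool.Agent.Helper431.PN.Mono
import Pool.Agent.Helper407.PN.IrrBC

namespace Pool.Agent.Helper407.PN
open Pool.Agent.Helper431.PN

/-- TARGET -/
theorem irregular_block {p m n m' : ℕ} (hp : p.Prime) (hm : 1 ≤ m) (h2 : 2 * m ≤ n)
    (hle : p ≤ m * (n - m)) (hm' : m ≤ m') : ¬ IsRegular p (PGroup p m' n) := by
  classical
  have hex : ∃ k : ℕ, 1 ≤ k ∧ p ≤ k * (n - k) := ⟨m, hm, hle⟩
  obtain ⟨m0, hm0, hm0p, hmin⟩ : ∃ m0 : ℕ, 1 ≤ m0 ∧ p ≤ m0 * (n - m0) ∧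
      ∀ j, j < m0 → ¬ (1 ≤ j ∧ p ≤ j * (n - j)) :=
    ⟨Nat.find hex, (Nat.find_spec hex).1, (Nat.find_spec hex).2, fun j hj => Nat.find_min hex hj⟩
  have hm0m : m0 ≤ m := by
    by_contra h
    push Not at h
    exact hmin m h ⟨hm, hle⟩
  obtain ⟨r, hr⟩ : ∃ r, r = n - m0 := ⟨_, rfl⟩
  have hrn : r + m0 = n := by omega
  have hrk : m0 ≤ r := by omega
  have hp2 := hp.two_le
  have hr0 : 0 < r := by omega
  have hple : p ≤ r * m0 := by rw [hr, mul_comm]; exact hm0p
  have hcop : ¬ (p : ℤ) ∣ (r : ℤ) ^ (m0 - 1) * ((m0 - 1).factorial : ℤ) := by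
    rcases Nat.lt_or_ge m0 2 with h1 | h1
    · have : m0 = 1 := by omega
      subst this
      simp only [Nat.sub_self, pow_zero, Nat.factorial_zero, Nat.cast_one, mul_one]
      intro hd
      have h3 : (p : ℤ) ∣ ((1 : ℕ) : ℤ) := by simpa using hd
      rw [Int.natCast_dvd_natCast] at h3
      exact hp.one_lt.ne' (Nat.dvd_one.mp h3)
    · have h3 : (m0 - 1) * (n - (m0 - 1)) < p := by
        by_contra hcon
        push Not at hcon
        exact hmin (m0 - 1) (by omega) ⟨by omega, hcon⟩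
      have h4 : 1 * (n - (m0 - 1)) ≤ (m0 - 1) * (n - (m0 - 1)) :=
        Nat.mul_le_mul_right _ (by omega)
      have h5 : r < p := by omega
      intro hd
      have hd' : p ∣ r ^ (m0 - 1) * (m0 - 1).factorial := by
        have : (p : ℤ) ∣ ((r ^ (m0 - 1) * (m0 - 1).factorial : ℕ) : ℤ) := by
          push_cast
          exact hd
        exact Int.natCast_dvd_natCast.mp this
      rcases (Nat.Prime.dvd_mul hp).mp hd' with h6 | h6
      · have h7 := hp.dvd_of_dvd_pow h6
        have h8 := Nat.le_of_dvd hr0 h7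
        omega
      · have h7 := (Nat.Prime.dvd_factorial hp).mp h6
        omega
  have hirr := block_irregular hp hr0 (by omega : 0 < m0) hple hcop
  rw [hrn] at hirr
  exact fun h => hirr (isRegular_mono hp hm0 (hm0m.trans hm') h)

end Pool.Agent.Helper407.PN
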