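import Mathlib
import Pool.Agent.Helper431.PN.Base
import Pool.Agent.Helper431.PN.M5a
import Pool.Agent.Helper431.PN.G1
import Pool.Agent.Helper431.PN.G2
import Pool.Agent.Helper431.PN.G4

namespace Pool.Agent.Helper407.PN
open Pool.Agent.Helper431.PN
open scoped commutatorElement

/-- leading coefficient (starting at position `i`) of the left-normed bracket of the functions in
the list; the head of the list is the last one bracketed -/
def Lc {F : Type*} [Field F] : List (ℕ → F) → ℕ → F
  | [], _ => 0
  | [h], i => h i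
  | h :: h' :: t, i => Lc (h' :: t) i * h (i + (t.length + 1)) - h i * Lc (h' :: t) (i + 1)

/-- `A` has level at least `k` (the matrix unit `e_ij` has level `j - i`, `p` has level `n`) -/
def IsLev (p m n k : ℕ) (A : Matrix (Fin n) (Fin n) (ZMod (p ^ m))) : Prop :=
  ∀ i j : Fin n, (p : ZMod (p ^ m)) ^ ((k + i + (n - 1) - j) / n) ∣ A i j

/-- `A` has level at least `k` and leading coefficients `c` -/
def LR (p m n k : ℕ) (A : Matrix (Fin n) (Fin n) (ZMod (p ^ m))) (c : ℕ → ZMod p) : Prop :=
  IsLev p m n k A ∧ ∀ i j : Fin n, (j : ℕ) = ((i : ℕ) + k) % n → ∃ z : ZMod (p ^ m),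
    A i j = (p : ZMod (p ^ m)) ^ (((i : ℕ) + k) / n) * ((c i).val : ZMod (p ^ m)) +
      (p : ZMod (p ^ m)) ^ (((i : ℕ) + k) / n + 1) * z

/-- terms of the lower central series of a subgroup, starting with the subgroup itself -/
def gam {G : Type*} [Group G] (H : Subgroup G) : ℕ → Subgroup G
  | 0 => H
  | k + 1 => ⁅gam H k, H⁆

/-- the matrix of an element of `PGroup` minus one -/
def mo {p m n : ℕ} (g : PGroup p m n) : Matrix (Fin n) (Fin n) (ZMod (p ^ m)) :=
  ((g : (Matrix (Fin n) (Fin n) (ZMod (p ^ m)))ˣ) : Matrix (Fin n) (Fin n) (ZMod (p ^ m))) - 1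

/-- indicator of `χ = b` -/
def val (F : Type*) [Field F] (χ : ℕ → Bool) (b : Bool) : ℕ → F := fun t => if χ t = b then 1 else 0

/-- all brackets of length `k` vanish at position `i` -/
def Perp (F : Type*) [Field F] (χ : ℕ → Bool) (i k : ℕ) : Prop :=
  ∀ hs : List Bool, hs.length = k → Lc (hs.map (val F χ)) i = 0

end Pool.Agent.Helper407.PN
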