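import Mathlib
import Pool.Agent.Helper407.PN.Defs

namespace Pool.Agent.Helper407.PN
open Polynomial

/-- the subring of integral elements -/
def Or (K : Type*) [NormedField K] [IsUltrametricDist K] : Subring K where
  carrier := {x | ‖x‖ ≤ 1}
  mul_mem' := by
    intro a b ha hb
    show ‖a * b‖ ≤ 1
    rw [norm_mul]
    exact mul_le_one₀ ha (norm_nonneg _) hb
  one_mem' := norm_one.le
  add_mem' := fun ha hb => (IsUltrametricDist.norm_add_le_max _ _).trans (max_le ha hb)
  zero_mem' := by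
    show ‖(0 : K)‖ ≤ 1
    rw [norm_zero]; exact zero_le_one
  neg_mem' := by
    intro a ha
    show ‖-a‖ ≤ 1
    rw [norm_neg]; exact ha

theorem LL_le {K : Type*} [NormedField K] [IsUltrametricDist K] {ι : Type} [Fintype ι]
    [DecidableEq ι] (y : ι → K) (hy : Function.Injective y) (hy1 : ∀ i, ‖y i‖ ≤ 1)
    (P : (Or K)[X]) :
    ‖∑ i, (P.map (Or K).subtype).eval (y i) / ∏ j ∈ Finset.univ.erase i, (y i - y j)‖ ≤ 1 := by
  let y' : ι → Or K := fun i => ⟨y i, hy1 i⟩
  let Φ : (Or K)[X] := ∏ i, (X - C (y' i))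
  have hΦm : Φ.Monic := monic_prod_of_monic _ _ fun i _ => monic_X_sub_C _
  have hΦd : Φ.natDegree = Fintype.card ι := by
    rw [natDegree_prod_of_monic _ _ fun i _ => monic_X_sub_C _]
    simp
  have hev : ∀ i, (P.map (Or K).subtype).eval (y i) =
      ((P %ₘ Φ).map (Or K).subtype).eval (y i) := by
    intro i
    have h1 := congrArg (fun Q : (Or K)[X] => (Q.map (Or K).subtype).eval (y i))
      (modByMonic_add_div P Φ)
    simp only [Polynomial.map_add, Polynomial.map_mul, eval_add, eval_mul] at h1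
    have h2 : (Φ.map (Or K).subtype).eval (y i) = 0 := by
      simp only [Φ, Polynomial.map_prod, eval_prod]
      apply Finset.prod_eq_zero (Finset.mem_univ i)
      simp [y']
    rw [h2, zero_mul, add_zero] at h1
    exact h1.symm
  have hdeg : ((P %ₘ Φ).map (Or K).subtype).degree < (Finset.univ : Finset ι).card := by
    refine lt_of_le_of_lt degree_map_le ?_
    refine lt_of_lt_of_le (degree_modByMonic_lt P hΦm) ?_
    rw [degree_eq_natDegree hΦm.ne_zero, hΦd, Finset.card_univ]
  have h3 := Lagrange.coeff_eq_sum (s := Finset.univ) (v := y) hy.injOn hdeg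
  have h4 : ∑ i, (P.map (Or K).subtype).eval (y i) / ∏ j ∈ Finset.univ.erase i, (y i - y j) =
      ((P %ₘ Φ).map (Or K).subtype).coeff ((Finset.univ : Finset ι).card - 1) := by
    rw [h3]
    exact Finset.sum_congr rfl fun i _ => by rw [hev i]
  rw [h4, coeff_map]
  exact ((P %ₘ Φ).coeff _).2

/-- TARGET 1 (Lagrange interpolation in an ultrametric field) -/
theorem interp {p : ℕ} (hp : p.Prime) {K : Type*} [NormedField K] [IsUltrametricDist K]
    (hpK : ‖(p : K)‖ < 1) (hint : ∀ z : ℤ, ‖(z : K)‖ ≤ 1) {ι : Type} [Fintype ι] [DecidableEq ι]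
    (hcard : Fintype.card ι = p - 1) (y : ι → K) (hy : Function.Injective y)
    (hy1 : ∀ i, ‖y i‖ < 1) (w : ℤ[X]) :
    ∃ i, ∏ j ∈ Finset.univ.erase i, ‖y i - y j‖ ≤
      ‖aeval (y i) ((X : ℤ[X]) ^ (p - 2) + (p : ℤ[X]) * w)‖ := by
  by_contra hcon
  push Not at hcon
  have hp2 := hp.two_le
  haveI : Nonempty ι := by
    rw [← Fintype.card_pos_iff, hcard]; omega
  set M : K := ∑ i, (w.map (Int.castRingHom K)).eval (y i) /
    ∏ j ∈ Finset.univ.erase i, (y i - y j) with hM
  have hM1 : ‖M‖ ≤ 1 := by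
    have h1 := LL_le y hy (fun i => (hy1 i).le) (w.map (Int.castRingHom (Or K)))
    rw [Polynomial.map_map] at h1
    have h2 : (Or K).subtype.comp (Int.castRingHom (Or K)) = Int.castRingHom K :=
      RingHom.ext_int _ _
    rw [h2] at h1
    exact h1
  have hX : ∑ i, (y i) ^ (p - 2) / ∏ j ∈ Finset.univ.erase i, (y i - y j) = 1 := by
    have hdeg : ((X : K[X]) ^ (p - 2)).degree < (Finset.univ : Finset ι).card := by
      rw [degree_X_pow, Finset.card_univ, hcard]
      exact_mod_cast (by omega : p - 2 < p - 1)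
    have h3 := Lagrange.coeff_eq_sum (s := Finset.univ) (v := y) hy.injOn hdeg
    rw [Finset.card_univ, hcard, coeff_X_pow, if_pos (by omega)] at h3
    rw [h3]
    exact Finset.sum_congr rfl fun i _ => by rw [eval_pow, eval_X]
  have hL : ∑ i, aeval (y i) ((X : ℤ[X]) ^ (p - 2) + (p : ℤ[X]) * w) /
      ∏ j ∈ Finset.univ.erase i, (y i - y j) = 1 + p * M := by
    rw [← hX, hM, Finset.mul_sum, ← Finset.sum_add_distrib]
    apply Finset.sum_congr rfl
    intro i _
    have h1 : aeval (y i) ((X : ℤ[X]) ^ (p - 2) + (p : ℤ[X]) * w) =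
        (y i) ^ (p - 2) + p * (w.map (Int.castRingHom K)).eval (y i) := by
      rw [map_add, map_mul, map_pow, aeval_X, map_natCast, aeval_def, eval_map]
      rfl
    rw [h1, add_div, mul_div_assoc]
  have hlt : ‖(1 : K) + p * M‖ < 1 := by
    rw [← hL]
    obtain ⟨i, -, hi⟩ := IsUltrametricDist.exists_norm_finsetSum_le_of_nonempty
      (Finset.univ_nonempty (α := ι))
      (fun i => aeval (y i) ((X : ℤ[X]) ^ (p - 2) + (p : ℤ[X]) * w) /
        ∏ j ∈ Finset.univ.erase i, (y i - y j))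
    refine hi.trans_lt ?_
    rw [norm_div, norm_prod]
    have hpos : 0 < ∏ j ∈ Finset.univ.erase i, ‖y i - y j‖ := by
      apply Finset.prod_pos
      intro j hj
      rw [norm_pos_iff, sub_ne_zero]
      intro h
      exact (Finset.ne_of_mem_erase hj) (hy h).symm
    rw [div_lt_one hpos]
    exact hcon i
  have hpM : ‖(p : K) * M‖ < 1 := by
    rw [norm_mul]
    calc ‖(p : K)‖ * ‖M‖ ≤ ‖(p : K)‖ * 1 := mul_le_mul_of_nonneg_left hM1 (norm_nonneg _)
      _ < 1 := by rw [mul_one]; exact hpK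
  have h1 : ‖(1 : K)‖ ≤ max ‖(1 : K) + p * M‖ ‖-((p : K) * M)‖ := by
    have := IsUltrametricDist.norm_add_le_max ((1 : K) + p * M) (-((p : K) * M))
    rwa [add_neg_cancel_right] at this
  rw [norm_one, norm_neg] at h1
  rcases le_max_iff.1 h1 with h | h
  · linarith
  · linarith

end Pool.Agent.Helper407.PN
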