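import Mathlib
import Pool.Agent.Helper407.PN.Defs
import Pool.Agent.Helper407.PN.G1

namespace Pool.Agent.Helper407.PN
open Polynomial

theorem root_diff_aux {n : ℕ} {K : Type*} [NormedField K] [IsUltrametricDist K]
    (hnK : ‖((n + 1 : ℕ) : K)‖ = 1) (z : K) (hz : IsPrimitiveRoot z (n + 1)) (k : ℕ) (hk : k < n) :
    ‖1 - z ^ (k + 1)‖ = 1 := by
  have hz1 : ‖z‖ = 1 := by
    have h : ‖z‖ ^ (n + 1) = 1 := by rw [← norm_pow, hz.pow_eq_one, norm_one]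
    exact (pow_eq_one_iff_of_nonneg (norm_nonneg z) (Nat.succ_ne_zero n)).1 h
  have hle : ∀ m : ℕ, ‖1 - z ^ (m + 1)‖ ≤ 1 := by
    intro m
    have h := IsUltrametricDist.norm_add_le_max (1 : K) (-(z ^ (m + 1)))
    rw [← sub_eq_add_neg, norm_neg, norm_one, norm_pow, hz1, one_pow, max_self] at h
    exact h
  have hp := hz.prod_one_sub_pow_eq_order
  have hp2 : ∏ m ∈ Finset.range n, ‖1 - z ^ (m + 1)‖ = 1 := by
    rw [← norm_prod, hp]
    have e : (n : K) + 1 = ((n + 1 : ℕ) : K) := by push_cast; ring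
    rw [e]; exact hnK
  rw [← Finset.mul_prod_erase _ _ (Finset.mem_range.2 hk)] at hp2
  have h1 : ∏ m ∈ (Finset.range n).erase k, ‖1 - z ^ (m + 1)‖ ≤ 1 :=
    Finset.prod_le_one (fun m _ => norm_nonneg _) (fun m _ => hle m)
  have h2 : 0 ≤ ∏ m ∈ (Finset.range n).erase k, ‖1 - z ^ (m + 1)‖ :=
    Finset.prod_nonneg (fun m _ => norm_nonneg _)
  refine le_antisymm (hle k) ?_
  have h3 := norm_nonneg (1 - z ^ (k + 1))
  calc (1 : ℝ) = ‖1 - z ^ (k + 1)‖ * ∏ m ∈ (Finset.range n).erase k, ‖1 - z ^ (m + 1)‖ := hp2.symm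
    _ ≤ ‖1 - z ^ (k + 1)‖ * 1 := mul_le_mul_of_nonneg_left h1 h3
    _ = ‖1 - z ^ (k + 1)‖ := mul_one _

theorem root_diff_lt {n : ℕ} (hn : 0 < n) {K : Type*} [NormedField K] [IsUltrametricDist K]
    (hnK : ‖(n : K)‖ = 1) (z : K) (hz : IsPrimitiveRoot z n) (i j : ℕ) (hj : j < n)
    (hij : i < j) : ‖z ^ i - z ^ j‖ = 1 := by
  obtain ⟨m, rfl⟩ := Nat.exists_eq_succ_of_ne_zero hn.ne'
  obtain ⟨k, rfl⟩ := Nat.exists_eq_add_of_lt hij
  have hz1 : ‖z‖ = 1 := by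
    have h : ‖z‖ ^ (m + 1) = 1 := by rw [← norm_pow, hz.pow_eq_one, norm_one]
    exact (pow_eq_one_iff_of_nonneg (norm_nonneg z) (Nat.succ_ne_zero m)).1 h
  have e : z ^ i - z ^ (i + k + 1) = z ^ i * (1 - z ^ (k + 1)) := by ring
  rw [e, norm_mul, norm_pow, hz1, one_pow, one_mul]
  exact root_diff_aux hnK z hz k (by omega)

/-- TARGET 2 -/
theorem root_diff {n : ℕ} (hn : 0 < n) {K : Type*} [NormedField K] [IsUltrametricDist K]
    (hnK : ‖(n : K)‖ = 1) (z : K) (hz : IsPrimitiveRoot z n) (i j : ℕ) (hi : i < n) (hj : j < n)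
    (hij : i ≠ j) : ‖z ^ i - z ^ j‖ = 1 := by
  rcases lt_or_gt_of_ne hij with h | h
  · exact root_diff_lt hn hnK z hz i j hj h
  · rw [norm_sub_rev]
    exact root_diff_lt hn hnK z hz j i hi h


end Pool.Agent.Helper407.PN
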