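import Mathlib
import Pool.Agent.Helper407.PN.Defs
import Pool.Agent.Helper407.PN.G1
import Pool.Agent.Helper407.PN.G2

namespace Pool.Agent.Helper407.PN
open Polynomial

/-- unit ball -/
def OO (K : Type*) [NormedField K] [IsUltrametricDist K] : Subring K where
  carrier := {x | ‖x‖ ≤ 1}
  mul_mem' := by
    intro x y hx hy
    simp only [Set.mem_ofPred_eq] at hx hy ⊢
    rw [norm_mul]
    exact mul_le_one₀ hx (norm_nonneg _) hy
  one_mem' := by simp
  add_mem' := by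
    intro x y hx hy
    exact (IsUltrametricDist.norm_add_le_max x y).trans (max_le hx hy)
  zero_mem' := by simp
  neg_mem' := by
    intro x hx
    simp only [Set.mem_ofPred_eq] at hx ⊢
    rwa [norm_neg]

lemma four_pow {R : Type*} [CommRing R] {p : ℕ} (hp : p.Prime) (A B C D : R) :
    ∃ r, (A + B - C - D) ^ p = A ^ p + B ^ p - C ^ p - D ^ p + p * r := by
  have hneg : ∀ x : R, ∃ r, (-x) ^ p = - x ^ p + p * r := by
    intro x
    rcases hp.eq_two_or_odd' with h | h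
    · refine ⟨x ^ 2, ?_⟩
      rw [h]
      push_cast
      ring
    · exact ⟨0, by rw [h.neg_pow]; ring⟩
  obtain ⟨r1, h1⟩ := exists_add_pow_prime_eq hp (A + B) (-C + -D)
  obtain ⟨r2, h2⟩ := exists_add_pow_prime_eq hp A B
  obtain ⟨r3, h3⟩ := exists_add_pow_prime_eq hp (-C) (-D)
  obtain ⟨r4, h4⟩ := hneg C
  obtain ⟨r5, h5⟩ := hneg D
  refine ⟨(A + B) * (-C + -D) * r1 + A * B * r2 + C * D * r3 + r4 + r5, ?_⟩
  have e : A + B - C - D = (A + B) + (-C + -D) := by ring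
  rw [e, h1, h2, h3, h4, h5]
  ring

/-- TARGET 3 (sums of roots of unity of norm less than one) -/
theorem frob {p n : ℕ} (hp : p.Prime) (hpn : Nat.Coprime p n) {K : Type*} [NormedField K]
    [IsUltrametricDist K] (hpK : ‖(p : K)‖ < 1) (hp0 : (p : K) ≠ 0) (hint : ∀ z : ℤ, ‖(z : K)‖ ≤ 1)
    (z : K) (hz : z ^ n = 1) (hn : 0 < n)
    (a b c d : ℕ) (h : ‖z ^ a + z ^ b - z ^ c - z ^ d‖ < 1) :
    ‖z ^ a + z ^ b - z ^ c - z ^ d‖ ≤ ‖(p : K)‖ := by
  have hz1 : ‖z‖ = 1 := by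
    have h1 : ‖z‖ ^ n = 1 := by rw [← norm_pow, hz, norm_one]
    exact (pow_eq_one_iff_of_nonneg (norm_nonneg _) hn.ne').1 h1
  have hzO : z ∈ OO K := hz1.le
  obtain ⟨S, hS⟩ : ∃ S : ℕ → K, S = fun t => z ^ (a * t) + z ^ (b * t) - z ^ (c * t) - z ^ (d * t) :=
    ⟨_, rfl⟩
  have hA : ∀ t, ‖S (t * p) - S t ^ p‖ ≤ ‖(p : K)‖ := by
    intro t
    obtain ⟨r, hr⟩ := four_pow hp ((⟨z, hzO⟩ : OO K) ^ (a * t)) (⟨z, hzO⟩ ^ (b * t))
      (⟨z, hzO⟩ ^ (c * t)) (⟨z, hzO⟩ ^ (d * t))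
    have hr' := congrArg (fun x : OO K => (x : K)) hr
    push_cast at hr'
    have e : S (t * p) - S t ^ p = -(p * (r : K)) := by
      rw [hS]
      dsimp only
      rw [hr']
      ring
    rw [e, norm_neg, norm_mul]
    exact mul_le_of_le_one_right (norm_nonneg _) r.2
  by_contra hcon
  push Not at hcon
  have hS1 : S 1 = z ^ a + z ^ b - z ^ c - z ^ d := by rw [hS]; simp
  rw [← hS1] at hcon h
  have hs0 : 0 < ‖S 1‖ := (norm_nonneg _).trans_lt hcon
  have hpow : ‖S 1‖ ^ p < ‖S 1‖ := by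
    calc ‖S 1‖ ^ p < ‖S 1‖ ^ 1 := pow_lt_pow_right_of_lt_one₀ hs0 h hp.one_lt
      _ = _ := pow_one _
  have hstep : ∀ e, ‖S (p ^ e)‖ ≤ ‖S 1‖ → ‖S (p ^ (e + 1))‖ < ‖S 1‖ := by
    intro e he
    have h1 : S (p ^ (e + 1)) = (S (p ^ e * p) - S (p ^ e) ^ p) + S (p ^ e) ^ p := by
      rw [pow_succ]; ring
    rw [h1]
    refine (IsUltrametricDist.norm_add_le_max _ _).trans_lt (max_lt ((hA _).trans_lt hcon) ?_)
    rw [norm_pow]
    exact (pow_le_pow_left₀ (norm_nonneg _) he p).trans_lt hpow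
  have hall : ∀ e, ‖S (p ^ (e + 1))‖ < ‖S 1‖ := by
    intro e
    induction e with
    | zero => exact hstep 0 (by simp)
    | succ e ih => exact hstep _ ih.le
  have htot : 0 < Nat.totient n := Nat.totient_pos.2 hn
  obtain ⟨f, hf⟩ : ∃ f, Nat.totient n = f + 1 := ⟨Nat.totient n - 1, by omega⟩
  have hmod : p ^ (f + 1) ≡ 1 [MOD n] := by
    rw [← hf]; exact Nat.ModEq.pow_totient hpn
  have hpe : ∀ m, z ^ (m * p ^ (f + 1)) = z ^ m := by
    intro m
    have h1 : m * p ^ (f + 1) ≡ m * 1 [MOD n] := Nat.ModEq.mul_left m hmod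
    rw [mul_one] at h1
    rw [pow_eq_pow_mod (m * p ^ (f + 1)) hz, pow_eq_pow_mod m hz]
    congr 1
  have hSf : S (p ^ (f + 1)) = S 1 := by
    rw [hS]
    simp only [hpe, mul_one]
  have := hall f
  rw [hSf] at this
  exact lt_irrefl _ this

end Pool.Agent.Helper407.PN
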