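import Mathlib
import Pool.Agent.Helper407.PN.Defs
import Pool.Agent.Helper407.PN.G1
import Pool.Agent.Helper407.PN.G2
import Pool.Agent.Helper407.PN.G3

namespace Pool.Agent.Helper407.PN
open Polynomial

/-- TARGET 4 (the points are small) -/
theorem sep_a {n : ℕ} (hn : 2 ≤ n) {K : Type*} [NormedField K] [IsUltrametricDist K]
    (hnK : ‖(n : K)‖ = 1) (z r : K) (hz : IsPrimitiveRoot z n) (hr1 : ‖r‖ < 1)
    (i j : ℕ) (hi : i < n) (hj : j < n) (hij : i ≠ j) :
    ‖(1 + z ^ j * r) / (1 + z ^ i * r) - 1‖ = ‖r‖ := by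
  have hz1 : ‖z‖ = 1 := by
    have h := congrArg norm hz.pow_eq_one
    rw [norm_pow, norm_one] at h
    exact (pow_eq_one_iff_of_nonneg (norm_nonneg z) (by omega)).1 h
  have h1 : ‖z ^ i * r‖ < 1 := by
    rw [norm_mul, norm_pow, hz1, one_pow, one_mul]
    exact hr1
  have h2 : ‖1 + z ^ i * r‖ = 1 := by
    rw [IsUltrametricDist.norm_add_eq_max_of_norm_ne_norm (by rw [norm_one]; exact h1.ne'),
      norm_one]
    exact max_eq_left h1.le
  have h3 : 1 + z ^ i * r ≠ 0 := by
    intro h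
    rw [h, norm_zero] at h2
    exact zero_ne_one h2
  have h4 : (1 + z ^ j * r) / (1 + z ^ i * r) - 1 = (z ^ j - z ^ i) * r / (1 + z ^ i * r) := by
    rw [div_sub_one h3]
    congr 1
    ring
  rw [h4, norm_div, norm_mul, h2, root_diff (by omega) hnK z hz j i hj hi hij.symm, one_mul,
    div_one]


end Pool.Agent.Helper407.PN
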