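import Mathlib
import Pool.Agent.Helper407.PN.Defs
import Pool.Agent.Helper407.PN.G1
import Pool.Agent.Helper407.PN.G2
import Pool.Agent.Helper407.PN.G3
import Pool.Agent.Helper407.PN.G4

namespace Pool.Agent.Helper407.PN
open Polynomial

/-- TARGET 5 (separation of the points) -/
theorem sep_b {p n : ℕ} (hp : p.Prime) (hpn : Nat.Coprime p n) (hn : 2 ≤ n) {K : Type*}
    [NormedField K] [IsUltrametricDist K] (hpK : ‖(p : K)‖ < 1) (hp0 : (p : K) ≠ 0)
    (hint : ∀ z : ℤ, ‖(z : K)‖ ≤ 1) (hnK : ‖(n : K)‖ = 1)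
    (z r : K) (hz : IsPrimitiveRoot z n) (hr : r ^ n = (p : K))
    (i j k l : ℕ) (hi : i < n) (hj : j < n) (hk : k < n) (hl : l < n) (hij : i ≠ j) (hkl : k ≠ l)
    (hne : (i, j) ≠ (k, l)) :
    ‖r‖ ^ 2 ≤ ‖((1 + z ^ j * r) / (1 + z ^ i * r) - 1) - ((1 + z ^ l * r) / (1 + z ^ k * r) - 1)‖ := by
  have hn0 : 0 < n := by omega
  have hzn : z ^ n = 1 := hz.pow_eq_one
  have hz1 : ‖z‖ = 1 := by
    have h : ‖z‖ ^ n = 1 := by rw [← norm_pow, hzn, norm_one]
    exact (pow_eq_one_iff_of_nonneg (norm_nonneg _) (by omega)).1 h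
  have hzp : ∀ m : ℕ, ‖z ^ m‖ = 1 := fun m => by rw [norm_pow, hz1, one_pow]
  have hRn : ‖r‖ ^ n = ‖(p : K)‖ := by rw [← norm_pow, hr]
  have hR0 : 0 < ‖r‖ := by
    rw [norm_pos_iff]
    rintro rfl
    rw [zero_pow (by omega)] at hr
    exact hp0 hr.symm
  have hR1 : ‖r‖ < 1 := by
    by_contra hcon
    push Not at hcon
    have : 1 ≤ ‖r‖ ^ n := one_le_pow₀ hcon
    rw [hRn] at this
    linarith
  set R := ‖r‖ with hRdef
  have hunit : ∀ m : ℕ, ‖1 + z ^ m * r‖ = 1 := by
    intro m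
    have h1 : ‖z ^ m * r‖ = R := by rw [norm_mul, hzp, one_mul]
    rw [IsUltrametricDist.norm_add_eq_max_of_norm_ne_norm (by rw [norm_one, h1]; exact hR1.ne')]
    rw [norm_one, h1, max_eq_left hR1.le]
  have hunit0 : ∀ m : ℕ, 1 + z ^ m * r ≠ 0 := by
    intro m h0
    have := hunit m
    rw [h0, norm_zero] at this
    exact zero_ne_one this
  set A := z ^ j + z ^ k - z ^ l - z ^ i with hA
  set B := z ^ (j + k) - z ^ (l + i) with hB
  have hdiff : ((1 + z ^ j * r) / (1 + z ^ i * r) - 1) - ((1 + z ^ l * r) / (1 + z ^ k * r) - 1) =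
      (r * A + r ^ 2 * B) / ((1 + z ^ i * r) * (1 + z ^ k * r)) := by
    have h1 := hunit0 i
    have h2 := hunit0 k
    rw [div_sub_one h1, div_sub_one h2, div_sub_div _ _ h1 h2, hA, hB, pow_add, pow_add]
    congr 1
    ring
  rw [hdiff, norm_div, norm_mul, hunit, hunit, one_mul, div_one]
  have hsub : ∀ a b : K, ‖a - b‖ ≤ max ‖a‖ ‖b‖ := fun a b => by
    rw [sub_eq_add_neg]
    refine (IsUltrametricDist.norm_add_le_max a (-b)).trans ?_
    rw [norm_neg]
  have hA1 : ‖A‖ ≤ 1 := by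
    rw [hA]
    refine (hsub _ _).trans (max_le ((hsub _ _).trans (max_le
      ((IsUltrametricDist.norm_add_le_max _ _).trans (max_le ?_ ?_)) ?_)) ?_) <;> rw [hzp]
  have hB1 : ‖B‖ ≤ 1 := by
    rw [hB]
    refine (hsub _ _).trans (max_le ?_ ?_) <;> rw [hzp]
  have hrd : ∀ a b : ℕ, a < n → b < n → a ≠ b → ‖z ^ a - z ^ b‖ = 1 := fun a b ha hb hab =>
    root_diff hn0 hnK z hz a b ha hb hab
  rcases hA1.lt_or_eq with hAlt | hAeq
  · -- ‖A‖ < 1
    have hAp : ‖A‖ ≤ ‖(p : K)‖ := frob hp hpn hpK hp0 hint z hzn hn0 j k l i hAlt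
    have hrA : ‖r * A‖ < R ^ 2 := by
      rw [norm_mul]
      have h1 : ‖A‖ ≤ R ^ 2 := by
        refine hAp.trans ?_
        rw [← hRn]
        exact pow_le_pow_of_le_one hR0.le hR1.le hn
      calc R * ‖A‖ ≤ R * R ^ 2 := mul_le_mul_of_nonneg_left h1 hR0.le
        _ < 1 * R ^ 2 := mul_lt_mul_of_pos_right hR1 (by positivity)
        _ = R ^ 2 := one_mul _
    have hBne : z ^ (j + k) ≠ z ^ (l + i) := by
      intro hC
      have hfac : (z ^ j - z ^ l) * (z ^ j - z ^ i) = z ^ j * A := by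
        rw [pow_add, pow_add] at hC
        rw [hA]
        linear_combination -hC
      have hnorm : ‖z ^ j - z ^ l‖ * ‖z ^ j - z ^ i‖ = ‖A‖ := by
        rw [← norm_mul, hfac, norm_mul, hzp, one_mul]
      rw [hrd j i hj hi hij.symm, mul_one] at hnorm
      by_cases hjl : j = l
      · have h0 : z ^ k - z ^ i = 0 := by
          rw [pow_add, pow_add, ← hjl] at hC
          have hz0 : z ^ j ≠ 0 := by
            intro h0
            have := hzp j
            rw [h0, norm_zero] at this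
            exact zero_ne_one this
          exact sub_eq_zero.2 (mul_left_cancel₀ hz0 hC)
        by_cases hki : k = i
        · exact hne (by rw [hki, hjl])
        · have := hrd k i hk hi hki
          rw [h0, norm_zero] at this
          exact zero_ne_one this
      · rw [hrd j l hj hl hjl] at hnorm
        linarith
    have hBn : ‖B‖ = 1 := by
      have hmod : ∀ m : ℕ, z ^ m = z ^ (m % n) := fun m => by
        conv_lhs => rw [← Nat.mod_add_div m n]
        rw [pow_add, pow_mul, hzn, one_pow, mul_one]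
      rw [hB, hmod (j + k), hmod (l + i)]
      apply hrd _ _ (Nat.mod_lt _ hn0) (Nat.mod_lt _ hn0)
      intro h
      apply hBne
      rw [hmod (j + k), hmod (l + i), h]
    have hrB : ‖r ^ 2 * B‖ = R ^ 2 := by rw [norm_mul, norm_pow, hBn, mul_one]
    rw [IsUltrametricDist.norm_add_eq_max_of_norm_ne_norm (by rw [hrB]; exact hrA.ne), hrB]
    exact le_max_right _ _
  · have hrA : ‖r * A‖ = R := by rw [norm_mul, hAeq, mul_one]
    have hRR : R ^ 2 < R := by nlinarith
    have hrB : ‖r ^ 2 * B‖ ≤ R ^ 2 := by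
      rw [norm_mul, norm_pow]
      exact mul_le_of_le_one_right (by positivity) hB1
    rw [IsUltrametricDist.norm_add_eq_max_of_norm_ne_norm (by
      rw [hrA]; exact (lt_of_le_of_lt hrB hRR).ne'), hrA]
    exact hRR.le.trans (le_max_left _ _)

end Pool.Agent.Helper407.PN
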