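import Mathlib
import Pool.Agent.Helper407.PN.Defs
import Pool.Agent.Helper407.PN.G1
import Pool.Agent.Helper407.PN.G2
import Pool.Agent.Helper407.PN.G3
import Pool.Agent.Helper407.PN.G4
import Pool.Agent.Helper407.PN.G5

namespace Pool.Agent.Helper407.PN
open Polynomial

/-- TARGET 6 (for given k there is at most one close point) -/
theorem sep_c {n : ℕ} (hn : 2 ≤ n) {K : Type*}
    [NormedField K] [IsUltrametricDist K] (hnK : ‖(n : K)‖ = 1)
    (z r : K) (hz : IsPrimitiveRoot z n) (hr1 : ‖r‖ < 1)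
    (P : K) (k l l' : ℕ) (hk : k < n) (hl : l < n) (hl' : l' < n)
    (h1 : ‖P - ((1 + z ^ l * r) / (1 + z ^ k * r) - 1)‖ < ‖r‖)
    (h2 : ‖P - ((1 + z ^ l' * r) / (1 + z ^ k * r) - 1)‖ < ‖r‖) : l = l' := by
  by_contra hne
  have hz1 : ‖z‖ = 1 := by
    have h3 : ‖z‖ ^ n = 1 := by rw [← norm_pow, hz.pow_eq_one, norm_one]
    exact (pow_eq_one_iff_of_nonneg (norm_nonneg z) (by omega)).1 h3
  have ha : ‖z ^ k * r‖ = ‖r‖ := by rw [norm_mul, norm_pow, hz1, one_pow, one_mul]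
  have hu : ‖1 + z ^ k * r‖ = 1 := by
    have h4 : ‖(1 : K)‖ ≠ ‖z ^ k * r‖ := by
      rw [norm_one, ha]
      exact hr1.ne'
    rw [IsUltrametricDist.norm_add_eq_max_of_norm_ne_norm h4, norm_one, ha]
    exact max_eq_left hr1.le
  have hu0 : 1 + z ^ k * r ≠ 0 := by
    intro h0
    rw [h0, norm_zero] at hu
    exact zero_ne_one hu
  have hrd := root_diff (by omega) hnK z hz l l' hl hl' hne
  have e1 : (P - ((1 + z ^ l' * r) / (1 + z ^ k * r) - 1)) -
      (P - ((1 + z ^ l * r) / (1 + z ^ k * r) - 1)) = (z ^ l - z ^ l') * r / (1 + z ^ k * r) := by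
    field_simp
    ring
  have e2 : ‖(z ^ l - z ^ l') * r / (1 + z ^ k * r)‖ = ‖r‖ := by
    rw [norm_div, norm_mul, hrd, hu, one_mul, div_one]
  have e3 := IsUltrametricDist.norm_add_le_max
    (P - ((1 + z ^ l' * r) / (1 + z ^ k * r) - 1)) (-(P - ((1 + z ^ l * r) / (1 + z ^ k * r) - 1)))
  rw [norm_neg, ← sub_eq_add_neg, e1, e2] at e3
  exact absurd (lt_of_le_of_lt e3 (max_lt h2 h1)) (lt_irrefl _)


end Pool.Agent.Helper407.PN
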