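import Mathlib
import Pool.Agent.Helper407.PN.Defs

namespace Pool.Agent.Helper407.PN
open Polynomial

/-- TARGET 7 (product bound) -/
theorem prod_bound {n N : ℕ} (y : Fin n → Fin n → ℝ) (r : ℝ) (hr0 : 0 < r) (hr1 : r < 1)
    (i : Fin n)
    (hlow : ∀ k l, r ^ 2 ≤ y k l) (hone : ∀ k l l', y k l < r → y k l' < r → l = l')
    (hi : ∀ l, r ≤ y i l)
    (S : Finset (Fin n × Fin n)) (hS : S.card = N) :
    r ^ (N + (n - 1)) ≤ ∏ P ∈ S, y P.1 P.2 := by
  classical
  have hsplit := Finset.prod_filter_mul_prod_filter_not S (fun P => y P.1 P.2 < r)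
    (fun P => y P.1 P.2)
  rw [← hsplit]
  set bad := S.filter (fun P => y P.1 P.2 < r) with hbad
  set good := S.filter (fun P => ¬ y P.1 P.2 < r) with hgood
  have hcard : bad.card + good.card = N := by
    rw [← hS]
    exact Finset.card_filter_add_card_filter_not (s := S) (fun P => y P.1 P.2 < r)
  have hb : bad.card ≤ n - 1 := by
    have h1 : bad.card ≤ ((Finset.univ : Finset (Fin n)).erase i).card := by
      refine Finset.card_le_card_of_injOn (fun P => P.1) ?_ ?_
      · intro P hP
        have hP' := (Finset.mem_filter.1 hP).2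
        refine Finset.mem_coe.2 (Finset.mem_erase.2 ⟨?_, Finset.mem_univ _⟩)
        intro hPi
        have := hi P.2
        have hPi' : P.1 = i := hPi
        rw [hPi'] at hP'
        linarith
      · intro P hP Q hQ hPQ
        have hP' := (Finset.mem_filter.1 hP).2
        have hQ' := (Finset.mem_filter.1 hQ).2
        have hPQ' : P.1 = Q.1 := hPQ
        refine Prod.ext hPQ' (hone P.1 P.2 Q.2 hP' ?_)
        rw [hPQ']; exact hQ'
    rwa [Finset.card_erase_of_mem (Finset.mem_univ i), Finset.card_univ, Fintype.card_fin] at h1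
  have e1 : (r ^ 2) ^ bad.card ≤ ∏ P ∈ bad, y P.1 P.2 := by
    rw [← Finset.prod_const]
    exact Finset.prod_le_prod (fun _ _ => by positivity) fun P _ => hlow _ _
  have e2 : r ^ good.card ≤ ∏ P ∈ good, y P.1 P.2 := by
    rw [← Finset.prod_const]
    exact Finset.prod_le_prod (fun _ _ => hr0.le) fun P hP =>
      not_lt.1 (Finset.mem_filter.1 hP).2
  calc r ^ (N + (n - 1)) ≤ r ^ (N + bad.card) :=
        pow_le_pow_of_le_one hr0.le hr1.le (by omega)
    _ = (r ^ 2) ^ bad.card * r ^ good.card := by
        rw [← pow_mul, ← pow_add]; congr 1; omega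
    _ ≤ _ := mul_le_mul e1 e2 (by positivity) (le_trans (by positivity) e1)

end Pool.Agent.Helper407.PN
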