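import Mathlib
import Pool.Agent.Helper407.PN.Defs
import Pool.Agent.Helper407.PN.Poly
import Pool.Agent.Helper407.PN.G1
import Pool.Agent.Helper407.PN.G2
import Pool.Agent.Helper407.PN.G4
import Pool.Agent.Helper407.PN.G5
import Pool.Agent.Helper407.PN.G6
import Pool.Agent.Helper407.PN.G7

namespace Pool.Agent.Helper407.PN
open Polynomial

/-- TARGET -/
theorem large_core {p n s : ℕ} (hp : p.Prime) (hn : 2 ≤ n) (hpn : Nat.Coprime p n)
    (hN : p ≤ n ^ 2 - n + 1) (hs : p + n - 1 ≤ s * n) {K : Type*} [NormedField K]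
    [IsUltrametricDist K] (hpK : ‖(p : K)‖ < 1) (hp0 : (p : K) ≠ 0)
    (hint : ∀ z : ℤ, ‖(z : K)‖ ≤ 1) (hnK : ‖(n : K)‖ = 1)
    (z r : K) (hz : IsPrimitiveRoot z n) (hr : r ^ n = (p : K)) (F : ℤ[X])
    (h : ∀ i j : ℕ, i < n → j < n → i ≠ j →
      ‖aeval ((1 + z ^ j * r) / (1 + z ^ i * r)) ((∑ i ∈ Finset.range p, (X : ℤ[X]) ^ i) -
        (p : ℤ[X]) - (p : ℤ[X]) * ((X - 1) * F))‖ ≤ ‖(p : K)‖ ^ s) : False := by
  classical
  have hp2 : 2 ≤ p := hp.two_le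
  have hr1n : ‖r‖ ^ n = ‖(p : K)‖ := by rw [← norm_pow, hr]
  have hr0 : 0 < ‖r‖ := by
    rw [norm_pos_iff]
    rintro rfl
    rw [zero_pow (by omega)] at hr
    exact hp0 hr.symm
  have hr1 : ‖r‖ < 1 := by
    by_contra hge
    push Not at hge
    have h1 : 1 ≤ ‖r‖ ^ n := one_le_pow₀ hge
    rw [hr1n] at h1
    linarith
  obtain ⟨g, hg⟩ := poly_sum hp
  let Y : ℕ → ℕ → K := fun i j => (1 + z ^ j * r) / (1 + z ^ i * r) - 1
  let w : ℤ[X] := (g - F).comp (X + 1)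
  have hYn : ∀ i j : ℕ, i < n → j < n → i ≠ j → ‖Y i j‖ = ‖r‖ :=
    fun i j hi hj hij => sep_a hn hnK z r hz hr1 i j hi hj hij
  have hH : ∀ i j : ℕ, i < n → j < n → i ≠ j →
      ‖aeval (Y i j) ((X : ℤ[X]) ^ (p - 2) + (p : ℤ[X]) * w)‖ ≤ ‖r‖ ^ (s * n - 1) := by
    intro i j hi hj hij
    have h1 := h i j hi hj hij
    have h2 : ((∑ i ∈ Finset.range p, (X : ℤ[X]) ^ i) - (p : ℤ[X]) - (p : ℤ[X]) * ((X - 1) * F))
        = (X - 1) * ((X - 1) ^ (p - 2) + (p : ℤ[X]) * (g - F)) := by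
      rw [hg]
      have h3 : (X - 1 : ℤ[X]) ^ (p - 1) = (X - 1) * (X - 1) ^ (p - 2) := by
        rw [← pow_succ']
        congr 1
        omega
      rw [h3]; ring
    rw [h2] at h1
    have h4 : aeval ((1 + z ^ j * r) / (1 + z ^ i * r)) ((X - 1 : ℤ[X]) * ((X - 1) ^ (p - 2) + (p : ℤ[X]) * (g - F)))
        = Y i j * aeval (Y i j) ((X : ℤ[X]) ^ (p - 2) + (p : ℤ[X]) * w) := by
      have h5 : aeval (Y i j) w = aeval ((1 + z ^ j * r) / (1 + z ^ i * r)) (g - F) := by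
        change aeval (Y i j) ((g - F).comp (X + 1)) = _
        rw [aeval_comp]
        congr 2
        simp [Y]
      rw [map_mul, map_add, map_add, map_mul, map_mul, h5]
      simp [Y]
    rw [h4, norm_mul, hYn i j hi hj hij, ← hr1n, ← pow_mul, mul_comm n s] at h1
    have h6 : ‖r‖ ^ (s * n) = ‖r‖ * ‖r‖ ^ (s * n - 1) := by
      rw [← pow_succ']
      congr 1
      omega
    rw [h6] at h1
    exact le_of_mul_le_mul_left h1 hr0
  have hcardO : p - 1 ≤ ((Finset.univ : Finset (Fin n)).offDiag).card := by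
    rw [Finset.offDiag_card, Finset.card_univ, Fintype.card_fin]
    have : n ^ 2 = n * n := sq n
    omega
  obtain ⟨S0, hS0, hS0c⟩ := Finset.exists_subset_card_eq hcardO
  have hoff : ∀ Q ∈ S0, (Q.1 : ℕ) ≠ (Q.2 : ℕ) := by
    intro Q hQ hne
    have h1 := hS0 hQ
    rw [Finset.mem_offDiag] at h1
    exact h1.2.2 (Fin.ext hne)
  let y : {x // x ∈ S0} → K := fun Q => Y Q.1.1 Q.1.2
  have hsepb : ∀ P Q : Fin n × Fin n, (P.1 : ℕ) ≠ (P.2 : ℕ) → (Q.1 : ℕ) ≠ (Q.2 : ℕ) → P ≠ Q →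
      ‖r‖ ^ 2 ≤ ‖Y P.1 P.2 - Y Q.1 Q.2‖ := by
    intro P Q hP hQ hPQ
    refine sep_b hp hpn hn hpK hp0 hint hnK z r hz hr P.1 P.2 Q.1 Q.2 P.1.2 P.2.2 Q.1.2 Q.2.2 hP hQ ?_
    intro heq
    apply hPQ
    rw [Prod.mk.injEq] at heq
    exact Prod.ext (Fin.ext heq.1) (Fin.ext heq.2)
  have hy : Function.Injective y := by
    intro P Q hPQ
    by_contra hne
    have h1 := hsepb P.1 Q.1 (hoff _ P.2) (hoff _ Q.2) (fun h => hne (Subtype.ext h))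
    have h2 : Y P.1.1 P.1.2 - Y Q.1.1 Q.1.2 = 0 := sub_eq_zero.2 hPQ
    rw [h2, norm_zero] at h1
    have : 0 < ‖r‖ ^ 2 := by positivity
    linarith
  have hy1 : ∀ Q, ‖y Q‖ < 1 := by
    intro Q
    change ‖Y Q.1.1 Q.1.2‖ < 1
    rw [hYn _ _ Q.1.1.2 Q.1.2.2 (hoff _ Q.2)]
    exact hr1
  obtain ⟨P, hP⟩ := interp hp hpK hint (by rw [Fintype.card_coe, hS0c]) y hy hy1 w
  have hprod : ∏ Q ∈ Finset.univ.erase P, ‖y P - y Q‖
      = ∏ Q ∈ S0.erase P.1, ‖Y P.1.1 P.1.2 - Y Q.1 Q.2‖ := by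
    refine Finset.prod_bij (fun Q _ => Q.1) ?_ ?_ ?_ ?_
    · intro Q hQ
      rw [Finset.mem_erase] at hQ ⊢
      exact ⟨fun h => hQ.1 (Subtype.ext h), Q.2⟩
    · intro Q _ Q' _ hQQ
      exact Subtype.ext hQQ
    · intro Q hQ
      rw [Finset.mem_erase] at hQ
      exact ⟨⟨Q, hQ.2⟩, by
        rw [Finset.mem_erase]
        exact ⟨fun h => hQ.1 (congrArg Subtype.val h), Finset.mem_univ _⟩, rfl⟩
    · intro Q _
      rfl
  let yy : Fin n → Fin n → ℝ := fun k l => if (k, l) = P.1 ∨ k = l then 1 else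
    ‖Y P.1.1 P.1.2 - Y k l‖
  have hPoff := hoff _ P.2
  have hlow : ∀ k l, ‖r‖ ^ 2 ≤ yy k l := by
    intro k l
    by_cases hc : (k, l) = P.1 ∨ k = l
    · simp only [yy, if_pos hc]
      exact pow_le_one₀ hr0.le hr1.le
    · simp only [yy, if_neg hc]
      push Not at hc
      exact hsepb P.1 (k, l) hPoff (fun h => hc.2 (Fin.ext h)) (fun h => hc.1 h.symm)
  have hyy : ∀ k l, yy k l < ‖r‖ → ¬ ((k, l) = P.1 ∨ k = l) ∧ ‖Y P.1.1 P.1.2 - Y k l‖ < ‖r‖ := by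
    intro k l hkl
    by_cases hc : (k, l) = P.1 ∨ k = l
    · simp only [yy, if_pos hc] at hkl
      linarith
    · simp only [yy, if_neg hc] at hkl
      exact ⟨hc, hkl⟩
  have hone : ∀ k l l', yy k l < ‖r‖ → yy k l' < ‖r‖ → l = l' := by
    intro k l l' h1 h2
    exact Fin.ext (sep_c hn hnK z r hz hr1 (Y P.1.1 P.1.2) k l l' k.2 l.2 l'.2 (hyy k l h1).2 (hyy k l' h2).2)
  have hi : ∀ l, ‖r‖ ≤ yy P.1.1 l := by
    intro l
    by_contra hlt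
    push Not at hlt
    obtain ⟨hc, hlt⟩ := hyy _ _ hlt
    push Not at hc
    apply hc.1
    have h0 : ‖Y P.1.1 P.1.2 - Y P.1.1 P.1.2‖ < ‖r‖ := by
      rw [sub_self, norm_zero]; exact hr0
    have h1 := sep_c hn hnK z r hz hr1 (Y P.1.1 P.1.2) P.1.1 l P.1.2 P.1.1.2 l.2 P.1.2.2 hlt h0
    exact Prod.ext rfl (Fin.ext h1)
  have hcardE : (S0.erase P.1).card = p - 2 := by
    rw [Finset.card_erase_of_mem P.2, hS0c]
    omega
  have hb := prod_bound yy ‖r‖ hr0 hr1 P.1.1 hlow hone hi (S0.erase P.1) hcardE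
  have hprod2 : ∏ Q ∈ S0.erase P.1, yy Q.1 Q.2 = ∏ Q ∈ S0.erase P.1, ‖Y P.1.1 P.1.2 - Y Q.1 Q.2‖ := by
    refine Finset.prod_congr rfl ?_
    intro Q hQ
    rw [Finset.mem_erase] at hQ
    have hc : ¬ ((Q.1, Q.2) = P.1 ∨ Q.1 = Q.2) := by
      rintro (hc | hc)
      · exact hQ.1 hc
      · exact hoff _ hQ.2 (by rw [hc])
    simp only [yy, if_neg hc]
  rw [hprod2, ← hprod] at hb
  have hfin := (hb.trans hP).trans (hH P.1.1 P.1.2 P.1.1.2 P.1.2.2 hPoff)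
  rw [pow_le_pow_iff_right_of_lt_one₀ hr0 hr1] at hfin
  omega

end Pool.Agent.Helper407.PN
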