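import Mathlib
import Pool.Agent.Helper431.PN.Base
import Pool.Agent.Helper431.PN.M5a
import Pool.Agent.Helper407.PN.Defs
import Pool.Agent.Helper407.PN.A
import Pool.Agent.Helper407.PN.Ad1
import Pool.Agent.Helper407.PN.Ad2
import Pool.Agent.Helper407.PN.Ad3
import Pool.Agent.Helper407.PN.Ad4

namespace Pool.Agent.Helper407.PN
open Polynomial Pool.Agent.Helper431.PN

/-- NEW TARGET (generalises the theorem proved just above; adapt its proof) -/
theorem pow_one_add' {n p s : ℕ} (hp : p.Prime) (hp2 : p ≠ 2) (hs : 2 ≤ s)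
    (W : Matrix (Fin n) (Fin n) (ZMod (p ^ (2 * s - 1)))) :
    (1 + (p : ZMod (p ^ (2 * s - 1))) ^ (s - 1) • W) ^ p =
      1 + (p : ZMod (p ^ (2 * s - 1))) ^ s • W := by
  have hp3 : 3 ≤ p := by
    have := hp.two_le
    omega
  obtain ⟨s, rfl⟩ : ∃ s', s = s' + 2 := ⟨s - 2, by omega⟩
  have hexp : 2 * (s + 2) - 1 = (s + 1) * 2 + 1 := by omega
  have hexp2 : s + 2 - 1 = s + 1 := rfl
  rw [hexp2]
  obtain ⟨t, rfl⟩ : ∃ t, p = t + 2 := ⟨p - 2, by omega⟩
  generalize hE : 2 * (s + 2) - 1 = E at W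
  have hE' : E = (s + 1) * 2 + 1 := by omega
  have hc : Commute ((((t + 2 : ℕ) : ZMod ((t + 2) ^ E)) ^ (s + 1)) • W)
      (1 : Matrix (Fin n) (Fin n) (ZMod ((t + 2) ^ E))) := Commute.one_right _
  rw [add_comm (1 : Matrix (Fin n) (Fin n) (ZMod ((t + 2) ^ E))), hc.add_pow,
    Finset.sum_range_succ', Finset.sum_range_succ']
  have hz : ∀ m ∈ Finset.range (t + 1),
      (((((t + 2 : ℕ) : ZMod ((t + 2) ^ E)) ^ (s + 1)) • W) ^ (m + 1 + 1) *
        1 ^ (t + 2 - (m + 1 + 1)) *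
        (((t + 2).choose (m + 1 + 1) : ℕ) : Matrix (Fin n) (Fin n) (ZMod ((t + 2) ^ E)))) = 0 := by
    intro m _
    have h1 : ((((t + 2 : ℕ) : ZMod ((t + 2) ^ E))) ^ (s + 1)) ^ (m + 1 + 1) *
        (((t + 2).choose (m + 1 + 1) : ℕ) : ZMod ((t + 2) ^ E)) = 0 := by
      rw [← pow_mul, ← Nat.cast_pow, ← Nat.cast_mul, ZMod.natCast_eq_zero_iff]
      rcases m with _ | m
      · rw [hE', pow_succ]
        exact Nat.mul_dvd_mul (dvd_refl _) (hp.dvd_choose_self (by omega) (by omega))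
      · refine Dvd.dvd.mul_right (pow_dvd_pow _ ?_) _
        rw [hE']
        nlinarith [Nat.zero_le (s * m)]
    rw [one_pow, mul_one, _root_.smul_pow]
    have h2 : (((t + 2).choose (m + 1 + 1) : ℕ) : Matrix (Fin n) (Fin n) (ZMod ((t + 2) ^ E))) =
      (((t + 2).choose (m + 1 + 1) : ℕ) : ZMod ((t + 2) ^ E)) •
        (1 : Matrix (Fin n) (Fin n) (ZMod ((t + 2) ^ E))) := by
      rw [Nat.cast_smul_eq_nsmul, nsmul_one]
    rw [h2, smul_mul_smul_comm, h1, zero_smul]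
  rw [Finset.sum_eq_zero hz]
  have h3 : (((t + 2).choose 1 : ℕ) : Matrix (Fin n) (Fin n) (ZMod ((t + 2) ^ E))) =
      (((t + 2) : ℕ) : ZMod ((t + 2) ^ E)) •
        (1 : Matrix (Fin n) (Fin n) (ZMod ((t + 2) ^ E))) := by
    rw [Nat.choose_one_right, Nat.cast_smul_eq_nsmul, nsmul_one]
  simp only [zero_add, pow_one, one_pow, mul_one, pow_zero, Nat.choose_zero_right, Nat.cast_one]
  rw [h3, smul_mul_smul_comm, mul_one, ← pow_succ,
    add_comm (1 : Matrix (Fin n) (Fin n) (ZMod ((t + 2) ^ E)))]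

end Pool.Agent.Helper407.PN
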