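import Mathlib
import Pool.Agent.Helper431.PN.Base
import Pool.Agent.Helper431.PN.M5a
import Pool.Agent.Helper407.PN.Defs
import Pool.Agent.Helper407.PN.A
import Pool.Agent.Helper407.PN.Ad1
import Pool.Agent.Helper407.PN.Ad2
import Pool.Agent.Helper407.PN.Ad3
import Pool.Agent.Helper407.PN.Ad4
import Pool.Agent.Helper407.PN.Reg1
import Pool.Agent.Helper407.PN.Reg2
import Pool.Agent.Helper407.PN.RO1

namespace Pool.Agent.Helper407.PN
open Polynomial Pool.Agent.Helper431.PN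

theorem comm_lift_ker' {p s : ℕ} (hp : p.Prime) (hle : 2 * s - 2 ≤ 2 * s - 1)
    (a : ZMod (p ^ (2 * s - 1)))
    (h : ZMod.castHom (pow_dvd_pow p hle) (ZMod (p ^ (2 * s - 2))) a = 0) :
    ∃ z : ZMod (p ^ (2 * s - 1)), a = (p : ZMod (p ^ (2 * s - 1))) ^ (2 * s - 2) * z := by
  haveI : NeZero (p ^ (2 * s - 1)) := ⟨pow_ne_zero _ hp.ne_zero⟩
  have ha : ((a.val : ℕ) : ZMod (p ^ (2 * s - 1))) = a := ZMod.natCast_zmod_val a
  rw [← ha, map_natCast, ZMod.natCast_eq_zero_iff] at h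
  obtain ⟨k, hk⟩ := h
  refine ⟨(k : ZMod (p ^ (2 * s - 1))), ?_⟩
  rw [← ha, hk]
  push_cast
  ring

/-- NEW TARGET (generalises the theorem proved just above; adapt its proof) -/
theorem comm_lift' {p n s : ℕ} (hp : p.Prime) (hs : 2 ≤ s)
    (x y : (Matrix (Fin n) (Fin n) (ZMod (p ^ (2 * s - 1))))ˣ)
    (V : Matrix (Fin n) (Fin n) (ZMod (p ^ (2 * s - 1))))
    (hy : (y : Matrix (Fin n) (Fin n) (ZMod (p ^ (2 * s - 1)))) =
      1 + (p : ZMod (p ^ (2 * s - 1))) ^ (s - 1) • V)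
    (c : (Matrix (Fin n) (Fin n) (ZMod (p ^ (2 * s - 1))))ˣ)
    (hc : c ∈ ⁅Subgroup.closure ({x, y} : Set (Matrix (Fin n) (Fin n) (ZMod (p ^ (2 * s - 1))))ˣ),
      Subgroup.closure ({x, y} : Set (Matrix (Fin n) (Fin n) (ZMod (p ^ (2 * s - 1))))ˣ)⁆) :
    ∃ (w : ℤ[X]) (Z : Matrix (Fin n) (Fin n) (ZMod (p ^ (2 * s - 1)))),
      (c : Matrix (Fin n) (Fin n) (ZMod (p ^ (2 * s - 1)))) =
        1 + (p : ZMod (p ^ (2 * s - 1))) ^ (s - 1) • ((aeval (Adx x) ((X - 1) * w)) V) +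
          (p : ZMod (p ^ (2 * s - 1))) ^ (2 * s - 2) • Z := by
  classical
  haveI : NeZero (p ^ (2 * s - 2)) := ⟨pow_ne_zero _ hp.ne_zero⟩
  haveI : NeZero (p ^ (2 * s - 1)) := ⟨pow_ne_zero _ hp.ne_zero⟩
  have hle : 2 * s - 2 ≤ 2 * s - 1 := by omega
  obtain ⟨φ, hφ⟩ : ∃ φ : ZMod (p ^ (2 * s - 1)) →+* ZMod (p ^ (2 * s - 2)),
    φ = ZMod.castHom (pow_dvd_pow p hle) (ZMod (p ^ (2 * s - 2))) := ⟨_, rfl⟩
  let M : Matrix (Fin n) (Fin n) (ZMod (p ^ (2 * s - 1))) →+*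
      Matrix (Fin n) (Fin n) (ZMod (p ^ (2 * s - 2))) :=
    φ.mapMatrix
  let ψ : (Matrix (Fin n) (Fin n) (ZMod (p ^ (2 * s - 1))))ˣ →*
      (Matrix (Fin n) (Fin n) (ZMod (p ^ (2 * s - 2))))ˣ :=
    Units.map (M : Matrix (Fin n) (Fin n) (ZMod (p ^ (2 * s - 1))) →*
      Matrix (Fin n) (Fin n) (ZMod (p ^ (2 * s - 2))))
  have hM : ∀ (r : ZMod (p ^ (2 * s - 1))) (W : Matrix (Fin n) (Fin n) (ZMod (p ^ (2 * s - 1)))),
      M (r • W) = φ r • M W := by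
    intro r W
    ext i j
    change φ (r * W i j) = φ r * φ (W i j)
    exact map_mul φ _ _
  have hpp : (p : ZMod (p ^ (2 * s - 2))) ^ (s - 1) * (p : ZMod (p ^ (2 * s - 2))) ^ (s - 1) = 0 := by
    rw [← pow_add, ← Nat.cast_pow, show s - 1 + (s - 1) = 2 * s - 2 by omega]
    exact ZMod.natCast_self _
  obtain ⟨u, hu1, hu2⟩ := ad_data (ψ x) (M V) ((p : ZMod (p ^ (2 * s - 2))) ^ (s - 1)) hpp
  have huy : u 1 = ψ y := by
    apply Units.ext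
    rw [hu2, map_one]
    change _ = M (y : Matrix (Fin n) (Fin n) (ZMod (p ^ (2 * s - 1))))
    rw [hy, map_add, map_one, hM, map_pow, map_natCast]
    rfl
  have hc2 : ψ c ∈ ⁅Subgroup.closure ({ψ x, u 1} : Set (Matrix (Fin n) (Fin n) (ZMod (p ^ (2 * s - 2))))ˣ),
      Subgroup.closure ({ψ x, u 1} : Set (Matrix (Fin n) (Fin n) (ZMod (p ^ (2 * s - 2))))ˣ)⁆ := by
    have h1 := Subgroup.mem_map_of_mem ψ hc
    rw [Subgroup.map_commutator, MonoidHom.map_closure, Set.image_pair] at h1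
    rw [huy]
    exact h1
  obtain ⟨w, hw⟩ := hu1.comm_mem (ψ c) hc2
  have hMc : M (c : Matrix (Fin n) (Fin n) (ZMod (p ^ (2 * s - 1)))) =
      1 + (p : ZMod (p ^ (2 * s - 2))) ^ (s - 1) • ((aeval (Adx (ψ x)) ((X - 1) * w)) (M V)) := by
    have h1 : ((ψ c : (Matrix (Fin n) (Fin n) (ZMod (p ^ (2 * s - 2))))ˣ) :
        Matrix (Fin n) (Fin n) (ZMod (p ^ (2 * s - 2)))) =
      M (c : Matrix (Fin n) (Fin n) (ZMod (p ^ (2 * s - 1)))) := rfl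
    rw [← h1, hw, hu2]
  obtain ⟨D, hD⟩ : ∃ D : Matrix (Fin n) (Fin n) (ZMod (p ^ (2 * s - 1))), D =
    (c : Matrix (Fin n) (Fin n) (ZMod (p ^ (2 * s - 1)))) -
      (1 + (p : ZMod (p ^ (2 * s - 1))) ^ (s - 1) • ((aeval (Adx x) ((X - 1) * w)) V)) := ⟨_, rfl⟩
  have hMD : M D = 0 := by
    rw [hD, map_sub, map_add, map_one, hM, map_pow, map_natCast, hMc]
    have h2 := comm_lift_aeval φ x ((X - 1) * w) V
    change M _ = (aeval (Adx (ψ x))) ((X - 1) * w) (M V) at h2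
    rw [h2, sub_self]
  have hent : ∀ i j, ∃ z : ZMod (p ^ (2 * s - 1)),
      D i j = (p : ZMod (p ^ (2 * s - 1))) ^ (2 * s - 2) * z := by
    intro i j
    apply comm_lift_ker' hp hle
    rw [← hφ]
    have : M D i j = 0 := by rw [hMD]; rfl
    exact this
  choose z hz using hent
  refine ⟨w, Matrix.of z, ?_⟩
  have hDz : D = (p : ZMod (p ^ (2 * s - 1))) ^ (2 * s - 2) • Matrix.of z := by
    ext i j
    rw [hz]; rfl
  rw [← hDz, hD]
  abel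

end Pool.Agent.Helper407.PN
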