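import Mathlib
import Pool.Agent.Helper431.PN.Base
import Pool.Agent.Helper431.PN.M5a
import Pool.Agent.Helper407.PN.Defs
import Pool.Agent.Helper407.PN.A
import Pool.Agent.Helper407.PN.Ad1
import Pool.Agent.Helper407.PN.Ad2
import Pool.Agent.Helper407.PN.Ad3
import Pool.Agent.Helper407.PN.Ad4
import Pool.Agent.Helper407.PN.Reg1
import Pool.Agent.Helper407.PN.Reg2
import Pool.Agent.Helper407.PN.Reg3
import Pool.Agent.Helper407.PN.RO1
import Pool.Agent.Helper407.PN.RO2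

namespace Pool.Agent.Helper407.PN
open Polynomial Pool.Agent.Helper431.PN

theorem reg_odd_pow {p n s : ℕ} (hp : p.Prime) (hp2 : p ≠ 2) (hs : 2 ≤ s)
    (q : ZMod (p ^ (2 * s - 1))) (hq : q = (p : ZMod (p ^ (2 * s - 1))) ^ (s - 1))
    (W : Matrix (Fin n) (Fin n) (ZMod (p ^ (2 * s - 1)))) :
    (1 + q • W) ^ p = 1 + ((p : ZMod (p ^ (2 * s - 1))) * q) • W := by
  have h : s - 1 + 1 = s := by omega
  rw [hq, pow_one_add' hp hp2 hs, ← pow_succ', h]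

theorem reg_odd_list {p n s : ℕ} (hp : p.Prime) (hp2 : p ≠ 2) (hs : 2 ≤ s)
    (x y : (Matrix (Fin n) (Fin n) (ZMod (p ^ (2 * s - 1))))ˣ)
    (V : Matrix (Fin n) (Fin n) (ZMod (p ^ (2 * s - 1)))) (e q : ZMod (p ^ (2 * s - 1)))
    (hq : q = (p : ZMod (p ^ (2 * s - 1))) ^ (s - 1))
    (hP : (p : ZMod (p ^ (2 * s - 1))) * q * q = 0)
    (hy : (y : Matrix (Fin n) (Fin n) (ZMod (p ^ (2 * s - 1)))) = 1 + q • (e • V))
    (l : List (Matrix (Fin n) (Fin n) (ZMod (p ^ (2 * s - 1))))ˣ)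
    (hl : ∀ c ∈ l, c ∈ ⁅Subgroup.closure ({x, y} :
        Set (Matrix (Fin n) (Fin n) (ZMod (p ^ (2 * s - 1))))ˣ),
      Subgroup.closure ({x, y} : Set (Matrix (Fin n) (Fin n) (ZMod (p ^ (2 * s - 1))))ˣ)⁆) :
    ∃ W : ℤ[X], (((l.map (fun c => c ^ p)).prod :
        (Matrix (Fin n) (Fin n) (ZMod (p ^ (2 * s - 1))))ˣ) :
      Matrix (Fin n) (Fin n) (ZMod (p ^ (2 * s - 1)))) =
        1 + ((p : ZMod (p ^ (2 * s - 1))) * q) • (e • ((aeval (Adx x) ((X - 1) * W)) V)) := by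
  induction l with
  | nil =>
    refine ⟨0, ?_⟩
    simp
  | cons c l ih =>
    obtain ⟨W, hW⟩ := ih (fun c hc => hl c (List.mem_cons_of_mem _ hc))
    obtain ⟨w, Z, hc⟩ := comm_lift' hp hs x y (e • V) (by rw [← hq]; exact hy) c
      (hl c List.mem_cons_self)
    have hqq : (p : ZMod (p ^ (2 * s - 1))) ^ (2 * s - 2) = q * q := by
      rw [hq, ← pow_add]
      congr 1
      omega
    rw [hqq, ← hq] at hc
    have hc2 : ((c : (Matrix (Fin n) (Fin n) (ZMod (p ^ (2 * s - 1))))ˣ) :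
        Matrix (Fin n) (Fin n) (ZMod (p ^ (2 * s - 1)))) ^ p =
        1 + ((p : ZMod (p ^ (2 * s - 1))) * q) •
          (e • ((aeval (Adx x) ((X - 1) * w)) V)) := by
      have h1 : ((c : (Matrix (Fin n) (Fin n) (ZMod (p ^ (2 * s - 1))))ˣ) :
        Matrix (Fin n) (Fin n) (ZMod (p ^ (2 * s - 1)))) = 1 + q •
          ((aeval (Adx x) ((X - 1) * w)) (e • V) + q • Z) := by
        rw [hc, smul_add, smul_smul, add_assoc]
      rw [h1, reg_odd_pow hp hp2 hs q hq, smul_add, smul_smul, hP, zero_smul, add_zero, map_smul]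
    refine ⟨w + W, ?_⟩
    rw [List.map_cons, List.prod_cons, Units.val_mul, Units.val_pow_eq_pow_val, hc2, hW,
      mul_add (X - 1 : ℤ[X]), map_add, LinearMap.add_apply, add_mul, one_mul, mul_add, mul_one,
      smul_mul_smul_comm]
    have h0 : (p : ZMod (p ^ (2 * s - 1))) * q * ((p : ZMod (p ^ (2 * s - 1))) * q) = 0 := by
      calc (p : ZMod (p ^ (2 * s - 1))) * q * ((p : ZMod (p ^ (2 * s - 1))) * q) =
          ((p : ZMod (p ^ (2 * s - 1))) * q * q) * (p : ZMod (p ^ (2 * s - 1))) := by ring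
        _ = 0 := by rw [hP, zero_mul]
    rw [h0, zero_smul, add_zero, smul_add, smul_add]
    abel

theorem reg_odd_e {p n s : ℕ} (hp : p.Prime) (hp2 : p ≠ 2) (hs : 2 ≤ s)
    (hreg : IsRegular p (PGroup p (2 * s - 1) n))
    (x : PGroup p (2 * s - 1) n) (V : Matrix (Fin n) (Fin n) (ZMod (p ^ (2 * s - 1))))
    (e q : ZMod (p ^ (2 * s - 1)))
    (hq : q = (p : ZMod (p ^ (2 * s - 1))) ^ (s - 1))
    (hP : (p : ZMod (p ^ (2 * s - 1))) * q * q = 0)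
    (Q : Matrix (Fin n) (Fin n) (ZMod (p ^ (2 * s - 1))))
    (hQ : (((x : (Matrix (Fin n) (Fin n) (ZMod (p ^ (2 * s - 1))))ˣ) :
        Matrix (Fin n) (Fin n) (ZMod (p ^ (2 * s - 1)))) * (1 + (e * q) • V)) ^ p =
        ((x : (Matrix (Fin n) (Fin n) (ZMod (p ^ (2 * s - 1))))ˣ) :
        Matrix (Fin n) (Fin n) (ZMod (p ^ (2 * s - 1)))) ^ p * (1 + (e * q) •
          ((aeval (Adx (x : (Matrix (Fin n) (Fin n) (ZMod (p ^ (2 * s - 1))))ˣ))
            (∑ i ∈ Finset.range p, (X : ℤ[X]) ^ i)) V) + (q * q) • Q)) :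
    ∃ W : ℤ[X], (e * q) •
          ((aeval (Adx (x : (Matrix (Fin n) (Fin n) (ZMod (p ^ (2 * s - 1))))ˣ))
            (∑ i ∈ Finset.range p, (X : ℤ[X]) ^ i)) V) + (q * q) • Q =
        ((p : ZMod (p ^ (2 * s - 1))) * q) • (e • V) + ((p : ZMod (p ^ (2 * s - 1))) * q) •
          (e • ((aeval (Adx (x : (Matrix (Fin n) (Fin n) (ZMod (p ^ (2 * s - 1))))ˣ))
            ((X - 1) * W)) V)) := by
  have hcomm : (e * q) • V = q • (e • V) := by
    rw [smul_smul, mul_comm e q]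
  obtain ⟨g, hg, hgA⟩ := mem_of_isP (p := p) (m := 2 * s - 1) (n := n) hp (by omega)
    (1 + (e * q) • V) (by
      rw [isP_iff]
      intro i j _
      rw [add_sub_cancel_left, hcomm, hq]
      refine Dvd.dvd.mul_right ?_ ((e • V) i j)
      exact dvd_pow_self _ (by omega))
  obtain ⟨l, hl, heq⟩ := good_coe (PGroup p (2 * s - 1) n) x ⟨g, hg⟩ (hreg x ⟨g, hg⟩)
  have hgA' : (g : Matrix (Fin n) (Fin n) (ZMod (p ^ (2 * s - 1)))) = 1 + q • (e • V) := by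
    rw [hgA, hcomm]
  obtain ⟨W, hW⟩ := reg_odd_list hp hp2 hs (x : (Matrix (Fin n) (Fin n) (ZMod (p ^ (2 * s - 1))))ˣ)
    g V e q hq hP hgA' l hl
  refine ⟨W, ?_⟩
  have h1 := congrArg (fun u : (Matrix (Fin n) (Fin n) (ZMod (p ^ (2 * s - 1))))ˣ =>
    (u : Matrix (Fin n) (Fin n) (ZMod (p ^ (2 * s - 1))))) heq
  simp only [Units.val_mul, Units.val_pow_eq_pow_val] at h1
  rw [hW, hgA, hQ, hcomm, reg_odd_pow hp hp2 hs q hq, mul_assoc] at h1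
  have h3 : (1 + (e * q) •
          ((aeval (Adx (x : (Matrix (Fin n) (Fin n) (ZMod (p ^ (2 * s - 1))))ˣ))
            (∑ i ∈ Finset.range p, (X : ℤ[X]) ^ i)) V) + (q * q) • Q) =
        (1 + ((p : ZMod (p ^ (2 * s - 1))) * q) • (e • V)) *
          (1 + ((p : ZMod (p ^ (2 * s - 1))) * q) •
          (e • ((aeval (Adx (x : (Matrix (Fin n) (Fin n) (ZMod (p ^ (2 * s - 1))))ˣ))
            ((X - 1) * W)) V))) := by
    have hu : IsUnit (((x : (Matrix (Fin n) (Fin n) (ZMod (p ^ (2 * s - 1))))ˣ) :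
        Matrix (Fin n) (Fin n) (ZMod (p ^ (2 * s - 1)))) ^ p) := (Units.isUnit _).pow p
    exact hu.mul_left_cancel h1
  have h0 : (p : ZMod (p ^ (2 * s - 1))) * q * ((p : ZMod (p ^ (2 * s - 1))) * q) = 0 := by
    calc (p : ZMod (p ^ (2 * s - 1))) * q * ((p : ZMod (p ^ (2 * s - 1))) * q) =
        ((p : ZMod (p ^ (2 * s - 1))) * q * q) * (p : ZMod (p ^ (2 * s - 1))) := by ring
      _ = 0 := by rw [hP, zero_mul]
  rw [add_mul, one_mul, mul_add, mul_one, smul_mul_smul_comm, h0, zero_smul, add_zero, add_assoc,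
    add_assoc] at h3
  rw [add_left_cancel h3, add_comm]

/-- NEW TARGET (generalises the theorem proved just above; adapt its proof) -/
theorem reg_odd {p n s : ℕ} (hp : p.Prime) (hp2 : p ≠ 2) (hs : 2 ≤ s)
    (hreg : IsRegular p (PGroup p (2 * s - 1) n))
    (x : PGroup p (2 * s - 1) n) (V : Matrix (Fin n) (Fin n) (ZMod (p ^ (2 * s - 1))))
    (hV : V * V = 0) :
    ∃ F : ℤ[X], (p : ZMod (p ^ (2 * s - 1))) ^ (s - 1) •
      ((aeval (Adx (x : (Matrix (Fin n) (Fin n) (ZMod (p ^ (2 * s - 1))))ˣ))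
      ((∑ i ∈ Finset.range p, (X : ℤ[X]) ^ i) - (p : ℤ[X]) - (p : ℤ[X]) * ((X - 1) * F))) V) = 0 := by
  obtain ⟨q, hq⟩ : ∃ q, q = (p : ZMod (p ^ (2 * s - 1))) ^ (s - 1) := ⟨_, rfl⟩
  have hp0 : (p : ZMod (p ^ (2 * s - 1))) ^ (2 * s - 1) = 0 := by
    rw [← Nat.cast_pow]
    exact ZMod.natCast_self _
  have hP : (p : ZMod (p ^ (2 * s - 1))) * q * q = 0 := by
    rw [hq, ← pow_succ', ← pow_add, ← hp0]
    congr 1
    omega
  have hq3 : q * q * q = 0 := by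
    have h1 : q = (p : ZMod (p ^ (2 * s - 1))) * (p : ZMod (p ^ (2 * s - 1))) ^ (s - 2) := by
      rw [hq, ← pow_succ']
      congr 1
      omega
    calc q * q * q = ((p : ZMod (p ^ (2 * s - 1))) * (p : ZMod (p ^ (2 * s - 1))) ^ (s - 2)) * q * q := by
          rw [← h1]
      _ = ((p : ZMod (p ^ (2 * s - 1))) * q * q) * (p : ZMod (p ^ (2 * s - 1))) ^ (s - 2) := by ring
      _ = 0 := by rw [hP, zero_mul]
  rw [← hq]
  obtain ⟨Q, hQ⟩ := geom3 (x : (Matrix (Fin n) (Fin n) (ZMod (p ^ (2 * s - 1))))ˣ) V q hq3 p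
  obtain ⟨W, hW⟩ := reg_odd_e hp hp2 hs hreg x V 1 q hq hP Q (hQ 1 (by ring))
  obtain ⟨W', hW'⟩ := reg_odd_e hp hp2 hs hreg x V (-1) q hq hP Q (hQ (-1) (by ring))
  have hodd : Odd (p ^ (2 * s - 1)) := (hp.odd_of_ne_two hp2).pow
  obtain ⟨k, hk⟩ := hodd
  refine ⟨((k + 1 : ℕ) : ℤ[X]) * (W + W'), ?_⟩
  obtain ⟨S, hS⟩ : ∃ S, S = (aeval (Adx (x : (Matrix (Fin n) (Fin n) (ZMod (p ^ (2 * s - 1))))ˣ))
      (∑ i ∈ Finset.range p, (X : ℤ[X]) ^ i)) V := ⟨_, rfl⟩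
  obtain ⟨B, hB⟩ : ∃ B, B = (aeval (Adx (x : (Matrix (Fin n) (Fin n) (ZMod (p ^ (2 * s - 1))))ˣ))
      ((X - 1) * W)) V := ⟨_, rfl⟩
  obtain ⟨B', hB'⟩ : ∃ B', B' = (aeval (Adx (x : (Matrix (Fin n) (Fin n) (ZMod (p ^ (2 * s - 1))))ˣ))
      ((X - 1) * W')) V := ⟨_, rfl⟩
  rw [← hS, ← hB] at hW
  rw [← hS, ← hB'] at hW'
  have hnat : ∀ (m : ℕ) (f : ℤ[X]) (Y : Matrix (Fin n) (Fin n) (ZMod (p ^ (2 * s - 1)))),
      (aeval (Adx (x : (Matrix (Fin n) (Fin n) (ZMod (p ^ (2 * s - 1))))ˣ)) ((m : ℤ[X]) * f)) Y =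
      (m : ZMod (p ^ (2 * s - 1))) •
        (aeval (Adx (x : (Matrix (Fin n) (Fin n) (ZMod (p ^ (2 * s - 1))))ˣ)) f) Y := by
    intro m f Y
    rw [map_mul, map_natCast]
    show ((m : Module.End (ZMod (p ^ (2 * s - 1))) (Matrix (Fin n) (Fin n)
      (ZMod (p ^ (2 * s - 1)))))) _ = _
    rw [Module.End.natCast_apply, Nat.cast_smul_eq_nsmul]
  have e1 : (aeval (Adx (x : (Matrix (Fin n) (Fin n) (ZMod (p ^ (2 * s - 1))))ˣ))
      ((∑ i ∈ Finset.range p, (X : ℤ[X]) ^ i) - (p : ℤ[X]) - (p : ℤ[X]) *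
        ((X - 1) * (((k + 1 : ℕ) : ℤ[X]) * (W + W'))))) V =
      S - (p : ZMod (p ^ (2 * s - 1))) • V -
        (p : ZMod (p ^ (2 * s - 1))) • (((k + 1 : ℕ) : ZMod (p ^ (2 * s - 1))) • (B + B')) := by
    have e2 : (∑ i ∈ Finset.range p, (X : ℤ[X]) ^ i) - (p : ℤ[X]) - (p : ℤ[X]) *
        ((X - 1) * (((k + 1 : ℕ) : ℤ[X]) * (W + W'))) =
        (∑ i ∈ Finset.range p, (X : ℤ[X]) ^ i) - (p : ℤ[X]) * 1 - (p : ℤ[X]) *
        (((k + 1 : ℕ) : ℤ[X]) * ((X - 1) * W + (X - 1) * W')) := by ring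
    rw [e2, map_sub, map_sub, LinearMap.sub_apply, LinearMap.sub_apply, hnat, hnat, hnat, ← hS,
      map_one, map_add, LinearMap.add_apply, ← hB, ← hB']
    rfl
  rw [e1]
  have hu : IsUnit ((2 : ℕ) : ZMod (p ^ (2 * s - 1))) := by
    rw [ZMod.isUnit_iff_coprime]
    exact Nat.Coprime.pow_right _ ((Nat.coprime_primes Nat.prime_two hp).2 hp2.symm)
  rw [← hu.smul_eq_zero]
  have hk2 : ((2 : ℕ) : ZMod (p ^ (2 * s - 1))) * ((k + 1 : ℕ) : ZMod (p ^ (2 * s - 1))) = 1 := by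
    have h1 : 2 * (k + 1) = p ^ (2 * s - 1) + 1 := by omega
    calc ((2 : ℕ) : ZMod (p ^ (2 * s - 1))) * ((k + 1 : ℕ) : ZMod (p ^ (2 * s - 1))) =
        ((2 * (k + 1) : ℕ) : ZMod (p ^ (2 * s - 1))) := (Nat.cast_mul _ _).symm
      _ = ((p ^ (2 * s - 1) + 1 : ℕ) : ZMod (p ^ (2 * s - 1))) := by rw [h1]
      _ = 1 := by rw [Nat.cast_add, ZMod.natCast_self, zero_add, Nat.cast_one]
  have e3 : ((2 : ℕ) : ZMod (p ^ (2 * s - 1))) • (q •
      (S - (p : ZMod (p ^ (2 * s - 1))) • V - (p : ZMod (p ^ (2 * s - 1))) •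
        (((k + 1 : ℕ) : ZMod (p ^ (2 * s - 1))) • (B + B')))) =
      (((1 : ZMod (p ^ (2 * s - 1))) * q) • S + (q * q) • Q -
        (((p : ZMod (p ^ (2 * s - 1))) * q) • ((1 : ZMod (p ^ (2 * s - 1))) • V) +
          ((p : ZMod (p ^ (2 * s - 1))) * q) • ((1 : ZMod (p ^ (2 * s - 1))) • B))) -
      (((-1 : ZMod (p ^ (2 * s - 1))) * q) • S + (q * q) • Q -
        (((p : ZMod (p ^ (2 * s - 1))) * q) • ((-1 : ZMod (p ^ (2 * s - 1))) • V) +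
          ((p : ZMod (p ^ (2 * s - 1))) * q) • ((-1 : ZMod (p ^ (2 * s - 1))) • B'))) -
        (((2 : ℕ) : ZMod (p ^ (2 * s - 1))) * ((k + 1 : ℕ) : ZMod (p ^ (2 * s - 1))) - 1) •
            (((p : ZMod (p ^ (2 * s - 1))) * q) • (B + B')) := by
    push_cast
    module
  rw [e3, hW, hW', sub_self, sub_self, sub_zero, hk2, sub_self, zero_smul, sub_zero]

end Pool.Agent.Helper407.PN
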