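import Mathlib
import Pool.Agent.Helper431.PN.Base
import Pool.Agent.Helper431.PN.M5a
import Pool.Agent.Helper407.PN.Defs
import Pool.Agent.Helper407.PN.A
import Pool.Agent.Helper407.PN.Ad1
import Pool.Agent.Helper407.PN.Ad4

namespace Pool.Agent.Helper407.PN
open Polynomial Pool.Agent.Helper431.PN





/-- TARGET 1 -/
theorem reg_even {p s n : ℕ} (hp : p.Prime) (hs : 1 ≤ s)
    (hreg : IsRegular p (PGroup p (2 * s) n)) (x : PGroup p (2 * s) n)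
    (V : Matrix (Fin n) (Fin n) (ZMod (p ^ (2 * s)))) :
    ∃ F : ℤ[X], (p : ZMod (p ^ (2 * s))) ^ s •
      ((aeval (Adx (x : (Matrix (Fin n) (Fin n) (ZMod (p ^ (2 * s))))ˣ))
      ((∑ i ∈ Finset.range p, (X : ℤ[X]) ^ i) - (p : ℤ[X]) - (p : ℤ[X]) * ((X - 1) * F))) V) = 0 := by
  haveI : NeZero (p ^ (2 * s)) := ⟨pow_ne_zero _ hp.ne_zero⟩
  obtain ⟨q, hq⟩ : ∃ q : ZMod (p ^ (2 * s)), q = (p : ZMod (p ^ (2 * s))) ^ s := ⟨_, rfl⟩
  have hqq : q * q = 0 := by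
    rw [hq, ← pow_add, ← two_mul, ← Nat.cast_pow]
    exact ZMod.natCast_self _
  have hpq : (p : ZMod (p ^ (2 * s))) ∣ q := by
    rw [hq]
    exact dvd_pow_self _ (by omega)
  have hP : IsP p (2 * s) n (1 + q • V) := by
    rw [isP_iff, add_sub_cancel_left]
    intro i j _
    rw [Matrix.smul_apply, smul_eq_mul]
    exact hpq.mul_right _
  obtain ⟨g, hg, hgV⟩ := mem_of_isP hp (by omega) _ hP
  obtain ⟨u, hu, huv⟩ := ad_data (x : (Matrix (Fin n) (Fin n) (ZMod (p ^ (2 * s))))ˣ) V q hqq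
  have hu1 : u 1 = g := by
    apply Units.ext
    rw [huv, hgV, map_one]
    rfl
  have hgood := good_coe (PGroup p (2 * s) n) x ⟨g, hg⟩ (hreg x ⟨g, hg⟩)
  have hgood' : GoodPair p (x : (Matrix (Fin n) (Fin n) (ZMod (p ^ (2 * s))))ˣ) (u 1) := by
    rw [hu1]
    exact hgood
  obtain ⟨F, hF⟩ := hu.good hgood'
  refine ⟨F, ?_⟩
  have h1 := huv ((∑ i ∈ Finset.range p, (X : ℤ[X]) ^ i) - (p : ℤ[X]) - (p : ℤ[X]) * ((X - 1) * F))
  rw [hF, Units.val_one] at h1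
  rw [← hq]
  exact (left_eq_add.1 h1)


end Pool.Agent.Helper407.PN
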