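import Mathlib
import Pool.Agent.Helper431.PN.Base
import Pool.Agent.Helper431.PN.M5a
import Pool.Agent.Helper407.PN.Defs
import Pool.Agent.Helper407.PN.A
import Pool.Agent.Helper407.PN.Ad1
import Pool.Agent.Helper407.PN.Ad4
import Pool.Agent.Helper407.PN.RegE1

namespace Pool.Agent.Helper407.PN
open Polynomial Pool.Agent.Helper431.PN





/-- shift matrix over any ring -/
def LnPi (n : ℕ) (q : ℕ) (A : Type*) [CommRing A] : Matrix (Fin n) (Fin n) A :=
  Matrix.of fun i j => if (j : ℕ) = i + 1 then 1 else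
    if (j : ℕ) = 0 ∧ (i : ℕ) + 1 = n then (q : A) else 0

/-- the unit matrix -/
def LnV (n : ℕ) (hn : 0 < n) (A : Type*) [CommRing A] : Matrix (Fin n) (Fin n) A :=
  Matrix.single ⟨n - 1, by omega⟩ ⟨0, hn⟩ 1

/-- the integral lift -/
noncomputable def LnG (n : ℕ) (hn : 0 < n) (q : ℕ) (h : ℤ[X]) (A : Type*) [CommRing A] :
    Matrix (Fin n) (Fin n) A :=
  ∑ l ∈ Finset.range (h.natDegree + 1),
    h.coeff l • ((1 + LnPi n q A) ^ (h.natDegree - l) * LnV n hn A * (1 + LnPi n q A) ^ l)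

theorem LnPi_map (n q : ℕ) {A B : Type*} [CommRing A] [CommRing B] (f : A →+* B) :
    f.mapMatrix (LnPi n q A) = LnPi n q B := by
  ext i j
  simp only [RingHom.mapMatrix_apply, Matrix.map_apply, LnPi, Matrix.of_apply]
  split_ifs <;> simp

theorem LnV_map (n : ℕ) (hn : 0 < n) {A B : Type*} [CommRing A] [CommRing B] (f : A →+* B) :
    f.mapMatrix (LnV n hn A) = LnV n hn B := by
  unfold LnV
  rw [RingHom.mapMatrix_apply, Matrix.map_single]
  simp

theorem LnG_map (n : ℕ) (hn : 0 < n) (q : ℕ) (h : ℤ[X]) {A B : Type*} [CommRing A] [CommRing B]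
    (f : A →+* B) : f.mapMatrix (LnG n hn q h A) = LnG n hn q h B := by
  unfold LnG
  rw [map_sum]
  refine Finset.sum_congr rfl fun l _ => ?_
  rw [map_zsmul, map_mul, map_mul, map_pow, map_pow, map_add, map_one, LnPi_map, LnV_map]

theorem LnG_entry (n : ℕ) (hn : 0 < n) (q : ℕ) (h : ℤ[X]) (A : Type*) [CommRing A] (i c : Fin n) :
    LnG n hn q h A i c = ((LnG n hn q h ℤ i c : ℤ) : A) := by
  rw [← LnG_map n hn q h (Int.castRingHom A)]
  simp [RingHom.mapMatrix_apply, Matrix.map_apply]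

theorem LnAdx {n : ℕ} {R : Type*} [CommRing R] (x : (Matrix (Fin n) (Fin n) R)ˣ)
    (V : Matrix (Fin n) (Fin n) R) (l : ℕ) :
    ((Adx x) ^ l) V = ((x⁻¹ : (Matrix (Fin n) (Fin n) R)ˣ) : Matrix (Fin n) (Fin n) R) ^ l * V *
      (x : Matrix (Fin n) (Fin n) R) ^ l := by
  induction l with
  | zero => simp
  | succ k ih =>
    rw [pow_succ', Module.End.mul_apply, ih]
    change (↑x⁻¹ : Matrix (Fin n) (Fin n) R) * _ * (x : Matrix (Fin n) (Fin n) R) = _
    rw [pow_succ' (↑x⁻¹ : Matrix (Fin n) (Fin n) R) k, pow_succ (x : Matrix (Fin n) (Fin n) R) k]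
    simp only [mul_assoc]

theorem LnAeval {n : ℕ} {R : Type*} [CommRing R] (x : (Matrix (Fin n) (Fin n) R)ˣ)
    (V : Matrix (Fin n) (Fin n) R) (h : ℤ[X]) :
    (x : Matrix (Fin n) (Fin n) R) ^ h.natDegree * ((aeval (Adx x) h) V) =
      ∑ l ∈ Finset.range (h.natDegree + 1),
        h.coeff l • ((x : Matrix (Fin n) (Fin n) R) ^ (h.natDegree - l) * V *
          (x : Matrix (Fin n) (Fin n) R) ^ l) := by
  rw [Polynomial.aeval_eq_sum_range, LinearMap.sum_apply, Finset.mul_sum]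
  refine Finset.sum_congr rfl fun l hl => ?_
  have hl' : l ≤ h.natDegree := by
    have := Finset.mem_range.1 hl
    omega
  rw [LinearMap.smul_apply, LnAdx, mul_smul_comm]
  congr 1
  have h1 : (x : Matrix (Fin n) (Fin n) R) ^ h.natDegree =
      (x : Matrix (Fin n) (Fin n) R) ^ (h.natDegree - l) * (x : Matrix (Fin n) (Fin n) R) ^ l := by
    rw [← pow_add]; congr 1; omega
  have h2 : (x : Matrix (Fin n) (Fin n) R) ^ l *
      ((x⁻¹ : (Matrix (Fin n) (Fin n) R)ˣ) : Matrix (Fin n) (Fin n) R) ^ l = 1 := by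
    rw [← Units.val_pow_eq_pow_val, ← Units.val_pow_eq_pow_val, ← Units.val_mul, inv_pow,
      mul_inv_cancel, Units.val_one]
  rw [h1]
  calc _ = (x : Matrix (Fin n) (Fin n) R) ^ (h.natDegree - l) *
        ((x : Matrix (Fin n) (Fin n) R) ^ l *
      ((x⁻¹ : (Matrix (Fin n) (Fin n) R)ˣ) : Matrix (Fin n) (Fin n) R) ^ l) * V *
        (x : Matrix (Fin n) (Fin n) R) ^ l := by simp only [mul_assoc]
    _ = _ := by rw [h2, mul_one]

theorem LnDvd {p s n : ℕ} (hp : p.Prime)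
    (x : (Matrix (Fin n) (Fin n) (ZMod (p ^ (2 * s))))ˣ) (hn : 0 < n)
    (hx : (x : Matrix (Fin n) (Fin n) (ZMod (p ^ (2 * s)))) = 1 + Pi p (2 * s) n) (h : ℤ[X])
    (h0 : (p : ZMod (p ^ (2 * s))) ^ s • ((aeval (Adx x) h)
      (Matrix.single ⟨n - 1, by omega⟩ ⟨0, hn⟩ 1)) = 0) (i c : Fin n) :
    ∃ g : ℤ, LnG n hn p h ℤ i c = (p : ℤ) ^ s * g := by
  have h1 := LnAeval x (LnV n hn (ZMod (p ^ (2 * s)))) h
  have h2 : LnG n hn p h (ZMod (p ^ (2 * s))) =
      (x : Matrix (Fin n) (Fin n) (ZMod (p ^ (2 * s)))) ^ h.natDegree *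
        ((aeval (Adx x) h) (LnV n hn (ZMod (p ^ (2 * s))))) := by
    rw [h1, hx]
    rfl
  have h3 : (p : ZMod (p ^ (2 * s))) ^ s • LnG n hn p h (ZMod (p ^ (2 * s))) = 0 := by
    rw [h2, ← mul_smul_comm]
    unfold LnV
    rw [h0, mul_zero]
  have h4 : (p : ZMod (p ^ (2 * s))) ^ s * LnG n hn p h (ZMod (p ^ (2 * s))) i c = 0 := by
    have := congrFun (congrFun h3 i) c
    simpa using this
  rw [LnG_entry] at h4
  have h5 : (((p : ℤ) ^ s * LnG n hn p h ℤ i c : ℤ) : ZMod (p ^ (2 * s))) = 0 := by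
    push_cast
    exact h4
  haveI : NeZero (p ^ (2 * s)) := ⟨pow_ne_zero _ hp.ne_zero⟩
  rw [ZMod.intCast_zmod_eq_zero_iff_dvd] at h5
  push_cast at h5
  have h6 : (p : ℤ) ^ (2 * s) = (p : ℤ) ^ s * (p : ℤ) ^ s := by rw [two_mul, pow_add]
  rw [h6] at h5
  have h7 : (p : ℤ) ^ s ≠ 0 := pow_ne_zero _ (by exact_mod_cast hp.ne_zero)
  exact (mul_dvd_mul_iff_left h7).1 h5

section LnK
open Matrix

variable {K : Type*} [Field K] {n : ℕ} (hn : 0 < n)

theorem Ln_vec {p : ℕ} {a : K} (ha : a ^ n = (p : K)) :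
    (fun c : Fin n => a ^ (n - 1 - (c : ℕ))) ᵥ* (LnPi n p K) =
      a • (fun c : Fin n => a ^ (n - 1 - (c : ℕ))) := by
  funext j
  simp only [Matrix.vecMul, dotProduct, LnPi, Matrix.of_apply, Pi.smul_apply, smul_eq_mul]
  have hj := j.2
  rcases Nat.eq_zero_or_pos (j : ℕ) with h | h
  · rw [Finset.sum_eq_single (⟨n - 1, by omega⟩ : Fin n)]
    · rw [if_neg (by omega), if_pos ⟨h, by simp only []; omega⟩, h, ← ha]
      have h1 : n - 1 - (n - 1) = 0 := by omega
      simp only [h1, pow_zero, one_mul, Nat.sub_zero]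
      rw [← pow_succ']
      congr 1; omega
    · intro i _ hi
      have hi' : (i : ℕ) ≠ n - 1 := fun h' => hi (Fin.ext h')
      have := i.2
      rw [if_neg (by omega), if_neg (by omega), mul_zero]
    · intro h'; exact absurd (Finset.mem_univ _) h'
  · rw [Finset.sum_eq_single (⟨(j : ℕ) - 1, by omega⟩ : Fin n)]
    · rw [if_pos (by simp only []; omega), mul_one, ← pow_succ']
      congr 1
      simp only []
      omega
    · intro i _ hi
      have hi' : (i : ℕ) ≠ (j : ℕ) - 1 := fun h' => hi (Fin.ext h')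
      rw [if_neg (by omega), if_neg (by omega), mul_zero]
    · intro h'; exact absurd (Finset.mem_univ _) h'

theorem Ln_mulVec {p : ℕ} {b : K} (hb : b ^ n = (p : K)) :
    (LnPi n p K) *ᵥ (fun c : Fin n => b ^ (c : ℕ)) = b • (fun c : Fin n => b ^ (c : ℕ)) := by
  funext i
  simp only [Matrix.mulVec, dotProduct, LnPi, Matrix.of_apply, Pi.smul_apply, smul_eq_mul]
  have hi := i.2
  by_cases h : (i : ℕ) + 1 = n
  · rw [Finset.sum_eq_single (⟨0, by omega⟩ : Fin n)]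
    · rw [if_neg (by simp), if_pos ⟨rfl, h⟩, ← hb, ← pow_succ']
      simp only [pow_zero, mul_one]
      rw [h]
    · intro j _ hj
      have hj' : (j : ℕ) ≠ 0 := fun h' => hj (Fin.ext h')
      have := j.2
      rw [if_neg (by omega), if_neg (by omega), zero_mul]
    · intro h'; exact absurd (Finset.mem_univ _) h'
  · rw [Finset.sum_eq_single (⟨(i : ℕ) + 1, by omega⟩ : Fin n)]
    · rw [if_pos rfl, one_mul, ← pow_succ']
    · intro j _ hj
      have hj' : (j : ℕ) ≠ (i : ℕ) + 1 := fun h' => hj (Fin.ext h')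
      rw [if_neg hj', if_neg (by omega), zero_mul]
    · intro h'; exact absurd (Finset.mem_univ _) h'

theorem Ln_vec_pow {u : Fin n → K} {M : Matrix (Fin n) (Fin n) K} {a : K} (h : u ᵥ* M = a • u)
    (k : ℕ) : u ᵥ* (1 + M) ^ k = (1 + a) ^ k • u := by
  induction k with
  | zero => simp
  | succ k ih =>
    rw [pow_succ, ← Matrix.vecMul_vecMul, ih, Matrix.smul_vecMul, Matrix.vecMul_add, Matrix.vecMul_one,
      h, pow_succ, mul_smul, add_smul, one_smul]

theorem Ln_mulVec_pow {w : Fin n → K} {M : Matrix (Fin n) (Fin n) K} {b : K} (h : M *ᵥ w = b • w)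
    (k : ℕ) : (1 + M) ^ k *ᵥ w = (1 + b) ^ k • w := by
  induction k with
  | zero => simp
  | succ k ih =>
    rw [pow_succ, ← Matrix.mulVec_mulVec, Matrix.add_mulVec, Matrix.one_mulVec, h]
    have : w + b • w = (1 + b) • w := by rw [add_smul, one_smul]
    rw [this, Matrix.mulVec_smul, ih, pow_succ', mul_smul]

theorem Ln_form {p : ℕ} {a b : K} (ha : a ^ n = (p : K)) (hb : b ^ n = (p : K)) (h : ℤ[X])
    (ha1 : 1 + a ≠ 0) :
    (fun c : Fin n => a ^ (n - 1 - (c : ℕ))) ⬝ᵥ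
      (LnG n hn p h K *ᵥ (fun c : Fin n => b ^ (c : ℕ))) =
      (1 + a) ^ h.natDegree * aeval ((1 + b) / (1 + a)) h := by
  obtain ⟨u, hu⟩ : ∃ u : Fin n → K, u = fun c : Fin n => a ^ (n - 1 - (c : ℕ)) := ⟨_, rfl⟩
  obtain ⟨w, hw⟩ : ∃ w : Fin n → K, w = fun c : Fin n => b ^ (c : ℕ) := ⟨_, rfl⟩
  have h1 := Ln_vec ha
  have h2 := Ln_mulVec hb
  rw [← hu] at h1 ⊢
  rw [← hw] at h2 ⊢
  have hV : u ⬝ᵥ (LnV n hn K *ᵥ w) = 1 := by
    unfold LnV
    rw [Matrix.single_mulVec, hw]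
    simp only [dotProduct]
    rw [Finset.sum_eq_single (⟨n - 1, by omega⟩ : Fin n)]
    · rw [hu]; simp
    · intro i _ hi
      rw [Function.update_of_ne hi]
      simp
    · intro h'; exact absurd (Finset.mem_univ _) h'
  unfold LnG
  rw [Matrix.sum_mulVec, dotProduct_sum, Polynomial.aeval_eq_sum_range, Finset.mul_sum]
  refine Finset.sum_congr rfl fun l hl => ?_
  have hl' : l ≤ h.natDegree := by
    have := Finset.mem_range.1 hl
    omega
  rw [Matrix.smul_mulVec, dotProduct_smul, mul_smul_comm]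
  congr 1
  rw [← Matrix.mulVec_mulVec, ← Matrix.mulVec_mulVec, Ln_mulVec_pow h2, Matrix.mulVec_smul,
    Matrix.dotProduct_mulVec, Ln_vec_pow h1, dotProduct_smul, smul_dotProduct, hV]
  simp only [smul_eq_mul, mul_one]
  rw [div_pow]
  have h3 : (1 + a) ^ h.natDegree = (1 + a) ^ (h.natDegree - l) * (1 + a) ^ l := by
    rw [← pow_add]; congr 1; omega
  rw [h3]
  field_simp

end LnK

/-- TARGET 2 -/
theorem lift_norm {p s n : ℕ} (hp : p.Prime) (hs : 1 ≤ s) (hn : 0 < n)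
    (x : (Matrix (Fin n) (Fin n) (ZMod (p ^ (2 * s))))ˣ)
    (hx : (x : Matrix (Fin n) (Fin n) (ZMod (p ^ (2 * s)))) = 1 + Pi p (2 * s) n) (h : ℤ[X])
    (h0 : (p : ZMod (p ^ (2 * s))) ^ s • ((aeval (Adx x) h)
      (Matrix.single ⟨n - 1, by omega⟩ ⟨0, hn⟩ 1)) = 0)
    {K : Type*} [NormedField K] [IsUltrametricDist K]
    (hint : ∀ z : ℤ, ‖(z : K)‖ ≤ 1) (a b : K) (ha : a ^ n = (p : K)) (hb : b ^ n = (p : K))
    (ha1 : ‖a‖ < 1) (hb1 : ‖b‖ < 1) :
    ‖aeval ((1 + b) / (1 + a)) h‖ ≤ ‖(p : K)‖ ^ s := by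
  have hnorm1 : ‖(1 : K) + a‖ = 1 := by
    apply le_antisymm
    · refine (IsUltrametricDist.norm_add_le_max 1 a).trans ?_
      rw [norm_one]
      exact max_le le_rfl ha1.le
    · by_contra hlt
      push Not at hlt
      have h1 : ‖(1 : K)‖ ≤ max ‖(1 : K) + a‖ ‖-a‖ := by
        have := IsUltrametricDist.norm_add_le_max ((1 : K) + a) (-a)
        rwa [add_neg_cancel_right] at this
      rw [norm_one, norm_neg] at h1
      exact absurd h1 (not_le.2 (max_lt hlt ha1))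
  have hne : (1 : K) + a ≠ 0 := by
    intro h'
    rw [h', norm_zero] at hnorm1
    exact zero_ne_one hnorm1
  have hform := Ln_form hn ha hb h hne
  have hpn : 0 ≤ ‖(p : K)‖ ^ s := by positivity
  have hbd : ‖dotProduct (fun c : Fin n => a ^ (n - 1 - (c : ℕ)))
      (Matrix.mulVec (LnG n hn p h K) (fun c : Fin n => b ^ (c : ℕ)))‖ ≤ ‖(p : K)‖ ^ s := by
    unfold dotProduct
    refine IsUltrametricDist.norm_sum_le_of_forall_le_of_nonneg hpn fun i _ => ?_
    rw [norm_mul]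
    have h1 : ‖a ^ (n - 1 - (i : ℕ))‖ ≤ 1 := by
      rw [norm_pow]
      exact pow_le_one₀ (norm_nonneg _) ha1.le
    have h2 : ‖Matrix.mulVec (LnG n hn p h K) (fun c : Fin n => b ^ (c : ℕ)) i‖ ≤ ‖(p : K)‖ ^ s := by
      unfold Matrix.mulVec dotProduct
      refine IsUltrametricDist.norm_sum_le_of_forall_le_of_nonneg hpn fun c _ => ?_
      rw [norm_mul]
      have h3 : ‖b ^ (c : ℕ)‖ ≤ 1 := by
        rw [norm_pow]
        exact pow_le_one₀ (norm_nonneg _) hb1.le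
      have h4 : ‖LnG n hn p h K i c‖ ≤ ‖(p : K)‖ ^ s := by
        obtain ⟨g, hg⟩ := LnDvd hp x hn hx h h0 i c
        rw [LnG_entry, hg]
        push_cast
        rw [norm_mul, norm_pow]
        exact mul_le_of_le_one_right hpn (hint g)
      exact (mul_le_of_le_one_right (norm_nonneg _) h3).trans h4
    exact (mul_le_of_le_one_left (norm_nonneg _) h1).trans h2
  rw [hform, norm_mul, norm_pow, hnorm1, one_pow, one_mul] at hbd
  exact hbd

end Pool.Agent.Helper407.PN
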