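import Mathlib
import Pool.Agent.Helper431.PN.Base
import Pool.Agent.Helper431.PN.M5a
import Pool.Agent.Helper407.PN.Defs
import Pool.Agent.Helper407.PN.A
import Pool.Agent.Helper407.PN.Ad1
import Pool.Agent.Helper407.PN.Ad4
import Pool.Agent.Helper407.PN.RegE1
import Pool.Agent.Helper407.PN.RegE2

namespace Pool.Agent.Helper407.PN
open Polynomial Pool.Agent.Helper431.PN

theorem LnDvd' {p s n : ℕ} (hp : p.Prime) (hs : 2 ≤ s)
    (x : (Matrix (Fin n) (Fin n) (ZMod (p ^ (2 * s - 1))))ˣ) (hn : 0 < n)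
    (hx : (x : Matrix (Fin n) (Fin n) (ZMod (p ^ (2 * s - 1)))) = 1 + Pi p (2 * s - 1) n) (h : ℤ[X])
    (h0 : (p : ZMod (p ^ (2 * s - 1))) ^ (s - 1) • ((aeval (Adx x) h)
      (Matrix.single ⟨n - 1, by omega⟩ ⟨0, hn⟩ 1)) = 0) (i c : Fin n) :
    ∃ g : ℤ, LnG n hn p h ℤ i c = (p : ℤ) ^ s * g := by
  have h1 := LnAeval x (LnV n hn (ZMod (p ^ (2 * s - 1)))) h
  have h2 : LnG n hn p h (ZMod (p ^ (2 * s - 1))) =
      (x : Matrix (Fin n) (Fin n) (ZMod (p ^ (2 * s - 1)))) ^ h.natDegree *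
        ((aeval (Adx x) h) (LnV n hn (ZMod (p ^ (2 * s - 1))))) := by
    rw [h1, hx]
    rfl
  have h3 : (p : ZMod (p ^ (2 * s - 1))) ^ (s - 1) • LnG n hn p h (ZMod (p ^ (2 * s - 1))) = 0 := by
    rw [h2, ← mul_smul_comm]
    unfold LnV
    rw [h0, mul_zero]
  have h4 : (p : ZMod (p ^ (2 * s - 1))) ^ (s - 1) *
      LnG n hn p h (ZMod (p ^ (2 * s - 1))) i c = 0 := by
    have := congrFun (congrFun h3 i) c
    simpa using this
  rw [LnG_entry] at h4
  have h5 : (((p : ℤ) ^ (s - 1) * LnG n hn p h ℤ i c : ℤ) : ZMod (p ^ (2 * s - 1))) = 0 := by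
    push_cast
    exact h4
  haveI : NeZero (p ^ (2 * s - 1)) := ⟨pow_ne_zero _ hp.ne_zero⟩
  rw [ZMod.intCast_zmod_eq_zero_iff_dvd] at h5
  push_cast at h5
  have h6 : (p : ℤ) ^ (2 * s - 1) = (p : ℤ) ^ (s - 1) * (p : ℤ) ^ s := by
    rw [← pow_add]; congr 1; omega
  rw [h6] at h5
  have h7 : (p : ℤ) ^ (s - 1) ≠ 0 := pow_ne_zero _ (by exact_mod_cast hp.ne_zero)
  exact (mul_dvd_mul_iff_left h7).1 h5

/-- NEW TARGET (generalises the theorem proved just above; adapt its proof) -/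
theorem lift_norm' {p s n : ℕ} (hp : p.Prime) (hs : 2 ≤ s) (hn : 0 < n)
    (x : (Matrix (Fin n) (Fin n) (ZMod (p ^ (2 * s - 1))))ˣ)
    (hx : (x : Matrix (Fin n) (Fin n) (ZMod (p ^ (2 * s - 1)))) = 1 + Pi p (2 * s - 1) n) (h : ℤ[X])
    (h0 : (p : ZMod (p ^ (2 * s - 1))) ^ (s - 1) • ((aeval (Adx x) h)
      (Matrix.single ⟨n - 1, by omega⟩ ⟨0, hn⟩ 1)) = 0)
    {K : Type*} [NormedField K] [IsUltrametricDist K]
    (hint : ∀ z : ℤ, ‖(z : K)‖ ≤ 1) (a b : K) (ha : a ^ n = (p : K)) (hb : b ^ n = (p : K))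
    (ha1 : ‖a‖ < 1) (hb1 : ‖b‖ < 1) :
    ‖aeval ((1 + b) / (1 + a)) h‖ ≤ ‖(p : K)‖ ^ s := by
  have hnorm1 : ‖(1 : K) + a‖ = 1 := by
    apply le_antisymm
    · refine (IsUltrametricDist.norm_add_le_max 1 a).trans ?_
      rw [norm_one]
      exact max_le le_rfl ha1.le
    · by_contra hlt
      push Not at hlt
      have h1 : ‖(1 : K)‖ ≤ max ‖(1 : K) + a‖ ‖-a‖ := by
        have := IsUltrametricDist.norm_add_le_max ((1 : K) + a) (-a)
        rwa [add_neg_cancel_right] at this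
      rw [norm_one, norm_neg] at h1
      exact absurd h1 (not_le.2 (max_lt hlt ha1))
  have hne : (1 : K) + a ≠ 0 := by
    intro h'
    rw [h', norm_zero] at hnorm1
    exact zero_ne_one hnorm1
  have hform := Ln_form hn ha hb h hne
  have hpn : 0 ≤ ‖(p : K)‖ ^ s := by positivity
  have hbd : ‖dotProduct (fun c : Fin n => a ^ (n - 1 - (c : ℕ)))
      (Matrix.mulVec (LnG n hn p h K) (fun c : Fin n => b ^ (c : ℕ)))‖ ≤ ‖(p : K)‖ ^ s := by
    unfold dotProduct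
    refine IsUltrametricDist.norm_sum_le_of_forall_le_of_nonneg hpn fun i _ => ?_
    rw [norm_mul]
    have h1 : ‖a ^ (n - 1 - (i : ℕ))‖ ≤ 1 := by
      rw [norm_pow]
      exact pow_le_one₀ (norm_nonneg _) ha1.le
    have h2 : ‖Matrix.mulVec (LnG n hn p h K) (fun c : Fin n => b ^ (c : ℕ)) i‖ ≤ ‖(p : K)‖ ^ s := by
      unfold Matrix.mulVec dotProduct
      refine IsUltrametricDist.norm_sum_le_of_forall_le_of_nonneg hpn fun c _ => ?_
      rw [norm_mul]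
      have h3 : ‖b ^ (c : ℕ)‖ ≤ 1 := by
        rw [norm_pow]
        exact pow_le_one₀ (norm_nonneg _) hb1.le
      have h4 : ‖LnG n hn p h K i c‖ ≤ ‖(p : K)‖ ^ s := by
        obtain ⟨g, hg⟩ := LnDvd' hp hs x hn hx h h0 i c
        rw [LnG_entry, hg]
        push_cast
        rw [norm_mul, norm_pow]
        exact mul_le_of_le_one_right hpn (hint g)
      exact (mul_le_of_le_one_right (norm_nonneg _) h3).trans h4
    exact (mul_le_of_le_one_left (norm_nonneg _) h1).trans h2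
  rw [hform, norm_mul, norm_pow, hnorm1, one_pow, one_mul] at hbd
  exact hbd

end Pool.Agent.Helper407.PN
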