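import Mathlib
import Pool.Agent.Helper431.PN.Base
import Pool.Agent.Helper431.PN.Mono
import Pool.Agent.Helper431.PN.M5a
import Pool.Agent.Helper407.PN.Defs
import Pool.Agent.Helper407.PN.IrrBC
import Pool.Agent.Helper407.PN.RegE1
import Pool.Agent.Helper407.PN.RegE2
import Pool.Agent.Helper407.PN.G8
import Pool.Agent.Helper407.PN.RO1
import Pool.Agent.Helper407.PN.RO2
import Pool.Agent.Helper407.PN.RO3
import Pool.Agent.Helper407.PN.RO4

namespace Pool.Agent.Helper407.PN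
open Polynomial Pool.Agent.Helper431.PN

theorem irregular_large' {p n s m : ℕ} (hp : p.Prime) (hp2 : p ≠ 2) (hn : 2 ≤ n) (hnp : n < p)
    (hN : p ≤ n ^ 2 - n + 1) (hs : p + n - 1 ≤ s * n) (hs2 : 2 ≤ s) (hm : 2 * s - 1 ≤ m) :
    ¬ IsRegular p (PGroup p m n) := by
  haveI : Fact p.Prime := ⟨hp⟩
  have hs1 : 1 ≤ s := by
    rcases Nat.eq_zero_or_pos s with h | h
    · subst h; have := hp.two_le; omega
    · exact h
  intro hreg
  have hr := isRegular_mono hp (by omega : 1 ≤ 2 * s - 1) hm hreg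
  obtain ⟨g, hg, hgx⟩ := mem_of_isP hp (by omega : 1 ≤ 2 * s - 1) _ (isP_one_add_Pi p (2 * s - 1) n)
  obtain ⟨F, hF⟩ := reg_odd hp hp2 hs2 hr ⟨g, hg⟩
    (Matrix.single ⟨n - 1, by omega⟩ ⟨0, by omega⟩ 1) (by
      rw [Matrix.single_mul_single_of_ne]
      intro h
      have := congrArg Fin.val h
      simp at this
      omega)
  have hint : ∀ z : ℤ, ‖(z : PadicAlgCl p)‖ ≤ 1 := by
    intro z
    have h1 : (z : PadicAlgCl p) = ((z : ℚ_[p]) : PadicAlgCl p) := by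
      exact (map_intCast (algebraMap ℚ_[p] (PadicAlgCl p)) _).symm
    rw [h1, PadicAlgCl.norm_extends]
    exact Padic.norm_int_le_one z
  have hpK : ‖((p : ℕ) : PadicAlgCl p)‖ < 1 := by
    have h1 : ((p : ℕ) : PadicAlgCl p) = (((p : ℕ) : ℚ_[p]) : PadicAlgCl p) := by
      exact (map_natCast (algebraMap ℚ_[p] (PadicAlgCl p)) _).symm
    rw [h1, PadicAlgCl.norm_extends]
    exact Padic.norm_p_lt_one
  have hp0 : ((p : ℕ) : PadicAlgCl p) ≠ 0 := by
    exact_mod_cast hp.ne_zero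
  have hcop : Nat.Coprime p n := by
    rw [Nat.Prime.coprime_iff_not_dvd hp]
    intro h
    have := Nat.le_of_dvd (by omega) h
    omega
  have hnK : ‖((n : ℕ) : PadicAlgCl p)‖ = 1 := by
    have h1 : ((n : ℕ) : PadicAlgCl p) = (((n : ℕ) : ℚ_[p]) : PadicAlgCl p) := by
      exact (map_natCast (algebraMap ℚ_[p] (PadicAlgCl p)) _).symm
    rw [h1, PadicAlgCl.norm_extends]
    rw [Padic.norm_natCast_eq_one_iff]
    exact hcop
  obtain ⟨r, hrn⟩ := IsAlgClosed.exists_pow_nat_eq ((p : ℕ) : PadicAlgCl p) (by omega : 0 < n)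
  haveI : NeZero n := ⟨by omega⟩
  haveI : NeZero ((n : ℕ) : PadicAlgCl p) := ⟨by
    have : n ≠ 0 := by omega
    exact_mod_cast this⟩
  obtain ⟨z, hz⟩ := HasEnoughRootsOfUnity.exists_primitiveRoot (PadicAlgCl p) n
  have hr1 : ‖r‖ < 1 := by
    have h1 : ‖r‖ ^ n < 1 := by rw [← norm_pow, hrn]; exact hpK
    exact lt_of_pow_lt_pow_left₀ n (by norm_num) (by simpa using h1)
  have hz1 : ‖z‖ = 1 := by
    have h1 : ‖z‖ ^ n = 1 := by rw [← norm_pow, hz.pow_eq_one, norm_one]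
    exact (pow_eq_one_iff_of_nonneg (norm_nonneg _) (by omega)).1 h1
  refine large_core hp hn hcop hN hs hpK hp0 hint hnK z r hz hrn F ?_
  intro i j hi hj hij
  have hpow : ∀ l : ℕ, (z ^ l * r) ^ n = ((p : ℕ) : PadicAlgCl p) := by
    intro l
    rw [mul_pow, hrn, ← pow_mul, mul_comm l n, pow_mul, hz.pow_eq_one, one_pow, one_mul]
  have hnorm : ∀ l : ℕ, ‖z ^ l * r‖ < 1 := by
    intro l
    rw [norm_mul, norm_pow, hz1, one_pow, one_mul]
    exact hr1
  exact lift_norm' hp hs2 (by omega) g hgx _ hF hint (z ^ i * r) (z ^ j * r) (hpow i) (hpow j)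
    (hnorm i) (hnorm j)

end Pool.Agent.Helper407.PN
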