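import Mathlib
import Pool.Agent.Helper431.PN.Base
import Pool.Agent.Helper431.PN.M5a
import Pool.Agent.Helper431.PN.G1
import Pool.Agent.Helper431.PN.G2
import Pool.Agent.Helper431.PN.G4
import Pool.Agent.Helper407.PN.Defs2

namespace Pool.Agent.Helper407.PN
open Pool.Agent.Helper431.PN
open scoped commutatorElement






/-- TARGET 1 -/
theorem IsLev.mul' {p m n k l : ℕ} {A B : Matrix (Fin n) (Fin n) (ZMod (p ^ m))}
    (hA : IsLev p m n k A) (hB : IsLev p m n l B) : IsLev p m n (k + l) (A * B) := by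
  intro i j
  rw [Matrix.mul_apply]
  refine Finset.dvd_sum fun t _ => ?_
  have hn : 0 < n := lt_of_le_of_lt (Nat.zero_le _) i.2
  have hj := j.2
  have ht := t.2
  have h1 := Nat.lt_mul_div_succ (k + i + (n - 1) - t) hn
  have h2 := Nat.lt_mul_div_succ (l + t + (n - 1) - j) hn
  have hle : (k + l + i + (n - 1) - j) / n ≤
      (k + i + (n - 1) - t) / n + (l + t + (n - 1) - j) / n := by
    apply Nat.lt_succ_iff.1
    apply Nat.div_lt_of_lt_mul
    rw [Nat.mul_add] at h1 h2
    rw [Nat.succ_eq_add_one, Nat.mul_add, Nat.mul_add]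
    omega
  refine (pow_dvd_pow _ hle).trans ?_
  rw [pow_add]
  exact mul_dvd_mul (hA i t) (hB t j)


end Pool.Agent.Helper407.PN
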