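import Mathlib
import Pool.Agent.Helper431.PN.Base
import Pool.Agent.Helper431.PN.M5a
import Pool.Agent.Helper431.PN.G1
import Pool.Agent.Helper431.PN.G2
import Pool.Agent.Helper431.PN.G4
import Pool.Agent.Helper407.PN.Defs2
import Pool.Agent.Helper407.PN.Q1

namespace Pool.Agent.Helper407.PN
open Pool.Agent.Helper431.PN
open scoped commutatorElement






theorem LR_mul_arith {n k l i j t : ℕ} (hn : 0 < n) (hj : j < n) (ht : t < n)
    (hji : j = (i + (k + l)) % n) (htne : t ≠ (i + k) % n) :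
    (i + (k + l)) / n + 1 ≤ (k + i + (n - 1) - t) / n + (l + t + (n - 1) - j) / n := by
  have h1 := Nat.div_add_mod (k + i + (n - 1) - t) n
  have h1' := Nat.mod_lt (k + i + (n - 1) - t) hn
  have h2 := Nat.div_add_mod (l + t + (n - 1) - j) n
  have h2' := Nat.mod_lt (l + t + (n - 1) - j) hn
  have h3 := Nat.div_add_mod (i + (k + l)) n
  rw [← hji] at h3
  generalize (k + i + (n - 1) - t) / n = e1 at *
  generalize (k + i + (n - 1) - t) % n = r1 at *
  generalize (l + t + (n - 1) - j) / n = e2 at *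
  generalize (l + t + (n - 1) - j) % n = r2 at *
  generalize (i + (k + l)) / n = E at *
  by_contra hlt
  have hle : e1 + e2 ≤ E := by omega
  have hmul : n * (e1 + e2) ≤ n * E := Nat.mul_le_mul_left n hle
  rw [Nat.mul_add] at hmul
  have hk : i + k = n * e1 + t := by
    generalize n * e1 = X at *
    generalize n * e2 = Y at *
    generalize n * E = Z at *
    omega
  apply htne
  rw [hk, Nat.mul_add_mod, Nat.mod_eq_of_lt ht]

/-- TARGET 2 -/
theorem LR.mul' {p m n k l : ℕ} [Fact p.Prime] {A B : Matrix (Fin n) (Fin n) (ZMod (p ^ m))}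
    {c d : ℕ → ZMod p} (hd : ∀ t, d (t + n) = d t)
    (hA : LR p m n k A c) (hB : LR p m n l B d) :
    LR p m n (k + l) (A * B) (fun i => c i * d (i + k)) := by
  refine ⟨IsLev.mul' hA.1 hB.1, ?_⟩
  intro i j hij
  have hn : 0 < n := lt_of_le_of_lt (Nat.zero_le _) i.2
  have ht0 : ((i : ℕ) + k) % n < n := Nat.mod_lt _ hn
  set t0 : Fin n := ⟨((i : ℕ) + k) % n, ht0⟩ with ht0def
  have ht0v : (t0 : ℕ) = ((i : ℕ) + k) % n := rfl
  obtain ⟨z1, hz1⟩ := hA.2 i t0 ht0v
  have hj2 : (j : ℕ) = ((t0 : ℕ) + l) % n := by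
    rw [hij, ht0v, Nat.mod_add_mod, Nat.add_assoc]
  obtain ⟨z2, hz2⟩ := hB.2 t0 j hj2
  have hE : ((i : ℕ) + k) / n + ((t0 : ℕ) + l) / n = ((i : ℕ) + (k + l)) / n := by
    have h1 := Nat.div_add_mod ((i : ℕ) + k) n
    have h2 : (i : ℕ) + (k + l) = n * (((i : ℕ) + k) / n) + ((t0 : ℕ) + l) := by
      rw [ht0v]; omega
    rw [h2, Nat.mul_add_div hn]
  have hdq : ∀ q t : ℕ, d (t + n * q) = d t := by
    intro q
    induction q with
    | zero => intro t; simp
    | succ q ih =>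
      intro t
      have : t + n * (q + 1) = (t + n * q) + n := by ring
      rw [this, hd, ih]
  have hdt : d (t0 : ℕ) = d ((i : ℕ) + k) := by
    have h1 := Nat.mod_add_div ((i : ℕ) + k) n
    rw [ht0v]
    conv_rhs => rw [← h1]
    rw [hdq]
  have hw : ∃ w : ZMod (p ^ m), ((c i).val : ZMod (p ^ m)) * ((d ((i : ℕ) + k)).val : ZMod (p ^ m)) =
      (((c i) * d ((i : ℕ) + k)).val : ZMod (p ^ m)) + (p : ZMod (p ^ m)) * w := by
    refine ⟨(((c i).val * (d ((i : ℕ) + k)).val / p : ℕ) : ZMod (p ^ m)), ?_⟩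
    rw [ZMod.val_mul]
    have h1 := Nat.mod_add_div ((c i).val * (d ((i : ℕ) + k)).val) p
    rw [← Nat.cast_mul, ← Nat.cast_mul, ← Nat.cast_add, h1]
  obtain ⟨w, hw⟩ := hw
  have hrest : (p : ZMod (p ^ m)) ^ (((i : ℕ) + (k + l)) / n + 1) ∣
      ∑ t ∈ Finset.univ.erase t0, A i t * B t j := by
    apply Finset.dvd_sum
    intro t ht
    have htne : t ≠ t0 := Finset.ne_of_mem_erase ht
    have htne' : (t : ℕ) ≠ ((i : ℕ) + k) % n := fun h => htne (Fin.ext h)
    have har := LR_mul_arith hn j.2 t.2 hij htne'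
    refine dvd_trans (pow_dvd_pow _ har) ?_
    rw [pow_add]
    exact mul_dvd_mul (hA.1 i t) (hB.1 t j)
  obtain ⟨y, hy⟩ := hrest
  rw [hdt] at hz2
  refine ⟨w + ((c i).val : ZMod (p ^ m)) * z2 + ((d ((i : ℕ) + k)).val : ZMod (p ^ m)) * z1 +
    (p : ZMod (p ^ m)) * z1 * z2 + y, ?_⟩
  rw [Matrix.mul_apply, ← Finset.add_sum_erase _ _ (Finset.mem_univ t0), hy, hz1, hz2, ← hE]
  generalize ((i : ℕ) + k) / n = E1 at *
  generalize ((t0 : ℕ) + l) / n = E2 at *
  simp only [pow_add, pow_one]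
  linear_combination ((p : ZMod (p ^ m)) ^ E1 * (p : ZMod (p ^ m)) ^ E2) * hw


end Pool.Agent.Helper407.PN
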