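import Mathlib
import Pool.Agent.Helper431.PN.Base
import Pool.Agent.Helper431.PN.M5a
import Pool.Agent.Helper431.PN.G1
import Pool.Agent.Helper431.PN.G2
import Pool.Agent.Helper431.PN.G4
import Pool.Agent.Helper407.PN.Defs2

namespace Pool.Agent.Helper407.PN
open Pool.Agent.Helper431.PN
open scoped commutatorElement






/-- TARGET 3 -/
theorem LR.ops {p m n k : ℕ} [Fact p.Prime] (hn : 0 < n) :
    (∀ (A B : Matrix (Fin n) (Fin n) (ZMod (p ^ m))) (c d : ℕ → ZMod p), LR p m n k A c →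
      LR p m n k B d → LR p m n k (A + B) (c + d)) ∧
    (∀ (A : Matrix (Fin n) (Fin n) (ZMod (p ^ m))) (c : ℕ → ZMod p), LR p m n k A c →
      LR p m n k (-A) (-c)) ∧
    (∀ (A : Matrix (Fin n) (Fin n) (ZMod (p ^ m))), IsLev p m n (k + 1) A → LR p m n k A 0) ∧
    (∀ (A : Matrix (Fin n) (Fin n) (ZMod (p ^ m))), IsLev p m n (k + 1) A → IsLev p m n k A) := by
  have h4 : ∀ (A : Matrix (Fin n) (Fin n) (ZMod (p ^ m))), IsLev p m n (k + 1) A →
      IsLev p m n k A := by
    intro A hA i j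
    exact (pow_dvd_pow _ (Nat.div_le_div_right (by omega))).trans (hA i j)
  refine ⟨?_, ?_, ?_, h4⟩
  · intro A B c d hA hB
    refine ⟨fun i j => ?_, fun i j hij => ?_⟩
    · rw [Matrix.add_apply]
      exact dvd_add (hA.1 i j) (hB.1 i j)
    · obtain ⟨z, hz⟩ := hA.2 i j hij
      obtain ⟨z', hz'⟩ := hB.2 i j hij
      have hv : (((c i).val + (d i).val : ℕ) : ZMod (p ^ m)) =
          (((c i + d i).val : ℕ) : ZMod (p ^ m)) +
            (p : ZMod (p ^ m)) * ((((c i).val + (d i).val) / p : ℕ) : ZMod (p ^ m)) := by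
        rw [ZMod.val_add]
        have := Nat.mod_add_div ((c i).val + (d i).val) p
        exact_mod_cast congrArg (Nat.cast : ℕ → ZMod (p ^ m)) this.symm
      refine ⟨z + z' + ((((c i).val + (d i).val) / p : ℕ) : ZMod (p ^ m)), ?_⟩
      rw [Matrix.add_apply, hz, hz', Pi.add_apply]
      push_cast at hv
      rw [pow_succ]
      linear_combination ((p : ZMod (p ^ m)) ^ (((i : ℕ) + k) / n)) * hv
  · intro A c hA
    refine ⟨fun i j => ?_, fun i j hij => ?_⟩
    · rw [Matrix.neg_apply]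
      exact (dvd_neg).mpr (hA.1 i j)
    · obtain ⟨z, hz⟩ := hA.2 i j hij
      have h0 : p ∣ (c i).val + (-(c i)).val := by
        have h1 := ZMod.val_add (c i) (-(c i))
        rw [add_neg_cancel, ZMod.val_zero] at h1
        exact Nat.dvd_of_mod_eq_zero h1.symm
      obtain ⟨w, hw⟩ := h0
      have hv : (((c i).val : ℕ) : ZMod (p ^ m)) + (((-(c i)).val : ℕ) : ZMod (p ^ m)) =
          (p : ZMod (p ^ m)) * (w : ZMod (p ^ m)) := by
        exact_mod_cast congrArg (Nat.cast : ℕ → ZMod (p ^ m)) hw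
      refine ⟨-z - (w : ZMod (p ^ m)), ?_⟩
      rw [Matrix.neg_apply, hz, Pi.neg_apply, pow_succ]
      linear_combination (-((p : ZMod (p ^ m)) ^ (((i : ℕ) + k) / n))) * hv
  · intro A hA
    refine ⟨h4 A hA, fun i j hij => ?_⟩
    have h1 := hA i j
    have he : (k + 1 + (i : ℕ) + (n - 1) - (j : ℕ)) / n = ((i : ℕ) + k) / n + 1 := by
      have h2 := Nat.div_add_mod ((i : ℕ) + k) n
      rw [← hij] at h2
      have h3 : k + 1 + (i : ℕ) + (n - 1) - (j : ℕ) = n * (((i : ℕ) + k) / n + 1) := by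
        rw [Nat.mul_add, Nat.mul_one]
        omega
      rw [h3, Nat.mul_div_cancel_left _ hn]
    rw [he] at h1
    obtain ⟨z, hz⟩ := h1
    refine ⟨z, ?_⟩
    rw [hz]
    simp


end Pool.Agent.Helper407.PN
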