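import Mathlib
import Pool.Agent.Helper431.PN.Base
import Pool.Agent.Helper431.PN.M5a
import Pool.Agent.Helper431.PN.G1
import Pool.Agent.Helper431.PN.G2
import Pool.Agent.Helper431.PN.G4
import Pool.Agent.Helper407.PN.Defs2

namespace Pool.Agent.Helper407.PN
open Pool.Agent.Helper431.PN
open scoped commutatorElement






/-- TARGET 4 -/
theorem lev_one {p m n : ℕ} (g : PGroup p m n) : IsLev p m n 1 (mo g) := by
  intro i j
  have hJ : IsJ p m n (mo g) := (isP_iff p m n _).1 g.2.1
  have hi := i.isLt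
  have hj := j.isLt
  have hn : 0 < n := lt_of_le_of_lt (Nat.zero_le _) hi
  rcases le_or_gt (j : ℕ) (i : ℕ) with h | h
  · have e : (1 + (i : ℕ) + (n - 1) - (j : ℕ)) / n = 1 := by
      have e1 : 1 + (i : ℕ) + (n - 1) - (j : ℕ) = ((i : ℕ) - (j : ℕ)) + n := by omega
      rw [e1, Nat.add_div_right _ hn, Nat.div_eq_of_lt (by omega)]
    rw [e, pow_one]
    exact hJ i j (Fin.le_def.2 h)
  · have e : (1 + (i : ℕ) + (n - 1) - (j : ℕ)) / n = 0 := by
      rw [Nat.div_eq_of_lt (by omega)]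
    rw [e, pow_zero]
    exact one_dvd _


end Pool.Agent.Helper407.PN
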