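import Mathlib
import Pool.Agent.Helper431.PN.Base
import Pool.Agent.Helper431.PN.M5a
import Pool.Agent.Helper431.PN.G1
import Pool.Agent.Helper431.PN.G2
import Pool.Agent.Helper431.PN.G4
import Pool.Agent.Helper407.PN.Defs2
import Pool.Agent.Helper407.PN.Q1
import Pool.Agent.Helper407.PN.Q2
import Pool.Agent.Helper407.PN.Q3
import Pool.Agent.Helper407.PN.Q4

namespace Pool.Agent.Helper407.PN
open Pool.Agent.Helper431.PN
open scoped commutatorElement






theorem IsLev.mono' {p m n k l : ℕ} (hkl : k ≤ l) {A : Matrix (Fin n) (Fin n) (ZMod (p ^ m))}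
    (hA : IsLev p m n l A) : IsLev p m n k A := by
  intro i j
  refine dvd_trans (pow_dvd_pow _ ?_) (hA i j)
  exact Nat.div_le_div_right (by omega)

theorem mo_mul' {p m n : ℕ} (g h : PGroup p m n) : mo (g * h) = mo g + mo h + mo g * mo h := by
  unfold mo
  simp only [Subgroup.coe_mul, Units.val_mul]
  noncomm_ring

theorem mo_one' {p m n : ℕ} : mo (1 : PGroup p m n) = 0 := by
  unfold mo
  simp

/-- TARGET 6 -/
theorem LR.mul_inv {p m n k : ℕ} [Fact p.Prime] (hn : 0 < n) (hk : 1 ≤ k) (g h : PGroup p m n)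
    (c d : ℕ → ZMod p) (hc : LR p m n k (mo g) c) (hd : LR p m n k (mo h) d) :
    LR p m n k (mo (g * h)) (c + d) ∧ LR p m n k (mo g⁻¹) (-c) ∧
      ∀ r : ℕ, LR p m n k (mo (g ^ r)) (fun i => (r : ZMod p) * c i) := by
  obtain ⟨hadd, hneg, hz, -⟩ := LR.ops (p := p) (m := m) (n := n) (k := k) hn
  have key : ∀ (g h : PGroup p m n) (c d : ℕ → ZMod p), LR p m n k (mo g) c →
      LR p m n k (mo h) d → LR p m n k (mo (g * h)) (c + d) := by
    intro g h c d hc hd
    have h1 : IsLev p m n (k + k) (mo g * mo h) := IsLev.mul' hc.1 hd.1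
    have h2 := hz _ (h1.mono' (by omega : k + 1 ≤ k + k))
    have h3 := hadd _ _ _ _ (hadd _ _ _ _ hc hd) h2
    rw [mo_mul']
    rwa [add_zero] at h3
  refine ⟨key g h c d hc hd, ?_, ?_⟩
  · have h0 : mo (g * g⁻¹) = 0 := by rw [mul_inv_cancel, mo_one']
    rw [mo_mul'] at h0
    have h1 : mo g⁻¹ = -(mo g) + -(mo g * mo g⁻¹) := by
      have h2 : mo g⁻¹ = (mo g + mo g⁻¹ + mo g * mo g⁻¹) - mo g - mo g * mo g⁻¹ := by abel
      rw [h0] at h2
      rw [h2]
      have h3 : mo g * (0 - mo g - mo g * mo g⁻¹) = mo g * mo g⁻¹ := by rw [← h2]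
      rw [h3]
      abel
    have h2 : IsLev p m n (k + 1) (mo g * mo g⁻¹) := IsLev.mul' hc.1 (lev_one g⁻¹)
    have h3 := hneg _ _ (hz _ h2)
    have h4 := hadd _ _ _ _ (hneg _ _ hc) h3
    rw [h1]
    rwa [neg_zero, add_zero] at h4
  · intro r
    induction r with
    | zero =>
      have h1 : IsLev p m n (k + 1) (0 : Matrix (Fin n) (Fin n) (ZMod (p ^ m))) := by
        intro i j; simp
      have h2 := hz _ h1
      rw [pow_zero, mo_one']
      have h3 : (fun i => (((0 : ℕ) : ZMod p)) * c i) = 0 := by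
        funext i; simp
      rw [h3]; exact h2
    | succ r ih =>
      have h1 := key (g ^ r) g _ _ ih hc
      rw [pow_succ]
      have h3 : (fun i => (((r + 1 : ℕ) : ZMod p)) * c i) = (fun i => (r : ZMod p) * c i) + c := by
        funext i; simp only [Pi.add_apply, Nat.cast_add, Nat.cast_one]; ring
      rw [h3]; exact h1


end Pool.Agent.Helper407.PN
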