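import Mathlib
import Pool.Agent.Helper431.PN.Base
import Pool.Agent.Helper431.PN.M5a
import Pool.Agent.Helper431.PN.G1
import Pool.Agent.Helper431.PN.G2
import Pool.Agent.Helper431.PN.G4
import Pool.Agent.Helper407.PN.Defs2
import Pool.Agent.Helper407.PN.Q1
import Pool.Agent.Helper407.PN.Q2
import Pool.Agent.Helper407.PN.Q3
import Pool.Agent.Helper407.PN.Q4
import Pool.Agent.Helper407.PN.Q6

namespace Pool.Agent.Helper407.PN
open Pool.Agent.Helper431.PN
open scoped commutatorElement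






/-- TARGET 7 -/
theorem LR.comm {p m n k : ℕ} [Fact p.Prime] (hn : 0 < n) (hk : 1 ≤ k) (g h : PGroup p m n)
    (c d : ℕ → ZMod p) (hcp : ∀ t, c (t + n) = c t) (hdp : ∀ t, d (t + n) = d t)
    (hc : LR p m n k (mo g) c) (hd : LR p m n 1 (mo h) d) :
    LR p m n (k + 1) (mo ⁅g, h⁆) (fun i => c i * d (i + k) - d i * c (i + 1)) := by
  have e1 : mo ⁅g, h⁆ = (mo g * mo h - mo h * mo g) * (1 + mo (g⁻¹ * h⁻¹)) := by
    unfold mo
    rw [commutatorElement_def]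
    simp only [Subgroup.coe_mul, Units.val_mul, Subgroup.coe_inv]
    set G : Matrix (Fin n) (Fin n) (ZMod (p ^ m)) :=
      ((g : (Matrix (Fin n) (Fin n) (ZMod (p ^ m)))ˣ) : Matrix (Fin n) (Fin n) (ZMod (p ^ m)))
      with hG
    set H : Matrix (Fin n) (Fin n) (ZMod (p ^ m)) :=
      ((h : (Matrix (Fin n) (Fin n) (ZMod (p ^ m)))ˣ) : Matrix (Fin n) (Fin n) (ZMod (p ^ m)))
      with hH
    set G' : Matrix (Fin n) (Fin n) (ZMod (p ^ m)) :=
      (((g : (Matrix (Fin n) (Fin n) (ZMod (p ^ m)))ˣ)⁻¹ :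
        (Matrix (Fin n) (Fin n) (ZMod (p ^ m)))ˣ) : Matrix (Fin n) (Fin n) (ZMod (p ^ m)))
      with hG'
    set H' : Matrix (Fin n) (Fin n) (ZMod (p ^ m)) :=
      (((h : (Matrix (Fin n) (Fin n) (ZMod (p ^ m)))ˣ)⁻¹ :
        (Matrix (Fin n) (Fin n) (ZMod (p ^ m)))ˣ) : Matrix (Fin n) (Fin n) (ZMod (p ^ m)))
      with hH'
    have hGG : G * G' = 1 := Units.mul_inv _
    have hHH : H * H' = 1 := Units.mul_inv _
    have h1 : (G - 1) * (H - 1) - (H - 1) * (G - 1) = G * H - H * G := by noncomm_ring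
    have h2 : 1 + (G' * H' - 1) = G' * H' := by abel
    rw [h1, h2, sub_mul]
    have h3 : H * G * (G' * H') = 1 := by
      rw [mul_assoc H G, ← mul_assoc G G' H', hGG, one_mul, hHH]
    rw [h3, ← mul_assoc]
  have l1 : LR p m n (k + 1) (mo g * mo h) (fun i => c i * d (i + k)) := LR.mul' hdp hc hd
  have l2 : LR p m n (k + 1) (mo h * mo g) (fun i => d i * c (i + 1)) := by
    have := LR.mul' hcp hd hc
    rw [add_comm 1 k] at this
    exact this
  obtain ⟨o1, o2, o3, o4⟩ := LR.ops (p := p) (m := m) (n := n) (k := k + 1) hn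
  have l3 := o1 _ _ _ _ l1 (o2 _ _ l2)
  have l4 : IsLev p m n (k + 1 + 1) ((mo g * mo h + -(mo h * mo g)) * mo (g⁻¹ * h⁻¹)) :=
    IsLev.mul' l3.1 (lev_one _)
  have l5 := o1 _ _ _ _ l3 (o3 _ l4)
  have e2 : mo ⁅g, h⁆ = (mo g * mo h + -(mo h * mo g)) +
      (mo g * mo h + -(mo h * mo g)) * mo (g⁻¹ * h⁻¹) := by
    rw [e1, mul_add, mul_one, sub_eq_add_neg]
  have e3 : (fun i => c i * d (i + k) - d i * c (i + 1)) =
      (fun i => c i * d (i + k)) + -(fun i => d i * c (i + 1)) + 0 := by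
    funext i
    simp [sub_eq_add_neg]
  rw [e2, e3]
  exact l5


end Pool.Agent.Helper407.PN
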