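import Mathlib
import Pool.Agent.Helper431.PN.Base
import Pool.Agent.Helper431.PN.M5a
import Pool.Agent.Helper431.PN.G1
import Pool.Agent.Helper431.PN.G2
import Pool.Agent.Helper431.PN.G4
import Pool.Agent.Helper407.PN.Defs2
import Pool.Agent.Helper407.PN.Q1
import Pool.Agent.Helper407.PN.Q3
import Pool.Agent.Helper407.PN.Q4

namespace Pool.Agent.Helper407.PN
open Pool.Agent.Helper431.PN
open scoped commutatorElement






theorem IsLev.mono {p m n k l : ℕ} (h : k ≤ l) {A : Matrix (Fin n) (Fin n) (ZMod (p ^ m))}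
    (hA : IsLev p m n l A) : IsLev p m n k A := by
  intro i j
  refine dvd_trans (pow_dvd_pow _ ?_) (hA i j)
  apply Nat.div_le_div_right
  omega

theorem IsLev.add' {p m n k : ℕ} {A B : Matrix (Fin n) (Fin n) (ZMod (p ^ m))}
    (hA : IsLev p m n k A) (hB : IsLev p m n k B) : IsLev p m n k (A + B) := by
  intro i j
  rw [Matrix.add_apply]
  exact dvd_add (hA i j) (hB i j)

theorem IsLev.neg' {p m n k : ℕ} {A : Matrix (Fin n) (Fin n) (ZMod (p ^ m))}
    (hA : IsLev p m n k A) : IsLev p m n k (-A) := by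
  intro i j
  rw [Matrix.neg_apply]
  exact (dvd_neg).2 (hA i j)

theorem mo_mul {p m n : ℕ} (g h : PGroup p m n) : mo (g * h) = mo g + mo h + mo g * mo h := by
  unfold mo
  rw [Subgroup.coe_mul, Units.val_mul]
  noncomm_ring

theorem mo_inv {p m n : ℕ} (g : PGroup p m n) : mo g⁻¹ = -(mo g⁻¹ * mo g) + -mo g := by
  have h1 : (((g⁻¹ : PGroup p m n) : (Matrix (Fin n) (Fin n) (ZMod (p ^ m)))ˣ) :
      Matrix (Fin n) (Fin n) (ZMod (p ^ m))) *
      ((g : (Matrix (Fin n) (Fin n) (ZMod (p ^ m)))ˣ) : Matrix (Fin n) (Fin n) (ZMod (p ^ m))) = 1 := by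
    rw [← Units.val_mul, ← Subgroup.coe_mul, inv_mul_cancel]
    rfl
  unfold mo
  have h2 : ∀ X Y : Matrix (Fin n) (Fin n) (ZMod (p ^ m)), X * Y = 1 →
      X - 1 = -((X - 1) * (Y - 1)) + -(Y - 1) := by
    intro X Y hXY
    have : (X - 1) * (Y - 1) = X * Y - X - Y + 1 := by noncomm_ring
    rw [this, hXY]
    abel
  exact h2 _ _ h1

theorem mo_comm {p m n : ℕ} (g h : PGroup p m n) : mo ⁅g, h⁆ =
    (mo g * mo h + -(mo h * mo g)) + (mo g * mo h + -(mo h * mo g)) * mo (g⁻¹ * h⁻¹) := by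
  have e1 : mo ⁅g, h⁆ = ((((g * h : PGroup p m n) : (Matrix (Fin n) (Fin n) (ZMod (p ^ m)))ˣ) :
      Matrix (Fin n) (Fin n) (ZMod (p ^ m))) -
      (((h * g : PGroup p m n) : (Matrix (Fin n) (Fin n) (ZMod (p ^ m)))ˣ) :
      Matrix (Fin n) (Fin n) (ZMod (p ^ m)))) *
      (((g⁻¹ * h⁻¹ : PGroup p m n) : (Matrix (Fin n) (Fin n) (ZMod (p ^ m)))ˣ) :
      Matrix (Fin n) (Fin n) (ZMod (p ^ m))) := by
    unfold mo
    rw [sub_mul, ← Units.val_mul, ← Subgroup.coe_mul, ← Units.val_mul, ← Subgroup.coe_mul]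
    have e2 : h * g * (g⁻¹ * h⁻¹) = 1 := by group
    have e3 : g * h * (g⁻¹ * h⁻¹) = ⁅g, h⁆ := by rw [commutatorElement_def]; group
    rw [e2, e3]
    rfl
  rw [e1]
  unfold mo
  rw [Subgroup.coe_mul, Subgroup.coe_mul, Units.val_mul, Units.val_mul]
  noncomm_ring

/-- the subgroup of elements of level at least `k` -/
def levSub (p m n k : ℕ) : Subgroup (PGroup p m n) where
  carrier := {g | IsLev p m n k (mo g)}
  one_mem' := by
    intro i j
    have : mo (1 : PGroup p m n) = 0 := by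
      unfold mo
      rw [Subgroup.coe_one, Units.val_one, sub_self]
    rw [this]
    exact dvd_zero _
  mul_mem' := by
    intro g h hg hh
    show IsLev p m n k (mo (g * h))
    rw [mo_mul]
    exact (hg.add' hh).add' ((hg.mul' hh).mono (by omega))
  inv_mem' := by
    intro g hg
    show IsLev p m n k (mo g⁻¹)
    rw [mo_inv]
    exact (((lev_one g⁻¹).mul' hg).mono (by omega)).neg'.add' (IsLev.neg' hg)

/-- TARGET 8 -/
theorem gam_lev {p m n : ℕ} [Fact p.Prime] (hn : 0 < n) (H : Subgroup (PGroup p m n)) (k : ℕ)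
    (g : PGroup p m n) (hg : g ∈ gam H k) : IsLev p m n (k + 1) (mo g) := by
  induction k generalizing g with
  | zero => exact lev_one g
  | succ k ih =>
    have hle : gam H (k + 1) ≤ levSub p m n (k + 2) := by
      show ⁅gam H k, H⁆ ≤ levSub p m n (k + 2)
      rw [Subgroup.commutator_le]
      intro x hx y _
      show IsLev p m n (k + 2) (mo ⁅x, y⁆)
      have hx' := ih x hx
      have hy' := lev_one y
      have h1 : IsLev p m n (k + 2) (mo x * mo y + -(mo y * mo x)) :=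
        (hx'.mul' hy').add' ((hy'.mul' hx').mono (by omega)).neg'
      rw [mo_comm]
      exact h1.add' ((h1.mul' (lev_one (x⁻¹ * y⁻¹))).mono (by omega))
    exact hle hg


end Pool.Agent.Helper407.PN
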