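import Mathlib
import Pool.Agent.Helper431.PN.Base
import Pool.Agent.Helper431.PN.M5a
import Pool.Agent.Helper431.PN.G1
import Pool.Agent.Helper431.PN.G2
import Pool.Agent.Helper431.PN.G4
import Pool.Agent.Helper407.PN.Defs2
import Pool.Agent.Helper407.PN.Q1
import Pool.Agent.Helper407.PN.Q2
import Pool.Agent.Helper407.PN.Q3
import Pool.Agent.Helper407.PN.Q4
import Pool.Agent.Helper407.PN.Q6
import Pool.Agent.Helper407.PN.Q7
import Pool.Agent.Helper407.PN.Q8

namespace Pool.Agent.Helper407.PN
open Pool.Agent.Helper431.PN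
open scoped commutatorElement






theorem lg_one {p m n : ℕ} [Fact p.Prime] (hn : 0 < n) (x y : PGroup p m n) (a b : ℕ → ZMod p)
    (ha : LR p m n 1 (mo x) a) (hb : LR p m n 1 (mo y) b) (α β : ZMod p) :
    ∃ g ∈ Subgroup.closure ({x, y} : Set (PGroup p m n)),
      LR p m n 1 (mo g) (fun t => α * a t + β * b t) := by
  have hx : x ∈ Subgroup.closure ({x, y} : Set (PGroup p m n)) :=
    Subgroup.subset_closure (by simp)
  have hy : y ∈ Subgroup.closure ({x, y} : Set (PGroup p m n)) :=
    Subgroup.subset_closure (by simp)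
  haveI : NeZero p := ⟨(Fact.out : p.Prime).ne_zero⟩
  refine ⟨x ^ α.val * y ^ β.val, mul_mem (pow_mem hx _) (pow_mem hy _), ?_⟩
  have h1 := (LR.mul_inv hn le_rfl x x a a ha ha).2.2 α.val
  have h2 := (LR.mul_inv hn le_rfl y y b b hb hb).2.2 β.val
  have h3 := (LR.mul_inv hn le_rfl _ _ _ _ h1 h2).1
  rw [ZMod.natCast_zmod_val, ZMod.natCast_zmod_val] at h3
  exact h3

theorem lg_per {p n : ℕ} [Fact p.Prime] (hs : List (ℕ → ZMod p))
    (hp : ∀ h ∈ hs, ∀ t, h (t + n) = h t) (i : ℕ) : Lc hs (i + n) = Lc hs i := by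
  induction hs generalizing i with
  | nil => rfl
  | cons h l ih =>
    cases l with
    | nil =>
      show h (i + n) = h i
      exact hp h (by simp) i
    | cons h' t =>
      have ih' := fun i => ih (fun h hh => hp h (List.mem_cons_of_mem _ hh)) i
      have hh := hp h (by simp)
      show Lc (h' :: t) (i + n) * h (i + n + (t.length + 1)) - h (i + n) * Lc (h' :: t) (i + n + 1)
        = Lc (h' :: t) i * h (i + (t.length + 1)) - h i * Lc (h' :: t) (i + 1)
      rw [ih', hh i, show i + n + (t.length + 1) = i + (t.length + 1) + n by ring, hh,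
        show i + n + 1 = i + 1 + n by ring, ih']

/-- TARGET 10 -/
theorem lead_gam {p m n : ℕ} [Fact p.Prime] (hn : 0 < n) (x y : PGroup p m n) (a b : ℕ → ZMod p)
    (hap : ∀ t, a (t + n) = a t) (hbp : ∀ t, b (t + n) = b t)
    (ha : LR p m n 1 (mo x) a) (hb : LR p m n 1 (mo y) b) (k : ℕ) (hs : List (ℕ → ZMod p))
    (hl : hs.length = k + 1) (hh : ∀ h ∈ hs, ∃ α β : ZMod p, h = fun t => α * a t + β * b t) :
    ∃ g ∈ gam (Subgroup.closure ({x, y} : Set (PGroup p m n))) k,
      LR p m n (k + 1) (mo g) (fun i => Lc hs i) := by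
  induction k generalizing hs with
  | zero =>
    obtain ⟨h, rfl⟩ := List.length_eq_one_iff.1 hl
    obtain ⟨α, β, hab⟩ := hh h (by simp)
    obtain ⟨g, hg, hg2⟩ := lg_one hn x y a b ha hb α β
    refine ⟨g, hg, ?_⟩
    rw [← hab] at hg2
    exact hg2
  | succ k ih =>
    match hs, hl, hh with
    | [], hl, _ => simp at hl
    | [_], hl, _ => simp at hl
    | h :: h' :: t, hl, hh =>
      have htl : t.length = k := by simpa using hl
      obtain ⟨g, hg, hgL⟩ := ih (h' :: t) (by simp [htl])
        (fun h hm => hh h (List.mem_cons_of_mem _ hm))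
      obtain ⟨α, β, hab⟩ := hh h (by simp)
      obtain ⟨z, hz, hzL⟩ := lg_one hn x y a b ha hb α β
      rw [← hab] at hzL
      have hper : ∀ h0 ∈ h :: h' :: t, ∀ s, h0 (s + n) = h0 s := by
        intro h0 hm s
        obtain ⟨α, β, hab⟩ := hh h0 hm
        rw [hab]
        show α * a (s + n) + β * b (s + n) = _
        rw [hap, hbp]
      refine ⟨⁅g, z⁆, Subgroup.commutator_mem_commutator hg hz, ?_⟩
      have hc := LR.comm hn (Nat.le_add_left 1 k) g z (fun i => Lc (h' :: t) i) h
        (fun s => lg_per _ (fun h0 hm => hper h0 (List.mem_cons_of_mem _ hm)) s)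
        (hper h (by simp)) hgL hzL
      have e : (fun i => Lc (h :: h' :: t) i) = fun i => Lc (h' :: t) i * h (i + (k + 1)) -
          h i * Lc (h' :: t) (i + 1) := by
        funext i
        show Lc (h' :: t) i * h (i + (t.length + 1)) - h i * Lc (h' :: t) (i + 1) = _
        rw [htl]
      rw [e]
      exact hc


end Pool.Agent.Helper407.PN
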