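import Mathlib
import Pool.Agent.Helper431.PN.Base
import Pool.Agent.Helper431.PN.M5a
import Pool.Agent.Helper431.PN.G1
import Pool.Agent.Helper431.PN.G2
import Pool.Agent.Helper431.PN.G4
import Pool.Agent.Helper407.PN.Defs2

namespace Pool.Agent.Helper407.PN
open Pool.Agent.Helper431.PN
open scoped commutatorElement






theorem top_aux {p m : ℕ} (e : ℕ) (he : m ≤ e) (a : ZMod (p ^ m))
    (h : (p : ZMod (p ^ m)) ^ e ∣ a) : a = 0 := by
  have h1 : (p : ZMod (p ^ m)) ^ m = 0 := by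
    have := ZMod.natCast_self (p ^ m)
    rwa [Nat.cast_pow] at this
  have h2 : (p : ZMod (p ^ m)) ^ e = 0 := by
    obtain ⟨d, rfl⟩ := Nat.exists_eq_add_of_le he
    rw [pow_add, h1, zero_mul]
  rw [h2] at h
  exact zero_dvd_iff.1 h

/-- TARGET 11 -/
theorem top_lev {p m n : ℕ} (hn : 0 < n) (hm : 1 ≤ m) (A : Matrix (Fin n) (Fin n) (ZMod (p ^ m))) :
    (∀ k, m * n ≤ k → IsLev p m n k A → A = 0) ∧
    (IsLev p m n (m * n - 1) A → A = Matrix.single ⟨0, hn⟩ ⟨n - 1, by omega⟩
      (A ⟨0, hn⟩ ⟨n - 1, by omega⟩)) := by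
  constructor
  · intro k hk hA
    ext i j
    refine top_aux _ ?_ _ (hA i j)
    rw [Nat.le_div_iff_mul_le hn]
    have := j.2
    omega
  · intro hA
    ext i j
    rw [Matrix.single_apply]
    split_ifs with h
    · rw [← h.1, ← h.2]
    · refine top_aux _ ?_ _ (hA i j)
      rw [Nat.le_div_iff_mul_le hn]
      have hj := j.2
      have hmn : 1 ≤ m * n := Nat.mul_pos hm hn
      have h3 : ¬ ((i : ℕ) = 0 ∧ (j : ℕ) = n - 1) := by
        rintro ⟨h1, h2⟩
        apply h
        constructor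
        · exact Fin.ext h1.symm
        · exact Fin.ext h2.symm
      omega


end Pool.Agent.Helper407.PN
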