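import Mathlib
import Pool.Agent.Helper431.PN.Base
import Pool.Agent.Helper431.PN.M5a
import Pool.Agent.Helper431.PN.G1
import Pool.Agent.Helper431.PN.G2
import Pool.Agent.Helper431.PN.G4
import Pool.Agent.Helper407.PN.Defs2

namespace Pool.Agent.Helper407.PN
open Pool.Agent.Helper431.PN
open scoped commutatorElement






/-- TARGET 13 -/
theorem Lc_zero_pos {F : Type*} [Field F] (hs : List (ℕ → F)) (i s : ℕ) (hs' : s < hs.length)
    (h : ∀ f ∈ hs, f (i + s) = 0) : Lc hs i = 0 := by
  induction hs generalizing i s with
  | nil => simp at hs'
  | cons a l ih =>
    cases l with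
    | nil =>
      have h0 : s = 0 := by simpa using hs'
      subst h0
      have := h a (by simp)
      simpa [Lc] using this
    | cons b t =>
      rw [Lc]
      have e1 : Lc (b :: t) i * a (i + (t.length + 1)) = 0 := by
        rcases Nat.lt_or_ge s (t.length + 1) with h1 | h1
        · rw [ih i s (by simpa using h1) (fun f hf => h f (List.mem_cons_of_mem _ hf)), zero_mul]
        · have h2 : s = t.length + 1 := by
            simp only [List.length_cons] at hs'
            omega
          have h3 := h a (by simp)
          rw [h2] at h3
          rw [h3, mul_zero]
      have e2 : a i * Lc (b :: t) (i + 1) = 0 := by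
        rcases s with _ | s
        · have h3 := h a (by simp)
          rw [add_zero] at h3
          rw [h3, zero_mul]
        · rw [ih (i + 1) s (by simpa using hs') (fun f hf => ?_), mul_zero]
          have := h f (List.mem_cons_of_mem _ hf)
          rw [show i + 1 + s = i + (s + 1) by omega]
          exact this
      rw [e1, e2, sub_zero]


end Pool.Agent.Helper407.PN
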