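import Mathlib
import Pool.Agent.Helper431.PN.Base
import Pool.Agent.Helper431.PN.M5a
import Pool.Agent.Helper431.PN.G1
import Pool.Agent.Helper431.PN.G2
import Pool.Agent.Helper431.PN.G4
import Pool.Agent.Helper407.PN.Defs2

namespace Pool.Agent.Helper407.PN
open Pool.Agent.Helper431.PN
open scoped commutatorElement






/-- TARGET 14 -/
theorem Lc_prop {F : Type*} [Field F] (a b : ℕ → F) (hs : List (ℕ → F)) (i : ℕ)
    (hl : 2 ≤ hs.length) (hh : ∀ h ∈ hs, ∃ α β : F, h = fun t => α * a t + β * b t)
    (hab : ∀ s t, s < hs.length → t < hs.length → a (i + s) * b (i + t) = a (i + t) * b (i + s)) :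
    Lc hs i = 0 := by
  induction hs generalizing i with
  | nil => simp at hl
  | cons h tl ih =>
    cases tl with
    | nil => simp at hl
    | cons h' t =>
      cases t with
      | nil =>
        obtain ⟨α, β, hα⟩ := hh h (by simp)
        obtain ⟨α', β', hα'⟩ := hh h' (by simp)
        have h1 := hab 0 1 (by simp) (by simp)
        simp only [add_zero] at h1
        simp only [Lc, List.length_nil, zero_add]
        rw [hα, hα']
        simp only
        linear_combination (α' * β - α * β') * h1
      | cons h'' t =>
        have h1 : Lc (h' :: h'' :: t) i = 0 := by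
          refine ih i (by simp) (fun g hg => hh g (List.mem_cons_of_mem _ hg)) ?_
          intro s t' hs ht
          exact hab s t' (by simp only [List.length_cons] at hs ⊢; omega)
            (by simp only [List.length_cons] at ht ⊢; omega)
        have h2 : Lc (h' :: h'' :: t) (i + 1) = 0 := by
          refine ih (i + 1) (by simp) (fun g hg => hh g (List.mem_cons_of_mem _ hg)) ?_
          intro s t' hs ht
          have := hab (1 + s) (1 + t') (by simp only [List.length_cons] at hs ⊢; omega)
            (by simp only [List.length_cons] at ht ⊢; omega)
          simp only [← add_assoc] at this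
          exact this
        rw [Lc, h1, h2, zero_mul, mul_zero, sub_zero]


end Pool.Agent.Helper407.PN
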