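import Mathlib
import Pool.Agent.Helper431.PN.Base
import Pool.Agent.Helper431.PN.M5a
import Pool.Agent.Helper431.PN.G1
import Pool.Agent.Helper431.PN.G2
import Pool.Agent.Helper431.PN.G4
import Pool.Agent.Helper407.PN.Defs2

namespace Pool.Agent.Helper407.PN
open Pool.Agent.Helper431.PN
open scoped commutatorElement






theorem gam_eq_28993 {G : Type*} [Group G] (H : Subgroup G) (k : ℕ) :
    gam H k = H.lowerCentralSeries k := by
  induction k with
  | zero => rfl
  | succ k ih =>
    show ⁅gam H k, H⁆ = ⁅H.lowerCentralSeries k, H⁆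
    rw [ih]

theorem step_28993 {p : ℕ} (hp : p.Prime) {P : Type} [Group P] [Finite P]
    (x y : P) (H K0 U : Subgroup P) (hH : H = Subgroup.closure ({x, y} : Set P)) (hK0 : K0 = ⁅H, H⁆)
    (hgam : ∀ g ∈ gam H (p - 1), ∃ k ∈ K0, k ^ p = g)
    (hU : ∀ u : P, u ∈ U ↔ ∃ k ∈ K0, k ^ p = u) : GoodPair p x y := by
  have hK0H : K0 ≤ H := by
    rw [hK0]
    exact Subgroup.commutator_le_self H
  have hconj : ∀ h ∈ H, ∀ k ∈ K0, h * k * h⁻¹ ∈ K0 := by
    intro h hh k hk
    have h1 : h * k * h⁻¹ = (h * k * h⁻¹ * k⁻¹) * k := by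
      group
    rw [h1]
    refine K0.mul_mem ?_ hk
    have h2 := Subgroup.commutator_mem_commutator hh (hK0H hk)
    rw [commutatorElement_def, ← hK0] at h2
    exact h2
  have hnorm : (U.subgroupOf H).Normal := by
    refine ⟨?_⟩
    intro n hn g
    rw [Subgroup.mem_subgroupOf] at hn ⊢
    obtain ⟨k, hk, hkn⟩ := (hU _).1 hn
    rw [hU]
    refine ⟨(g : P) * k * (g : P)⁻¹, hconj g g.2 k hk, ?_⟩
    rw [conj_pow, hkn]
    rfl
  have hx : x ∈ H := by
    rw [hH]
    exact Subgroup.subset_closure (by simp)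
  have hy : y ∈ H := by
    rw [hH]
    exact Subgroup.subset_closure (by simp)
  obtain ⟨x1, hx1⟩ : ∃ x1 : H, (x1 : P) = x := ⟨⟨x, hx⟩, rfl⟩
  obtain ⟨y1, hy1⟩ : ∃ y1 : H, (y1 : P) = y := ⟨⟨y, hy⟩, rfl⟩
  have hcomH : (commutator H).map H.subtype = K0 := by
    rw [hK0]
    exact Subgroup.map_subtype_commutator H
  let Q : Type := H ⧸ (U.subgroupOf H)
  let π : H →* Q := QuotientGroup.mk' (U.subgroupOf H)
  have hπs : Function.Surjective π := QuotientGroup.mk'_surjective _
  have hcomQ : commutator Q = (commutator H).map π := by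
    rw [commutator_def, commutator_def, Subgroup.map_commutator, ← MonoidHom.range_eq_map,
      MonoidHom.range_eq_top.2 hπs]
  have hexp : ∀ c ∈ commutator Q, c ^ p = 1 := by
    intro c hc
    rw [hcomQ] at hc
    obtain ⟨h, hh, rfl⟩ := hc
    rw [← map_pow]
    show π (h ^ p) = 1
    have h2 : h ^ p ∈ U.subgroupOf H := by
      rw [Subgroup.mem_subgroupOf, hU]
      refine ⟨(h : P), ?_, rfl⟩
      rw [← hcomH]
      exact ⟨h, hh, rfl⟩
    exact (QuotientGroup.eq_one_iff _).2 h2
  have hcl : (⊤ : Subgroup Q).lowerCentralSeries (p - 1) = ⊥ := by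
    have htop : (⊤ : Subgroup Q) = (⊤ : Subgroup H).map π := by
      rw [← MonoidHom.range_eq_map, MonoidHom.range_eq_top.2 hπs]
    rw [htop, ← Subgroup.map_lowerCentralSeries, eq_bot_iff]
    rintro c ⟨h, hh, rfl⟩
    rw [Subgroup.mem_bot]
    have h1 : (h : P) ∈ gam H (p - 1) := by
      rw [gam_eq_28993, ← Subgroup.top_subtype_lowerCentralSeries]
      exact ⟨h, hh, rfl⟩
    apply (QuotientGroup.eq_one_iff _).2
    rw [Subgroup.mem_subgroupOf, hU]
    exact hgam _ h1
  have h1 := hall_class_lt hp hcl hexp (π x1) (π y1)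
  rw [← map_mul, ← map_pow, ← map_pow, ← map_pow, ← map_mul] at h1
  have h2 : (x1 ^ p * y1 ^ p)⁻¹ * (x1 * y1) ^ p ∈ U.subgroupOf H :=
    QuotientGroup.eq.1 h1.symm
  rw [Subgroup.mem_subgroupOf, hU] at h2
  obtain ⟨k, hk, hk2⟩ := h2
  refine ⟨[k], ?_, ?_⟩
  · intro c hc
    rw [List.mem_singleton] at hc
    rw [hc, ← hH, ← hK0]
    exact hk
  · rw [List.map_singleton, List.prod_singleton, hk2]
    have h3 : (((x1 ^ p * y1 ^ p)⁻¹ * (x1 * y1) ^ p : H) : P) =
        (x ^ p * y ^ p)⁻¹ * (x * y) ^ p := by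
      rw [← hx1, ← hy1]
      rfl
    rw [h3]
    group

/-- TARGET 15 -/
theorem regular_of_gamma {p : ℕ} (hp : p.Prime) {P : Type} [Group P] [Finite P]
    (hP : IsPGroup p P)
    (hg : ∀ x y : P, ∀ g ∈ gam (Subgroup.closure ({x, y} : Set P)) (p - 1),
      ∃ k ∈ ⁅Subgroup.closure ({x, y} : Set P), Subgroup.closure ({x, y} : Set P)⁆, k ^ p = g) :
    IsRegular p P := by
  intro x y
  induction hN : Nat.card (Subgroup.closure ({x, y} : Set P)) using Nat.strong_induction_on
    generalizing x y with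
  | _ N ih =>
    subst hN
    by_cases hbot : Subgroup.closure ({x, y} : Set P) = ⊥
    · have hx : x = 1 := by
        have : x ∈ Subgroup.closure ({x, y} : Set P) := Subgroup.subset_closure (by simp)
        rw [hbot] at this
        exact Subgroup.mem_bot.1 this
      have hy : y = 1 := by
        have : y ∈ Subgroup.closure ({x, y} : Set P) := Subgroup.subset_closure (by simp)
        rw [hbot] at this
        exact Subgroup.mem_bot.1 this
      refine ⟨[], by simp, ?_⟩
      rw [hx, hy]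
      simp
    · have : Fact p.Prime := ⟨hp⟩
      have : Group.IsNilpotent P := hP.isNilpotent
      have hlt : ⁅Subgroup.closure ({x, y} : Set P), Subgroup.closure ({x, y} : Set P)⁆ <
          Subgroup.closure ({x, y} : Set P) := Group.IsSolvable.commutator_lt_of_ne_bot hbot
      obtain ⟨K0, hK0⟩ : ∃ K0, K0 = ⁅Subgroup.closure ({x, y} : Set P),
        Subgroup.closure ({x, y} : Set P)⁆ := ⟨_, rfl⟩
      have hgam : ∀ g ∈ gam (Subgroup.closure ({x, y} : Set P)) (p - 1), ∃ k ∈ K0, k ^ p = g := by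
        rw [hK0]
        exact hg x y
      rw [← hK0] at hlt
      have hcard : Nat.card K0 < Nat.card (Subgroup.closure ({x, y} : Set P)) := by
        by_contra hc
        push Not at hc
        exact hlt.ne (Subgroup.eq_of_le_of_card_ge hlt.le hc)
      have hreg : ∀ a b : K0, GoodPair p a b := by
        intro a b
        apply good_sub_20931
        apply ih _ _ _ _ rfl
        refine lt_of_le_of_lt (Subgroup.card_le_of_le ?_) hcard
        rw [Subgroup.closure_le]
        intro c hc
        rcases hc with h | h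
        · rw [h]; exact a.2
        · rw [Set.mem_singleton_iff] at h
          rw [h]; exact b.2
      have hpm := fun a b : K0 => pow_mul_pow hp (hP.to_subgroup K0) hreg a b
      let U : Subgroup P :=
        { carrier := {u | ∃ k ∈ K0, k ^ p = u}
          mul_mem' := by
            rintro _ _ ⟨k, hk, rfl⟩ ⟨k', hk', rfl⟩
            obtain ⟨c, -, hc⟩ := hpm ⟨k, hk⟩ ⟨k', hk'⟩
            exact ⟨c, c.2, (congrArg Subtype.val hc).symm⟩
          one_mem' := ⟨1, K0.one_mem, one_pow _⟩
          inv_mem' := by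
            rintro _ ⟨k, hk, rfl⟩
            exact ⟨k⁻¹, K0.inv_mem hk, inv_pow _ _⟩ }
      exact step_28993 hp x y _ K0 U rfl hK0 hgam (fun u => Iff.rfl)

end Pool.Agent.Helper407.PN
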