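import Mathlib
import Pool.Agent.Helper431.PN.Base
import Pool.Agent.Helper431.PN.M5a
import Pool.Agent.Helper431.PN.G1
import Pool.Agent.Helper431.PN.G2
import Pool.Agent.Helper431.PN.G4
import Pool.Agent.Helper407.PN.Defs2
import Pool.Agent.Helper407.PN.Q4

namespace Pool.Agent.Helper407.PN
open Pool.Agent.Helper431.PN
open scoped commutatorElement






/-- TARGET 5 -/
theorem exists_lead {p m n : ℕ} [Fact p.Prime] (hm : 1 ≤ m) (hn : 0 < n) (g : PGroup p m n) :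
    ∃ c : ℕ → ZMod p, (∀ t, c (t + n) = c t) ∧ LR p m n 1 (mo g) c := by
  have hlev := lev_one g
  have hdiv : ∀ i : Fin n, ∃ a : ZMod (p ^ m),
      mo g i ⟨((i : ℕ) + 1) % n, Nat.mod_lt _ hn⟩ =
        (p : ZMod (p ^ m)) ^ (((i : ℕ) + 1) / n) * a := by
    intro i
    have h := hlev i ⟨((i : ℕ) + 1) % n, Nat.mod_lt _ hn⟩
    have he : (1 + (i : ℕ) + (n - 1) - (((i : ℕ) + 1) % n)) / n = ((i : ℕ) + 1) / n := by
      have hi := i.2
      rcases Nat.lt_or_ge ((i : ℕ) + 1) n with h1 | h1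
      · rw [Nat.mod_eq_of_lt h1, Nat.div_eq_of_lt h1]
        apply Nat.div_eq_of_lt
        omega
      · have h2 : (i : ℕ) + 1 = n := by omega
        rw [h2, Nat.mod_self, Nat.div_self hn]
        have h3 : 1 + (i : ℕ) + (n - 1) - 0 = (n - 1) + n := by omega
        rw [h3, Nat.add_div_right _ hn, Nat.div_eq_of_lt (by omega)]
    have h' : (p : ZMod (p ^ m)) ^ ((1 + (i : ℕ) + (n - 1) - (((i : ℕ) + 1) % n)) / n) ∣
      mo g i ⟨((i : ℕ) + 1) % n, Nat.mod_lt _ hn⟩ := h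
    rw [he] at h'
    exact h'
  choose a ha using hdiv
  have : NeZero (p ^ m) := ⟨pow_ne_zero _ (Fact.out : p.Prime).ne_zero⟩
  refine ⟨fun t => ((a ⟨t % n, Nat.mod_lt _ hn⟩).val : ZMod p), fun t => ?_, hlev, ?_⟩
  · have h1 : (⟨(t + n) % n, Nat.mod_lt _ hn⟩ : Fin n) = ⟨t % n, Nat.mod_lt _ hn⟩ :=
      Fin.ext (Nat.add_mod_right t n)
    simp only [h1]
  · intro i j hij
    have hj : j = ⟨((i : ℕ) + 1) % n, Nat.mod_lt _ hn⟩ := Fin.ext hij
    have hi : (⟨(i : ℕ) % n, Nat.mod_lt _ hn⟩ : Fin n) = i := Fin.ext (Nat.mod_eq_of_lt i.2)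
    refine ⟨(((a i).val / p : ℕ) : ZMod (p ^ m)), ?_⟩
    rw [hj, ha i]
    simp only [hi, ZMod.val_natCast]
    have h2 : a i = (((a i).val % p : ℕ) : ZMod (p ^ m)) +
        (p : ZMod (p ^ m)) * (((a i).val / p : ℕ) : ZMod (p ^ m)) := by
      have h3 : ((a i).val % p + p * ((a i).val / p) : ℕ) = (a i).val := Nat.mod_add_div _ _
      have h4 : (((a i).val % p + p * ((a i).val / p) : ℕ) : ZMod (p ^ m)) = a i := by
        rw [h3]
        exact ZMod.natCast_zmod_val (a i)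
      have h5 : (((a i).val % p : ℕ) : ZMod (p ^ m)) +
        (p : ZMod (p ^ m)) * (((a i).val / p : ℕ) : ZMod (p ^ m)) =
        (((a i).val % p + p * ((a i).val / p) : ℕ) : ZMod (p ^ m)) := by
        push_cast
        ring
      rw [h5, h4]
    calc (p : ZMod (p ^ m)) ^ (((i : ℕ) + 1) / n) * a i
        = (p : ZMod (p ^ m)) ^ (((i : ℕ) + 1) / n) * ((((a i).val % p : ℕ) : ZMod (p ^ m)) +
          (p : ZMod (p ^ m)) * (((a i).val / p : ℕ) : ZMod (p ^ m))) := by rw [← h2]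
      _ = _ := by rw [pow_succ]; ring

end Pool.Agent.Helper407.PN
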