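import Mathlib
import Pool.Agent.Helper431.PN.Base
import Pool.Agent.Helper431.PN.M5a
import Pool.Agent.Helper431.PN.G1
import Pool.Agent.Helper431.PN.G2
import Pool.Agent.Helper431.PN.G4
import Pool.Agent.Helper407.PN.Defs2
import Pool.Agent.Helper407.PN.Q1
import Pool.Agent.Helper407.PN.Q2
import Pool.Agent.Helper407.PN.Q3
import Pool.Agent.Helper407.PN.Q4
import Pool.Agent.Helper407.PN.Q6
import Pool.Agent.Helper407.PN.Q7
import Pool.Agent.Helper407.PN.Q8

namespace Pool.Agent.Helper407.PN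
open Pool.Agent.Helper431.PN
open scoped commutatorElement






/-- the subgroup of elements with leading coefficients in a subspace -/
def gam_lead_T {p m n : ℕ} [Fact p.Prime] (hn : 0 < n) (k : ℕ)
    (Sp : Submodule (ZMod p) (ℕ → ZMod p)) : Subgroup (PGroup p m n) where
  carrier := {g | ∃ c ∈ Sp, LR p m n (k + 1) (mo g) c}
  mul_mem' := by
    rintro g h ⟨c, hc, hc'⟩ ⟨d, hd, hd'⟩
    exact ⟨c + d, Sp.add_mem hc hd, (LR.mul_inv hn (Nat.succ_pos k) g h c d hc' hd').1⟩
  one_mem' := by
    refine ⟨0, Sp.zero_mem, ?_⟩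
    apply (LR.ops hn).2.2.1
    intro i j
    have h : (mo (1 : PGroup p m n)) = 0 := by
      unfold mo
      rw [OneMemClass.coe_one, Units.val_one, sub_self]
    rw [h]
    exact dvd_zero _
  inv_mem' := by
    rintro g ⟨c, hc, hc'⟩
    exact ⟨-c, Sp.neg_mem hc, (LR.mul_inv hn (Nat.succ_pos k) g g c c hc' hc').2.1⟩

theorem gam_lead_per {F : Type*} [Field F] (n : ℕ) (hs : List (ℕ → F)) :
    (∀ f ∈ hs, ∀ t, f (t + n) = f t) → ∀ i, Lc hs (i + n) = Lc hs i := by
  induction hs with
  | nil =>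
    intro _ i
    rfl
  | cons h1 t ih =>
    intro h i
    rcases t with _ | ⟨h', t⟩
    · exact h h1 (by simp) i
    · have ih' := ih (fun f hf => h f (List.mem_cons_of_mem _ hf))
      have hh := h h1 List.mem_cons_self
      change Lc (h' :: t) (i + n) * h1 (i + n + (t.length + 1)) - h1 (i + n) * Lc (h' :: t) (i + n + 1) =
        Lc (h' :: t) i * h1 (i + (t.length + 1)) - h1 i * Lc (h' :: t) (i + 1)
      have e1 : i + n + (t.length + 1) = i + (t.length + 1) + n := by omega
      have e2 : i + n + 1 = i + 1 + n := by omega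
      rw [e1, e2, ih', ih', hh, hh]

/-- the spanning set -/
def gam_lead_S {p : ℕ} [Fact p.Prime] (a b : ℕ → ZMod p) (k : ℕ) : Set (ℕ → ZMod p) :=
  {c : ℕ → ZMod p | ∃ hs : List (ℕ → ZMod p), hs.length = k + 1 ∧
      (∀ h ∈ hs, ∃ α β : ZMod p, h = fun t => α * a t + β * b t) ∧ c = fun i => Lc hs i}

theorem gam_lead_span_per {p n : ℕ} [Fact p.Prime] (a b : ℕ → ZMod p)
    (hap : ∀ t, a (t + n) = a t) (hbp : ∀ t, b (t + n) = b t) (k : ℕ) (c : ℕ → ZMod p)
    (hc : c ∈ Submodule.span (ZMod p) (gam_lead_S a b k)) : ∀ t, c (t + n) = c t := by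
  induction hc using Submodule.span_induction with
  | mem c hc =>
    obtain ⟨hs, _, h2, rfl⟩ := hc
    intro t
    apply gam_lead_per n hs
    intro f hf t
    obtain ⟨α, β, rfl⟩ := h2 f hf
    simp only [hap, hbp]
  | zero =>
    intro t
    rfl
  | add c d _ _ hc hd =>
    intro t
    simp only [Pi.add_apply, hc t, hd t]
  | smul r c _ hc =>
    intro t
    simp only [Pi.smul_apply, hc t]

theorem gam_lead_span_zero {p : ℕ} [Fact p.Prime] (a b : ℕ → ZMod p) (c : ℕ → ZMod p)
    (hc : c ∈ Submodule.span (ZMod p) (gam_lead_S a b 0)) :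
    ∃ α β : ZMod p, c = fun t => α * a t + β * b t := by
  induction hc using Submodule.span_induction with
  | mem c hc =>
    obtain ⟨hs, h1, h2, rfl⟩ := hc
    rw [zero_add, List.length_eq_one_iff] at h1
    obtain ⟨f, rfl⟩ := h1
    obtain ⟨α, β, h3⟩ := h2 f (by simp)
    exact ⟨α, β, h3⟩
  | zero =>
    refine ⟨0, 0, ?_⟩
    funext t
    simp
  | add c d _ _ hc hd =>
    obtain ⟨α, β, rfl⟩ := hc
    obtain ⟨α', β', rfl⟩ := hd
    refine ⟨α + α', β + β', ?_⟩
    funext t
    simp only [Pi.add_apply]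
    ring
  | smul r c _ hc =>
    obtain ⟨α, β, rfl⟩ := hc
    refine ⟨r * α, r * β, ?_⟩
    funext t
    simp only [Pi.smul_apply, smul_eq_mul]
    ring

theorem gam_lead_span_succ {p : ℕ} [Fact p.Prime] (a b : ℕ → ZMod p) (k : ℕ) (c d : ℕ → ZMod p)
    (hc : c ∈ Submodule.span (ZMod p) (gam_lead_S a b k))
    (hd : ∃ α β : ZMod p, d = fun t => α * a t + β * b t) :
    (fun i => c i * d (i + (k + 1)) - d i * c (i + 1)) ∈
      Submodule.span (ZMod p) (gam_lead_S a b (k + 1)) := by
  induction hc using Submodule.span_induction with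
  | mem c hc =>
    obtain ⟨hs, h1, h2, rfl⟩ := hc
    rcases hs with _ | ⟨h', t⟩
    · simp at h1
    have h3 : t.length = k := by simpa using h1
    apply Submodule.subset_span
    refine ⟨d :: h' :: t, by simp [h3], ?_, ?_⟩
    · intro f hf
      rcases List.mem_cons.1 hf with h | h
      · rw [h]
        exact hd
      · exact h2 f h
    · funext i
      change _ = Lc (h' :: t) i * d (i + (t.length + 1)) - d i * Lc (h' :: t) (i + 1)
      rw [h3]
  | zero =>
    have h : (fun i => (0 : ℕ → ZMod p) i * d (i + (k + 1)) - d i * (0 : ℕ → ZMod p) (i + 1)) = 0 := by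
      funext i
      simp
    rw [h]
    exact Submodule.zero_mem _
  | add c c' _ _ hc hc' =>
    have h : (fun i => (c + c') i * d (i + (k + 1)) - d i * (c + c') (i + 1)) =
        (fun i => c i * d (i + (k + 1)) - d i * c (i + 1)) +
        (fun i => c' i * d (i + (k + 1)) - d i * c' (i + 1)) := by
      funext i
      simp only [Pi.add_apply]
      ring
    rw [h]
    exact Submodule.add_mem _ hc hc'
  | smul r c _ hc =>
    have h : (fun i => (r • c) i * d (i + (k + 1)) - d i * (r • c) (i + 1)) =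
        r • (fun i => c i * d (i + (k + 1)) - d i * c (i + 1)) := by
      funext i
      simp only [Pi.smul_apply, smul_eq_mul]
      ring
    rw [h]
    exact Submodule.smul_mem _ _ hc

/-- TARGET 9 -/
theorem gam_lead {p m n : ℕ} [Fact p.Prime] (hn : 0 < n) (x y : PGroup p m n) (a b : ℕ → ZMod p)
    (hap : ∀ t, a (t + n) = a t) (hbp : ∀ t, b (t + n) = b t)
    (ha : LR p m n 1 (mo x) a) (hb : LR p m n 1 (mo y) b) (k : ℕ) (g : PGroup p m n)
    (hg : g ∈ gam (Subgroup.closure ({x, y} : Set (PGroup p m n))) k) :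
    ∃ c ∈ Submodule.span (ZMod p) {c : ℕ → ZMod p | ∃ hs : List (ℕ → ZMod p), hs.length = k + 1 ∧
      (∀ h ∈ hs, ∃ α β : ZMod p, h = fun t => α * a t + β * b t) ∧ c = fun i => Lc hs i},
      LR p m n (k + 1) (mo g) c := by
  change ∃ c ∈ Submodule.span (ZMod p) (gam_lead_S a b k), LR p m n (k + 1) (mo g) c
  have h0 : Subgroup.closure ({x, y} : Set (PGroup p m n)) ≤
      gam_lead_T hn 0 (Submodule.span (ZMod p) (gam_lead_S a b 0)) := by
    rw [Subgroup.closure_le]
    rintro z (rfl | hz)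
    · refine ⟨a, Submodule.subset_span ⟨[a], rfl, ?_, rfl⟩, ha⟩
      intro f hf
      rw [List.mem_singleton] at hf
      refine ⟨1, 0, ?_⟩
      funext t
      rw [hf]
      ring
    · rw [Set.mem_singleton_iff] at hz
      rw [hz]
      refine ⟨b, Submodule.subset_span ⟨[b], rfl, ?_, rfl⟩, hb⟩
      intro f hf
      rw [List.mem_singleton] at hf
      refine ⟨0, 1, ?_⟩
      funext t
      rw [hf]
      ring
  induction k generalizing g with
  | zero => exact h0 hg
  | succ k ih =>
    have h1 : ⁅gam (Subgroup.closure ({x, y} : Set (PGroup p m n))) k,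
        Subgroup.closure ({x, y} : Set (PGroup p m n))⁆ ≤
        gam_lead_T hn (k + 1) (Submodule.span (ZMod p) (gam_lead_S a b (k + 1))) := by
      rw [Subgroup.commutator_le]
      intro g1 hg1 g2 hg2
      obtain ⟨c, hc, hc'⟩ := ih g1 hg1
      obtain ⟨d, hd, hd'⟩ := h0 hg2
      refine ⟨_, gam_lead_span_succ a b k c d hc (gam_lead_span_zero a b d hd), ?_⟩
      exact LR.comm hn (Nat.succ_pos k) g1 g2 c d (gam_lead_span_per a b hap hbp k c hc)
        (gam_lead_span_per a b hap hbp 0 d hd) hc' hd'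
    exact h1 hg


end Pool.Agent.Helper407.PN
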