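import Mathlib
import Pool.Agent.Helper407.PN.Defs2

namespace Pool.Agent.Helper407.PN




/-- TARGET 1 -/
theorem Lc_ad {F : Type*} [Field F] (h : ℕ → F) (hs : List (ℕ → F)) (hne : hs ≠ []) (r i : ℕ) :
    Lc (List.replicate r h ++ hs) i = ∑ a ∈ Finset.range (r + 1),
      (-1) ^ a * (r.choose a : F) * (∏ t ∈ Finset.range a, h (i + t)) *
        (∏ t ∈ Finset.range (r - a), h (i + a + hs.length + t)) * Lc hs (i + a) := by
  have hcons : ∀ (L : List (ℕ → F)) (hL : L ≠ []) (j : ℕ),
      Lc (h :: L) j = Lc L j * h (j + L.length) - h j * Lc L (j + 1) := by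
    intro L hL j
    cases L with
    | nil => exact absurd rfl hL
    | cons h' t => rfl
  have hpascal : ∀ (r : ℕ) (G : ℕ → F), ∑ a ∈ Finset.range (r + 2), ((r + 1).choose a : F) * G a =
      ∑ a ∈ Finset.range (r + 1), (r.choose a : F) * G a +
        ∑ a ∈ Finset.range (r + 1), (r.choose a : F) * G (a + 1) := by
    intro r G
    have h1 : ∑ a ∈ Finset.range (r + 2), (r.choose a : F) * G a =
        ∑ a ∈ Finset.range (r + 1), (r.choose a : F) * G a := by
      rw [Finset.sum_range_succ _ (r + 1), Nat.choose_succ_self]
      simp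
    rw [← h1, Finset.sum_range_succ' _ (r + 1), Finset.sum_range_succ' _ (r + 1)]
    have h2 : ∀ a ∈ Finset.range (r + 1), ((r + 1).choose (a + 1) : F) * G (a + 1) =
        (r.choose a : F) * G (a + 1) + (r.choose (a + 1) : F) * G (a + 1) := by
      intro a _
      rw [Nat.choose_succ_succ]
      push_cast
      ring
    rw [Finset.sum_congr rfl h2, Finset.sum_add_distrib]
    simp only [Nat.choose_zero_right]
    ring
  induction r generalizing i with
  | zero => simp
  | succ r ih =>
    have hL : List.replicate r h ++ hs ≠ [] := by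
      intro h0
      exact hne (List.append_eq_nil_iff.1 h0).2
    have hlen : (List.replicate r h ++ hs).length = r + hs.length := by
      rw [List.length_append, List.length_replicate]
    have e0 : List.replicate (r + 1) h ++ hs = h :: (List.replicate r h ++ hs) := by
      rw [List.replicate_succ, List.cons_append]
    rw [e0, hcons _ hL, hlen, ih i, ih (i + 1)]
    have e1 : ∑ a ∈ Finset.range (r + 1 + 1), (-1 : F) ^ a * ((r + 1).choose a : F) *
        (∏ t ∈ Finset.range a, h (i + t)) *
        (∏ t ∈ Finset.range (r + 1 - a), h (i + a + hs.length + t)) * Lc hs (i + a) =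
        ∑ a ∈ Finset.range (r + 2), ((r + 1).choose a : F) * ((-1) ^ a *
        (∏ t ∈ Finset.range a, h (i + t)) *
        (∏ t ∈ Finset.range (r + 1 - a), h (i + a + hs.length + t)) * Lc hs (i + a)) := by
      refine Finset.sum_congr rfl fun a _ => ?_
      ring
    rw [e1, hpascal, sub_eq_add_neg, Finset.sum_mul, Finset.mul_sum, ← Finset.sum_neg_distrib]
    congr 1
    · refine Finset.sum_congr rfl fun a ha => ?_
      have ha' : a ≤ r := by
        have := Finset.mem_range.1 ha
        omega
      have e2 : r + 1 - a = (r - a) + 1 := by omega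
      rw [e2, Finset.prod_range_succ]
      have e3 : i + a + hs.length + (r - a) = i + (r + hs.length) := by omega
      rw [e3]
      ring
    · refine Finset.sum_congr rfl fun a ha => ?_
      have ha' : a ≤ r := by
        have := Finset.mem_range.1 ha
        omega
      have e2 : r + 1 - (a + 1) = r - a := by omega
      have e4 : i + 1 + a = i + (a + 1) := by ring
      rw [e2, Finset.prod_range_succ' _ a, e4]
      have e5 : ∀ t, i + 1 + t = i + (t + 1) := fun t => by ring
      simp only [e5, Nat.add_zero]
      ring


end Pool.Agent.Helper407.PN
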