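import Mathlib
import Pool.Agent.Helper407.PN.Defs2

namespace Pool.Agent.Helper407.PN




/-- TARGET 2 (reversal) -/
theorem Lc_rev {F : Type*} [Field F] {B : Type*} (f f' : B → ℕ → F) (hs : List B) (i i' : ℕ)
    (hf : ∀ b t, t < hs.length → f' b (i' + t) = f b (i + (hs.length - 1 - t))) :
    Lc (hs.map f') i' = (-1) ^ (hs.length + 1) * Lc (hs.map f) i := by
  induction hs generalizing i i' with
  | nil => simp [Lc]
  | cons b tl ih =>
    cases tl with
    | nil =>
      have h0 := hf b 0 (by simp)
      simp only [List.length_cons, List.length_nil, add_zero, zero_add, Nat.sub_self] at h0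
      simp [Lc, h0]
    | cons b' t =>
      have e1 : Lc ((b :: b' :: t).map f') i' = Lc ((b' :: t).map f') i' *
          f' b (i' + (t.length + 1)) - f' b i' * Lc ((b' :: t).map f') (i' + 1) := by
        show Lc ((b' :: t).map f') i' * f' b (i' + ((t.map f').length + 1)) - _ = _
        rw [List.length_map]
        rfl
      have e2 : Lc ((b :: b' :: t).map f) i = Lc ((b' :: t).map f) i *
          f b (i + (t.length + 1)) - f b i * Lc ((b' :: t).map f) (i + 1) := by
        show Lc ((b' :: t).map f) i * f b (i + ((t.map f).length + 1)) - _ = _
        rw [List.length_map]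
        rfl
      simp only [List.length_cons] at hf ih ⊢
      have h1 := hf b (t.length + 1) (by omega)
      have h2 := hf b 0 (by omega)
      have h3 := ih (i + 1) i' (fun c s hs => by
        rw [hf c s (by omega)]
        congr 1
        omega)
      have h4 := ih i (i' + 1) (fun c s hs => by
        rw [show i' + 1 + s = i' + (s + 1) by omega, hf c (s + 1) (by omega)]
        congr 1
        omega)
      rw [show i + (t.length + 1 + 1 - 1 - (t.length + 1)) = i by omega] at h1
      rw [add_zero, show i + (t.length + 1 + 1 - 1 - 0) = i + (t.length + 1) by omega] at h2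
      rw [e1, e2, h1, h2, h3, h4]
      ring


end Pool.Agent.Helper407.PN
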