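import Mathlib
import Pool.Agent.Helper407.PN.Defs2
import Pool.Agent.Helper407.PN.S1
import Pool.Agent.Helper407.PN.S2

namespace Pool.Agent.Helper407.PN




theorem val_eq {F : Type*} [Field F] (χ : ℕ → Bool) (b : Bool) (t : ℕ) (h : χ t = b) :
    val F χ b t = 1 := by
  unfold val
  rw [if_pos h]

theorem val_ne {F : Type*} [Field F] (χ : ℕ → Bool) (b : Bool) (t : ℕ) (h : χ t ≠ b) :
    val F χ b t = 0 := by
  unfold val
  rw [if_neg h]

theorem choose_ne {F : Type*} [Field F] (k r a : ℕ)
    (hF : ∀ m : ℕ, 0 < m → m ≤ k → (m : F) ≠ 0) (hr : r ≤ k) (ha : a ≤ r) :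
    ((r.choose a : ℕ) : F) ≠ 0 := by
  have hfac : ∀ n : ℕ, n ≤ k → ((n.factorial : ℕ) : F) ≠ 0 := by
    intro n
    induction n with
    | zero => intro _; simp
    | succ n ih =>
      intro hn
      rw [Nat.factorial_succ, Nat.cast_mul]
      exact mul_ne_zero (hF (n+1) (by omega) hn) (ih (by omega))
  intro h0
  have h1 := Nat.choose_mul_factorial_mul_factorial ha
  have h2 : ((r.choose a * a.factorial * (r - a).factorial : ℕ) : F) = ((r.factorial : ℕ) : F) := by
    rw [h1]
  rw [Nat.cast_mul, Nat.cast_mul, h0, zero_mul, zero_mul] at h2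
  exact hfac r hr h2.symm

theorem map_rep {F : Type*} [Field F] (χ : ℕ → Bool) (x : Bool) (r : ℕ) (hs : List Bool) :
    (List.replicate r x ++ hs).map (val F χ) =
      List.replicate r (val F χ x) ++ hs.map (val F χ) := by
  rw [List.map_append, List.map_replicate]

theorem step1 {F : Type*} [Field F] (χ : ℕ → Bool) (i p m j : ℕ) (x : Bool)
    (hx1 : ∀ t, t ≤ p → χ (i + t) = x) (hx2 : ∀ t, t < j → χ (i + (p + 1) + m + t) = x)
    (hn1 : χ (i + (p + 1)) ≠ x) (hn2 : χ (i + p + m) ≠ x) (hm : 1 ≤ m)
    (hc : (((p + 1 + j).choose (p + 1) : ℕ) : F) ≠ 0) (h : Perp F χ i (p + 1 + m + j)) :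
    Perp F χ (i + (p + 1)) m := by
  intro hs hl
  have h1 := h (List.replicate (p + 1 + j) x ++ hs) (by simp [hl]; omega)
  rw [map_rep, Lc_ad _ _ (by intro h0; have h9 := congrArg List.length h0; rw [List.length_map, List.length_nil] at h9; omega)] at h1
  rw [Finset.sum_eq_single (p + 1)] at h1
  · have e1 : ∏ t ∈ Finset.range (p + 1), val F χ x (i + t) = 1 :=
      Finset.prod_eq_one fun t ht => val_eq _ _ _ (hx1 t (by have := Finset.mem_range.1 ht; omega))
    have e2 : ∏ t ∈ Finset.range (p + 1 + j - (p + 1)),
        val F χ x (i + (p + 1) + (hs.map (val F χ)).length + t) = 1 :=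
      Finset.prod_eq_one fun t ht => by
        rw [List.length_map, hl]
        exact val_eq _ _ _ (hx2 t (by have := Finset.mem_range.1 ht; omega))
    rw [e1, e2, mul_one, mul_one] at h1
    have e3 : ((-1 : F) ^ (p + 1) * (((p + 1 + j).choose (p + 1) : ℕ) : F)) ≠ 0 :=
      mul_ne_zero (pow_ne_zero _ (by simp)) hc
    exact (mul_eq_zero.1 h1).resolve_left e3
  · intro a _ ha
    rcases Nat.lt_or_gt_of_ne ha with ha | ha
    · have e2 : ∏ t ∈ Finset.range (p + 1 + j - a),
          val F χ x (i + a + (hs.map (val F χ)).length + t) = 0 := by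
        refine Finset.prod_eq_zero (Finset.mem_range.2 (show p - a < p + 1 + j - a by omega)) ?_
        rw [List.length_map, hl]
        refine val_ne _ _ _ ?_
        rw [show i + a + m + (p - a) = i + p + m by omega]
        exact hn2
      rw [e2]
      ring
    · have e1 : ∏ t ∈ Finset.range a, val F χ x (i + t) = 0 :=
        Finset.prod_eq_zero (Finset.mem_range.2 ha) (val_ne _ _ _ hn1)
      rw [e1]
      ring
  · intro ha
    exact absurd (Finset.mem_range.2 (by omega)) ha

theorem step2 {F : Type*} [Field F] (χ : ℕ → Bool) (i p m j : ℕ) (x : Bool)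
    (hx1 : ∀ t, t ≤ p → χ (i + t) = x) (hx2 : ∀ t, t < j → χ (i + (p + 1) + m + t) = x)
    (hn1 : χ (i + (p + 1)) ≠ x) (hn2 : χ (i + p + m) ≠ x) (hm : 1 ≤ m)
    (h : Perp F χ i (p + 1 + m + j)) (hs : List Bool) (hl : hs.length = m + 1) :
    (((p + j).choose p : ℕ) : F) * Lc (hs.map (val F χ)) (i + p) =
      (((p + j).choose (p + 1) : ℕ) : F) * Lc (hs.map (val F χ)) (i + (p + 1)) := by
  have h1 := h (List.replicate (p + j) x ++ hs) (by simp [hl]; omega)
  rw [map_rep, Lc_ad _ _ (by intro h0; have h9 := congrArg List.length h0; rw [List.length_map, List.length_nil] at h9; omega)] at h1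
  have hz : ∀ a, a ≠ p ∧ a ≠ p + 1 →
      (-1 : F) ^ a * (((p + j).choose a : ℕ) : F) * (∏ t ∈ Finset.range a, val F χ x (i + t)) *
        (∏ t ∈ Finset.range (p + j - a), val F χ x (i + a + (hs.map (val F χ)).length + t)) *
        Lc (hs.map (val F χ)) (i + a) = 0 := by
    intro a ha
    by_cases hap : a < p
    · have e2 : ∏ t ∈ Finset.range (p + j - a),
          val F χ x (i + a + (hs.map (val F χ)).length + t) = 0 := by
        refine Finset.prod_eq_zero (Finset.mem_range.2 (show p - 1 - a < p + j - a by omega)) ?_
        rw [List.length_map, hl]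
        refine val_ne _ _ _ ?_
        rw [show i + a + (m + 1) + (p - 1 - a) = i + p + m by omega]
        exact hn2
      rw [e2]
      ring
    · have e1 : ∏ t ∈ Finset.range a, val F χ x (i + t) = 0 :=
        Finset.prod_eq_zero (Finset.mem_range.2 (show p + 1 < a by omega)) (val_ne _ _ _ hn1)
      rw [e1]
      ring
  have h2 : ∑ a ∈ Finset.range (p + j + 1 + 1),
      (-1 : F) ^ a * (((p + j).choose a : ℕ) : F) * (∏ t ∈ Finset.range a, val F χ x (i + t)) *
        (∏ t ∈ Finset.range (p + j - a), val F χ x (i + a + (hs.map (val F χ)).length + t)) *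
        Lc (hs.map (val F χ)) (i + a) = 0 := by
    rw [Finset.sum_range_succ, h1, Nat.choose_succ_self]
    simp
  rw [Finset.sum_eq_add p (p + 1) (by omega) (fun a _ ha => hz a ha)
    (fun ha => absurd (Finset.mem_range.2 (by omega)) ha)
    (fun ha => by
      rw [Nat.choose_eq_zero_of_lt (by
        by_contra h3
        exact ha (Finset.mem_range.2 (by omega)))]
      simp)] at h2
  have e1 : ∏ t ∈ Finset.range p, val F χ x (i + t) = 1 :=
    Finset.prod_eq_one fun t ht => val_eq _ _ _ (hx1 t (by have := Finset.mem_range.1 ht; omega))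
  have e1' : ∏ t ∈ Finset.range (p + 1), val F χ x (i + t) = 1 :=
    Finset.prod_eq_one fun t ht => val_eq _ _ _ (hx1 t (by have := Finset.mem_range.1 ht; omega))
  have e2 : ∏ t ∈ Finset.range (p + j - p),
      val F χ x (i + p + (hs.map (val F χ)).length + t) = 1 :=
    Finset.prod_eq_one fun t ht => by
      rw [List.length_map, hl]
      refine val_eq _ _ _ ?_
      rw [show i + p + (m + 1) + t = i + (p + 1) + m + t by omega]
      exact hx2 t (by have := Finset.mem_range.1 ht; omega)
  have e2' : ∏ t ∈ Finset.range (p + j - (p + 1)),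
      val F χ x (i + (p + 1) + (hs.map (val F χ)).length + t) = 1 :=
    Finset.prod_eq_one fun t ht => by
      rw [List.length_map, hl]
      refine val_eq _ _ _ ?_
      rw [show i + (p + 1) + (m + 1) + t = i + (p + 1) + m + (t + 1) by omega]
      exact hx2 (t + 1) (by have := Finset.mem_range.1 ht; omega)
  rw [e1, e1', e2, e2', pow_succ] at h2
  have h3 : (-1 : F) ^ p * ((((p + j).choose p : ℕ) : F) * Lc (hs.map (val F χ)) (i + p) -
      (((p + j).choose (p + 1) : ℕ) : F) * Lc (hs.map (val F χ)) (i + (p + 1))) = 0 := by
    linear_combination h2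
  have h4 := (mul_eq_zero.1 h3).resolve_left (pow_ne_zero _ (by simp))
  exact sub_eq_zero.1 h4

theorem step3 {F : Type*} [Field F] (χ : ℕ → Bool) (i m : ℕ)
    (hn1 : χ (i + 1) ≠ χ i) (hn2 : χ (i + m) ≠ χ i) (hm : 1 ≤ m)
    (h : Perp F χ i (m + 1)) : Perp F χ i m := by
  intro hs hl
  have h1 := h ((!(χ i)) :: hs) (by simp [hl])
  match hs, hl, h1 with
  | [], hl, _ => simp at hl; omega
  | b :: t, hl, h1 =>
    have h2 : Lc (((!(χ i)) :: b :: t).map (val F χ)) i =
        Lc ((b :: t).map (val F χ)) i * val F χ (!(χ i)) (i + ((t.map (val F χ)).length + 1)) -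
          val F χ (!(χ i)) i * Lc ((b :: t).map (val F χ)) (i + 1) := rfl
    rw [h2] at h1
    have e1 : val F χ (!(χ i)) i = 0 := val_ne _ _ _ (by cases χ i <;> simp)
    have e2 : val F χ (!(χ i)) (i + ((t.map (val F χ)).length + 1)) = 1 := by
      refine val_eq _ _ _ ?_
      rw [List.length_map]
      have e3 : t.length + 1 = m := by simpa using hl
      rw [e3]
      revert hn2
      cases χ (i + m) <;> cases χ i <;> simp
    rw [e1, e2, mul_one, zero_mul, sub_zero] at h1
    exact h1

theorem runs (χ : ℕ → Bool) (i k : ℕ) (h : ¬ ∀ t, t < k → χ (i + t) = χ i) :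
    ∃ p m j : ℕ, k = p + 1 + m + j ∧ 1 ≤ m ∧ (∀ t, t ≤ p → χ (i + t) = χ i) ∧
      (∀ t, t < j → χ (i + (p + 1) + m + t) = χ i) ∧ χ (i + (p + 1)) ≠ χ i ∧
      χ (i + p + m) ≠ χ i := by
  classical
  push Not at h
  have hex : ∃ t, t < k ∧ χ (i + t) ≠ χ i := h
  let a := Nat.find hex
  have ha : a < k ∧ χ (i + a) ≠ χ i := Nat.find_spec hex
  have hmin : ∀ t, t < a → χ (i + t) = χ i := by
    intro t ht
    by_contra h1
    exact Nat.find_min hex ht ⟨by omega, h1⟩
  have ha0 : a ≠ 0 := by
    intro h0
    apply ha.2
    rw [h0, Nat.add_zero]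
  have hex2 : ∃ s, s < k ∧ χ (i + (k - 1 - s)) ≠ χ i := by
    refine ⟨k - 1 - a, by omega, ?_⟩
    rw [show k - 1 - (k - 1 - a) = a by omega]
    exact ha.2
  let b := Nat.find hex2
  have hb : b < k ∧ χ (i + (k - 1 - b)) ≠ χ i := Nat.find_spec hex2
  have hmin2 : ∀ s, s < b → χ (i + (k - 1 - s)) = χ i := by
    intro s hs
    by_contra h1
    exact Nat.find_min hex2 hs ⟨by omega, h1⟩
  have hab : a ≤ k - 1 - b := by
    by_contra h1
    exact hb.2 (hmin _ (by omega))
  refine ⟨a - 1, k - b - a, b, by omega, by omega, ?_, ?_, ?_, ?_⟩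
  · intro t ht
    exact hmin t (by omega)
  · intro t ht
    have := hmin2 (b - 1 - t) (by omega)
    rw [show k - 1 - (b - 1 - t) = (a - 1 + 1) + (k - b - a) + t by omega] at this
    rw [← this]
    congr 1
    omega
  · rw [show a - 1 + 1 = a by omega]
    exact ha.2
  · have := hb.2
    rw [show i + (k - 1 - b) = i + (a - 1) + (k - b - a) by omega] at this
    exact this

/-- TARGET 3 (words not in the support of the free Lie algebra, after Duchamp and Thibon) -/
theorem perp_iff {F : Type*} [Field F] (χ : ℕ → Bool) (i k : ℕ)
    (hF : ∀ m : ℕ, 0 < m → m ≤ k → (m : F) ≠ 0) (hk : 2 ≤ k) (h : Perp F χ i k) :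
    (∀ t, t < k → χ (i + t) = χ i) ∨ (Even k ∧ ∀ t, t < k → χ (i + t) = χ (i + (k - 1 - t))) := by
  induction k using Nat.strong_induction_on generalizing i with
  | _ k ih =>
    by_cases hcon : ∀ t, t < k → χ (i + t) = χ i
    · exact Or.inl hcon
    right
    obtain ⟨p, m, j, hkeq, hm, hx1, hx2, hn1, hn2⟩ := runs χ i k hcon
    have hr : ((((p + 1 + j).choose (p + 1) : ℕ)) : F) ≠ 0 :=
      choose_ne k _ _ hF (by omega) (by omega)
    rw [hkeq] at h
    have hP := step1 χ i p m j (χ i) hx1 hx2 hn1 hn2 hm hr h
    -- m ≥ 2
    have hm2 : 2 ≤ m := by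
      by_contra hlt
      have hm1 : m = 1 := by omega
      subst hm1
      have h5 := hP [χ (i + (p + 1))] (by simp)
      have h6 : Lc ([χ (i + (p + 1))].map (val F χ)) (i + (p + 1)) =
          val F χ (χ (i + (p + 1))) (i + (p + 1)) := rfl
      rw [h6, val_eq _ _ _ rfl] at h5
      exact one_ne_zero h5
    have hIH := ih m (by omega) (i + (p + 1)) (fun n h1 h2 => hF n h1 (by omega)) hm2 hP
    have hpal : ∀ t, t < m → χ (i + (p + 1) + t) = χ (i + (p + 1) + (m - 1 - t)) := by
      rcases hIH with hc | hc
      · intro t ht
        rw [hc t ht, hc (m - 1 - t) (by omega)]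
      · exact hc.2
    -- contradiction from `Perp` at the extended window
    have hbad : p + j ≥ 1 → ¬ Perp F χ (i + p) (m + 1) := by
      intro hr1 hQ
      have h5 := ih (m + 1) (by omega) (i + p) (fun n h1 h2 => hF n h1 (by omega)) (by omega) hQ
      rcases h5 with hc | hc
      · have h6 := hc 1 (by omega)
        rw [hx1 p le_rfl] at h6
        exact hn1 h6
      · have h6 := hc.2 0 (by omega)
        rw [Nat.add_zero, hx1 p le_rfl, show i + p + (m + 1 - 1 - 0) = i + p + m by omega] at h6
        exact hn2 h6.symm
    by_cases hr1 : p + j ≥ 1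
    · -- case r ≥ 2
      have hS := step2 (F := F) χ i p m j (χ i) hx1 hx2 hn1 hn2 hm h
      by_cases hj : j = 0
      · exfalso
        apply hbad hr1
        intro hs hl
        have h5 := hS hs hl
        subst hj
        rw [Nat.add_zero, Nat.choose_self, Nat.choose_succ_self] at h5
        simpa using h5
      · have hrev : ∀ hs : List Bool, hs.length = m + 1 →
            Lc (hs.map (val F χ)) (i + (p + 1)) = (-1) ^ m * Lc (hs.map (val F χ)) (i + p) := by
          intro hs hl
          have h5 := Lc_rev (F := F) (val F χ) (val F χ) hs (i + p) (i + (p + 1)) (by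
            intro b t ht
            have h6 : χ (i + (p + 1) + t) = χ (i + p + (hs.length - 1 - t)) := by
              rw [hl]
              rw [hl] at ht
              by_cases htm : t = m
              · subst htm
                have h7 := hx2 0 (by omega)
                rw [Nat.add_zero] at h7
                rw [h7, show i + p + (t + 1 - 1 - t) = i + p by omega, hx1 p le_rfl]
              · rw [hpal t (by omega)]
                congr 1
                omega
            unfold val
            rw [h6])
          rw [h5, hl, pow_succ, pow_succ]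
          ring
        have hkey : ∀ hs : List Bool, hs.length = m + 1 →
            ((((p + j).choose p : ℕ) : F) - (-1) ^ m * (((p + j).choose (p + 1) : ℕ) : F)) *
              Lc (hs.map (val F χ)) (i + p) = 0 := by
          intro hs hl
          have h5 := hS hs hl
          rw [hrev hs hl] at h5
          linear_combination h5
        rcases Nat.even_or_odd m with hme | hmo
        · -- m even
          by_cases hpj : p + 1 = j
          · refine ⟨?_, ?_⟩
            · rw [hkeq, ← hpj]
              obtain ⟨c, hc⟩ := hme
              exact ⟨p + 1 + c, by omega⟩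
            · intro t ht
              by_cases h1 : t ≤ p
              · rw [hx1 t h1]
                have h7 := hx2 (p - t) (by omega)
                rw [show i + (p + 1) + m + (p - t) = i + (k - 1 - t) by omega] at h7
                exact h7.symm
              · by_cases h2 : t < p + 1 + m
                · have h7 := hpal (t - (p + 1)) (by omega)
                  rw [show i + (p + 1) + (t - (p + 1)) = i + t by omega,
                    show i + (p + 1) + (m - 1 - (t - (p + 1))) = i + (k - 1 - t) by omega] at h7
                  exact h7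
                · have h7 := hx2 (t - (p + 1 + m)) (by omega)
                  rw [show i + (p + 1) + m + (t - (p + 1 + m)) = i + t by omega] at h7
                  rw [h7, hx1 (k - 1 - t) (by omega)]
          · exfalso
            apply hbad hr1
            have hc : ((((p + j).choose p : ℕ) : F) -
                (-1) ^ m * (((p + j).choose (p + 1) : ℕ) : F)) ≠ 0 := by
              rw [hme.neg_one_pow, one_mul]
              intro h0
              have e1 : (p + j + 1) * (p + j).choose p = (p + j + 1).choose (p + 1) * (p + 1) :=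
                Nat.add_one_mul_choose_eq (p + j) p
              have e2 : (p + j).choose (p + 1) + (p + j).choose p = (p + j + 1).choose (p + 1) := by
                rw [Nat.choose_succ_succ (p + j) p, add_comm]
              have e1' : ((p : F) + j + 1) * (((p + j).choose p : ℕ) : F) =
                  (((p + j + 1).choose (p + 1) : ℕ) : F) * ((p : F) + 1) := by
                exact_mod_cast congrArg (Nat.cast : ℕ → F) e1
              have e2' : (((p + j).choose (p + 1) : ℕ) : F) + (((p + j).choose p : ℕ) : F) =
                  (((p + j + 1).choose (p + 1) : ℕ) : F) := by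
                exact_mod_cast congrArg (Nat.cast : ℕ → F) e2
              have e3 : (((p + j + 1).choose (p + 1) : ℕ) : F) * ((p : F) + 1 - j) = 0 := by
                have h8 : (((p + j).choose (p + 1) : ℕ) : F) = (((p + j).choose p : ℕ) : F) :=
                  (sub_eq_zero.1 h0).symm
                rw [h8] at e2'
                linear_combination (-2 : F) * e1' + ((p : F) + j + 1) * e2'
              have e4 : (((p + j + 1).choose (p + 1) : ℕ) : F) ≠ 0 :=
                choose_ne k _ _ hF (by omega) (by omega)
              have e5 := (mul_eq_zero.1 e3).resolve_left e4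
              rcases Nat.lt_or_gt_of_ne hpj with hlt | hgt
              · apply hF (j - (p + 1)) (by omega) (by omega)
                rw [Nat.cast_sub (by omega)]
                push_cast
                linear_combination -e5
              · apply hF (p + 1 - j) (by omega) (by omega)
                rw [Nat.cast_sub (by omega)]
                push_cast
                linear_combination e5
            intro hs hl
            exact (mul_eq_zero.1 (hkey hs hl)).resolve_left hc
        · exfalso
          apply hbad hr1
          have hc : ((((p + j).choose p : ℕ) : F) -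
              (-1) ^ m * (((p + j).choose (p + 1) : ℕ) : F)) ≠ 0 := by
            rw [hmo.neg_one_pow]
            have e2 : (p + j).choose p + (p + j).choose (p + 1) = (p + j + 1).choose (p + 1) := by
              rw [Nat.choose_succ_succ (p + j) p]
            have e2' : (((p + j).choose p : ℕ) : F) + (((p + j).choose (p + 1) : ℕ) : F) =
                (((p + j + 1).choose (p + 1) : ℕ) : F) := by
              exact_mod_cast congrArg (Nat.cast : ℕ → F) e2
            have e4 : (((p + j + 1).choose (p + 1) : ℕ) : F) ≠ 0 :=
              choose_ne k _ _ hF (by omega) (by omega)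
            intro h0
            apply e4
            rw [← e2']
            linear_combination h0
          intro hs hl
          exact (mul_eq_zero.1 (hkey hs hl)).resolve_left hc
    · -- case r = 1
      exfalso
      have hp0 : p = 0 := by omega
      have hj0 : j = 0 := by omega
      subst hp0
      subst hj0
      have hn1' : χ (i + 1) ≠ χ i := by simpa using hn1
      have hn2' : χ (i + m) ≠ χ i := by simpa using hn2
      have h' : Perp F χ i (m + 1) := by
        have e : 0 + 1 + m + 0 = m + 1 := by omega
        rw [e] at h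
        exact h
      have hQ := step3 χ i m hn1' hn2' hm h'
      have h5 := ih m (by omega) i (fun n h1 h2 => hF n h1 (by omega)) hm2 hQ
      rcases h5 with hc | hc
      · exact hn1' (hc 1 (by omega))
      · have hper : ∀ s, s + 2 ≤ m → χ (i + s) = χ (i + s + 2) := by
          intro s hs
          have h6 := hc.2 s (by omega)
          have h7 := hpal (m - 2 - s) (by omega)
          rw [h6]
          rw [show i + (0 + 1) + (m - 2 - s) = i + (m - 1 - s) by omega,
            show i + (0 + 1) + (m - 1 - (m - 2 - s)) = i + s + 2 by omega] at h7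
          exact h7
        have hodd : ∀ c, 2 * c + 1 ≤ m → χ (i + (2 * c + 1)) = χ (i + 1) := by
          intro c
          induction c with
          | zero => intro _; rfl
          | succ c ihc =>
            intro hcm
            rw [← ihc (by omega), hper (2 * c + 1) (by omega)]
            congr 1
        obtain ⟨c, hc1⟩ := hc.1
        have h8 := hodd (c - 1) (by omega)
        have h9 := hc.2 0 (by omega)
        rw [Nat.add_zero, show i + (m - 1 - 0) = i + (2 * (c - 1) + 1) by omega, h8] at h9
        exact hn1' h9.symm


end Pool.Agent.Helper407.PN
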