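import Mathlib
import Pool.Agent.Helper407.PN.Defs2

namespace Pool.Agent.Helper407.PN




/-- TARGET 4 -/
theorem Lc_vanish {F : Type*} [Field F] (χ : ℕ → Bool) (z w : ℕ → F)
    (hz : ∀ t, χ t = true → z t = 0) (hs : List Bool) (i : ℕ)
    (hc : hs.count true < ((Finset.range hs.length).filter (fun t => χ (i + t) = true)).card) :
    Lc (hs.map (fun b => if b = true then w else z)) i = 0 := by
  induction hs generalizing i with
  | nil => rfl
  | cons h L ih =>
    have e1 : ((Finset.range (L.length + 1)).filter (fun t => χ (i + t) = true)).card =
        ((Finset.range L.length).filter (fun t => χ (i + t) = true)).card +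
          (if χ (i + L.length) = true then 1 else 0) := by
      rw [Finset.card_filter, Finset.card_filter, Finset.sum_range_succ]
    have e2 : ((Finset.range (L.length + 1)).filter (fun t => χ (i + t) = true)).card =
        ((Finset.range L.length).filter (fun t => χ (i + 1 + t) = true)).card +
          (if χ i = true then 1 else 0) := by
      rw [Finset.card_filter, Finset.card_filter, Finset.sum_range_succ']
      congr 1
      apply Finset.sum_congr rfl
      intro t _
      rw [show i + (t + 1) = i + 1 + t by ring]
    rw [List.length_cons] at hc
    rcases L with _ | ⟨h', t⟩
    · simp only [List.map_cons, List.map_nil, Lc]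
      cases h with
      | true =>
        exfalso
        rw [e1] at hc
        simp at hc
        split_ifs at hc <;> omega
      | false =>
        rw [e1] at hc
        simp at hc
        have hx : χ i = true := by
          by_contra hx
          rw [if_neg hx] at hc
          omega
        simp [hz i hx]
    · have hlen : (h' :: t).length = t.length + 1 := rfl
      simp only [List.map_cons, Lc, List.length_map]
      simp only [List.map_cons] at ih
      cases h with
      | true =>
        have hcount : List.count true (true :: h' :: t) = List.count true (h' :: t) + 1 := by
          simp
        rw [hcount] at hc
        have h1 := ih i (by rw [e1] at hc; split_ifs at hc <;> omega)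
        have h2 := ih (i + 1) (by rw [e2] at hc; split_ifs at hc <;> omega)
        rw [h1, h2]; ring
      | false =>
        have hcount : List.count true (false :: h' :: t) = List.count true (h' :: t) := by
          simp
        rw [hcount] at hc
        have t1 : Lc ((if h' = true then w else z) :: List.map (fun b => if b = true then w else z) t) i *
            z (i + (t.length + 1)) = 0 := by
          by_cases hx : χ (i + (t.length + 1)) = true
          · rw [hz _ hx, mul_zero]
          · rw [ih i (by rw [e1, hlen, if_neg hx] at hc; rw [hlen]; omega), zero_mul]
        have t2 : z i * Lc ((if h' = true then w else z) :: List.map (fun b => if b = true then w else z) t) (i + 1) = 0 := by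
          by_cases hx : χ i = true
          · rw [hz _ hx, zero_mul]
          · rw [ih (i + 1) (by rw [e2, if_neg hx] at hc; omega), mul_zero]
        simp only [Bool.false_eq_true, if_false]
        rw [t1, t2, sub_zero]


end Pool.Agent.Helper407.PN
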