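import Mathlib
import Pool.Agent.Helper407.PN.Defs2
import Pool.Agent.Helper407.PN.S4

namespace Pool.Agent.Helper407.PN




theorem Lc_conv_aux {F : Type*} [Field F] (χ : ℕ → Bool) (z w : ℕ → F)
    (hz : ∀ t, χ t = true → z t = 0) (b : Bool) (p n c : ℕ) (X Y P : F)
    (hcnt : n + (if b = true then 1 else 0) = c + (if χ p = true then 1 else 0))
    (hIH : n = c → X = P * Y) (hv : n < c → X = 0) :
    X * (if b = true then w else z) p =
      P * (if χ p = true then w p else z p) * (Y * val F χ b p) := by
  by_cases hχ : χ p = true
  · by_cases hb : b = true
    · subst hb
      have h1 : n = c := by simpa [hχ] using hcnt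
      rw [hIH h1]
      simp [hχ, val]
      ring
    · have hb' : b = false := by simpa using hb
      subst hb'
      simp [hχ, val, hz p hχ]
  · have hχ' : χ p = false := by simpa using hχ
    by_cases hb : b = true
    · subst hb
      have h1 : n < c := by
        simp [hχ'] at hcnt
        omega
      rw [hv h1]
      simp [hχ', val]
    · have hb' : b = false := by simpa using hb
      subst hb'
      have h1 : n = c := by simpa [hχ'] using hcnt
      rw [hIH h1]
      simp [hχ', val]
      ring

/-- TARGET 5 -/
theorem Lc_conv {F : Type*} [Field F] (χ : ℕ → Bool) (z w : ℕ → F)
    (hz : ∀ t, χ t = true → z t = 0) (hs : List Bool) (i : ℕ)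
    (hc : hs.count true = ((Finset.range hs.length).filter (fun t => χ (i + t) = true)).card) :
    Lc (hs.map (fun b => if b = true then w else z)) i =
      (∏ t ∈ Finset.range hs.length, (if χ (i + t) = true then w (i + t) else z (i + t))) *
        Lc (hs.map (val F χ)) i := by
  induction hs generalizing i with
  | nil => simp [Lc]
  | cons b tl ih =>
    cases tl with
    | nil =>
      have h := Lc_conv_aux χ z w hz b i 0 0 (1 : F) (1 : F) (1 : F)
        (by
          rw [Finset.card_filter] at hc
          simp only [List.length_singleton, Finset.sum_range_one, Nat.add_zero,
            List.count_cons, List.count_nil] at hc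
          simpa using hc)
        (by intro _; ring) (by intro h; exact absurd h (lt_irrefl _))
      simpa [Lc, Finset.prod_range_succ] using h
    | cons b' t =>
      have hlen : (b :: b' :: t).length = (b' :: t).length + 1 := rfl
      rw [hlen] at hc ⊢
      have hlen2 : (b' :: t).length = t.length + 1 := rfl
      have hcount : (b :: b' :: t).count true =
          (b' :: t).count true + (if b = true then 1 else 0) := by
        rw [List.count_cons]
        simp
      rw [hcount, Finset.card_filter] at hc
      -- first product
      have hA := Lc_conv_aux χ z w hz b (i + (b' :: t).length) ((b' :: t).count true)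
        (((Finset.range (b' :: t).length).filter (fun t => χ (i + t) = true)).card)
        (Lc ((b' :: t).map (fun b => if b = true then w else z)) i)
        (Lc ((b' :: t).map (val F χ)) i)
        (∏ s ∈ Finset.range (b' :: t).length, (if χ (i + s) = true then w (i + s) else z (i + s)))
        (by
          rw [hc, Finset.sum_range_succ, Finset.card_filter])
        (fun h => ih i h)
        (fun h => Lc_vanish χ z w hz (b' :: t) i h)
      have hB := Lc_conv_aux χ z w hz b i ((b' :: t).count true)
        (((Finset.range (b' :: t).length).filter (fun t => χ (i + 1 + t) = true)).card)
        (Lc ((b' :: t).map (fun b => if b = true then w else z)) (i + 1))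
        (Lc ((b' :: t).map (val F χ)) (i + 1))
        (∏ s ∈ Finset.range (b' :: t).length,
          (if χ (i + 1 + s) = true then w (i + 1 + s) else z (i + 1 + s)))
        (by
          rw [hc, Finset.sum_range_succ', Finset.card_filter]
          simp only [Nat.add_zero]
          congr 1
          apply Finset.sum_congr rfl
          intro s _
          have : i + (s + 1) = i + 1 + s := by omega
          rw [this])
        (fun h => ih (i + 1) h)
        (fun h => Lc_vanish χ z w hz (b' :: t) (i + 1) h)
      have hP1 : (∏ s ∈ Finset.range ((b' :: t).length + 1),
            (if χ (i + s) = true then w (i + s) else z (i + s))) =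
          (∏ s ∈ Finset.range (b' :: t).length, (if χ (i + s) = true then w (i + s) else z (i + s)))
            * (if χ (i + (b' :: t).length) = true then w (i + (b' :: t).length)
                else z (i + (b' :: t).length)) := Finset.prod_range_succ _ _
      have hP2 : (∏ s ∈ Finset.range ((b' :: t).length + 1),
            (if χ (i + s) = true then w (i + s) else z (i + s))) =
          (∏ s ∈ Finset.range (b' :: t).length,
            (if χ (i + 1 + s) = true then w (i + 1 + s) else z (i + 1 + s)))
            * (if χ i = true then w i else z i) := by
        rw [Finset.prod_range_succ']
        simp only [Nat.add_zero]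
        congr 1
        apply Finset.prod_congr rfl
        intro s _
        have : i + (s + 1) = i + 1 + s := by omega
        rw [this]
      have hL : Lc ((b :: b' :: t).map (fun b => if b = true then w else z)) i =
          Lc ((b' :: t).map (fun b => if b = true then w else z)) i *
            (if b = true then w else z) (i + (b' :: t).length) -
          (if b = true then w else z) i *
            Lc ((b' :: t).map (fun b => if b = true then w else z)) (i + 1) := by
        simp only [List.map_cons, Lc, List.length_map, hlen2]
      have hR : Lc ((b :: b' :: t).map (val F χ)) i =
          Lc ((b' :: t).map (val F χ)) i * val F χ b (i + (b' :: t).length) -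
          val F χ b i * Lc ((b' :: t).map (val F χ)) (i + 1) := by
        simp only [List.map_cons, Lc, List.length_map, hlen2]
      rw [hL, hR, mul_sub, hA, ← hP1]
      congr 1
      rw [mul_comm ((if b = true then w else z) i), hB, ← hP2]
      ring


end Pool.Agent.Helper407.PN
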