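import Mathlib
import Pool.Agent.Helper407.PN.Defs2
import Pool.Agent.Helper407.PN.S4

namespace Pool.Agent.Helper407.PN




/-- TARGET 6 -/
theorem val_count {F : Type*} [Field F] (χ : ℕ → Bool) (hs : List Bool) (i : ℕ)
    (h : Lc (hs.map (val F χ)) i ≠ 0) :
    hs.count true = ((Finset.range hs.length).filter (fun t => χ (i + t) = true)).card := by
  by_contra hne
  rcases Nat.lt_or_gt_of_ne hne with hlt | hgt
  · apply h
    have h1 := Lc_vanish (F := F) χ (val F χ false) (val F χ true) (by
      intro t ht
      simp [val, ht]) hs i hlt
    have h2 : (fun b : Bool => if b = true then val F χ true else val F χ false) = val F χ := by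
      funext b
      cases b <;> simp
    rw [h2] at h1
    exact h1
  · apply h
    have hcm : (hs.map not).count true = hs.count false := by
      clear h hne hgt
      induction hs with
      | nil => simp
      | cons a t ih =>
        cases a
        · simp [ih]
        · simp [ih]
    have hcn : hs.count true + hs.count false = hs.length := by
      clear h hne hgt hcm
      induction hs with
      | nil => simp
      | cons a t ih =>
        cases a
        · simp
          omega
        · simp
          omega
    have hfl : ((Finset.range hs.length).filter (fun t => χ (i + t) = true)).card +
        ((Finset.range hs.length).filter (fun t => ¬ (χ (i + t) = true))).card = hs.length := by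
      rw [Finset.card_filter_add_card_filter_not, Finset.card_range]
    have hfe : (Finset.range hs.length).filter (fun t => (!χ (i + t)) = true) =
        (Finset.range hs.length).filter (fun t => ¬ (χ (i + t) = true)) := by
      apply Finset.filter_congr
      intro t _
      cases χ (i + t) <;> simp
    have hc : (hs.map not).count true <
        ((Finset.range (hs.map not).length).filter (fun t => (!χ (i + t)) = true)).card := by
      rw [hcm, List.length_map, hfe]
      omega
    have h1 := Lc_vanish (F := F) (fun t => !χ t) (val F χ true) (val F χ false) (by
      intro t ht
      have : χ t = false := by simpa using ht
      simp [val, this]) (hs.map not) i hc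
    rw [List.map_map] at h1
    have h2 : ((fun b : Bool => if b = true then val F χ false else val F χ true) ∘ not) =
        val F χ := by
      funext b
      cases b <;> simp
    rw [h2] at h1
    exact h1


end Pool.Agent.Helper407.PN
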