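import Mathlib
import Pool.Agent.Helper407.PN.Defs2
import Pool.Agent.Helper407.PN.S3
import Pool.Agent.Helper407.PN.S4
import Pool.Agent.Helper407.PN.S5
import Pool.Agent.Helper407.PN.S6

namespace Pool.Agent.Helper407.PN




/-- TARGET 7 -/
theorem star {F : Type*} [Field F] (k : ℕ) (hk : 3 ≤ k) (hodd : Odd k)
    (hF : ∀ m : ℕ, 0 < m → m ≤ k → (m : F) ≠ 0) (a b : ℕ → F)
    (h0 : ∀ t, t < k → a t ≠ 0 ∨ b t ≠ 0)
    (h2 : ∃ s t, s < k ∧ t < k ∧ a s * b t ≠ a t * b s) :
    ∃ hs : List (ℕ → F), hs.length = k ∧ (∀ h ∈ hs, ∃ α β : F, h = fun t => α * a t + β * b t) ∧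
      Lc hs 0 ≠ 0 := by
  classical
  obtain ⟨s, t, hs, ht, hst⟩ := h2
  obtain ⟨z, hz⟩ : ∃ z : ℕ → F, z = fun τ => b s * a τ - a s * b τ := ⟨_, rfl⟩
  have hzs : z s = 0 := by
    rw [hz]
    ring
  have hzt : z t ≠ 0 := by
    intro h
    apply hst
    rw [hz] at h
    simp only at h
    linear_combination -h
  obtain ⟨χ, hχ⟩ : ∃ χ : ℕ → Bool, χ = fun τ => decide (z τ = 0) := ⟨_, rfl⟩
  have hχ1 : ∀ τ, χ τ = true ↔ z τ = 0 := fun τ => by
    rw [hχ]
    simp
  obtain ⟨w, hw⟩ : ∃ w : ℕ → F, w = if a s ≠ 0 then a else b := ⟨_, rfl⟩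
  have hw1 : ∀ τ, τ < k → z τ = 0 → w τ ≠ 0 := by
    intro τ hτ hz0 hw0
    rw [hz] at hz0
    simp only at hz0
    by_cases has : a s = 0
    · rw [if_neg (by simpa using has)] at hw
      rw [hw] at hw0
      have hbs : b s ≠ 0 := (h0 s hs).resolve_left (by simpa using has)
      rw [hw0, mul_zero, sub_zero] at hz0
      have haτ := (mul_eq_zero.1 hz0).resolve_left hbs
      rcases h0 τ hτ with h | h
      · exact h haτ
      · exact h hw0
    · rw [if_pos has] at hw
      rw [hw] at hw0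
      rw [hw0, mul_zero, zero_sub, neg_eq_zero] at hz0
      have hbτ := (mul_eq_zero.1 hz0).resolve_left has
      rcases h0 τ hτ with h | h
      · exact h hw0
      · exact h hbτ
  have hperp : ¬ Perp F χ 0 k := by
    intro hP
    rcases perp_iff χ 0 k hF (by omega) hP with h | h
    · have h3 := h s hs
      have h4 := h t ht
      rw [zero_add] at h3 h4
      have h5 : χ s = true := (hχ1 s).2 hzs
      have h6 : χ t = true := by rw [h4, ← h3, h5]
      exact hzt ((hχ1 t).1 h6)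
    · exact (Nat.not_even_iff_odd.2 hodd) h.1
  unfold Perp at hperp
  push Not at hperp
  obtain ⟨hs', hlen, hne⟩ := hperp
  refine ⟨hs'.map (fun b => if b = true then w else z), by rw [List.length_map, hlen], ?_, ?_⟩
  · intro h hh
    obtain ⟨c, _, rfl⟩ := List.mem_map.1 hh
    by_cases hc : c = true
    · rw [if_pos hc, hw]
      by_cases has : a s = 0
      · rw [if_neg (by simpa using has)]
        exact ⟨0, 1, by funext τ; ring⟩
      · rw [if_pos has]
        exact ⟨1, 0, by funext τ; ring⟩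
    · rw [if_neg hc, hz]
      exact ⟨b s, -a s, by funext τ; ring⟩
  · rw [Lc_conv χ z w (fun τ hτ => (hχ1 τ).1 hτ) hs' 0 (val_count χ hs' 0 hne)]
    refine mul_ne_zero (Finset.prod_ne_zero_iff.2 fun τ hτ => ?_) hne
    have hτ' : τ < k := by
      rw [← hlen]
      exact Finset.mem_range.1 hτ
    rw [zero_add]
    split_ifs with h
    · exact hw1 τ hτ' ((hχ1 τ).1 h)
    · exact fun h3 => h ((hχ1 τ).2 h3)


end Pool.Agent.Helper407.PN
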