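import Mathlib
import Pool.Agent.Helper431.PN.Base
import Pool.Agent.Helper407.PN.Defs2
import Pool.Agent.Helper407.PN.Q1
import Pool.Agent.Helper407.PN.Q3
import Pool.Agent.Helper407.PN.Q4
import Pool.Agent.Helper407.PN.Q6
import Pool.Agent.Helper407.PN.Q11

namespace Pool.Agent.Helper407.PN
open Pool.Agent.Helper431.PN
open scoped commutatorElement

theorem IsLev.monoW {p m n k l : ℕ} {A : Matrix (Fin n) (Fin n) (ZMod (p ^ m))}
    (hkl : l ≤ k) (hA : IsLev p m n k A) : IsLev p m n l A := fun i j =>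
  (pow_dvd_pow _ (Nat.div_le_div_right (by omega))).trans (hA i j)

theorem IsLev.p_smul {p m n k : ℕ} (hn : 0 < n) {A : Matrix (Fin n) (Fin n) (ZMod (p ^ m))}
    (hA : IsLev p m n k A) : IsLev p m n (k + n) ((p : ZMod (p ^ m)) • A) := by
  intro i j
  rw [Matrix.smul_apply, smul_eq_mul]
  have e : (k + n + i + (n - 1) - j) / n = (k + i + (n - 1) - j) / n + 1 := by
    have hj := j.2
    rw [show k + n + (i : ℕ) + (n - 1) - j = (k + i + (n - 1) - j) + n by omega,
      Nat.add_div_right _ hn]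
  rw [e, pow_succ']
  exact mul_dvd_mul_left _ (hA i j)

theorem LR.p_smul {p m n k : ℕ} (hn : 0 < n) {A : Matrix (Fin n) (Fin n) (ZMod (p ^ m))}
    {c : ℕ → ZMod p} (hA : LR p m n k A c) : LR p m n (k + n) ((p : ZMod (p ^ m)) • A) c := by
  refine ⟨hA.1.p_smul hn, ?_⟩
  intro i j hij
  obtain ⟨z, hz⟩ := hA.2 i j (by rw [hij, ← add_assoc, Nat.add_mod_right])
  refine ⟨z, ?_⟩
  rw [Matrix.smul_apply, smul_eq_mul, hz]
  have e : ((i : ℕ) + (k + n)) / n = ((i : ℕ) + k) / n + 1 := by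
    rw [← add_assoc, Nat.add_div_right _ hn]
  rw [e]
  ring

theorem IsLev.addW {p m n k : ℕ} {A B : Matrix (Fin n) (Fin n) (ZMod (p ^ m))}
    (hA : IsLev p m n k A) (hB : IsLev p m n k B) : IsLev p m n k (A + B) := fun i j =>
  dvd_add (hA i j) (hB i j)

theorem IsLev.sumW {p m n k : ℕ} {ι : Type*} (s : Finset ι)
    (f : ι → Matrix (Fin n) (Fin n) (ZMod (p ^ m)))
    (h : ∀ x ∈ s, IsLev p m n k (f x)) : IsLev p m n k (∑ x ∈ s, f x) := by
  intro i j
  rw [Matrix.sum_apply]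
  exact Finset.dvd_sum fun x hx => h x hx i j

theorem IsLev.smulW {p m n k : ℕ} {A : Matrix (Fin n) (Fin n) (ZMod (p ^ m))}
    (a : ZMod (p ^ m)) (hA : IsLev p m n k A) : IsLev p m n k (a • A) := by
  intro i j
  rw [Matrix.smul_apply, smul_eq_mul]
  exact Dvd.dvd.mul_left (hA i j) _

theorem IsLev.powW {p m n k : ℕ} {A : Matrix (Fin n) (Fin n) (ZMod (p ^ m))}
    (hA : IsLev p m n k A) (r : ℕ) (hr : 1 ≤ r) : IsLev p m n (r * k) (A ^ r) := by
  induction r with
  | zero => omega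
  | succ r ih =>
    rcases Nat.eq_zero_or_pos r with h | h
    · subst h; simpa using hA
    · rw [pow_succ, Nat.succ_mul]
      exact (ih h).mul' hA

theorem LR.pow_p {p m n k : ℕ} [Fact p.Prime] (hn : 0 < n) (hk : 1 ≤ k)
    (hpk : n + 1 ≤ (p - 1) * k) (g : PGroup p m n) (c : ℕ → ZMod p)
    (h : LR p m n k (mo g) c) : LR p m n (k + n) (mo (g ^ p)) c := by
  have hp : p.Prime := Fact.out
  have hp2 := hp.two_le
  obtain ⟨t, ht⟩ : ∃ t, p = t + 2 := ⟨p - 2, by omega⟩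
  have e1 : mo (g ^ p) = ∑ i ∈ Finset.range p, ((p.choose (i + 1) : ℕ) : ZMod (p ^ m)) •
      (mo g) ^ (i + 1) := by
    have e2 : ((g : (Matrix (Fin n) (Fin n) (ZMod (p ^ m)))ˣ) :
        Matrix (Fin n) (Fin n) (ZMod (p ^ m))) = mo g + 1 := by
      unfold mo; rw [sub_add_cancel]
    have e3 : mo (g ^ p) = (mo g + 1) ^ p - 1 := by
      rw [← e2]
      simp [mo]
    rw [e3, (Commute.one_right (mo g)).add_pow, Finset.sum_range_succ']
    simp only [one_pow, mul_one, pow_zero, Nat.choose_zero_right, Nat.cast_one,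
      add_sub_cancel_right]
    refine Finset.sum_congr rfl fun i _ => ?_
    rw [Nat.cast_smul_eq_nsmul, nsmul_eq_mul, (Nat.cast_commute (p.choose (i + 1)) _).eq]
  have hA := h.1
  have e5 : Finset.range p = Finset.range (t + 1 + 1) := by rw [ht]
  rw [e1, e5, Finset.sum_range_succ']
  have e4 : ((p.choose (0 + 1) : ℕ) : ZMod (p ^ m)) • (mo g) ^ (0 + 1) =
      (p : ZMod (p ^ m)) • mo g := by
    simp
  rw [e4]
  have h1 := (LR.ops (p := p) (m := m) (n := n) (k := k + n) hn)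
  have h2 : LR p m n (k + n) (∑ i ∈ Finset.range (t + 1),
      ((p.choose (i + 1 + 1) : ℕ) : ZMod (p ^ m)) • (mo g) ^ (i + 1 + 1)) 0 := by
    refine h1.2.2.1 _ (IsLev.sumW _ _ ?_)
    intro i hi
    rw [Finset.mem_range] at hi
    rcases Nat.lt_or_ge i t with h3 | h3
    · obtain ⟨q, hq⟩ : p ∣ p.choose (i + 1 + 1) :=
        hp.dvd_choose_self (by omega) (by omega)
      rw [hq, Nat.cast_mul, mul_smul]
      have h4 := IsLev.p_smul hn ((hA.powW (i + 1 + 1) (by omega)).smulW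
        ((q : ℕ) : ZMod (p ^ m)))
      refine h4.monoW ?_
      nlinarith [Nat.zero_le (i * k)]
    · have : i = t := by omega
      subst this
      refine ((hA.powW (i + 1 + 1) (by omega)).smulW _).monoW ?_
      have : (p - 1) * k = (i + 1) * k := by rw [ht]; rfl
      nlinarith
  have h3 := h1.1 _ _ _ _ h2 (h.p_smul hn)
  rwa [zero_add] at h3

theorem top_single {p m n : ℕ} (hn : 0 < n) (hm : 1 ≤ m)
    (A : Matrix (Fin n) (Fin n) (ZMod (p ^ m))) (c : ℕ → ZMod p)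
    (h : LR p m n (m * n - 1) A c) :
    A = Matrix.single ⟨0, hn⟩ ⟨n - 1, by omega⟩
      ((p : ZMod (p ^ m)) ^ (m - 1) * ((c 0).val : ZMod (p ^ m))) := by
  have hs1 := (top_lev hn hm A).2 h.1
  have hmn : n ≤ m * n := Nat.le_mul_of_pos_left n hm
  have hent : A ⟨0, hn⟩ ⟨n - 1, by omega⟩ =
      (p : ZMod (p ^ m)) ^ (m - 1) * ((c 0).val : ZMod (p ^ m)) := by
    have e0 : 0 + (m * n - 1) = (n - 1) + n * (m - 1) := by
      obtain ⟨m', rfl⟩ : ∃ m', m = m' + 1 := ⟨m - 1, by omega⟩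
      rw [Nat.add_sub_cancel, Nat.succ_mul, mul_comm m' n]
      omega
    obtain ⟨z, hz⟩ := h.2 ⟨0, hn⟩ ⟨n - 1, by omega⟩ (by
      show n - 1 = (0 + (m * n - 1)) % n
      rw [e0, Nat.add_mul_mod_self_left, Nat.mod_eq_of_lt (by omega)])
    rw [hz]
    have e1 : (((⟨0, hn⟩ : Fin n) : ℕ) + (m * n - 1)) / n = m - 1 := by
      show (0 + (m * n - 1)) / n = m - 1
      rw [e0, Nat.add_mul_div_left _ _ hn, Nat.div_eq_of_lt (by omega), zero_add]
    rw [e1]
    have e2 : (p : ZMod (p ^ m)) ^ (m - 1 + 1) = 0 := by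
      rw [Nat.sub_add_cancel hm]
      have := ZMod.natCast_self (p ^ m)
      push_cast at this
      exact this
    rw [e2, zero_mul, add_zero]
  rw [hent] at hs1
  exact hs1

end Pool.Agent.Helper407.PN
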