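import Mathlib
import Pool.Agent.Helper431.PN.Base
import Pool.Agent.Helper431.PN.N3
import Pool.Agent.Helper431.PN.G4
import Pool.Agent.Helper407.PN.Defs2
import Pool.Agent.Helper407.PN.Q3
import Pool.Agent.Helper407.PN.Q4
import Pool.Agent.Helper407.PN.Q5
import Pool.Agent.Helper407.PN.Q6
import Pool.Agent.Helper407.PN.Q8
import Pool.Agent.Helper407.PN.Q9
import Pool.Agent.Helper407.PN.Q11
import Pool.Agent.Helper407.PN.W
import Pool.Agent.Helper407.PN.Q10
import Pool.Agent.Helper407.PN.S7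
import Pool.Agent.Helper407.PN.Q13
import Pool.Agent.Helper407.PN.Q14
import Pool.Agent.Helper407.PN.Q15

namespace Pool.Agent.Helper407.PN
open Pool.Agent.Helper431.PN
open scoped commutatorElement

theorem mo_inj {p m n : ℕ} {g h : PGroup p m n} (e : mo g = mo h) : g = h := by
  unfold mo at e
  exact Subtype.ext (Units.ext (sub_left_injective e))

theorem gam_le {G : Type*} [Group G] (H : Subgroup G) (k : ℕ) : gam H k ≤ H := by
  induction k with
  | zero => exact le_rfl
  | succ k ih =>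
    show ⁅gam H k, H⁆ ≤ H
    rw [Subgroup.commutator_le]
    intro a ha b hb
    rw [commutatorElement_def]
    exact H.mul_mem (H.mul_mem (H.mul_mem (ih ha) hb) (H.inv_mem (ih ha))) (H.inv_mem hb)

theorem gam_succ_le {G : Type*} [Group G] (H : Subgroup G) (k : ℕ) : gam H (k + 1) ≤ ⁅H, H⁆ :=
  Subgroup.commutator_mono (gam_le H k) le_rfl

theorem regular_merz {p m n : ℕ} (hp : p.Prime) (hm : 1 ≤ m) (hn : 1 ≤ n) (h : m * n ≤ p) :
    IsRegular p (PGroup p m n) := by
  haveI := Fact.mk hp
  haveI : NeZero (p ^ m) := ⟨pow_ne_zero _ hp.ne_zero⟩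
  refine regular_of_gamma hp (isPGroup_PGroup hp hm) ?_
  intro x y g hg
  refine ⟨1, Subgroup.one_mem _, ?_⟩
  have hl := gam_lev hn _ _ g hg
  have h0 := (top_lev hn hm (mo g)).1 _ (by have := hp.one_lt; omega) hl
  rw [one_pow]
  apply mo_inj
  rw [h0]
  simp [mo]

theorem regular_top {p m n : ℕ} (hp : p.Prime) (hm : 3 ≤ m) (hn : 2 ≤ n) (hpn : p + 1 = m * n) :
    IsRegular p (PGroup p m n) := by
  haveI := Fact.mk hp
  haveI : NeZero (p ^ m) := ⟨pow_ne_zero _ hp.ne_zero⟩
  have hn0 : 0 < n := by omega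
  have hmn : 3 * n ≤ m * n := Nat.mul_le_mul_right n hm
  have hp2 : p ≠ 2 := by omega
  have hodd : Odd p := hp.odd_of_ne_two hp2
  -- choice of the odd length
  obtain ⟨j, hj2, hjm, hjodd⟩ : ∃ j, 2 ≤ j ∧ (j = m - 1 ∨ (j = m - 2 ∧ 4 ≤ m)) ∧ Even (j * n) := by
    rcases Nat.even_or_odd n with h | h
    · exact ⟨m - 1, by omega, Or.inl rfl, h.mul_left _⟩
    · have h1 : Even (m * n) := by rw [← hpn]; exact hodd.add_one
      have h2 : Even m := by
        rcases Nat.even_mul.1 h1 with h3 | h3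
        · exact h3
        · exact absurd h3 (Nat.not_even_iff_odd.2 h)
      obtain ⟨q, hq⟩ := h2
      exact ⟨m - 2, by omega, Or.inr ⟨rfl, by omega⟩, Even.mul_right ⟨q - 1, by omega⟩ _⟩
  have hjn : 2 * n ≤ j * n := Nat.mul_le_mul_right n hj2
  have hjn' : j * n + n ≤ m * n := by
    rw [← Nat.succ_mul]
    exact Nat.mul_le_mul_right n (by omega)
  refine regular_of_gamma hp (isPGroup_PGroup hp (by omega)) ?_
  intro x y g hg
  obtain ⟨a, hap, ha⟩ := exists_lead (by omega) hn0 x
  obtain ⟨b, hbp, hb⟩ := exists_lead (by omega) hn0 y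
  obtain ⟨c, hc, hcl⟩ := gam_lead hn0 x y a b hap hbp ha hb (p - 1) g hg
  rw [show p - 1 + 1 = m * n - 1 by omega] at hcl
  have hs1 := top_single hn0 (by omega) _ _ hcl
  by_cases hc0 : c 0 = 0
  · refine ⟨1, Subgroup.one_mem _, ?_⟩
    rw [one_pow]
    apply mo_inj
    rw [hs1, hc0]
    simp [mo]
  have hex : ∃ hs : List (ℕ → ZMod p), hs.length = p ∧
      (∀ h ∈ hs, ∃ α β : ZMod p, h = fun t => α * a t + β * b t) ∧ Lc hs 0 ≠ 0 := by
    by_contra hno
    push Not at hno
    apply hc0
    refine Submodule.span_induction (p := fun c _ => c 0 = 0) ?_ ?_ ?_ ?_ hc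
    · rintro c ⟨hs, hl, hh, rfl⟩
      exact hno hs (by omega) hh
    · rfl
    · intro u v _ _ hu hv
      simp [hu, hv]
    · intro r u _ hu
      simp [hu]
  obtain ⟨hs, hl, hh, hne⟩ := hex
  have hamod : ∀ t, a t = a (t % n) := by
    intro t
    have : ∀ q, a (t % n + n * q) = a (t % n) := by
      intro q
      induction q with
      | zero => simp
      | succ q ih => rw [Nat.mul_succ, ← add_assoc, hap, ih]
    rw [← this (t / n), Nat.mod_add_div]
  have hbmod : ∀ t, b t = b (t % n) := by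
    intro t
    have : ∀ q, b (t % n + n * q) = b (t % n) := by
      intro q
      induction q with
      | zero => simp
      | succ q ih => rw [Nat.mul_succ, ← add_assoc, hbp, ih]
    rw [← this (t / n), Nat.mod_add_div]
  obtain ⟨hs', hl', hh', hne'⟩ := star (F := ZMod p) (j * n - 1) (by omega)
    (by
      obtain ⟨q, hq⟩ := hjodd
      exact ⟨q - 1, by omega⟩)
    (by
      intro i hi0 hi h
      rw [ZMod.natCast_eq_zero_iff] at h
      have := Nat.le_of_dvd hi0 h
      omega) a b
    (by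
      intro t ht
      by_contra hno
      push Not at hno
      apply hne
      refine Lc_zero_pos hs 0 t (by omega) ?_
      intro f hf
      obtain ⟨α, β, rfl⟩ := hh f hf
      simp [hno.1, hno.2])
    (by
      by_contra hno
      push Not at hno
      apply hne
      refine Lc_prop a b hs 0 (by omega) hh ?_
      intro s t _ _
      rw [zero_add, zero_add, hamod s, hamod t, hbmod s, hbmod t]
      have h1 : s % n < n := Nat.mod_lt _ hn0
      have h2 : t % n < n := Nat.mod_lt _ hn0
      exact hno (s % n) (t % n) (by omega) (by omega))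
  obtain ⟨g', hg', hL'⟩ := lead_gam hn0 x y a b hap hbp ha hb (j * n - 2) hs' (by omega) hh'
  rw [show j * n - 2 + 1 = j * n - 1 by omega] at hL'
  have hr := (LR.mul_inv hn0 (by omega) g' g' _ _ hL' hL').2.2 (c 0 / Lc hs' 0).val
  have hg'2 : g' ^ (c 0 / Lc hs' 0).val ∈ ⁅Subgroup.closure ({x, y} : Set (PGroup p m n)),
      Subgroup.closure ({x, y} : Set (PGroup p m n))⁆ := by
    refine Subgroup.pow_mem _ ?_ _
    have : j * n - 2 = (j * n - 3) + 1 := by omega
    rw [this] at hg'
    exact gam_succ_le _ _ hg'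
  have e3 : (((c 0 / Lc hs' 0).val : ℕ) : ZMod p) * Lc hs' 0 = c 0 := by
    rw [ZMod.natCast_zmod_val]
    field_simp
  have hbig : ∀ k, 1 ≤ k → n + 1 ≤ (p - 1) * k := by
    intro k hk
    calc n + 1 ≤ p - 1 := by omega
      _ = (p - 1) * 1 := (mul_one _).symm
      _ ≤ (p - 1) * k := Nat.mul_le_mul_left _ hk
  have hP1 := LR.pow_p hn0 (by omega) (hbig _ (by omega)) _ _ hr
  rcases hjm with hj | ⟨hj, hm4⟩
  · refine ⟨_, hg'2, ?_⟩
    apply mo_inj
    have e4 : j * n - 1 + n = m * n - 1 := by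
      have : m * n = j * n + n := by rw [← Nat.succ_mul, hj]; congr 1; omega
      omega
    rw [e4] at hP1
    rw [top_single hn0 (by omega) _ _ hP1, hs1]
    simp only [e3]
  · have hP2 := LR.pow_p hn0 (by omega) (hbig _ (by omega)) _ _ hP1
    refine ⟨_, Subgroup.pow_mem _ hg'2 p, ?_⟩
    apply mo_inj
    have e4 : j * n - 1 + n + n = m * n - 1 := by
      have : m * n = j * n + n + n := by
        rw [← Nat.succ_mul, ← Nat.succ_mul, hj]; congr 1; omega
      omega
    rw [e4] at hP2
    rw [top_single hn0 (by omega) _ _ hP2, hs1]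
    simp only [e3]

end Pool.Agent.Helper407.PN
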